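import Pool.Agent.Helper62.ZH.Formulas

/-!
# Project ZH: trees, the rules for an abstract system of codes, translation of formulas to codes (definitions)

`T x e p` is read: the formula `p` holds for the values `x :: e` (`e` is a list of values coded as a tree: `o` is the empty list, `p a e` is `a :: e`).
-/

set_option autoImplicit false

namespace Pool.Agent.Helper62.ZH

/-- Binary trees. -/
inductive Tree : Type
  | o : Tree
  | p (a b : Tree) : Tree

/-- Number of nodes. -/
def Tree.size : Tree → ℕ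
  | .o => 0
  | .p a b => a.size + b.size + 1

/-- A system of codes: `W x e f`: a witness for `∃ z, f (z, x :: e)`; `S a e p`: the set of the elements of `a` with `p (x, e)`; `nd f g`: not both; `ec f`: exists;
`dr u g`: the variable 1 is skipped (`u` is arbitrary); `k` and `t0`: two names of sets. -/
structure Sys where
  W : Tree → Tree → Tree → Tree
  S : Tree → Tree → Tree → Tree
  nd : Tree → Tree → Tree
  ec : Tree → Tree
  dr : Tree → Tree → Tree
  k : Tree
  t0 : Tree

/-- The rules. -/
structure Sys.Good (c : Sys) (T : Tree → Tree → Tree → Bool) : Prop where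
  D : ∀ x y e g u, T x (.p y e) (c.dr u g) = T x e g
  N : ∀ x e f g, T x e (c.nd f g) = !(T x e f && T x e g)
  Ea : ∀ z x e f, T z (.p x e) f = true → T x e (c.ec f) = true
  Eb : ∀ x e f, T x e (c.ec f) = true → T (c.W x e f) (.p x e) f = true
  S : ∀ x a e p e', T x (.p (c.S a e p) .o) .o = (T x (.p a e') .o && T x e p)
  K : ∀ a e p, T a (.p c.k .o) .o = true → T (c.S a e p) (.p c.k .o) .o = true
  TV : ∀ x y f, T x (.p c.k .o) .o = true → T y (.p c.k .o) .o = true → T (c.W x (.p y .o) f) (.p c.k .o) .o = true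
  N0 : T c.t0 (.p c.k .o) .o = true

/-- Conditions on the codes. -/
structure Sys.Nice (c : Sys) : Prop where
  nd_inj : ∀ f g f' g', c.nd f g = c.nd f' g' → f = f' ∧ g = g'
  ec_inj : ∀ f f', c.ec f = c.ec f' → f = f'
  dr_inj : ∀ u g u' g', c.dr u g = c.dr u' g' → g = g'
  nd_ec : ∀ f g f', c.nd f g ≠ c.ec f'
  nd_dr : ∀ f g u g', c.nd f g ≠ c.dr u g'
  ec_dr : ∀ f u g', c.ec f ≠ c.dr u g'
  nd_o : ∀ f g, c.nd f g ≠ .o
  ec_o : ∀ f, c.ec f ≠ .o
  dr_o : ∀ u g, c.dr u g ≠ .o
  nd_size : ∀ f g, f.size < (c.nd f g).size ∧ g.size < (c.nd f g).size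
  ec_size : ∀ f, f.size < (c.ec f).size
  dr_size : ∀ u g, g.size < (c.dr u g).size
  W_inj : ∀ x e f x' e' f', c.W x e f = c.W x' e' f' → x = x' ∧ e = e' ∧ f = f'
  S_inj : ∀ a e p a' e' p', c.S a e p = c.S a' e' p' → a = a' ∧ e = e' ∧ p = p'
  W_S : ∀ x e f a e' p, c.W x e f ≠ c.S a e' p
  W_k : ∀ x e f, c.W x e f ≠ c.k
  W_t0 : ∀ x e f, c.W x e f ≠ c.t0
  S_k : ∀ a e p, c.S a e p ≠ c.k
  S_t0 : ∀ a e p, c.S a e p ≠ c.t0
  k_t0 : c.k ≠ c.t0
  W_size : ∀ x e f, x.size < (c.W x e f).size ∧ e.size < (c.W x e f).size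
  S_size : ∀ a e p, a.size < (c.S a e p).size ∧ e.size < (c.S a e p).size

/-- The list `l` as a tree. -/
def env : List Tree → Tree
  | [] => .o
  | a :: l => .p a (env l)

namespace Sys

variable (c : Sys)

/-- Code of: the value 0 is an element of the value `j + 1`. -/
def vr : ℕ → Tree
  | 0 => .o
  | j + 1 => c.dr .o (vr j)

def cnot (f : Tree) : Tree := c.nd f f
def cand (f g : Tree) : Tree := c.cnot (c.nd f g)
def cimp (f g : Tree) : Tree := c.nd f (c.cnot g)
def ciff (f g : Tree) : Tree := c.cand (c.cimp f g) (c.cimp g f)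
def call (f : Tree) : Tree := c.cnot (c.ec (c.cnot f))

/-- Code of: the values `i` and `j` have the same elements. -/
def eqv (i j : ℕ) : Tree := c.call (c.ciff (c.vr i) (c.vr j))

/-- Translation of formulas to codes; `=` is translated as having the same elements. -/
def tr : Fml → Tree
  | .mem i j => c.ec (c.cand (c.vr j) (c.eqv 0 (i + 1)))
  | .eq i j => c.eqv i j
  | .nand f g => c.nd (tr f) (tr g)
  | .ex f => c.ec (tr f)

/-- The code of the sentence `s`. -/
def code (s : Fml) : Tree := c.tr (trQ (trR s))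

end Sys

section

variable (T : Tree → Tree → Tree → Bool)

/-- `x` is an element of `y`. -/
def Ep (x y : Tree) : Prop := T x (.p y .o) .o = true

/-- `x` and `y` have the same elements. -/
def Same (x y : Tree) : Prop := ∀ u, Ep T u x ↔ Ep T u y

end

/-- `(M, E)` is the quotient of the trees by `Same`, `E` is membership up to `Same`. -/
structure TQuo {M : Type} (T : Tree → Tree → Tree → Bool) (E : M → M → Prop) (π : Tree → M) : Prop where
  surj : ∀ y, ∃ x, π x = y
  eq_iff : ∀ x y, π x = π y ↔ Same T x y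
  mem_iff : ∀ x y, E (π x) (π y) ↔ ∃ u, Ep T u y ∧ Same T u x

end Pool.Agent.Helper62.ZH
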