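import Pool.Agent.Helper62.ZH.TextGood

/-!
# If no `T` has all rules, the tests fail persistently
-/

set_option autoImplicit false

namespace Pool.Agent.Helper62.ZH

open Pool.Agent.Helper19.ZH

private theorem rds_of_at {d : ℕ → Bool} {i : ℕ} {l : List Tree} (h : At d i (bitss l)) : ∃ j, Rds d i l j := by
  induction l generalizing i with
  | nil => exact ⟨i, Rds.nil⟩
  | cons a l ih =>
    obtain ⟨h1, h2⟩ := at_append.1 (show At d i (bits a ++ bitss l) from h)
    obtain ⟨j, hj⟩ := ih h2
    exact ⟨j, Rds.cons (rd_iff.2 ⟨h1, rfl⟩) hj⟩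

private theorem Trees.eq {b : List Bool} {t : ℕ → Tree} {q : ℕ → ℕ} (h : Trees b t q) {l : List Tree} : ∀ {i j : ℕ}, Rds (dg b) (q i) l j →
    ∀ k (hk : k < l.length), t (i + k) = l[k] := by
  induction l with
  | nil => intro i j _ k hk; exact absurd hk (Nat.not_lt_zero k)
  | cons a l ih =>
    intro i j hr k hk
    cases hr with
    | cons h1 h2 =>
      obtain ⟨e1, e2⟩ := (h.2 i).unique h1
      rw [← e2] at h2
      cases k with
      | zero => exact e1
      | succ k =>
        have h3 := ih h2 k (by simpa using hk)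
        rw [show i + (k + 1) = i + 1 + k by omega, h3]
        rfl

/-- A violated instance with atoms numbers `≤ N` persists. -/
theorem viol_of_instance {β : ℕ → Bool} {l : List Tree} {N : ℕ} (hV : ∀ (b : List Bool) (t : ℕ → Tree), (∀ k (hk : k < l.length), t k = l[k]) →
    (∀ i, i < N → b[i]? = some (β i)) → vAll b t = true) (M : ℕ) :
    ∃ n, M ≤ n ∧ ∀ u : List Bool, u.length = n → ∀ v : List Bool, v.length = N → (∀ i, i < N → v[i]? = some (β i)) → viol (v ++ u) = true := by
  obtain ⟨n', h1, h2⟩ := exists_number (bitss l) (N + M + 1)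
  refine ⟨n' - N - 1, by omega, fun u hu v hv hvβ => ?_⟩
  have hlen : (v ++ u).length + 1 = n' := by
    rw [List.length_append]
    omega
  have hdg : dg (v ++ u) = fun i => n'.testBit i := by
    funext i
    unfold dg
    rw [hlen]
  obtain ⟨q, hq⟩ := (exists_trees (v ++ u)).choose_spec
  refine hV _ _ ?_ ?_
  · intro k hk
    rw [← hdg] at h2
    obtain ⟨j, hj⟩ := rds_of_at h2
    have h3 : Rds (dg (v ++ u)) (q 0) l j := by rw [hq.1]; exact hj
    have h4 := hq.eq h3 k hk
    rwa [Nat.zero_add] at h4
  · intro i hi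
    rw [List.getElem?_append_left (by omega)]
    exact hvβ i hi

/-- The values of the branch `β`. -/
def tOf (β : ℕ → Bool) (x e f : Tree) : Bool :=
  match ix x e f with
  | 0 => true
  | i + 1 => β i

private theorem val_tOf {β : ℕ → Bool} {N : ℕ} {b : List Bool} (hb : ∀ i, i < N → b[i]? = some (β i)) (x e f : Tree) (h : ix x e f ≤ N) :
    val b x e f = some (tOf β x e f) := by
  unfold val tOf
  cases hi : ix x e f with
  | zero => rfl
  | succ i =>
    rw [List.getElem?_cons_succ]
    exact hb i (by omega)

private theorem opJ_true {u v : Bool} (h : ¬ (u = true → v = true)) : opJ (opL (some u)) (some v) = true := by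
  cases u with
  | false => exact absurd (fun h2 => absurd h2 Bool.false_ne_true) h
  | true =>
    cases v with
    | false => rfl
    | true => exact absurd (fun _ => rfl) h

/-- If the values of `β` violate a rule, there is a violated instance. -/
theorem exists_instance {β : ℕ → Bool} (h : ¬ codes.HGood (tOf β)) : ∃ (l : List Tree) (N : ℕ), ∀ (b : List Bool) (t : ℕ → Tree),
    (∀ k (hk : k < l.length), t k = l[k]) → (∀ i, i < N → b[i]? = some (β i)) → vAll b t = true := by
  by_contra hcon
  push Not at hcon
  apply h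
  refine ⟨?_, ?_, ?_, ?_, ?_, ?_, ?_, ?_, ?_⟩
  · intro x y e e' g u
    show tOf β x (.p y (.p e e')) (codes.dr .o g) = _
    by_contra hne
    obtain ⟨b, t, ht, hb, hv⟩ := hcon [x, y, e, e', g] (ix x (.p e e') g + ix x (.p y (.p e e')) (codes.dr .o g))
    apply hv
    have h0 := ht 0 (by simp)
    have h1 := ht 1 (by simp)
    have h2 := ht 2 (by simp)
    have h3 := ht 3 (by simp)
    have h4 := ht 4 (by simp)
    simp only [List.getElem_cons_zero, List.getElem_cons_succ] at h0 h1 h2 h3 h4
    have hx : vD b x y e e' g = true := by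
      unfold vD
      rw [val_tOf hb _ _ _ (by omega), val_tOf hb _ _ _ (by omega)]
      revert hne
      cases tOf β x (.p y (.p e e')) (codes.dr .o g) <;> cases tOf β x (.p e e') g <;> simp [opX, opL]
    unfold vAll
    rw [h0, h1, h2, h3, h4, hx]
    rfl
  · intro x e f g
    by_contra hne
    obtain ⟨b, t, ht, hb, hv⟩ := hcon [x, e, f, g] (ix x e g + ix x e f + ix x e (codes.nd f g))
    apply hv
    have h0 := ht 0 (by simp)
    have h1 := ht 1 (by simp)
    have h2 := ht 2 (by simp)
    have h3 := ht 3 (by simp)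
    simp only [List.getElem_cons_zero, List.getElem_cons_succ] at h0 h1 h2 h3
    have hx : vN b x e f g = true := by
      unfold vN
      rw [val_tOf hb _ _ _ (by omega), val_tOf hb _ _ _ (by omega), val_tOf hb _ _ _ (by omega)]
      revert hne
      cases tOf β x e (codes.nd f g) <;> cases tOf β x e f <;> cases tOf β x e g <;> simp [opX, opL, opJ]
    unfold vAll
    rw [h0, h1, h2, h3, hx]
    simp
  · intro z x e f
    by_contra hne
    obtain ⟨b, t, ht, hb, hv⟩ := hcon [z, x, e, f] (ix z (.p x e) f + ix x e (codes.ec f))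
    apply hv
    have h0 := ht 0 (by simp)
    have h1 := ht 1 (by simp)
    have h2 := ht 2 (by simp)
    have h3 := ht 3 (by simp)
    simp only [List.getElem_cons_zero, List.getElem_cons_succ] at h0 h1 h2 h3
    have hx : vEa b z x e f = true := by
      unfold vEa
      rw [val_tOf hb _ _ _ (by omega), val_tOf hb _ _ _ (by omega)]
      exact opJ_true hne
    unfold vAll
    rw [h0, h1, h2, h3, hx]
    simp
  · intro x e f
    by_contra hne
    obtain ⟨b, t, ht, hb, hv⟩ := hcon [x, e, f] (ix x e (codes.ec f) + ix (codes.W x e f) (.p x e) f)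
    apply hv
    have h0 := ht 0 (by simp)
    have h1 := ht 1 (by simp)
    have h2 := ht 2 (by simp)
    simp only [List.getElem_cons_zero, List.getElem_cons_succ] at h0 h1 h2
    have hx : vEb b x e f = true := by
      unfold vEb
      rw [val_tOf hb _ _ _ (by omega), val_tOf hb _ _ _ (by omega)]
      exact opJ_true hne
    unfold vAll
    rw [h0, h1, h2, hx]
    simp
  · intro x e p
    by_contra hne
    obtain ⟨b, t, ht, hb, hv⟩ := hcon [x, e, p] (ix x e .o + ix x e p + ix x (.p (codes.S e p) .o) .o)
    apply hv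
    have h0 := ht 0 (by simp)
    have h1 := ht 1 (by simp)
    have h2 := ht 2 (by simp)
    simp only [List.getElem_cons_zero, List.getElem_cons_succ] at h0 h1 h2
    have hx : vS b x e p = true := by
      unfold vS
      rw [val_tOf hb _ _ _ (by omega), val_tOf hb _ _ _ (by omega), val_tOf hb _ _ _ (by omega)]
      revert hne
      cases tOf β x (.p (codes.S e p) .o) .o <;> cases tOf β x e .o <;> cases tOf β x e p <;> simp [opX, opL, opJ]
    unfold vAll
    rw [h0, h1, h2, hx]
    simp
  · intro x y e
    by_contra hne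
    obtain ⟨b, t, ht, hb, hv⟩ := hcon [x, y, e] (ix x (.p y .o) .o + ix x (.p y e) .o)
    apply hv
    have h0 := ht 0 (by simp)
    have h1 := ht 1 (by simp)
    have h2 := ht 2 (by simp)
    simp only [List.getElem_cons_zero, List.getElem_cons_succ] at h0 h1 h2
    have hx : vI b x y e = true := by
      unfold vI
      rw [val_tOf hb _ _ _ (by omega), val_tOf hb _ _ _ (by omega)]
      revert hne
      cases tOf β x (.p y e) .o <;> cases tOf β x (.p y .o) .o <;> simp [opX, opL]
    unfold vAll
    rw [h0, h1, h2, hx]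
    simp
  · intro a e p
    by_contra hne
    obtain ⟨b, t, ht, hb, hv⟩ := hcon [a, e, p] (ix a .o .o + ix (codes.S (.p a e) p) .o .o)
    apply hv
    have h0 := ht 0 (by simp)
    have h1 := ht 1 (by simp)
    have h2 := ht 2 (by simp)
    simp only [List.getElem_cons_zero, List.getElem_cons_succ] at h0 h1 h2
    have hx : vK b a e p = true := by
      unfold vK
      rw [val_tOf hb _ _ _ (by omega), val_tOf hb _ _ _ (by omega)]
      exact opJ_true hne
    unfold vAll
    rw [h0, h1, h2, hx]
    simp
  · intro x f
    by_contra hne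
    obtain ⟨b, t, ht, hb, hv⟩ := hcon [x, f] (ix x .o .o + ix (codes.W x .o f) .o .o)
    apply hv
    have h0 := ht 0 (by simp)
    have h1 := ht 1 (by simp)
    simp only [List.getElem_cons_zero, List.getElem_cons_succ] at h0 h1
    have hx : vTV b x f = true := by
      unfold vTV
      rw [val_tOf hb _ _ _ (by omega), val_tOf hb _ _ _ (by omega)]
      exact opJ_true hne
    unfold vAll
    rw [h0, h1, hx]
    simp
  · rfl

/-- If no `T` has all rules, the violations persist. -/
theorem viol_persists (h : ¬ ∃ T, codes.HGood T) (β : ℕ → Bool) : ∃ N, ∀ M, ∃ n, M ≤ n ∧ ∀ u : List Bool, u.length = n →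
    ∀ v : List Bool, v.length = N → (∀ i, i < N → v[i]? = some (β i)) → viol (v ++ u) = true := by
  obtain ⟨l, N, hV⟩ := exists_instance (β := β) (fun h2 => h ⟨_, h2⟩)
  exact ⟨N, viol_of_instance hV⟩

end Pool.Agent.Helper62.ZH
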