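import Pool.Agent.Helper19.ZH.Inc
import Pool.Agent.Helper62.ZH.TextBad

/-!
# The search of the machine ends iff ZF has no model

Strings are lists with the last bit first (as in `Inc`). `VP u`: the test of `u.reverse` fails.
-/

set_option autoImplicit false

namespace Pool.Agent.Helper62.ZH

open Pool.Agent.Helper19.ZH

/-- The test of the string `u` (last bit first) fails. -/
def VP (u : List Bool) : Prop := viol u.reverse = true

noncomputable instance : DecidablePred VP := fun u => inferInstanceAs (Decidable (viol u.reverse = true))

private theorem getElem_pre (β : ℕ → Bool) (n i : ℕ) (h : i < n) : (pre β n).reverse[i]? = some (β i) := by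
  have h1 := bit_pre β n i
  rw [if_pos h] at h1
  exact h1

theorem search_never (h : ∃ T, codes.HGood T) (k : ℕ) : its2 VP k (some []) ≠ none := by
  obtain ⟨T, hT⟩ := h
  obtain ⟨β, hβ⟩ := exists_branch T
  refine inc_never VP (β := β) (fun n hn => ?_) 0 (fun i hi => absurd hi (Nat.not_lt_zero i)) k
  have h1 : viol (pre β n).reverse = false := by
    refine viol_false hT hβ (fun i hi => ?_)
    rw [List.length_reverse, length_pre] at hi
    exact getElem_pre β n i hi
  have h2 : viol (pre β n).reverse = true := hn
  rw [h1] at h2
  cases h2

theorem search_ends (h : ¬ ∃ T, codes.HGood T) : ∃ k, its2 VP k (some []) = none := by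
  refine inc_ends VP (fun β => ?_) []
  obtain ⟨N, hN⟩ := viol_persists h β
  refine ⟨N, fun M => ?_⟩
  obtain ⟨n, hn, hu⟩ := hN M
  refine ⟨n, hn, fun u hu2 => ?_⟩
  show viol (u ++ pre β N).reverse = true
  rw [List.reverse_append]
  exact hu _ (by rw [List.length_reverse, hu2]) _ (by rw [List.length_reverse, length_pre]) (fun i hi => getElem_pre β N i hi)

/-- The search of the machine ends iff ZF has no model. -/
theorem search_iff : (∃ k, its2 VP k (some []) = none) ↔ ¬ ∃ (M : Type) (E : M → M → Prop), ZFModel E := by
  rw [← codes_nice.hgood_iff]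
  constructor
  · rintro ⟨k, hk⟩ h
    exact search_never h k hk
  · exact search_ends

end Pool.Agent.Helper62.ZH
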