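import Pool.Agent.Helper62.ZH.Defs

/-!
# Project ZH: the structures `KModel`, `T0`; ordered pairs, relation sets, bisimulations, levels (definitions, definability, all proved)

Convention: `P : (ℕ → M) → Prop` with `Df E n P` is a definable predicate; `P (cons x v)` is `P` at `x` with the parameters `v`.
For parameters `p`, `q` use `v := cons p (fun _ => q)`; then `P (cons x v)` for `P := fun w => E (w 0) (w 1)` is `E x p` by `Iff.rfl`.
How to prove a goal `Df E n (fun v => ...)`: see the proofs of `IsPair.df` and `OP.df` below.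
-/

set_option autoImplicit false

namespace Pool.Agent.Helper62.ZH

/-- The properties of the set `k` and of the structure `(M, E)` given by the rules of the machine. -/
structure KModel {M : Type} (E : M → M → Prop) (k : M) : Prop where
  sep : ∀ (f : Fml) (v : ℕ → M) (a : M), ∃ s, ∀ x, E x s ↔ E x a ∧ Sat E f (cons x v)
  sepK : ∀ (f : Fml) (v : ℕ → M) (a : M), E a k → ∃ s, E s k ∧ ∀ x, E x s ↔ E x a ∧ Sat E f (cons x v)
  tv : ∀ f : Fml, Bd f 3 → ∀ v : ℕ → M, E (v 0) k → E (v 1) k → (∃ z, Sat E f (cons z v)) → ∃ z, E z k ∧ Sat E f (cons z v)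
  ne : ∃ t, E t k

/-- Set theory without extensionality and without foundation. -/
structure T0 {M : Type} (E : M → M → Prop) : Prop where
  pair : ∀ x y, ∃ z, ∀ u, E u z ↔ u = x ∨ u = y
  union : ∀ x, ∃ y, ∀ u, E u y ↔ ∃ z, E u z ∧ E z x
  power : ∀ x, ∃ p, ∀ y, (∀ z, E z y → E z x) → ∃ y', E y' p ∧ ∀ z, E z y' ↔ E z y
  inf : ∃ x, (∃ y, E y x ∧ ∀ z, ¬ E z y) ∧ ∀ y, E y x → ∃ z, E z x ∧ ∀ u, E u z ↔ E u y ∨ u = y
  tc : ∀ x, ∃ t, E x t ∧ ∀ y z, E y t → E z y → E z t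
  sep : ∀ (f : Fml) (v : ℕ → M) (a : M), ∃ s, ∀ x, E x s ↔ E x a ∧ Sat E f (cons x v)
  coll : ∀ (f : Fml) (v : ℕ → M) (a : M), ∃ b, ∀ x, E x a → (∃ y, Sat E f (cons x (cons y v))) →
    ∃ y, E y b ∧ Sat E f (cons x (cons y v))

section

variable {M : Type} {E : M → M → Prop} {n : ℕ} {P : (ℕ → M) → Prop} {k : M}

theorem KModel.sepD (h : KModel E k) (hP : Df E n P) (v : ℕ → M) (a : M) : ∃ s, ∀ x, E x s ↔ E x a ∧ P (cons x v) := by
  obtain ⟨f, _, hs⟩ := hP
  obtain ⟨s, h1⟩ := h.sep f v a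
  exact ⟨s, fun x => by rw [h1, hs]⟩

theorem KModel.sepKD (h : KModel E k) (hP : Df E n P) (v : ℕ → M) (a : M) (ha : E a k) :
    ∃ s, E s k ∧ ∀ x, E x s ↔ E x a ∧ P (cons x v) := by
  obtain ⟨f, _, hs⟩ := hP
  obtain ⟨s, h0, h1⟩ := h.sepK f v a ha
  exact ⟨s, h0, fun x => by rw [h1, hs]⟩

theorem KModel.tvD (h : KModel E k) (hP : Df E 3 P) (v : ℕ → M) (h0 : E (v 0) k) (h1 : E (v 1) k) (h2 : ∃ z, P (cons z v)) :
    ∃ z, E z k ∧ P (cons z v) := by
  obtain ⟨f, hf, hs⟩ := hP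
  obtain ⟨z, hz, hz2⟩ := h.tv f hf v h0 h1 (by obtain ⟨z, hz⟩ := h2; exact ⟨z, (hs _).1 hz⟩)
  exact ⟨z, hz, (hs _).2 hz2⟩

theorem T0.sepD (h : T0 E) (hP : Df E n P) (v : ℕ → M) (a : M) : ∃ s, ∀ x, E x s ↔ E x a ∧ P (cons x v) := by
  obtain ⟨f, _, hs⟩ := hP
  obtain ⟨s, h1⟩ := h.sep f v a
  exact ⟨s, fun x => by rw [h1, hs]⟩

theorem T0.collD (h : T0 E) (hP : Df E n P) (v : ℕ → M) (a : M) :
    ∃ b, ∀ x, E x a → (∃ y, P (cons x (cons y v))) → ∃ y, E y b ∧ P (cons x (cons y v)) := by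
  obtain ⟨f, _, hs⟩ := hP
  obtain ⟨b, h1⟩ := h.coll f v a
  refine ⟨b, fun x hx hy => ?_⟩
  obtain ⟨y, hy⟩ := hy
  obtain ⟨y', h2, h3⟩ := h1 x hx ⟨y, (hs _).1 hy⟩
  exact ⟨y', h2, (hs _).2 h3⟩

theorem ZFModel.sepD (h : ZFModel E) (hP : Df E n P) (v : ℕ → M) (a : M) : ∃ s, ∀ x, E x s ↔ E x a ∧ P (cons x v) := by
  obtain ⟨f, _, hs⟩ := hP
  obtain ⟨s, h1⟩ := h.sep f v a
  exact ⟨s, fun x => by rw [h1, hs]⟩

theorem ZFModel.replD (h : ZFModel E) (hP : Df E n P) (v : ℕ → M) (a : M) (hu : ∀ x, E x a → ∃! y, P (cons x (cons y v))) :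
    ∃ b, ∀ y, E y b ↔ ∃ x, E x a ∧ P (cons x (cons y v)) := by
  obtain ⟨f, _, hs⟩ := hP
  obtain ⟨b, h1⟩ := h.repl f v a (by
    intro x hx
    obtain ⟨y, hy, hy2⟩ := hu x hx
    exact ⟨y, (hs _).1 hy, fun z hz => hy2 z ((hs _).2 hz)⟩)
  refine ⟨b, fun y => ?_⟩
  rw [h1]
  constructor
  · rintro ⟨x, hx, hy⟩
    exact ⟨x, hx, (hs _).2 hy⟩
  · rintro ⟨x, hx, hy⟩
    exact ⟨x, hx, (hs _).1 hy⟩

end

section defs

variable {M : Type} (E : M → M → Prop)

/-- `x ⊆ y`. -/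
def Sub (x y : M) : Prop := ∀ z, E z x → E z y

/-- The elements of `z` are exactly `x` and `y`. -/
def IsPair (z x y : M) : Prop := ∀ u, E u z ↔ u = x ∨ u = y

/-- The elements of `z` are the elements of `y` and `y`. -/
def IsSucc (z y : M) : Prop := ∀ u, E u z ↔ E u y ∨ u = y

/-- `q` is an ordered pair of `x` and `y`. -/
def OP (q x y : M) : Prop :=
  (∀ c, E c q → IsPair E c x x ∨ IsPair E c x y) ∧ (∃ c, E c q ∧ IsPair E c x x) ∧ ∃ c, E c q ∧ IsPair E c x y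

/-- The relation coded by the set `R`. -/
def Rel (R x y : M) : Prop := ∃ q, E q R ∧ OP E q x y

/-- `R` is a bisimulation. -/
def Bis (R : M) : Prop := ∀ x y, Rel E R x y →
  (∀ x', E x' x → ∃ y', E y' y ∧ Rel E R x' y') ∧ ∀ y', E y' y → ∃ x', E x' x ∧ Rel E R x' y'

/-- The largest bisimulation. -/
def Sim (x y : M) : Prop := ∃ R, Bis E R ∧ Rel E R x y

/-- `x` is regular: every set containing `x` has a minimal element. -/
def Rg (x : M) : Prop := ∀ c, E x c → ∃ y, E y c ∧ ∀ z, E z y → ¬ E z c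

/-- `t` is transitive. -/
def Tran (t : M) : Prop := ∀ y, E y t → ∀ z, E z y → E z t

/-- `h` is a history. -/
def Hist (h : M) : Prop := ∀ a, E a h → ∀ x, E x a ↔ ∃ c, E c a ∧ E c h ∧ Sub E x c

/-- `s` is a level (of the cumulative hierarchy). -/
def Lev (s : M) : Prop := ∃ h, Hist E h ∧ ∀ x, E x s ↔ ∃ c, E c h ∧ Sub E x c

end defs

section df

variable {M : Type} {E : M → M → Prop} {n : ℕ}

theorem Sub.df (i j : ℕ) (hi : i < n) (hj : j < n) : Df E n (fun v => Sub E (v i) (v j)) := by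
  refine Df.all ?_
  exact Df.imp (Df.mem 0 (i + 1) (by omega) (by omega)) (Df.mem 0 (j + 1) (by omega) (by omega))

theorem IsPair.df (i j l : ℕ) (hi : i < n) (hj : j < n) (hl : l < n) :
    Df E n (fun v => IsPair E (v i) (v j) (v l)) := by
  refine Df.all ?_
  exact Df.iff (Df.mem 0 (i + 1) (by omega) (by omega)) (Df.or (Df.eq 0 (j + 1) (by omega) (by omega)) (Df.eq 0 (l + 1) (by omega) (by omega)))

theorem IsSucc.df (i j : ℕ) (hi : i < n) (hj : j < n) : Df E n (fun v => IsSucc E (v i) (v j)) := by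
  refine Df.all ?_
  exact Df.iff (Df.mem 0 (i + 1) (by omega) (by omega)) (Df.or (Df.mem 0 (j + 1) (by omega) (by omega)) (Df.eq 0 (j + 1) (by omega) (by omega)))

theorem OP.df (i j l : ℕ) (hi : i < n) (hj : j < n) (hl : l < n) :
    Df E n (fun v => OP E (v i) (v j) (v l)) := by
  refine Df.and (Df.all ?_) (Df.and (Df.ex ?_) (Df.ex ?_))
  · exact Df.imp (Df.mem 0 (i + 1) (by omega) (by omega)) (Df.or (IsPair.df 0 (j + 1) (j + 1) (by omega) (by omega) (by omega)) (IsPair.df 0 (j + 1) (l + 1) (by omega) (by omega) (by omega)))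
  · exact Df.and (Df.mem 0 (i + 1) (by omega) (by omega)) (IsPair.df 0 (j + 1) (j + 1) (by omega) (by omega) (by omega))
  · exact Df.and (Df.mem 0 (i + 1) (by omega) (by omega)) (IsPair.df 0 (j + 1) (l + 1) (by omega) (by omega) (by omega))

theorem Rel.df (i j l : ℕ) (hi : i < n) (hj : j < n) (hl : l < n) :
    Df E n (fun v => Rel E (v i) (v j) (v l)) := by
  refine Df.ex ?_
  exact Df.and (Df.mem 0 (i + 1) (by omega) (by omega)) (OP.df 0 (j + 1) (l + 1) (by omega) (by omega) (by omega))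

theorem Bis.df (i : ℕ) (hi : i < n) : Df E n (fun v => Bis E (v i)) := by
  refine Df.all (Df.all ?_)
  refine Df.imp (Rel.df (i + 2) 1 0 (by omega) (by omega) (by omega)) (Df.and (Df.all ?_) (Df.all ?_))
  · exact Df.imp (Df.mem 0 2 (by omega) (by omega)) (Df.ex (Df.and (Df.mem 0 2 (by omega) (by omega)) (Rel.df (i + 4) 1 0 (by omega) (by omega) (by omega))))
  · exact Df.imp (Df.mem 0 1 (by omega) (by omega)) (Df.ex (Df.and (Df.mem 0 3 (by omega) (by omega)) (Rel.df (i + 4) 0 1 (by omega) (by omega) (by omega))))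

theorem Sim.df (i j : ℕ) (hi : i < n) (hj : j < n) : Df E n (fun v => Sim E (v i) (v j)) := by
  refine Df.ex ?_
  exact Df.and (Bis.df 0 (by omega)) (Rel.df 0 (i + 1) (j + 1) (by omega) (by omega) (by omega))

theorem Rg.df (i : ℕ) (hi : i < n) : Df E n (fun v => Rg E (v i)) := by
  refine Df.all (Df.imp (Df.mem (i + 1) 0 (by omega) (by omega)) (Df.ex (Df.and (Df.mem 0 1 (by omega) (by omega)) (Df.all ?_))))
  exact Df.imp (Df.mem 0 1 (by omega) (by omega)) (Df.not (Df.mem 0 2 (by omega) (by omega)))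

theorem Tran.df (i : ℕ) (hi : i < n) : Df E n (fun v => Tran E (v i)) := by
  refine Df.all (Df.imp (Df.mem 0 (i + 1) (by omega) (by omega)) (Df.all ?_))
  exact Df.imp (Df.mem 0 1 (by omega) (by omega)) (Df.mem 0 (i + 2) (by omega) (by omega))

theorem Hist.df (i : ℕ) (hi : i < n) : Df E n (fun v => Hist E (v i)) := by
  refine Df.all (Df.imp (Df.mem 0 (i + 1) (by omega) (by omega)) (Df.all (Df.iff (Df.mem 0 1 (by omega) (by omega)) (Df.ex ?_))))
  exact Df.and (Df.mem 0 2 (by omega) (by omega)) (Df.and (Df.mem 0 (i + 3) (by omega) (by omega)) (Sub.df 1 0 (by omega) (by omega)))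

theorem Lev.df (i : ℕ) (hi : i < n) : Df E n (fun v => Lev E (v i)) := by
  refine Df.ex (Df.and (Hist.df 0 (by omega)) (Df.all (Df.iff (Df.mem 0 (i + 2) (by omega) (by omega)) (Df.ex ?_))))
  exact Df.and (Df.mem 0 2 (by omega) (by omega)) (Sub.df 1 0 (by omega) (by omega))

end df

end Pool.Agent.Helper62.ZH
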