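import Pool.Agent.Helper62.ZH.Main2

/-!
# The codes of the machine
-/

set_option autoImplicit false

namespace Pool.Agent.Helper62.ZH

/-- The codes of the machine: `W x e f = (x, (e, f))`, `S e p = ((e, p), o)`, `nd f g = (f, ((g, o), o))`, `ec f = (f, o)`, `dr _ g = (g, (o, o))`. -/
def codes : Sys2 where
  W x e f := .p x (.p e f)
  S e p := .p (.p e p) .o
  nd f g := .p f (.p (.p g .o) .o)
  ec f := .p f .o
  dr _ g := .p g (.p .o .o)

theorem codes_nice : codes.Nice where
  nd_inj f g f' g' h := by
    simp only [codes, Tree.p.injEq] at h
    exact ⟨h.1, h.2.1.1⟩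
  ec_inj f f' h := by
    simp only [codes, Tree.p.injEq] at h
    exact h.1
  dr_inj u g u' g' h := by
    simp only [codes, Tree.p.injEq] at h
    exact h.1
  nd_ec f g f' h := by
    simp [codes] at h
  nd_dr f g u g' h := by
    simp [codes] at h
  ec_dr f u g' h := by
    simp [codes] at h
  nd_o f g h := by
    simp [codes] at h
  ec_o f h := by
    simp [codes] at h
  dr_o u g h := by
    simp [codes] at h
  nd_size f g := by
    simp only [codes, Tree.size]
    constructor <;> omega
  ec_size f := by
    simp only [codes, Tree.size]
    omega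
  dr_size u g := by
    simp only [codes, Tree.size]
    omega
  W_inj x e f x' e' f' h := by
    simp only [codes, Tree.p.injEq] at h
    exact ⟨h.1, h.2.1, h.2.2⟩
  S_inj e p e' p' h := by
    simp only [codes, Tree.p.injEq] at h
    exact ⟨h.1.1, h.1.2⟩
  W_S x e f e' p h := by
    simp [codes] at h
  W_o x e f h := by
    simp [codes] at h
  S_o e p h := by
    simp [codes] at h
  W_size x e f := by
    simp only [codes, Tree.size]
    constructor <;> omega
  S_size e p := by
    simp only [codes, Tree.size]
    omega

end Pool.Agent.Helper62.ZH
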