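import Mathlib

/-!
# ZH-18 Compact: compactness

Let `C i : (A → Bool) → Prop` be conditions, each depending on finitely many values (`hD`). If every finite set of conditions is satisfiable then all are.
Proof: `A → Bool` is compact; `{T | C i T}` is closed: if `¬ C i T` then `¬ C i T'` for all `T'` which agree with `T` on the finite set `D i`, and the set of
these `T'` is open (`isOpen_set_pi` or a finite intersection). Use `isCompact_univ.inter_iInter_nonempty` (finite intersection property).
-/

set_option autoImplicit false

namespace Pool.Agent.Helper62.ZH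

theorem compactness {A ι : Type} (C : ι → (A → Bool) → Prop) (D : ι → Finset A)
    (hD : ∀ i T T', (∀ a ∈ D i, T a = T' a) → C i T → C i T') (h : ∀ s : Finset ι, ∃ T, ∀ i ∈ s, C i T) : ∃ T, ∀ i, C i T := by
  have hcl : ∀ i, IsClosed {T : A → Bool | C i T} := by
    intro i
    rw [← isOpen_compl_iff, isOpen_iff_mem_nhds]
    intro T hT
    have h1 : {T' : A → Bool | ∀ a ∈ D i, T' a = T a} ∈ nhds T := by
      have h2 : {T' : A → Bool | ∀ a ∈ D i, T' a = T a} = Set.pi (D i : Set A) (fun a => {T a}) := by
        ext T'
        simp [Set.mem_pi]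
      rw [h2]
      refine IsOpen.mem_nhds (isOpen_set_pi (D i).finite_toSet fun a _ => isOpen_discrete _) ?_
      intro a _
      exact Set.mem_singleton _
    refine Filter.mem_of_superset h1 ?_
    intro T' hT' hC
    exact hT (hD i T' T hT' hC)
  have h3 := isCompact_univ.inter_iInter_nonempty (fun i => {T : A → Bool | C i T}) hcl (by
    intro s
    obtain ⟨T, hT⟩ := h s
    exact ⟨T, Set.mem_univ _, Set.mem_iInter₂.2 hT⟩)
  obtain ⟨T, -, hT⟩ := h3
  exact ⟨T, fun i => Set.mem_iInter.1 hT i⟩

end Pool.Agent.Helper62.ZH
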