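import Pool.Agent.Helper62.ZH.ZColl

/-!
# ZH-16 ZRefl: the reflection principle for finitely many formulas

Write `TV f A B` for: for all `x, y ∈ A`: `(∃ z, f (z, x, y)) → ∃ z ∈ B, f (z, x, y)`.
(1) For every `f` with `Bd f 3` and every `A` there is a level `B` with `TV f A B`: by `coll_lev` (for the predicate of `y, z` with parameter `x`) for each `x` there is a
level `s` with: for all `y ∈ A`, `(∃ z, f) → ∃ z ∈ s, f`. By `coll_lev` on `A` for the predicate of `x, s` (parameter `A`) `Lev s ∧ ∀ y ∈ A, ...` there is a level `B` such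
that for each `x ∈ A` such an `s` is an element of `B`, so `s ⊆ B` (`Lev.tran`).
(2) For a list `fs` there is a level `B` with `A ∈ B` and `TV f A B` for all `f` in `fs`: induction on `fs` (two levels are comparable, the larger one contains the
other, so it works for both; `TV f A B` is monotone in `B`).
(3) `G (A, B)`: `B` is the least level with `A ∈ B` and `TV f A B` for all `f` in `fs`: definable (induction on the list for the conjunction), total and unique (`least`,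
`h.asymm`). `ZFModel.closure` with `a :=` the empty set `o` gives `X` with `o ∈ X`, closed under `G`. Let `Y := {A ∈ X : Lev A}` (`o` is a level, `lev_empty`) and `κ := ⋃ Y`.
* nonempty: the level `B` with `G (o, B)` is in `Y` and `o ∈ B`.
* subsets: `a ∈ A ∈ Y`, `b ⊆ a` → `b ∈ A` (`Lev.potent`).
* TV: `x ∈ A ∈ Y`, `y ∈ B ∈ Y`; by `lev_cmp` and `Lev.tran` there is `C ∈ Y` with `x, y ∈ C`; the level `D` with `G (C, D)` is in `Y`, the witness is in `D ⊆ κ`.
-/

set_option autoImplicit false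

namespace Pool.Agent.Helper62.ZH

variable {M : Type} {E : M → M → Prop}

/-- `A`, `B` satisfy the Tarski-Vaught condition for `f`. -/
private def TV (E : M → M → Prop) (f : Fml) (A B : M) : Prop :=
  ∀ x, E x A → ∀ y, E y A → (∃ z, Sat E f (cons z (cons x (fun _ => y)))) →
    ∃ z, E z B ∧ Sat E f (cons z (cons x (fun _ => y)))

private theorem satf_df {f : Fml} (hf : Bd f 3) {n : ℕ} (i j l : ℕ) (hi : i < n)
    (hj : j < n) (hl : l < n) :
    Df E n (fun w => Sat E f (cons (w i) (cons (w j) (fun _ => w l)))) := by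
  have h1 : Df E 3 (fun v => Sat E f v) := ⟨f, hf, fun _ => Iff.rfl⟩
  have h2 := h1.ren (m := n) (fun k => match k with | 0 => i | 1 => j | _ + 2 => l) (by
    intro k _
    match k with
    | 0 => exact hi
    | 1 => exact hj
    | _ + 2 => exact hl)
  refine h2.congr fun v => ?_
  have h3 : (cons (v i) (cons (v j) (fun _ => v l)) : ℕ → M) =
      fun k => v ((fun k => match k with | 0 => i | 1 => j | _ + 2 => l) k) := by
    funext k
    match k with
    | 0 => rfl
    | 1 => rfl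
    | _ + 2 => rfl
  rw [h3]

private theorem TV.df {f : Fml} (hf : Bd f 3) {n : ℕ} (i j : ℕ) (hi : i < n)
    (hj : j < n) : Df E n (fun v => TV E f (v i) (v j)) := by
  refine Df.all (Df.imp (Df.mem 0 (i + 1) (by omega) (by omega)) (Df.all (Df.imp (Df.mem 0 (i + 2) (by omega) (by omega)) (Df.imp (Df.ex ?_)
    (Df.ex (Df.and (Df.mem 0 (j + 3) (by omega) (by omega)) ?_))))))
  · exact satf_df hf 0 2 1 (by omega) (by omega) (by omega)
  · exact satf_df hf 0 2 1 (by omega) (by omega) (by omega)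

private theorem TV.mono {f : Fml} {A B B' : M} (h : TV E f A B) (hB : Sub E B B') :
    TV E f A B' := by
  intro x hx y hy hz
  obtain ⟨z, h1, h2⟩ := h x hx y hy hz
  exact ⟨z, hB z h1, h2⟩

private theorem exists_tv (h : ZFModel E) {f : Fml} (hf : Bd f 3) (A : M) :
    ∃ B, Lev E B ∧ E A B ∧ TV E f A B := by
  have hP : Df E 3 (fun w => Sat E f (cons (w 1) (cons (w 2) (fun _ => w 0)))) :=
    satf_df hf 1 2 0 (by omega) (by omega) (by omega)
  have h1 : ∀ x, ∃ s, Lev E s ∧ ∀ y, E y A →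
      (∃ z, Sat E f (cons z (cons x (fun _ => y)))) →
      ∃ z, E z s ∧ Sat E f (cons z (cons x (fun _ => y))) := by
    intro x
    obtain ⟨s, hs, -, h2⟩ := h.coll_lev hP (fun _ => x) A
    exact ⟨s, hs, h2⟩
  have hQ : Df E 3 (fun w => Lev E (w 1) ∧ ∀ y, E y (w 2) →
      (∃ z, Sat E f (cons z (cons (w 0) (fun _ => y)))) →
      ∃ z, E z (w 1) ∧ Sat E f (cons z (cons (w 0) (fun _ => y)))) := by
    refine Df.and (Lev.df 1 (by omega)) (Df.all (Df.imp (Df.mem 0 3 (by omega) (by omega)) (Df.imp (Df.ex ?_)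
      (Df.ex (Df.and (Df.mem 0 3 (by omega) (by omega)) ?_)))))
    · exact satf_df hf 0 2 1 (by omega) (by omega) (by omega)
    · exact satf_df hf 0 2 1 (by omega) (by omega) (by omega)
  obtain ⟨B, hB, hAB, h2⟩ := h.coll_lev hQ (fun _ => A) A
  refine ⟨B, hB, hAB, fun x hx y hy hz => ?_⟩
  obtain ⟨s, hsB, hs1, hs2⟩ := h2 x hx (h1 x)
  obtain ⟨z, hz1, hz2⟩ := hs2 y hy hz
  exact ⟨z, Lev.tran h hB s hsB z hz1, hz2⟩

private def RR (E : M → M → Prop) (fs : List Fml) (A B : M) : Prop :=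
  Lev E B ∧ E A B ∧ ∀ f ∈ fs, TV E f A B

private theorem exists_RR (h : ZFModel E) (fs : List Fml) (hfs : ∀ f ∈ fs, Bd f 3) (A : M) :
    ∃ B, RR E fs A B := by
  induction fs with
  | nil =>
    obtain ⟨s, h1, h2⟩ := h.in_level A
    exact ⟨s, h1, h2, by simp⟩
  | cons f fs ih =>
    obtain ⟨B2, h21, h22, h23⟩ := ih (fun g hg => hfs g (List.mem_cons_of_mem _ hg))
    obtain ⟨B1, h11, h12, h13⟩ := exists_tv h (hfs f List.mem_cons_self) A
    rcases h.lev_cmp h11 h21 with hc | hc | hc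
    · refine ⟨B2, h21, h22, ?_⟩
      intro g hg
      rcases List.mem_cons.1 hg with rfl | hg
      · exact h13.mono (fun z hz => Lev.tran h h21 B1 hc z hz)
      · exact h23 g hg
    · subst hc
      refine ⟨B1, h11, h12, ?_⟩
      intro g hg
      rcases List.mem_cons.1 hg with rfl | hg
      · exact h13
      · exact h23 g hg
    · refine ⟨B1, h11, h12, ?_⟩
      intro g hg
      rcases List.mem_cons.1 hg with rfl | hg
      · exact h13
      · exact (h23 g hg).mono (fun z hz => Lev.tran h h11 B2 hc z hz)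

private theorem RR.df {fs : List Fml} (hfs : ∀ f ∈ fs, Bd f 3) {n : ℕ} (i j : ℕ)
    (hi : i < n) (hj : j < n) :
    Df E n (fun v => RR E fs (v i) (v j)) := by
  refine Df.and (Lev.df j (by omega)) (Df.and (Df.mem i j (by omega) (by omega)) ?_)
  induction fs with
  | nil => exact (Df.eq (E := E) i i hi hi).congr fun v => by simp
  | cons f fs ih =>
    have h1 := TV.df (E := E) (hfs f List.mem_cons_self) i j hi hj
    have h2 := ih (fun g hg => hfs g (List.mem_cons_of_mem _ hg))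
    exact (h1.and h2).congr fun v => by simp

theorem ZFModel.reflection (h : ZFModel E) (fs : List Fml) (hfs : ∀ f ∈ fs, Bd f 3) :
    ∃ κ, (∃ t, E t κ) ∧ (∀ a b, E a κ → Sub E b a → E b κ) ∧ ∀ f ∈ fs, ∀ v : ℕ → M, E (v 0) κ → E (v 1) κ →
      (∃ z, Sat E f (cons z v)) → ∃ z, E z κ ∧ Sat E f (cons z v) := by
  obtain ⟨o, ho⟩ := h.exists_empty
  -- the least level
  have hR : Df E 2 (fun w => RR E fs (w 1) (w 0)) := RR.df hfs 1 0 (by omega) (by omega)
  have hG : Df E 2 (fun w => RR E fs (w 0) (w 1) ∧ ∀ t, RR E fs (w 0) t → (w 1 = t ∨ E (w 1) t)) := by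
    refine Df.and (RR.df hfs 0 1 (by omega) (by omega)) (Df.all (Df.imp (RR.df hfs 1 0 (by omega) (by omega)) (Df.or (Df.eq 2 0 (by omega) (by omega)) (Df.mem 2 0 (by omega) (by omega)))))
  have hleast : ∀ A, ∃ B, RR E fs A B ∧ ∀ t, RR E fs A t → (B = t ∨ E B t) := by
    intro A
    obtain ⟨s, h1, h2⟩ := h.least hR (fun _ => A) (fun s hs => hs.1) (exists_RR h fs hfs A)
    exact ⟨s, h1, h2⟩
  obtain ⟨X, hoX, hX⟩ := h.closure hG (fun _ => o) (by
    intro A
    obtain ⟨B, h1, h2⟩ := hleast A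
    refine ⟨B, ⟨h1, h2⟩, ?_⟩
    rintro B' ⟨h3, h4⟩
    rcases h2 B' h3 with h5 | h5
    · exact h5.symm
    · rcases h4 B h1 with h6 | h6
      · exact h6
      · exact absurd h6 (h.asymm h5)) o
  have hX' : ∀ A, E A X → ∃ B, E B X ∧ RR E fs A B := by
    intro A hA
    obtain ⟨B, h1, h2⟩ := hleast A
    exact ⟨B, hX A B hA ⟨h1, h2⟩, h1⟩
  obtain ⟨Y, hY⟩ := h.sepD (Lev.df (E := E) (n := 1) 0 (by omega)) (fun _ => o) X
  have hY' : ∀ x, E x Y ↔ E x X ∧ Lev E x := hY
  obtain ⟨κ, hκ⟩ := h.union Y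
  refine ⟨κ, ?_, ?_, ?_⟩
  · obtain ⟨B, h1, h2⟩ := hX' o hoX
    exact ⟨o, (hκ o).2 ⟨B, h2.2.1, (hY' B).2 ⟨h1, h2.1⟩⟩⟩
  · intro a b ha hb
    obtain ⟨A, h1, h2⟩ := (hκ a).1 ha
    exact (hκ b).2 ⟨A, Lev.potent ((hY' A).1 h2).2 h1 hb, h2⟩
  · intro f hf v h0 h1 hz
    obtain ⟨A, hA1, hA2⟩ := (hκ _).1 h0
    obtain ⟨B, hB1, hB2⟩ := (hκ _).1 h1
    have hC : ∃ C, E C Y ∧ E (v 0) C ∧ E (v 1) C := by
      have hlA := ((hY' A).1 hA2).2
      have hlB := ((hY' B).1 hB2).2
      rcases h.lev_cmp hlA hlB with hc | hc | hc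
      · exact ⟨B, hB2, Lev.tran h hlB A hc _ hA1, hB1⟩
      · subst hc
        exact ⟨A, hA2, hA1, hB1⟩
      · exact ⟨A, hA2, hA1, Lev.tran h hlA B hc _ hB1⟩
    obtain ⟨C, hCY, hC0, hC1⟩ := hC
    obtain ⟨D, hD1, hD2⟩ := hX' C ((hY' C).1 hCY).1
    have hcg : ∀ z, Sat E f (cons z v) ↔ Sat E f (cons z (cons (v 0) (fun _ => v 1))) := by
      intro z
      refine sat_congr (hfs f hf) ?_
      intro i hi
      match i, hi with
      | 0, _ => rfl
      | 1, _ => rfl
      | 2, _ => rfl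
    obtain ⟨z, hz⟩ := hz
    obtain ⟨z', hz1, hz2⟩ := hD2.2.2 f hf (v 0) hC0 (v 1) hC1 ⟨z, (hcg z).1 hz⟩
    exact ⟨z', (hκ z').2 ⟨D, hz1, (hY' D).2 ⟨hD1, hD2.1⟩⟩, (hcg z').2 hz2⟩

end Pool.Agent.Helper62.ZH
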