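import Pool.Agent.Helper62.ZH.Basic

/-!
# Project ZH: explicit formulas for `Sim` and `Rg`, the translations `trQ` and `trR` (proved)
-/

set_option autoImplicit false

namespace Pool.Agent.Helper62.ZH

def notF (f : Fml) : Fml := .nand f f
def andF (f g : Fml) : Fml := .nand (.nand f g) (.nand f g)
def orF (f g : Fml) : Fml := .nand (notF f) (notF g)
def impF (f g : Fml) : Fml := .nand f (notF g)
def iffF (f g : Fml) : Fml := andF (impF f g) (impF g f)
def allF (f : Fml) : Fml := notF (.ex (notF f))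

def isPairF (i j l : ℕ) : Fml := allF (iffF (.mem 0 (i + 1)) (orF (.eq 0 (j + 1)) (.eq 0 (l + 1))))

def opF (i j l : ℕ) : Fml :=
  andF (allF (impF (.mem 0 (i + 1)) (orF (isPairF 0 (j + 1) (j + 1)) (isPairF 0 (j + 1) (l + 1)))))
    (andF (.ex (andF (.mem 0 (i + 1)) (isPairF 0 (j + 1) (j + 1)))) (.ex (andF (.mem 0 (i + 1)) (isPairF 0 (j + 1) (l + 1)))))

def relF (i j l : ℕ) : Fml := .ex (andF (.mem 0 (i + 1)) (opF 0 (j + 1) (l + 1)))

def bisF (i : ℕ) : Fml := allF (allF (impF (relF (i + 2) 1 0)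
  (andF (allF (impF (.mem 0 2) (.ex (andF (.mem 0 2) (relF (i + 4) 1 0)))))
    (allF (impF (.mem 0 1) (.ex (andF (.mem 0 3) (relF (i + 4) 0 1))))))))

/-- `x_i` and `x_j` are bisimilar. -/
def simF (i j : ℕ) : Fml := .ex (andF (bisF 0) (relF 0 (i + 1) (j + 1)))

/-- `x_i` is regular. -/
def rgF (i : ℕ) : Fml := allF (impF (.mem (i + 1) 0) (.ex (andF (.mem 0 1) (allF (impF (.mem 0 1) (notF (.mem 0 2)))))))

/-- Translation: truth in the quotient by bisimilarity. -/
def trQ : Fml → Fml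
  | .mem i j => .ex (andF (.mem 0 (j + 1)) (simF 0 (i + 1)))
  | .eq i j => simF i j
  | .nand f g => .nand (trQ f) (trQ g)
  | .ex f => .ex (trQ f)

/-- Translation: truth in the class of regular sets. -/
def trR : Fml → Fml
  | .mem i j => .mem i j
  | .eq i j => .eq i j
  | .nand f g => .nand (trR f) (trR g)
  | .ex f => .ex (andF (rgF 0) (trR f))

section sat

variable {M : Type} {E : M → M → Prop} {v : ℕ → M} {f g : Fml} {i j l : ℕ}

@[simp] theorem sat_not : Sat E (notF f) v ↔ ¬ Sat E f v := by simp [notF, Sat]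
@[simp] theorem sat_and : Sat E (andF f g) v ↔ Sat E f v ∧ Sat E g v := by simp [andF, Sat]
@[simp] theorem sat_or : Sat E (orF f g) v ↔ Sat E f v ∨ Sat E g v := by simp only [orF, Sat, sat_not]; tauto
@[simp] theorem sat_imp : Sat E (impF f g) v ↔ (Sat E f v → Sat E g v) := by simp [impF, Sat]
@[simp] theorem sat_iff : Sat E (iffF f g) v ↔ (Sat E f v ↔ Sat E g v) := by simp only [iffF, sat_and, sat_imp]; tauto
@[simp] theorem sat_ex : Sat E (.ex f) v ↔ ∃ x, Sat E f (cons x v) := Iff.rfl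
@[simp] theorem sat_all : Sat E (allF f) v ↔ ∀ x, Sat E f (cons x v) := by simp [allF]
@[simp] theorem sat_mem : Sat E (.mem i j) v ↔ E (v i) (v j) := Iff.rfl
@[simp] theorem sat_eq : Sat E (.eq i j) v ↔ v i = v j := Iff.rfl

theorem sat_isPairF : Sat E (isPairF i j l) v ↔ IsPair E (v i) (v j) (v l) := by
  simp only [isPairF, IsPair, sat_all, sat_iff, sat_or, sat_mem, sat_eq, cons_zero, cons_succ]

theorem sat_opF : Sat E (opF i j l) v ↔ OP E (v i) (v j) (v l) := by
  simp only [opF, OP, sat_all, sat_and, sat_imp, sat_or, sat_ex, sat_mem, sat_isPairF, cons_zero, cons_succ]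

theorem sat_relF : Sat E (relF i j l) v ↔ Rel E (v i) (v j) (v l) := by
  simp only [relF, Rel, sat_and, sat_ex, sat_mem, sat_opF, cons_zero, cons_succ]

theorem sat_bisF : Sat E (bisF i) v ↔ Bis E (v i) := by
  simp only [bisF, Bis, sat_all, sat_imp, sat_and, sat_ex, sat_relF, sat_mem, cons_zero, cons_succ]

theorem sat_simF : Sat E (simF i j) v ↔ Sim E (v i) (v j) := by
  simp only [simF, Sim, sat_and, sat_ex, sat_relF, sat_bisF, cons_zero, cons_succ]

theorem sat_rgF : Sat E (rgF i) v ↔ Rg E (v i) := by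
  simp only [rgF, Rg, sat_all, sat_imp, sat_and, sat_ex, sat_not, sat_mem, cons_zero, cons_succ]

end sat

section bd

variable {n : ℕ} {f g : Fml}

theorem bd_not (h : Bd f n) : Bd (notF f) n := ⟨h, h⟩
theorem bd_and (h : Bd f n) (h' : Bd g n) : Bd (andF f g) n := ⟨⟨h, h'⟩, ⟨h, h'⟩⟩
theorem bd_or (h : Bd f n) (h' : Bd g n) : Bd (orF f g) n := ⟨bd_not h, bd_not h'⟩
theorem bd_imp (h : Bd f n) (h' : Bd g n) : Bd (impF f g) n := ⟨h, bd_not h'⟩
theorem bd_iff (h : Bd f n) (h' : Bd g n) : Bd (iffF f g) n := bd_and (bd_imp h h') (bd_imp h' h)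
theorem bd_all (h : Bd f (n + 1)) : Bd (allF f) n := bd_not (f := .ex (notF f)) (bd_not h)

theorem bd_mem {i j : ℕ} (hi : i < n) (hj : j < n) : Bd (.mem i j) n := ⟨hi, hj⟩
theorem bd_eq {i j : ℕ} (hi : i < n) (hj : j < n) : Bd (.eq i j) n := ⟨hi, hj⟩
theorem bd_ex (h : Bd f (n + 1)) : Bd (.ex f) n := h

theorem bd_isPairF {i j l : ℕ} (hi : i < n) (hj : j < n) (hl : l < n) : Bd (isPairF i j l) n :=
  bd_all (bd_iff (bd_mem (by omega) (by omega)) (bd_or (bd_eq (by omega) (by omega)) (bd_eq (by omega) (by omega))))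

theorem bd_opF {i j l : ℕ} (hi : i < n) (hj : j < n) (hl : l < n) : Bd (opF i j l) n :=
  bd_and (bd_all (bd_imp (bd_mem (by omega) (by omega)) (bd_or (bd_isPairF (by omega) (by omega) (by omega))
    (bd_isPairF (by omega) (by omega) (by omega)))))
    (bd_and (bd_ex (bd_and (bd_mem (by omega) (by omega)) (bd_isPairF (by omega) (by omega) (by omega))))
      (bd_ex (bd_and (bd_mem (by omega) (by omega)) (bd_isPairF (by omega) (by omega) (by omega)))))

theorem bd_relF {i j l : ℕ} (hi : i < n) (hj : j < n) (hl : l < n) : Bd (relF i j l) n :=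
  bd_ex (bd_and (bd_mem (by omega) (by omega)) (bd_opF (by omega) (by omega) (by omega)))

theorem bd_bisF {i : ℕ} (hi : i < n) : Bd (bisF i) n :=
  bd_all (bd_all (bd_imp (bd_relF (by omega) (by omega) (by omega))
    (bd_and (bd_all (bd_imp (bd_mem (by omega) (by omega)) (bd_ex (bd_and (bd_mem (by omega) (by omega))
      (bd_relF (by omega) (by omega) (by omega))))))
      (bd_all (bd_imp (bd_mem (by omega) (by omega)) (bd_ex (bd_and (bd_mem (by omega) (by omega))
        (bd_relF (by omega) (by omega) (by omega)))))))))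

theorem bd_simF {i j : ℕ} (hi : i < n) (hj : j < n) : Bd (simF i j) n :=
  bd_ex (bd_and (bd_bisF (by omega)) (bd_relF (by omega) (by omega) (by omega)))

theorem bd_rgF {i : ℕ} (hi : i < n) : Bd (rgF i) n :=
  bd_all (bd_imp (bd_mem (by omega) (by omega)) (bd_ex (bd_and (bd_mem (by omega) (by omega))
    (bd_all (bd_imp (bd_mem (by omega) (by omega)) (bd_not (bd_mem (by omega) (by omega))))))))

theorem bd_trQ {f : Fml} : ∀ {n : ℕ}, Bd f n → Bd (trQ f) n := by
  induction f with
  | mem i j => intro n h; exact bd_and (n := n + 1) (f := .mem 0 (j + 1)) ⟨by omega, by have := h.2; omega⟩ (bd_simF (by omega) (by have := h.1; omega))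
  | eq i j => intro n h; exact bd_simF h.1 h.2
  | nand f g ihf ihg => intro n h; exact ⟨ihf h.1, ihg h.2⟩
  | ex f ih => intro n h; exact ih (n := n + 1) h

theorem bd_trR {f : Fml} : ∀ {n : ℕ}, Bd f n → Bd (trR f) n := by
  induction f with
  | mem i j => intro n h; exact h
  | eq i j => intro n h; exact h
  | nand f g ihf ihg => intro n h; exact ⟨ihf h.1, ihg h.2⟩
  | ex f ih => intro n h; exact bd_and (n := n + 1) (bd_rgF (by omega)) (ih h)

end bd

end Pool.Agent.Helper62.ZH
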