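import Pool.Agent.Helper62.ZH.TRel

/-!
# ZH-05 TSim: bisimilarity in `T0`

Proofs. `Sim.step`: let `R` be a bisimulation with `Rel R x y`; apply `Bis`, the same `R` is a witness for `Sim x' y'`.
`T0.coind`: let `t`, `u` be transitive sets with `x ∈ t`, `y ∈ u` (`h.tc`). By `T0.exists_rel` there is `R` with
`Rel R a b ↔ a ∈ t ∧ b ∈ u ∧ P (a, b)`. It is a bisimulation by `hs` and transitivity, and `Rel R x y`.
`sim_refl`: `coind` for `P w := w 0 = w 1`. `sim_symm`: `coind` for `P w := Sim E (w 1) (w 0)` (`Sim.df`, `Sim.step`).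
`sim_trans`: `coind` for `P w := ∃ z, Sim E (w 0) z ∧ Sim E z (w 1)`.
`sim_of_step`: `coind` for `P w := (∀ x', E x' (w 0) → ∃ y', E y' (w 1) ∧ Sim E x' y') ∧ ∀ y', E y' (w 1) → ∃ x', E x' (w 0) ∧ Sim E x' y'`
(the members `x'`, `y'` with `Sim x' y'` satisfy `P` by `Sim.step`).
-/

set_option autoImplicit false

namespace Pool.Agent.Helper62.ZH

variable {M : Type} {E : M → M → Prop}

theorem Sim.step {x y : M} (h : Sim E x y) :
    (∀ x', E x' x → ∃ y', E y' y ∧ Sim E x' y') ∧ ∀ y', E y' y → ∃ x', E x' x ∧ Sim E x' y' := by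
  obtain ⟨R, hB, hR⟩ := h
  obtain ⟨h1, h2⟩ := hB x y hR
  constructor
  · intro x' hx'
    obtain ⟨y', hy', hr⟩ := h1 x' hx'
    exact ⟨y', hy', R, hB, hr⟩
  · intro y' hy'
    obtain ⟨x', hx', hr⟩ := h2 y' hy'
    exact ⟨x', hx', R, hB, hr⟩

theorem T0.coind (h : T0 E) {n : ℕ} {P : (ℕ → M) → Prop} (hP : Df E n P) (v : ℕ → M)
    (hs : ∀ x y, P (cons x (cons y v)) → (∀ x', E x' x → ∃ y', E y' y ∧ P (cons x' (cons y' v))) ∧
      ∀ y', E y' y → ∃ x', E x' x ∧ P (cons x' (cons y' v))) {x y : M} (hxy : P (cons x (cons y v))) : Sim E x y := by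
  obtain ⟨t, hxt, ht⟩ := h.tc x
  obtain ⟨u, hyu, hu⟩ := h.tc y
  obtain ⟨R, hR⟩ := h.exists_rel hP v t u
  refine ⟨R, ?_, (hR x y).2 ⟨hxt, hyu, hxy⟩⟩
  intro a b hab
  obtain ⟨ha, hb, hp⟩ := (hR a b).1 hab
  obtain ⟨h1, h2⟩ := hs a b hp
  constructor
  · intro a' ha'
    obtain ⟨b', hb', hp'⟩ := h1 a' ha'
    exact ⟨b', hb', (hR a' b').2 ⟨ht a a' ha ha', hu b b' hb hb', hp'⟩⟩
  · intro b' hb'
    obtain ⟨a', ha', hp'⟩ := h2 b' hb'
    exact ⟨a', ha', (hR a' b').2 ⟨ht a a' ha ha', hu b b' hb hb', hp'⟩⟩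

theorem T0.sim_refl (h : T0 E) (x : M) : Sim E x x := by
  refine h.coind (n := 2) (P := fun w => w 0 = w 1) (Df.eq 0 1 (by omega) (by omega)) (fun _ => x) ?_ rfl
  intro a b hab
  have hab' : a = b := hab
  subst hab'
  exact ⟨fun a' ha' => ⟨a', ha', rfl⟩, fun a' ha' => ⟨a', ha', rfl⟩⟩

theorem T0.sim_symm (h : T0 E) {x y : M} (hxy : Sim E x y) : Sim E y x := by
  refine h.coind (n := 2) (P := fun w => Sim E (w 1) (w 0)) (Sim.df 1 0 (by omega) (by omega)) (fun _ => x) ?_ hxy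
  intro a b hab
  have hab' : Sim E b a := hab
  obtain ⟨h1, h2⟩ := hab'.step
  exact ⟨h2, h1⟩

theorem T0.sim_trans (h : T0 E) {x y z : M} (hxy : Sim E x y) (hyz : Sim E y z) : Sim E x z := by
  have hd : Df E 2 (fun w : ℕ → M => ∃ z, Sim E (w 0) z ∧ Sim E z (w 1)) := by
    refine Df.ex ?_
    exact Df.and (Sim.df 1 0 (by omega) (by omega)) (Sim.df 0 2 (by omega) (by omega))
  refine h.coind hd (fun _ => x) ?_ ⟨y, hxy, hyz⟩
  rintro a b ⟨c, hac, hcb⟩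
  have hac' : Sim E a c := hac
  have hcb' : Sim E c b := hcb
  obtain ⟨h1, h2⟩ := hac'.step
  obtain ⟨h3, h4⟩ := hcb'.step
  constructor
  · intro a' ha'
    obtain ⟨c', hc', hs1⟩ := h1 a' ha'
    obtain ⟨b', hb', hs2⟩ := h3 c' hc'
    exact ⟨b', hb', c', hs1, hs2⟩
  · intro b' hb'
    obtain ⟨c', hc', hs1⟩ := h4 b' hb'
    obtain ⟨a', ha', hs2⟩ := h2 c' hc'
    exact ⟨a', ha', c', hs2, hs1⟩

theorem T0.sim_of_step (h : T0 E) {x y : M} (h1 : ∀ x', E x' x → ∃ y', E y' y ∧ Sim E x' y')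
    (h2 : ∀ y', E y' y → ∃ x', E x' x ∧ Sim E x' y') : Sim E x y := by
  have hd : Df E 2 (fun w : ℕ → M => (∀ x', E x' (w 0) → ∃ y', E y' (w 1) ∧ Sim E x' y') ∧
      ∀ y', E y' (w 1) → ∃ x', E x' (w 0) ∧ Sim E x' y') := by
    refine Df.and (Df.all (Df.imp (Df.mem 0 1 (by omega) (by omega)) (Df.ex ?_))) (Df.all (Df.imp (Df.mem 0 2 (by omega) (by omega)) (Df.ex ?_)))
    · exact Df.and (Df.mem 0 3 (by omega) (by omega)) (Sim.df 1 0 (by omega) (by omega))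
    · exact Df.and (Df.mem 0 2 (by omega) (by omega)) (Sim.df 0 1 (by omega) (by omega))
  refine h.coind hd (fun _ => x) ?_ ⟨h1, h2⟩
  rintro a b ⟨g1, g2⟩
  constructor
  · intro a' ha'
    obtain ⟨b', hb', hs⟩ := g1 a' ha'
    exact ⟨b', hb', hs.step⟩
  · intro b' hb'
    obtain ⟨a', ha', hs⟩ := g2 b' hb'
    exact ⟨a', ha', hs.step⟩

end Pool.Agent.Helper62.ZH
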