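import Pool.Agent.Helper62.ZH.ZColl
import Pool.Agent.Helper62.ZH.Formulas
import Pool.Agent.Helper62.ZH.TSim

/-!
# ZH-17 ZSame: in a model of ZF bisimilarity is equality, every set is regular, and the translations change nothing

Proofs. `ZFModel.t0`: pair, union, sep, inf are axioms (`inf` of ZF); power: the subsets of `x` are elements of the power set `p`, `y' := y`; tc: `h.tc`; coll: `h.coll_lev`.
`sim_iff`: `T0.sim_refl`. Conversely suppose `Sim x y`, `x ≠ y`. `t` transitive with `x ∈ t`; `{u ∈ t : ∃ w, Sim u w ∧ u ≠ w}` (`Sim.df`) has a minimal element `u`, `Sim u w`,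
`u ≠ w`. For `u' ∈ u` some `w' ∈ w` has `Sim u' w'` (`Sim.step`), `u' ∈ t`, so `u' = w'` by minimality. So `u ⊆ w`, in the same way `w ⊆ u`: `u = w` by `h.ext`.
`rg`: `h.found`. `sat_trQ`, `sat_trR`: induction on `f` with `sat_simF`, `sat_rgF`.
-/

set_option autoImplicit false

namespace Pool.Agent.Helper62.ZH

variable {M : Type} {E : M → M → Prop}

theorem ZFModel.t0 (h : ZFModel E) : T0 E where
  pair := h.pair
  union := h.union
  power := by
    intro x
    obtain ⟨p, hp⟩ := h.power x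
    exact ⟨p, fun y hy => ⟨y, (hp y).2 hy, fun z => Iff.rfl⟩⟩
  inf := h.inf
  tc := by
    intro x
    obtain ⟨t, ht, ht2⟩ := h.tc x
    exact ⟨t, ht, fun y z hy hz => ht2 y hy z hz⟩
  sep := h.sep
  coll := by
    intro f v a
    obtain ⟨n, hn⟩ := exists_bd f
    have hP : Df E n (Sat E f) := ⟨f, hn, fun _ => Iff.rfl⟩
    obtain ⟨s, _, _, hs⟩ := h.coll_lev hP v a
    exact ⟨s, hs⟩

theorem ZFModel.sim_iff (h : ZFModel E) {x y : M} : Sim E x y ↔ x = y := by
  constructor
  · intro hxy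
    by_contra hne
    obtain ⟨t, hxt, ht⟩ := h.tc x
    have hP : Df E 1 (fun w => ∃ z, Sim E (w 0) z ∧ ¬ w 0 = z) := by
      refine Df.ex ?_
      exact Df.and (Sim.df 1 0 (by omega) (by omega)) (Df.not (Df.eq 1 0 (by omega) (by omega)))
    obtain ⟨s, hs⟩ := h.sepD hP (fun _ => x) t
    have hs' : ∀ u, E u s ↔ E u t ∧ ∃ z, Sim E u z ∧ ¬ u = z := hs
    obtain ⟨u, hu, hu2⟩ := h.found s ⟨x, (hs' x).2 ⟨hxt, y, hxy, hne⟩⟩
    obtain ⟨hut, w, huw, hne2⟩ := (hs' u).1 hu
    have key : ∀ z, E z u → ∀ z', Sim E z z' → z = z' := by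
      intro z hz z' hzz
      by_contra hn
      exact hu2 z hz ((hs' z).2 ⟨ht u hut z hz, z', hzz, hn⟩)
    apply hne2
    apply h.ext
    intro z
    constructor
    · intro hz
      obtain ⟨w', hw', hzw⟩ := huw.step.1 z hz
      rw [key z hz w' hzw]
      exact hw'
    · intro hz
      obtain ⟨x', hx', hxz⟩ := huw.step.2 z hz
      rw [← key x' hx' z hxz]
      exact hx'
  · rintro rfl
    exact h.t0.sim_refl x

theorem ZFModel.rg (h : ZFModel E) (x : M) : Rg E x := by
  intro c hc
  exact h.found c ⟨x, hc⟩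

theorem ZFModel.sat_trQ (h : ZFModel E) (f : Fml) : ∀ v, Sat E (trQ f) v ↔ Sat E f v := by
  induction f with
  | mem i j =>
    intro v
    simp only [trQ, sat_ex, sat_and, sat_mem, sat_simF, cons_zero, cons_succ, h.sim_iff]
    constructor
    · rintro ⟨x, hx, rfl⟩
      exact hx
    · intro hx
      exact ⟨v i, hx, rfl⟩
  | eq i j =>
    intro v
    simp only [trQ, sat_simF, h.sim_iff, sat_eq]
  | nand f g ihf ihg =>
    intro v
    simp only [trQ, Sat]
    rw [ihf, ihg]
  | ex f ih =>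
    intro v
    simp only [trQ, Sat]
    exact exists_congr fun x => ih _

theorem ZFModel.sat_trR (h : ZFModel E) (f : Fml) : ∀ v, Sat E (trR f) v ↔ Sat E f v := by
  induction f with
  | mem i j => intro v; exact Iff.rfl
  | eq i j => intro v; exact Iff.rfl
  | nand f g ihf ihg =>
    intro v
    simp only [trR, Sat]
    rw [ihf, ihg]
  | ex f ih =>
    intro v
    simp only [trR, sat_ex, sat_and, sat_rgF]
    refine exists_congr fun x => ?_
    rw [ih]
    exact ⟨fun hx => hx.2, fun hx => ⟨h.rg _, hx⟩⟩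

end Pool.Agent.Helper62.ZH
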