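import Pool.Agent.Helper62.ZH.Fm2Tr
import Pool.Agent.Helper62.ZH.Ex2Val
import Pool.Agent.Helper62.ZH.ZRefl
import Pool.Agent.Helper62.ZH.ZSame

/-!
# A model of ZF gives a `T` with all rules HGood, except that `TV` is only for finitely many `f`
-/

set_option autoImplicit false

namespace Pool.Agent.Helper62.ZH

/-- The rules, `TV` only for the `f` in the list. -/
structure Sys2.HGoodF (c : Sys2) (fs : List Tree) (T : Tree → Tree → Tree → Bool) : Prop where
  D : ∀ x y e e' g u, T x (.p y (.p e e')) (c.dr u g) = T x (.p e e') g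
  N : ∀ x e f g, T x e (c.nd f g) = (!T x e f && T x e g)
  Ea : ∀ z x e f, T z (.p x e) f = true → T x e (c.ec f) = true
  Eb : ∀ x e f, T x e (c.ec f) = true → T (c.W x e f) (.p x e) f = true
  S : ∀ x e p, T x (.p (c.S e p) .o) .o = (T x e .o && !T x e p)
  I : ∀ x y e, T x (.p y e) .o = T x (.p y .o) .o
  K : ∀ a e p, T a .o .o = true → T (c.S (.p a e) p) .o .o = true
  TV : ∀ x f, f ∈ fs → T x .o .o = true → T (c.W x .o f) .o .o = true
  N0 : T .o .o .o = true

theorem ZFModel.hgoodF {M : Type} {E : M → M → Prop} (h : ZFModel E) {c : Sys2} (hc : c.Nice) (fs : List Tree) :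
    ∃ T, c.HGoodF fs T ∧ ∀ s, Bd s 0 → (∀ v, Sat E s v) → T .o .o (c.der.code s) = true := by
  classical
  obtain ⟨F, hFb, hF1, hF2, hF3, hF4⟩ := hc.exists_fm
  obtain ⟨κ, ⟨c0, hc0⟩, hκs, hκtv⟩ := h.reflection (fs.map (fun f => F f 1)) (by
    intro f hf
    obtain ⟨q, _, rfl⟩ := List.mem_map.1 hf
    exact (hFb q 0).mono (by omega))
  obtain ⟨lv, hlv0, hlv1⟩ : ∃ lv : List M → ℕ → M, (∀ x l, lv (x :: l) = cons x (lv l)) ∧ ∀ i, lv [] i = κ := by
    refine ⟨fun l i => l.getD i κ, ?_, ?_⟩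
    · intro x l
      funext i
      cases i with
      | zero => simp [cons]
      | succ i => simp [cons]
    · intro i
      simp
  obtain ⟨Tr, hTr⟩ : ∃ Tr : Tree → M → List M → Prop, ∀ q x l, Tr q x l ↔ Sat E (F q l.length) (cons x (lv l)) :=
    ⟨fun q x l => Sat E (F q l.length) (cons x (lv l)), fun _ _ _ => Iff.rfl⟩
  have hFS : ∀ (l : List M) (q : Tree), ∃ s, ∀ x, E x s ↔ E x (lv l 0) ∧ ¬ Tr q x l := by
    intro l q
    obtain ⟨s, hs⟩ := h.sep (.nand (F q l.length) (F q l.length)) (lv l) (lv l 0)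
    refine ⟨s, fun x => ?_⟩
    rw [hs, hTr]
    simp only [Sat, and_self]
  choose FS hFS using hFS
  have hFW : ∀ (x : M) (l : List M) (f : Tree), ∃ w, ((∃ z, Tr f z (x :: l)) → Tr f w (x :: l)) ∧
      ((∃ z, E z κ ∧ Tr f z (x :: l)) → E w κ) ∧ ((¬ ∃ z, Tr f z (x :: l)) → w = c0) := by
    intro x l f
    by_cases h1 : ∃ z, E z κ ∧ Tr f z (x :: l)
    · obtain ⟨z, hz1, hz2⟩ := h1
      exact ⟨z, fun _ => hz2, fun _ => hz1, fun hn => absurd ⟨z, hz2⟩ hn⟩
    · by_cases h2 : ∃ z, Tr f z (x :: l)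
      · obtain ⟨z, hz⟩ := h2
        exact ⟨z, fun _ => hz, fun h3 => absurd h3 h1, fun hn => absurd ⟨z, hz⟩ hn⟩
      · exact ⟨c0, fun h3 => absurd h3 h2, fun h3 => absurd h3 h1, fun _ => rfl⟩
  choose FW hFW using hFW
  obtain ⟨val, vals, hv1, hv2, hv3, hv5, hv6⟩ := hc.exists_val FS FW c0
  have hdr : ∀ u g x y a l, Tr (c.dr u g) x (y :: a :: l) ↔ Tr g x (a :: l) := by
    intro u g x y a l
    rw [hTr, hTr, List.length_cons, List.length_cons, hF4, sat_ren, hlv0 y]
    have e : (fun i => cons x (cons y (lv (a :: l))) (if i = 0 then 0 else i + 1)) = cons x (lv (a :: l)) := by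
      funext i
      cases i with
      | zero => rfl
      | succ i => simp
    rw [e]
  have hnd : ∀ f g x l, Tr (c.nd f g) x l ↔ ¬ Tr f x l ∧ Tr g x l := by
    intro f g x l
    rw [hTr, hTr, hTr, hF2, sat_hF]
  have hec : ∀ f x l, Tr (c.ec f) x l ↔ ∃ z, Tr f z (x :: l) := by
    intro f x l
    rw [hTr, hF3]
    refine exists_congr fun z => ?_
    rw [hTr, List.length_cons, hlv0]
  have ho : ∀ x l, Tr .o x l ↔ E x (lv l 0) := by
    intro x l
    rw [hTr, hF1]
    exact Iff.rfl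
  have hl1 : ∀ a l, lv (a :: l) 0 = a := by
    intro a l
    rw [hlv0]
    rfl
  refine ⟨fun x e q => decide (Tr q (val x) (vals e)), ?_, ?_⟩
  · constructor
    · intro x y e e' g u
      rw [decide_eq_decide, hv2, hv2]
      exact hdr u g _ _ _ _
    · intro x e f g
      rw [Bool.eq_iff_iff]
      simp only [decide_eq_true_eq, Bool.not_eq_true', Bool.and_eq_true, decide_eq_false_iff_not]
      exact hnd _ _ _ _
    · intro z x e f hz
      simp only [decide_eq_true_eq, hv2] at hz ⊢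
      exact (hec _ _ _).2 ⟨_, hz⟩
    · intro x e f hx
      simp only [decide_eq_true_eq, hv2, hv6] at hx ⊢
      exact (hFW _ _ _).1 ((hec _ _ _).1 hx)
    · intro x e p
      rw [Bool.eq_iff_iff]
      simp only [decide_eq_true_eq, Bool.and_eq_true, Bool.not_eq_true', decide_eq_false_iff_not, hv2, hv5, ho, hl1]
      exact hFS _ _ _
    · intro x y e
      rw [decide_eq_decide, hv2, hv2, ho, ho, hl1, hl1]
    · intro a e p ha
      simp only [decide_eq_true_eq, hv1, hv5, ho, hlv1] at ha ⊢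
      refine hκs _ _ ha fun z hz => ?_
      have h1 := ((hFS _ _ z).1 hz).1
      rw [hv2, hl1] at h1
      exact h1
    · intro x f hf hx
      simp only [decide_eq_true_eq, hv1, hv6, ho, hlv1] at hx ⊢
      by_cases hz : ∃ z, Tr f z (val x :: [])
      · apply (hFW _ _ _).2.1
        obtain ⟨z, hz⟩ := hz
        have hdep : ∀ z, Sat E (F f 1) (cons z (fun _ => val x)) ↔ Sat E (F f 1) (cons z (lv (val x :: []))) := by
          intro z
          refine sat_congr (hFb f 0) ?_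
          intro i hi
          match i, hi with
          | 0, _ => rfl
          | 1, _ => rw [hlv0]; rfl
        obtain ⟨z', hz1, hz2⟩ := hκtv (F f 1) (List.mem_map.2 ⟨f, hf, rfl⟩) (fun _ => val x)
          hx hx ⟨z, (hdep z).2 ((hTr _ _ _).1 hz)⟩
        exact ⟨z', hz1, (hTr _ _ _).2 ((hdep z').1 hz2)⟩
      · rw [(hFW _ _ _).2.2 hz]
        exact hc0
    · simp only [decide_eq_true_eq, hv1, hv3, ho, hlv1]
      exact hc0
  · intro s hs hsat
    simp only [decide_eq_true_eq, hv1]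
    rw [hTr]
    have hb : Bd (trQ (trR s)) (0 + 1) := bd_trQ (bd_trR (hs.mono (Nat.zero_le 1)))
    have htau : ∀ (n : ℕ) (v : ℕ → M), Sat E (F c.tau n) v := by
      intro n v
      show Sat E (F (c.ec (c.ec .o)) n) v
      rw [hF3, hF3, hF1]
      exact ⟨κ, c0, hc0⟩
    have hnot : ∀ (q : Tree) (n : ℕ) (v : ℕ → M), Sat E (F (c.hnot q) n) v ↔ ¬ Sat E (F q n) v := by
      intro q n v
      show Sat E (F (c.nd q c.tau) n) v ↔ _
      rw [hF2, sat_hF]
      exact and_iff_left (htau n v)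
    have hder : ∀ (f g : Tree) (n : ℕ) (v : ℕ → M), Sat E (F (c.der.nd f g) n) v ↔ ¬ (Sat E (F f n) v ∧ Sat E (F g n) v) := by
      intro f g n v
      show Sat E (F (c.hnot (c.nd (c.hnot f) g)) n) v ↔ _
      rw [hnot, hF2, sat_hF, hnot]
      tauto
    have hfin := sat_fm_tr2 (c := c.der) hF1 hder hF3 hF4 h.ext (trQ (trR s)) 0 (cons (val .o) (lv [])) hb
    refine hfin.2 ?_
    rw [h.sat_trQ, h.sat_trR]
    exact hsat _

end Pool.Agent.Helper62.ZH
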