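import Pool.Agent.Helper62.ZH.Sys

/-!
# ZH-24 ExVal: recursive definition of the value of a tree

Proof. Well-founded recursion on the size for the pair `(val q, vals q)` (`q ↦ M × List M`): `vals` by the shape of `q` (`.o`, `.p a e`), `val q`: if `q = c.S a e p` (`Classical`)
then `FS (val a) (vals e) p`, else if `q = c.W x e f` then `FW (val x) (vals e) f`, else if `q = c.k` then `κ` else `c0`. The sizes of the arguments are smaller (`S_size`, `W_size`);
the equations follow from the injectivity and disjointness in `Nice`.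
-/

set_option autoImplicit false

namespace Pool.Agent.Helper62.ZH

theorem Sys.Nice.exists_val {c : Sys} (hc : c.Nice) {M : Type} (FS FW : M → List M → Tree → M) (κ c0 : M) :
    ∃ (val : Tree → M) (vals : Tree → List M), vals .o = [] ∧ (∀ a e, vals (.p a e) = val a :: vals e) ∧ val c.k = κ ∧ val c.t0 = c0 ∧
      (∀ a e q, val (c.S a e q) = FS (val a) (vals e) q) ∧ ∀ x e f, val (c.W x e f) = FW (val x) (vals e) f := by
  classical
  have hwf : WellFounded (fun y q : Tree => y.size < q.size) := (measure Tree.size).wf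
  let F : (q : Tree) → ((y : Tree) → y.size < q.size → M × List M) → M × List M := fun q rec =>
    (if h : ∃ t : Tree × Tree × Tree, c.S t.1 t.2.1 t.2.2 = q then
        FS (rec h.choose.1 (by
            have h1 := (hc.S_size h.choose.1 h.choose.2.1 h.choose.2.2).1
            rwa [h.choose_spec] at h1)).1
          (rec h.choose.2.1 (by
            have h1 := (hc.S_size h.choose.1 h.choose.2.1 h.choose.2.2).2
            rwa [h.choose_spec] at h1)).2 h.choose.2.2
      else if h : ∃ t : Tree × Tree × Tree, c.W t.1 t.2.1 t.2.2 = q then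
        FW (rec h.choose.1 (by
            have h1 := (hc.W_size h.choose.1 h.choose.2.1 h.choose.2.2).1
            rwa [h.choose_spec] at h1)).1
          (rec h.choose.2.1 (by
            have h1 := (hc.W_size h.choose.1 h.choose.2.1 h.choose.2.2).2
            rwa [h.choose_spec] at h1)).2 h.choose.2.2
      else if q = c.k then κ else c0,
     match q, rec with
     | .o, _ => []
     | .p a e, rec => (rec a (by simp only [Tree.size]; omega)).1 ::
        (rec e (by simp only [Tree.size]; omega)).2)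
  let aux : Tree → M × List M := hwf.fix F
  have haux : ∀ q, aux q = F q (fun y _ => aux y) := fun q => hwf.fix_eq F q
  refine ⟨fun q => (aux q).1, fun q => (aux q).2, ?_, ?_, ?_, ?_, ?_, ?_⟩
  · change (aux .o).2 = []
    rw [haux]
  · intro a e
    change (aux (.p a e)).2 = (aux a).1 :: (aux e).2
    rw [haux]
  · change (aux c.k).1 = κ
    have h1 : ¬ ∃ t : Tree × Tree × Tree, c.S t.1 t.2.1 t.2.2 = c.k := by
      rintro ⟨t, ht⟩
      exact hc.S_k _ _ _ ht
    have h2 : ¬ ∃ t : Tree × Tree × Tree, c.W t.1 t.2.1 t.2.2 = c.k := by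
      rintro ⟨t, ht⟩
      exact hc.W_k _ _ _ ht
    rw [haux]
    simp only [F]
    rw [dif_neg h1, dif_neg h2, if_pos trivial]
  · change (aux c.t0).1 = c0
    have h1 : ¬ ∃ t : Tree × Tree × Tree, c.S t.1 t.2.1 t.2.2 = c.t0 := by
      rintro ⟨t, ht⟩
      exact hc.S_t0 _ _ _ ht
    have h2 : ¬ ∃ t : Tree × Tree × Tree, c.W t.1 t.2.1 t.2.2 = c.t0 := by
      rintro ⟨t, ht⟩
      exact hc.W_t0 _ _ _ ht
    rw [haux]
    simp only [F]
    rw [dif_neg h1, dif_neg h2, if_neg (fun h => hc.k_t0 h.symm)]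
  · intro a e q
    change (aux (c.S a e q)).1 = FS (aux a).1 (aux e).2 q
    have h1 : ∃ t : Tree × Tree × Tree, c.S t.1 t.2.1 t.2.2 = c.S a e q := ⟨(a, e, q), rfl⟩
    rw [haux]
    simp only [F]
    rw [dif_pos h1]
    obtain ⟨e1, e2, e3⟩ := hc.S_inj _ _ _ _ _ _ h1.choose_spec
    rw [e1, e2, e3]
  · intro x e f
    change (aux (c.W x e f)).1 = FW (aux x).1 (aux e).2 f
    have h1 : ¬ ∃ t : Tree × Tree × Tree, c.S t.1 t.2.1 t.2.2 = c.W x e f := by
      rintro ⟨t, ht⟩
      exact hc.W_S _ _ _ _ _ _ ht.symm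
    have h2 : ∃ t : Tree × Tree × Tree, c.W t.1 t.2.1 t.2.2 = c.W x e f := ⟨(x, e, f), rfl⟩
    rw [haux]
    simp only [F]
    rw [dif_neg h1, dif_pos h2]
    obtain ⟨e1, e2, e3⟩ := hc.W_inj _ _ _ _ _ _ h2.choose_spec
    rw [e1, e2, e3]

end Pool.Agent.Helper62.ZH
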