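import Pool.Agent.Helper62.ZH.FmTr
import Pool.Agent.Helper62.ZH.ExVal
import Pool.Agent.Helper62.ZH.ZRefl
import Pool.Agent.Helper62.ZH.ZSame

/-!
# ZH-26 DFin: a model of ZF gives a `T` with all rules, except that `TV` is only for finitely many `f`

`GoodF c fs T`: the rules of `Sys.Good`, `TV` only for `f ∈ fs`.
Proof. `F` by `exists_fm`. `κ` by `h.reflection` for the list `fs.map (fun f => F f 2)` (`Bd _ 3`); `c0 ∈ κ`. For a list `l` over `M` let `lv l : ℕ → M` be `fun i => l.getD i c0`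
(so `lv (x :: l) = cons x (lv l)`), `Tr q x l := Sat E (F q l.length) (cons x (lv l))`. `FS a l q := ` a set `s` with `x ∈ s ↔ x ∈ a ∧ Tr q x l` (`h.sep`, choice);
`FW x l f :=` if there is `z ∈ κ` with `Tr f z (x :: l)` then such a `z`, else if there is any such `z` then it, else `c0`. `val`, `vals` by `exists_val`;
`T x e q := decide (Tr q (val x) (vals e))`. Rules: `D`: `sat_ren` and `sat_congr`; `N`, `Ea`, `Eb`: the equations of `F` (`Tr (ec f) x l ↔ ∃ z, Tr f z (x :: l)`); `S`: `Tr .o x (a :: l) ↔ E x a`;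
`K`: the set `FS a l q` is a subset of `a`, `κ` is closed under subsets; `TV` for `f ∈ fs`: the formula `F f 2` for `z, val x, val y`: if there is a `z` at all there is one in `κ`; `c0 ∈ κ`; `N0`.
Sentences `s` (`Bd s 0`, true in `E`): `T .o .o (c.code s) = true` by `sat_fm_tr` (`n = 0`, `he := h.ext`), `ZFModel.sat_trQ`, `ZFModel.sat_trR` and `sat_congr`.
-/

set_option autoImplicit false

namespace Pool.Agent.Helper62.ZH

/-- The rules, `TV` only for the `f` in the list. -/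
structure Sys.GoodF (c : Sys) (fs : List Tree) (T : Tree → Tree → Tree → Bool) : Prop where
  D : ∀ x y e g u, T x (.p y e) (c.dr u g) = T x e g
  N : ∀ x e f g, T x e (c.nd f g) = !(T x e f && T x e g)
  Ea : ∀ z x e f, T z (.p x e) f = true → T x e (c.ec f) = true
  Eb : ∀ x e f, T x e (c.ec f) = true → T (c.W x e f) (.p x e) f = true
  S : ∀ x a e p e', T x (.p (c.S a e p) .o) .o = (T x (.p a e') .o && T x e p)
  K : ∀ a e p, T a (.p c.k .o) .o = true → T (c.S a e p) (.p c.k .o) .o = true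
  TV : ∀ x y f, f ∈ fs → T x (.p c.k .o) .o = true → T y (.p c.k .o) .o = true → T (c.W x (.p y .o) f) (.p c.k .o) .o = true
  N0 : T c.t0 (.p c.k .o) .o = true

theorem ZFModel.goodF {M : Type} {E : M → M → Prop} (h : ZFModel E) {c : Sys} (hc : c.Nice) (fs : List Tree) :
    ∃ T, c.GoodF fs T ∧ ∀ s, Bd s 0 → (∀ v, Sat E s v) → T .o .o (c.code s) = true := by
  classical
  obtain ⟨F, hFb, hF1, hF2, hF3, hF4⟩ := hc.exists_fm
  obtain ⟨κ, ⟨c0, hc0⟩, hκs, hκtv⟩ := h.reflection (fs.map (fun f => F f 2)) (by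
    intro f hf
    obtain ⟨q, _, rfl⟩ := List.mem_map.1 hf
    exact hFb q 2)
  obtain ⟨lv, hlv0⟩ : ∃ lv : List M → ℕ → M, ∀ x l, lv (x :: l) = cons x (lv l) := by
    refine ⟨fun l i => l.getD i c0, ?_⟩
    intro x l
    funext i
    cases i with
    | zero => simp [cons]
    | succ i => simp [cons]
  obtain ⟨Tr, hTr⟩ : ∃ Tr : Tree → M → List M → Prop, ∀ q x l, Tr q x l ↔ Sat E (F q l.length) (cons x (lv l)) :=
    ⟨fun q x l => Sat E (F q l.length) (cons x (lv l)), fun _ _ _ => Iff.rfl⟩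
  have hFS : ∀ (a : M) (l : List M) (q : Tree), ∃ s, ∀ x, E x s ↔ E x a ∧ Tr q x l := by
    intro a l q
    obtain ⟨s, hs⟩ := h.sep (F q l.length) (lv l) a
    exact ⟨s, fun x => by rw [hs, hTr]⟩
  choose FS hFS using hFS
  have hFW : ∀ (x : M) (l : List M) (f : Tree), ∃ w, ((∃ z, Tr f z (x :: l)) → Tr f w (x :: l)) ∧
      ((∃ z, E z κ ∧ Tr f z (x :: l)) → E w κ) ∧ ((¬ ∃ z, Tr f z (x :: l)) → w = c0) := by
    intro x l f
    by_cases h1 : ∃ z, E z κ ∧ Tr f z (x :: l)
    · obtain ⟨z, hz1, hz2⟩ := h1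
      exact ⟨z, fun _ => hz2, fun _ => hz1, fun hn => absurd ⟨z, hz2⟩ hn⟩
    · by_cases h2 : ∃ z, Tr f z (x :: l)
      · obtain ⟨z, hz⟩ := h2
        exact ⟨z, fun _ => hz, fun h3 => absurd h3 h1, fun hn => absurd ⟨z, hz⟩ hn⟩
      · exact ⟨c0, fun h3 => absurd h3 h2, fun h3 => absurd h3 h1, fun _ => rfl⟩
  choose FW hFW using hFW
  obtain ⟨val, vals, hv1, hv2, hv3, hv4, hv5, hv6⟩ := hc.exists_val FS FW κ c0
  have hdr : ∀ u g x y l, Tr (c.dr u g) x (y :: l) ↔ Tr g x l := by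
    intro u g x y l
    rw [hTr, hTr, List.length_cons, hF4, sat_ren, hlv0]
    have e : (fun i => cons x (cons y (lv l)) (if i = 0 then 0 else i + 1)) = cons x (lv l) := by
      funext i
      cases i with
      | zero => rfl
      | succ i => simp
    rw [e]
  have hnd : ∀ f g x l, Tr (c.nd f g) x l ↔ ¬ (Tr f x l ∧ Tr g x l) := by
    intro f g x l
    rw [hTr, hTr, hTr, hF2]
    exact Iff.rfl
  have hec : ∀ f x l, Tr (c.ec f) x l ↔ ∃ z, Tr f z (x :: l) := by
    intro f x l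
    rw [hTr, hF3]
    refine exists_congr fun z => ?_
    rw [hTr, List.length_cons, hlv0]
  have ho : ∀ x a l, Tr .o x (a :: l) ↔ E x a := by
    intro x a l
    rw [hTr, List.length_cons, hF1, hlv0]
    exact Iff.rfl
  refine ⟨fun x e q => decide (Tr q (val x) (vals e)), ?_, ?_⟩
  · constructor
    · intro x y e g u
      rw [decide_eq_decide, hv2]
      exact hdr u g _ _ _
    · intro x e f g
      rw [Bool.eq_iff_iff]
      simp only [decide_eq_true_eq, Bool.not_eq_true', Bool.and_eq_false_iff, decide_eq_false_iff_not]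
      rw [hnd]
      tauto
    · intro z x e f hz
      simp only [decide_eq_true_eq, hv2] at hz ⊢
      exact (hec _ _ _).2 ⟨_, hz⟩
    · intro x e f hx
      simp only [decide_eq_true_eq, hv2, hv6] at hx ⊢
      exact (hFW _ _ _).1 ((hec _ _ _).1 hx)
    · intro x a e p e'
      rw [Bool.eq_iff_iff]
      simp only [decide_eq_true_eq, Bool.and_eq_true, hv2, hv5, ho]
      exact hFS _ _ _ _
    · intro a e p ha
      simp only [decide_eq_true_eq, hv2, hv3, hv5, ho] at ha ⊢
      exact hκs _ _ ha fun z hz => ((hFS _ _ _ z).1 hz).1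
    · intro x y f hf hx hy
      simp only [decide_eq_true_eq, hv1, hv2, hv3, hv6, ho] at hx hy ⊢
      by_cases hz : ∃ z, Tr f z (val x :: [val y])
      · apply (hFW _ _ _).2.1
        obtain ⟨z, hz⟩ := hz
        obtain ⟨z', hz1, hz2⟩ := hκtv (F f 2) (List.mem_map.2 ⟨f, hf, rfl⟩) (lv (val x :: [val y]))
          (by rw [hlv0]; exact hx) (by rw [hlv0, hlv0]; exact hy) ⟨z, (hTr _ _ _).1 hz⟩
        exact ⟨z', hz1, (hTr _ _ _).2 hz2⟩
      · rw [(hFW _ _ _).2.2 hz]
        exact hc0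
    · simp only [decide_eq_true_eq, hv2, hv3, hv4, ho]
      exact hc0
  · intro s hs hsat
    simp only [decide_eq_true_eq, hv1]
    rw [hTr]
    have hb : Bd (trQ (trR s)) (0 + 1) := bd_trQ (bd_trR (hs.mono (Nat.zero_le 1)))
    have hfin := sat_fm_tr (c := c) hF1 hF2 hF3 hF4 h.ext (trQ (trR s)) 0 (cons (val .o) (lv [])) hb
    refine hfin.2 ?_
    rw [h.sat_trQ, h.sat_trR]
    exact hsat _

end Pool.Agent.Helper62.ZH
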