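import Pool.Agent.Helper62.ZH.DFin
import Pool.Agent.Helper62.ZH.Compact

/-!
# ZH-27 DGood: a model of ZF gives a good `T`

Proof. `compactness` for `A := Tree × Tree × Tree` and an index type `Inst` of instances, one constructor for each rule with its parameters (`D x y e g u`, `N x e f g`, ...,
`U t` for the trees `t` with `t = c.code s` for a sentence `s` true in `E`: the condition `T .o .o t = true`; for the other `t` the condition is `True`). Each condition depends on at most 3 values. For a finite set of
instances let `fs` be the list of the `f` of its `TV` instances; `ZFModel.goodF` gives `T`.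
-/

set_option autoImplicit false

namespace Pool.Agent.Helper62.ZH

/-- Instances of the rules. -/
private inductive DInst : Type
  | D (x y e g u : Tree) : DInst
  | N (x e f g : Tree) : DInst
  | Ea (z x e f : Tree) : DInst
  | Eb (x e f : Tree) : DInst
  | S (x a e p e' : Tree) : DInst
  | K (a e p : Tree) : DInst
  | TV (x y f : Tree) : DInst
  | N0 : DInst
  | U (s : Fml) : DInst

/-- The condition of an instance. -/
private def dcond {M : Type} (E : M → M → Prop) (c : Sys) :
    DInst → (Tree × Tree × Tree → Bool) → Prop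
  | .D x y e g u, T => T (x, .p y e, c.dr u g) = T (x, e, g)
  | .N x e f g, T => T (x, e, c.nd f g) = !(T (x, e, f) && T (x, e, g))
  | .Ea z x e f, T => T (z, .p x e, f) = true → T (x, e, c.ec f) = true
  | .Eb x e f, T => T (x, e, c.ec f) = true → T (c.W x e f, .p x e, f) = true
  | .S x a e p e', T => T (x, .p (c.S a e p) .o, .o) = (T (x, .p a e', .o) && T (x, e, p))
  | .K a e p, T => T (a, .p c.k .o, .o) = true → T (c.S a e p, .p c.k .o, .o) = true
  | .TV x y f, T => T (x, .p c.k .o, .o) = true → T (y, .p c.k .o, .o) = true →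
      T (c.W x (.p y .o) f, .p c.k .o, .o) = true
  | .N0, T => T (c.t0, .p c.k .o, .o) = true
  | .U s, T => Bd s 0 → (∀ v, Sat E s v) → T (.o, .o, c.code s) = true

open Classical in
/-- The values on which the condition of an instance depends. -/
private noncomputable def dsupp (c : Sys) : DInst → Finset (Tree × Tree × Tree)
  | .D x y e g u => {(x, .p y e, c.dr u g), (x, e, g)}
  | .N x e f g => {(x, e, c.nd f g), (x, e, f), (x, e, g)}
  | .Ea z x e f => {(z, .p x e, f), (x, e, c.ec f)}
  | .Eb x e f => {(x, e, c.ec f), (c.W x e f, .p x e, f)}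
  | .S x a e p e' => {(x, .p (c.S a e p) .o, .o), (x, .p a e', .o), (x, e, p)}
  | .K a e p => {(a, .p c.k .o, .o), (c.S a e p, .p c.k .o, .o)}
  | .TV x y f => {(x, .p c.k .o, .o), (y, .p c.k .o, .o), (c.W x (.p y .o) f, .p c.k .o, .o)}
  | .N0 => {(c.t0, .p c.k .o, .o)}
  | .U s => {(.o, .o, c.code s)}

private def dtv : DInst → Option Tree
  | .TV _ _ f => some f
  | _ => none

theorem ZFModel.good {M : Type} {E : M → M → Prop} (h : ZFModel E) {c : Sys} (hc : c.Nice) :
    ∃ T, c.Good T ∧ ∀ s, Bd s 0 → (∀ v, Sat E s v) → T .o .o (c.code s) = true := by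
  classical
  obtain ⟨T, hT⟩ := compactness (dcond E c) (dsupp c) (by
    intro i T T' hTT hi
    cases i with
    | D x y e g u =>
      have h1 := hTT (x, .p y e, c.dr u g) (by simp [dsupp])
      have h2 := hTT (x, e, g) (by simp [dsupp])
      show T' (x, .p y e, c.dr u g) = T' (x, e, g)
      rw [← h1, ← h2]
      exact hi
    | N x e f g =>
      have h1 := hTT (x, e, c.nd f g) (by simp [dsupp])
      have h2 := hTT (x, e, f) (by simp [dsupp])
      have h3 := hTT (x, e, g) (by simp [dsupp])
      show T' (x, e, c.nd f g) = !(T' (x, e, f) && T' (x, e, g))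
      rw [← h1, ← h2, ← h3]
      exact hi
    | Ea z x e f =>
      have h1 := hTT (z, .p x e, f) (by simp [dsupp])
      have h2 := hTT (x, e, c.ec f) (by simp [dsupp])
      show T' (z, .p x e, f) = true → T' (x, e, c.ec f) = true
      rw [← h1, ← h2]
      exact hi
    | Eb x e f =>
      have h1 := hTT (c.W x e f, .p x e, f) (by simp [dsupp])
      have h2 := hTT (x, e, c.ec f) (by simp [dsupp])
      show T' (x, e, c.ec f) = true → T' (c.W x e f, .p x e, f) = true
      rw [← h1, ← h2]
      exact hi
    | S x a e p e' =>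
      have h1 := hTT (x, .p (c.S a e p) .o, .o) (by simp [dsupp])
      have h2 := hTT (x, .p a e', .o) (by simp [dsupp])
      have h3 := hTT (x, e, p) (by simp [dsupp])
      show T' (x, .p (c.S a e p) .o, .o) = (T' (x, .p a e', .o) && T' (x, e, p))
      rw [← h1, ← h2, ← h3]
      exact hi
    | K a e p =>
      have h1 := hTT (a, .p c.k .o, .o) (by simp [dsupp])
      have h2 := hTT (c.S a e p, .p c.k .o, .o) (by simp [dsupp])
      show T' (a, .p c.k .o, .o) = true → T' (c.S a e p, .p c.k .o, .o) = true
      rw [← h1, ← h2]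
      exact hi
    | TV x y f =>
      have h1 := hTT (x, .p c.k .o, .o) (by simp [dsupp])
      have h2 := hTT (y, .p c.k .o, .o) (by simp [dsupp])
      have h3 := hTT (c.W x (.p y .o) f, .p c.k .o, .o) (by simp [dsupp])
      show T' (x, .p c.k .o, .o) = true → T' (y, .p c.k .o, .o) = true →
        T' (c.W x (.p y .o) f, .p c.k .o, .o) = true
      rw [← h1, ← h2, ← h3]
      exact hi
    | N0 =>
      have h1 := hTT (c.t0, .p c.k .o, .o) (by simp [dsupp])
      show T' (c.t0, .p c.k .o, .o) = true
      rw [← h1]
      exact hi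
    | U s =>
      have h1 := hTT (.o, .o, c.code s) (by simp [dsupp])
      show Bd s 0 → (∀ v, Sat E s v) → T' (.o, .o, c.code s) = true
      rw [← h1]
      exact hi) (by
    intro s
    obtain ⟨T, hT, hU⟩ := h.goodF hc (s.toList.filterMap dtv)
    refine ⟨fun a => T a.1 a.2.1 a.2.2, fun i hi => ?_⟩
    cases i with
    | D x y e g u => exact hT.D x y e g u
    | N x e f g => exact hT.N x e f g
    | Ea z x e f => exact hT.Ea z x e f
    | Eb x e f => exact hT.Eb x e f
    | S x a e p e' => exact hT.S x a e p e'
    | K a e p => exact hT.K a e p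
    | TV x y f =>
      exact hT.TV x y f (List.mem_filterMap.2 ⟨.TV x y f, Finset.mem_toList.2 hi, rfl⟩)
    | N0 => exact hT.N0
    | U s => exact hU s)
  exact ⟨fun x e f => T (x, e, f),
    ⟨fun x y e g u => hT (.D x y e g u), fun x e f g => hT (.N x e f g),
      fun z x e f => hT (.Ea z x e f), fun x e f => hT (.Eb x e f),
      fun x a e p e' => hT (.S x a e p e'), fun a e p => hT (.K a e p),
      fun x y f => hT (.TV x y f), hT .N0⟩, fun s => hT (.U s)⟩

end Pool.Agent.Helper62.ZH
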