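import Mathlib

/-!
# Project ZH (MP_f907b0_lc): formulas of set theory, models of ZF (definitions, proved basics)

`Fml`: formulas of the language of set theory (de Bruijn indices), `Sat E f v`: truth in the structure `(M, E)` for the
assignment `v : ℕ → M`. `cons x v` is the sequence `x, v 0, v 1, ...`. `ZFModel E`: `(M, E)` is a model of ZF.
`Bd f n`: all free variables of `f` are `< n`. `Df E n P`: the predicate `P` of sequences is definable (without parameters)
by a formula whose free variables are `< n`; `Df.not`, `Df.and`, `Df.ex`, ... are the closure properties: to prove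
`Df E n (fun v => ∀ x, E x (v 0) → ...)` apply `Df.all`, `Df.imp`, `Df.mem` ... (after `Df.all` or `Df.ex` the bound variable is `w 0`
and the old `v i` is `w (i + 1)`, by beta and defeq).
-/

set_option autoImplicit false

namespace Pool.Agent.Helper62.ZH

/-- Formulas of set theory: `mem i j` is `x_i ∈ x_j`, `eq i j` is `x_i = x_j`, `nand f g` is `¬ (f ∧ g)`, `ex f` is `∃ x, f`, where `x` is
the variable `0` of `f` and the variable `i + 1` of `f` is the variable `i` of `ex f`. -/
inductive Fml : Type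
  | mem (i j : ℕ) : Fml
  | eq (i j : ℕ) : Fml
  | nand (f g : Fml) : Fml
  | ex (f : Fml) : Fml

/-- The sequence `x, v 0, v 1, ...`. -/
def cons {M : Type} (x : M) (v : ℕ → M) : ℕ → M
  | 0 => x
  | i + 1 => v i

/-- Truth of `f` in the structure `(M, E)` for the values `v`. -/
def Sat {M : Type} (E : M → M → Prop) : Fml → (ℕ → M) → Prop
  | .mem i j, v => E (v i) (v j)
  | .eq i j, v => v i = v j
  | .nand f g, v => ¬ (Sat E f v ∧ Sat E g v)
  | .ex f, v => ∃ x, Sat E f (cons x v)

/-- `(M, E)` is a model of the Zermelo-Fraenkel axioms: extensionality, foundation, pairing, union, power set, infinity, and the schemes of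
separation and replacement (for all formulas, with parameters). -/
structure ZFModel {M : Type} (E : M → M → Prop) : Prop where
  ext : ∀ x y, (∀ z, E z x ↔ E z y) → x = y
  found : ∀ x, (∃ y, E y x) → ∃ y, E y x ∧ ∀ z, E z y → ¬ E z x
  pair : ∀ x y, ∃ z, ∀ u, E u z ↔ u = x ∨ u = y
  union : ∀ x, ∃ y, ∀ u, E u y ↔ ∃ z, E u z ∧ E z x
  power : ∀ x, ∃ y, ∀ u, E u y ↔ ∀ z, E z u → E z x
  inf : ∃ x, (∃ y, E y x ∧ ∀ z, ¬ E z y) ∧ ∀ y, E y x → ∃ z, E z x ∧ ∀ u, E u z ↔ E u y ∨ u = y
  sep : ∀ (f : Fml) (v : ℕ → M) (a : M), ∃ s, ∀ x, E x s ↔ E x a ∧ Sat E f (cons x v)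
  repl : ∀ (f : Fml) (v : ℕ → M) (a : M), (∀ x, E x a → ∃! y, Sat E f (cons x (cons y v))) →
    ∃ b, ∀ y, E y b ↔ ∃ x, E x a ∧ Sat E f (cons x (cons y v))

/-- All free variables of the formula are `< n`. -/
def Bd : Fml → ℕ → Prop
  | .mem i j, n => i < n ∧ j < n
  | .eq i j, n => i < n ∧ j < n
  | .nand f g, n => Bd f n ∧ Bd g n
  | .ex f, n => Bd f (n + 1)

/-- `P` is definable by a formula with free variables `< n`. -/
def Df {M : Type} (E : M → M → Prop) (n : ℕ) (P : (ℕ → M) → Prop) : Prop :=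
  ∃ f, Bd f n ∧ ∀ v, P v ↔ Sat E f v

section basics

variable {M : Type} {E : M → M → Prop} {n m : ℕ} {P Q : (ℕ → M) → Prop}

@[simp] theorem cons_zero (x : M) (v : ℕ → M) : cons x v 0 = x := rfl

@[simp] theorem cons_succ (x : M) (v : ℕ → M) (i : ℕ) : cons x v (i + 1) = v i := rfl

@[simp] theorem cons_one (x : M) (v : ℕ → M) : cons x v 1 = v 0 := rfl

@[simp] theorem cons_two (x : M) (v : ℕ → M) : cons x v 2 = v 1 := rfl

@[simp] theorem cons_three (x : M) (v : ℕ → M) : cons x v 3 = v 2 := rfl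

@[simp] theorem cons_four (x : M) (v : ℕ → M) : cons x v 4 = v 3 := rfl

@[simp] theorem cons_five (x : M) (v : ℕ → M) : cons x v 5 = v 4 := rfl

theorem cons_eta (v : ℕ → M) : cons (v 0) (fun i => v (i + 1)) = v := by
  funext i
  cases i <;> rfl

theorem cons_congr {x : M} {v w : ℕ → M} {n : ℕ} (h : ∀ i, i < n → v i = w i) : ∀ i, i < n + 1 → cons x v i = cons x w i := by
  intro i hi
  cases i with
  | zero => rfl
  | succ i => exact h i (by omega)

theorem Bd.mono {f : Fml} : ∀ {n m : ℕ}, n ≤ m → Bd f n → Bd f m := by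
  induction f with
  | mem i j => intro n m h hf; exact ⟨lt_of_lt_of_le hf.1 h, lt_of_lt_of_le hf.2 h⟩
  | eq i j => intro n m h hf; exact ⟨lt_of_lt_of_le hf.1 h, lt_of_lt_of_le hf.2 h⟩
  | nand f g ihf ihg => intro n m h hf; exact ⟨ihf h hf.1, ihg h hf.2⟩
  | ex f ih => intro n m h hf; exact ih (Nat.succ_le_succ h) hf

/-- Every formula has a bound for its free variables. -/
theorem exists_bd (f : Fml) : ∃ n, Bd f n := by
  induction f with
  | mem i j => exact ⟨i + j + 1, by constructor <;> omega⟩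
  | eq i j => exact ⟨i + j + 1, by constructor <;> omega⟩
  | nand f g ihf ihg =>
    obtain ⟨n, hn⟩ := ihf
    obtain ⟨m, hm⟩ := ihg
    exact ⟨n + m, hn.mono (by omega), hm.mono (by omega)⟩
  | ex f ih =>
    obtain ⟨n, hn⟩ := ih
    refine ⟨n, ?_⟩
    show Bd f (n + 1)
    exact hn.mono (by omega)

/-- The truth value depends only on the values of the free variables. -/
theorem sat_congr {f : Fml} : ∀ {n : ℕ} {v w : ℕ → M}, Bd f n → (∀ i, i < n → v i = w i) → (Sat E f v ↔ Sat E f w) := by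
  induction f with
  | mem i j => intro n v w hf h; simp only [Sat]; rw [h i hf.1, h j hf.2]
  | eq i j => intro n v w hf h; simp only [Sat]; rw [h i hf.1, h j hf.2]
  | nand f g ihf ihg => intro n v w hf h; simp only [Sat]; rw [ihf hf.1 h, ihg hf.2 h]
  | ex f ih => intro n v w hf h; exact exists_congr fun x => ih hf (cons_congr h)

/-- Renaming of the free variables. -/
def ren : (ℕ → ℕ) → Fml → Fml
  | s, .mem i j => .mem (s i) (s j)
  | s, .eq i j => .eq (s i) (s j)
  | s, .nand f g => .nand (ren s f) (ren s g)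
  | s, .ex f => .ex (ren (fun i => match i with | 0 => 0 | i + 1 => s i + 1) f)

theorem sat_ren {f : Fml} : ∀ {s : ℕ → ℕ} {v : ℕ → M}, Sat E (ren s f) v ↔ Sat E f (fun i => v (s i)) := by
  induction f with
  | mem i j => intro s v; exact Iff.rfl
  | eq i j => intro s v; exact Iff.rfl
  | nand f g ihf ihg => intro s v; simp only [ren, Sat]; rw [ihf, ihg]
  | ex f ih =>
    intro s v
    simp only [ren, Sat]
    refine exists_congr fun x => ?_
    rw [ih]
    have h : (fun i => cons x v (match i with | 0 => 0 | i + 1 => s i + 1)) = cons x (fun i => v (s i)) := by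
      funext i
      cases i <;> rfl
    rw [h]

theorem bd_ren {f : Fml} : ∀ {s : ℕ → ℕ} {n m : ℕ}, Bd f n → (∀ i, i < n → s i < m) → Bd (ren s f) m := by
  induction f with
  | mem i j => intro s n m hf h; exact ⟨h i hf.1, h j hf.2⟩
  | eq i j => intro s n m hf h; exact ⟨h i hf.1, h j hf.2⟩
  | nand f g ihf ihg => intro s n m hf h; exact ⟨ihf hf.1 h, ihg hf.2 h⟩
  | ex f ih =>
    intro s n m hf h
    refine ih (m := m + 1) hf ?_
    intro i hi
    cases i with
    | zero => exact Nat.succ_pos m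
    | succ i => exact Nat.succ_lt_succ (h i (by omega))

theorem Df.congr (hP : Df E n P) (h : ∀ v, Q v ↔ P v) : Df E n Q := by
  obtain ⟨f, hf, hs⟩ := hP
  exact ⟨f, hf, fun v => (h v).trans (hs v)⟩

theorem Df.mono (hP : Df E n P) (h : n ≤ m) : Df E m P := by
  obtain ⟨f, hf, hs⟩ := hP
  exact ⟨f, hf.mono h, hs⟩

/-- A definable predicate depends only on the first `n` values. -/
theorem Df.dep (hP : Df E n P) {v w : ℕ → M} (h : ∀ i, i < n → v i = w i) : P v ↔ P w := by
  obtain ⟨f, hf, hs⟩ := hP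
  rw [hs, hs]
  exact sat_congr hf h

theorem Df.ren (hP : Df E n P) (s : ℕ → ℕ) (h : ∀ i, i < n → s i < m) : Df E m (fun v => P (fun i => v (s i))) := by
  obtain ⟨f, hf, hs⟩ := hP
  refine ⟨ZH.ren s f, bd_ren hf h, fun v => ?_⟩
  show P (fun i => v (s i)) ↔ _
  rw [hs, sat_ren]

theorem Df.mem (i j : ℕ) (hi : i < n) (hj : j < n) : Df E n (fun v => E (v i) (v j)) :=
  ⟨.mem i j, ⟨hi, hj⟩, fun _ => Iff.rfl⟩

theorem Df.eq (i j : ℕ) (hi : i < n) (hj : j < n) : Df E n (fun v => v i = v j) :=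
  ⟨.eq i j, ⟨hi, hj⟩, fun _ => Iff.rfl⟩

theorem Df.nand (hP : Df E n P) (hQ : Df E n Q) : Df E n (fun v => ¬ (P v ∧ Q v)) := by
  obtain ⟨f, hf, hs⟩ := hP
  obtain ⟨g, hg, ht⟩ := hQ
  refine ⟨.nand f g, ⟨hf, hg⟩, fun v => ?_⟩
  simp only [Sat]
  rw [hs, ht]

theorem Df.not (hP : Df E n P) : Df E n (fun v => ¬ P v) :=
  (hP.nand hP).congr fun v => by simp

theorem Df.and (hP : Df E n P) (hQ : Df E n Q) : Df E n (fun v => P v ∧ Q v) :=
  (hP.nand hQ).not.congr fun v => by simp

theorem Df.or (hP : Df E n P) (hQ : Df E n Q) : Df E n (fun v => P v ∨ Q v) :=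
  (hP.not.and hQ.not).not.congr fun v => by tauto

theorem Df.imp (hP : Df E n P) (hQ : Df E n Q) : Df E n (fun v => P v → Q v) :=
  (hP.and hQ.not).not.congr fun v => by tauto

theorem Df.iff (hP : Df E n P) (hQ : Df E n Q) : Df E n (fun v => P v ↔ Q v) :=
  ((hP.imp hQ).and (hQ.imp hP)).congr fun v => by tauto

theorem Df.ex {R : M → (ℕ → M) → Prop} (h : Df E (n + 1) (fun w => R (w 0) (fun i => w (i + 1)))) :
    Df E n (fun v => ∃ x, R x v) := by
  obtain ⟨f, hf, hs⟩ := h
  refine ⟨.ex f, hf, fun v => ?_⟩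
  simp only [Sat]
  refine exists_congr fun x => ?_
  exact hs (cons x v)

theorem Df.all {R : M → (ℕ → M) → Prop} (h : Df E (n + 1) (fun w => R (w 0) (fun i => w (i + 1)))) :
    Df E n (fun v => ∀ x, R x v) := by
  have h1 : Df E n (fun v => ∃ x, ¬ R x v) := Df.ex (R := fun x v => ¬ R x v) h.not
  exact h1.not.congr fun v => by simp

/-- The constant predicates. -/
theorem Df.const [Nonempty M] (p : Prop) : Df E n (fun _ => p) := by
  have h : Df E n (fun v : ℕ → M => ∀ x : M, x = x) := Df.all (R := fun x _ => x = x) (Df.eq 0 0 (by omega) (by omega))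
  by_cases hp : p
  · exact h.congr fun v => by simp [hp]
  · exact h.not.congr fun v => by simp [hp]

end basics

end Pool.Agent.Helper62.ZH
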