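import Pool.Agent.Helper62.ZH.Sys

/-!
# Project ZH: the cheaper rules R' (with the one-parameter TV of helper38) for an abstract system of codes (definitions)

`T x e p` is read: the formula `p` holds for the values `x :: e` (`e` is a list of values coded as a tree: `o` is the empty list, `p a e` is `a :: e`).
-/

set_option autoImplicit false

namespace Pool.Agent.Helper62.ZH

/-- A system of codes: `W x e f`: a witness for `∃ z, f (z, x :: e)`; `S e p`: the set of the elements `x` of the first value of `e` (of `k` if `e` is empty) with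
`p (x, e)`; `nd f g`: not both; `ec f`: exists; `dr u g`: the variable 1 is skipped (`u` is arbitrary). `T x o o` says that `x` is in `k`. -/
structure Sys2 where
  W : Tree → Tree → Tree → Tree
  S : Tree → Tree → Tree
  nd : Tree → Tree → Tree
  ec : Tree → Tree
  dr : Tree → Tree → Tree

/-- The rules. -/
structure Sys2.Good (c : Sys2) (T : Tree → Tree → Tree → Bool) : Prop where
  D : ∀ x y e e' g u, T x (.p y (.p e e')) (c.dr u g) = T x (.p e e') g
  N : ∀ x e f g, T x e (c.nd f g) = !(T x e f && T x e g)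
  Ea : ∀ z x e f, T z (.p x e) f = true → T x e (c.ec f) = true
  Eb : ∀ x e f, T x e (c.ec f) = true → T (c.W x e f) (.p x e) f = true
  S : ∀ x e p, T x (.p (c.S e p) .o) .o = (T x e .o && T x e p)
  I : ∀ x y e, T x (.p y e) .o = T x (.p y .o) .o
  K : ∀ a e p, T a .o .o = true → T (c.S (.p a e) p) .o .o = true
  TV : ∀ x f, T x .o .o = true → T (c.W x .o f) .o .o = true
  N0 : T .o .o .o = true

/-- The rules of the machine: `nd f g` is the connective: not `f`, and `g`; `S e p`: the set of the elements `x` of the first value of `e` (of `k` if `e` is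
empty) for which `p (x, e)` is false. -/
structure Sys2.HGood (c : Sys2) (T : Tree → Tree → Tree → Bool) : Prop where
  D : ∀ x y e e' g u, T x (.p y (.p e e')) (c.dr u g) = T x (.p e e') g
  N : ∀ x e f g, T x e (c.nd f g) = (!T x e f && T x e g)
  Ea : ∀ z x e f, T z (.p x e) f = true → T x e (c.ec f) = true
  Eb : ∀ x e f, T x e (c.ec f) = true → T (c.W x e f) (.p x e) f = true
  S : ∀ x e p, T x (.p (c.S e p) .o) .o = (T x e .o && !T x e p)
  I : ∀ x y e, T x (.p y e) .o = T x (.p y .o) .o
  K : ∀ a e p, T a .o .o = true → T (c.S (.p a e) p) .o .o = true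
  TV : ∀ x f, T x .o .o = true → T (c.W x .o f) .o .o = true
  N0 : T .o .o .o = true

/-- Conditions on the codes. -/
structure Sys2.Nice (c : Sys2) : Prop where
  nd_inj : ∀ f g f' g', c.nd f g = c.nd f' g' → f = f' ∧ g = g'
  ec_inj : ∀ f f', c.ec f = c.ec f' → f = f'
  dr_inj : ∀ u g u' g', c.dr u g = c.dr u' g' → g = g'
  nd_ec : ∀ f g f', c.nd f g ≠ c.ec f'
  nd_dr : ∀ f g u g', c.nd f g ≠ c.dr u g'
  ec_dr : ∀ f u g', c.ec f ≠ c.dr u g'
  nd_o : ∀ f g, c.nd f g ≠ .o
  ec_o : ∀ f, c.ec f ≠ .o
  dr_o : ∀ u g, c.dr u g ≠ .o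
  nd_size : ∀ f g, f.size < (c.nd f g).size ∧ g.size < (c.nd f g).size
  ec_size : ∀ f, f.size < (c.ec f).size
  dr_size : ∀ u g, g.size < (c.dr u g).size
  W_inj : ∀ x e f x' e' f', c.W x e f = c.W x' e' f' → x = x' ∧ e = e' ∧ f = f'
  S_inj : ∀ e p e' p', c.S e p = c.S e' p' → e = e' ∧ p = p'
  W_S : ∀ x e f e' p, c.W x e f ≠ c.S e' p
  W_o : ∀ x e f, c.W x e f ≠ .o
  S_o : ∀ e p, c.S e p ≠ .o
  W_size : ∀ x e f, x.size < (c.W x e f).size ∧ e.size < (c.W x e f).size
  S_size : ∀ e p, e.size < (c.S e p).size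

namespace Sys2

variable (c : Sys2)

/-- Code of: the value 0 is an element of the value `j + 1`. -/
def vr : ℕ → Tree
  | 0 => .o
  | j + 1 => c.dr .o (vr j)

def cnot (f : Tree) : Tree := c.nd f f
def cand (f g : Tree) : Tree := c.cnot (c.nd f g)
def cimp (f g : Tree) : Tree := c.nd f (c.cnot g)
def ciff (f g : Tree) : Tree := c.cand (c.cimp f g) (c.cimp g f)
def call (f : Tree) : Tree := c.cnot (c.ec (c.cnot f))

/-- Code of: the values `i` and `j` have the same elements. -/
def eqv (i j : ℕ) : Tree := c.call (c.ciff (c.vr i) (c.vr j))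

/-- Translation of formulas to codes; `=` is translated as having the same elements. -/
def tr : Fml → Tree
  | .mem i j => c.ec (c.cand (c.vr j) (c.eqv 0 (i + 1)))
  | .eq i j => c.eqv i j
  | .nand f g => c.nd (tr f) (tr g)
  | .ex f => c.ec (tr f)

/-- The code of the sentence `s`. -/
def code (s : Fml) : Tree := c.tr (trQ (trR s))

/-- For the rules `HGood`: the code of a true formula. -/
def tau : Tree := c.ec (c.ec .o)

/-- For the rules `HGood`: negation. -/
def hnot (f : Tree) : Tree := c.nd f c.tau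

/-- For the rules `HGood`: the derived system for the rules `Good`. -/
def der : Sys2 where
  W := c.W
  S e p := c.S e (c.hnot p)
  nd f g := c.hnot (c.nd (c.hnot f) g)
  ec := c.ec
  dr := c.dr

end Sys2

end Pool.Agent.Helper62.ZH
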