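import Pool.Agent.Helper62.ZH.Sys

/-!
# ZH-23 ExFm: the formula of a code

`F q n` is the formula of the code `q` in an environment `x :: e` with `e` of length `n`; codes without meaning get the false formula.
Proof. Recursion on the size of `q` (well-founded recursion, e.g. `WellFounded.fix` for `measure Tree.size` or: by strong induction on `N` there is such an `F` for all `q` of size
`< N`, or define `F` by `if h : ∃ f g, q = nd f g then ... else if h : ∃ f, q = ec f ...` with `Classical.choose` and `termination_by q.size`); the equations follow from the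
injectivity and disjointness in `Nice`. The bound by induction on the size. The last two equations are for the false formula in the other cases: `.o` with `n = 0`
and `dr` with `n = 0`.
-/

set_option autoImplicit false

namespace Pool.Agent.Helper62.ZH

/-- A formula which is false in every structure. -/
def falseF : Fml := notF (.ex (.eq 0 0))

/-- the formula of the code `o` -/
private def exFmO : ℕ → Fml
  | 0 => falseF
  | _ + 1 => .mem 0 1

/-- the formula of `dr` -/
private def exFmD (F : ℕ → Fml) : ℕ → Fml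
  | 0 => falseF
  | n + 1 => ren (fun i => if i = 0 then 0 else i + 1) (F n)

open Classical in
/-- the formula of a code, with fuel -/
private noncomputable def exFmG (c : Sys) : ℕ → Tree → ℕ → Fml
  | 0, _, _ => falseF
  | N + 1, q, n =>
    if h : ∃ f g, q = c.nd f g then
      .nand (exFmG c N h.choose n) (exFmG c N h.choose_spec.choose n)
    else if h : ∃ f, q = c.ec f then .ex (exFmG c N h.choose (n + 1))
    else if h : ∃ g, ∃ u, q = c.dr u g then exFmD (fun m => exFmG c N h.choose m) n
    else if q = .o then exFmO n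
    else falseF

private theorem exFm_nd {c : Sys} (hc : c.Nice) (N : ℕ) (f g : Tree) (n : ℕ) :
    exFmG c (N + 1) (c.nd f g) n = .nand (exFmG c N f n) (exFmG c N g n) := by
  have h : ∃ f' g', c.nd f g = c.nd f' g' := ⟨f, g, rfl⟩
  have h2 := hc.nd_inj _ _ _ _ h.choose_spec.choose_spec
  have h3 : exFmG c (N + 1) (c.nd f g) n =
      .nand (exFmG c N h.choose n) (exFmG c N h.choose_spec.choose n) := by
    rw [exFmG, dif_pos h]
  have h4 : exFmG c N h.choose n = exFmG c N f n := congrArg (fun x => exFmG c N x n) h2.1.symm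
  have h5 : exFmG c N h.choose_spec.choose n = exFmG c N g n :=
    congrArg (fun x => exFmG c N x n) h2.2.symm
  rw [h3, h4, h5]

private theorem exFm_ec {c : Sys} (hc : c.Nice) (N : ℕ) (f : Tree) (n : ℕ) :
    exFmG c (N + 1) (c.ec f) n = .ex (exFmG c N f (n + 1)) := by
  have h0 : ¬ ∃ f' g', c.ec f = c.nd f' g' := by
    rintro ⟨f', g', h⟩
    exact hc.nd_ec _ _ _ h.symm
  have h : ∃ f', c.ec f = c.ec f' := ⟨f, rfl⟩
  have h2 := hc.ec_inj _ _ h.choose_spec
  rw [exFmG, dif_neg h0, dif_pos h, ← h2]

private theorem exFm_dr {c : Sys} (hc : c.Nice) (N : ℕ) (u g : Tree) (n : ℕ) :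
    exFmG c (N + 1) (c.dr u g) (n + 1) =
      ren (fun i => if i = 0 then 0 else i + 1) (exFmG c N g n) := by
  have h0 : ¬ ∃ f' g', c.dr u g = c.nd f' g' := by
    rintro ⟨f', g', h⟩
    exact hc.nd_dr _ _ _ _ h.symm
  have h1 : ¬ ∃ f', c.dr u g = c.ec f' := by
    rintro ⟨f', h⟩
    exact hc.ec_dr _ _ _ h.symm
  have h : ∃ g', ∃ u', c.dr u g = c.dr u' g' := ⟨g, u, rfl⟩
  have h2 := hc.dr_inj _ _ _ _ h.choose_spec.choose_spec
  rw [exFmG, dif_neg h0, dif_neg h1, dif_pos h, ← h2]
  rfl

private theorem exFm_dr0 {c : Sys} (hc : c.Nice) (N : ℕ) (u g : Tree) :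
    exFmG c (N + 1) (c.dr u g) 0 = falseF := by
  have h0 : ¬ ∃ f' g', c.dr u g = c.nd f' g' := by
    rintro ⟨f', g', h⟩
    exact hc.nd_dr _ _ _ _ h.symm
  have h1 : ¬ ∃ f', c.dr u g = c.ec f' := by
    rintro ⟨f', h⟩
    exact hc.ec_dr _ _ _ h.symm
  have h : ∃ g', ∃ u', c.dr u g = c.dr u' g' := ⟨g, u, rfl⟩
  rw [exFmG, dif_neg h0, dif_neg h1, dif_pos h]
  rfl

open Classical in
private theorem exFm_other {c : Sys} (N : ℕ) (q : Tree) (n : ℕ)
    (h0 : ¬ ∃ f' g', q = c.nd f' g') (h1 : ¬ ∃ f', q = c.ec f')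
    (h2 : ¬ ∃ g', ∃ u', q = c.dr u' g') :
    exFmG c (N + 1) q n = if q = .o then exFmO n else falseF := by
  rw [exFmG, dif_neg h0, dif_neg h1, dif_neg h2]

private theorem exFm_fuel {c : Sys} (hc : c.Nice) (N : ℕ) : ∀ (M : ℕ) (q : Tree) (n : ℕ),
    q.size < N → q.size < M → exFmG c N q n = exFmG c M q n := by
  induction N with
  | zero => intro M q n h; omega
  | succ N ih =>
    intro M q n hN hM
    obtain ⟨M, rfl⟩ : ∃ M', M = M' + 1 := ⟨M - 1, by omega⟩
    by_cases h0 : ∃ f' g', q = c.nd f' g'
    · obtain ⟨f, g, rfl⟩ := h0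
      have hs := hc.nd_size f g
      rw [exFm_nd hc, exFm_nd hc, ih M f n (by omega) (by omega), ih M g n (by omega) (by omega)]
    · by_cases h1 : ∃ f', q = c.ec f'
      · obtain ⟨f, rfl⟩ := h1
        have hs := hc.ec_size f
        rw [exFm_ec hc, exFm_ec hc, ih M f (n + 1) (by omega) (by omega)]
      · by_cases h2 : ∃ g', ∃ u', q = c.dr u' g'
        · obtain ⟨g, u, rfl⟩ := h2
          have hs := hc.dr_size u g
          cases n with
          | zero => rw [exFm_dr0 hc, exFm_dr0 hc]
          | succ n => rw [exFm_dr hc, exFm_dr hc, ih M g n (by omega) (by omega)]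
        · rw [exFm_other N q n h0 h1 h2, exFm_other M q n h0 h1 h2]

private theorem exFm_false (n : ℕ) : Bd falseF n := by
  constructor <;> exact ⟨Nat.succ_pos _, Nat.succ_pos _⟩

private theorem exFm_bd {c : Sys} (hc : c.Nice) (N : ℕ) : ∀ (q : Tree) (n : ℕ),
    Bd (exFmG c N q n) (n + 1) := by
  induction N with
  | zero => intro q n; exact exFm_false _
  | succ N ih =>
    intro q n
    by_cases h0 : ∃ f' g', q = c.nd f' g'
    · obtain ⟨f, g, rfl⟩ := h0
      rw [exFm_nd hc]
      exact ⟨ih f n, ih g n⟩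
    · by_cases h1 : ∃ f', q = c.ec f'
      · obtain ⟨f, rfl⟩ := h1
        rw [exFm_ec hc]
        exact ih f (n + 1)
      · by_cases h2 : ∃ g', ∃ u', q = c.dr u' g'
        · obtain ⟨g, u, rfl⟩ := h2
          cases n with
          | zero =>
            rw [exFm_dr0 hc]
            exact exFm_false _
          | succ n =>
            rw [exFm_dr hc]
            refine bd_ren (ih g n) fun i hi => ?_
            split_ifs <;> omega
        · rw [exFm_other N q n h0 h1 h2]
          split_ifs
          · cases n with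
            | zero => exact exFm_false _
            | succ n => exact ⟨by omega, by omega⟩
          · exact exFm_false _

theorem Sys.Nice.exists_fm {c : Sys} (hc : c.Nice) : ∃ F : Tree → ℕ → Fml,
    (∀ q n, Bd (F q n) (n + 1)) ∧
    (∀ n, F .o (n + 1) = .mem 0 1) ∧
    (∀ f g n, F (c.nd f g) n = .nand (F f n) (F g n)) ∧
    (∀ f n, F (c.ec f) n = .ex (F f (n + 1))) ∧
    (∀ u g n, F (c.dr u g) (n + 1) = ren (fun i => if i = 0 then 0 else i + 1) (F g n)) := by
  refine ⟨fun q n => exFmG c (q.size + 1) q n, ?_, ?_, ?_, ?_, ?_⟩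
  · intro q n
    exact exFm_bd hc _ q n
  · intro n
    show exFmG c (Tree.o.size + 1) Tree.o (n + 1) = _
    rw [exFm_other, if_pos rfl]
    · rfl
    · rintro ⟨f, g, h⟩
      exact hc.nd_o _ _ h.symm
    · rintro ⟨f, h⟩
      exact hc.ec_o _ h.symm
    · rintro ⟨g, u, h⟩
      exact hc.dr_o _ _ h.symm
  · intro f g n
    have hs := hc.nd_size f g
    show exFmG c ((c.nd f g).size + 1) (c.nd f g) n =
      .nand (exFmG c (f.size + 1) f n) (exFmG c (g.size + 1) g n)
    rw [exFm_nd hc, exFm_fuel hc _ (f.size + 1) f n (by omega) (by omega),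
      exFm_fuel hc _ (g.size + 1) g n (by omega) (by omega)]
  · intro f n
    have hs := hc.ec_size f
    show exFmG c ((c.ec f).size + 1) (c.ec f) n = .ex (exFmG c (f.size + 1) f (n + 1))
    rw [exFm_ec hc, exFm_fuel hc _ (f.size + 1) f (n + 1) (by omega) (by omega)]
  · intro u g n
    have hs := hc.dr_size u g
    show exFmG c ((c.dr u g).size + 1) (c.dr u g) (n + 1) =
      ren (fun i => if i = 0 then 0 else i + 1) (exFmG c (g.size + 1) g n)
    rw [exFm_dr hc, exFm_fuel hc _ (g.size + 1) g n (by omega) (by omega)]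

end Pool.Agent.Helper62.ZH
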