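import Pool.Agent.Helper62.ZH.ExFm

/-!
# ZH-25 FmTr: in an extensional structure the formula of the code `tr f` is equivalent to `f`

`hF1`, ...: the equations of `Sys.Nice.exists_fm` (hypotheses here). Proof. First `vr`: for `j < n`, `Sat E (F (c.vr j) n) v ↔ E (v 0) (v (j + 1))`: induction on `j` (`sat_ren`). Then
`Sat E (F (c.cnot f) n) v ↔ ¬ Sat E (F f n) v` and the same for `cand`, `cimp`, `ciff`, `call`. So `Sat E (F (c.eqv i j) n) v ↔ ∀ z, (E z (v i) ↔ E z (v j))`, i.e. `v i = v j` by `he`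
(for `i, j < n + 1`). `mem`: `∃ z, E z (v j) ∧ z = v i`. Induction on `f`.
-/

set_option autoImplicit false

namespace Pool.Agent.Helper62.ZH

section aux

variable {c : Sys} {F : Tree → ℕ → Fml} {M : Type} {E : M → M → Prop}

private theorem fmtr_vr (hF1 : ∀ n, F .o (n + 1) = .mem 0 1)
    (hF4 : ∀ u g n, F (c.dr u g) (n + 1) = ren (fun i => if i = 0 then 0 else i + 1) (F g n)) (j : ℕ) :
    ∀ (n : ℕ) (v : ℕ → M), j < n → (Sat E (F (c.vr j) n) v ↔ E (v 0) (v (j + 1))) := by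
  induction j with
  | zero =>
    intro n v hn
    obtain ⟨m, rfl⟩ : ∃ m, n = m + 1 := ⟨n - 1, by omega⟩
    show Sat E (F .o (m + 1)) v ↔ _
    rw [hF1]
    exact Iff.rfl
  | succ j ih =>
    intro n v hn
    obtain ⟨m, rfl⟩ : ∃ m, n = m + 1 := ⟨n - 1, by omega⟩
    show Sat E (F (c.dr .o (c.vr j)) (m + 1)) v ↔ _
    rw [hF4, sat_ren, ih m _ (by omega)]
    simp

private theorem fmtr_not (hF2 : ∀ f g n, F (c.nd f g) n = .nand (F f n) (F g n)) (f : Tree) (n : ℕ) (v : ℕ → M) :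
    Sat E (F (c.cnot f) n) v ↔ ¬ Sat E (F f n) v := by
  show Sat E (F (c.nd f f) n) v ↔ _
  rw [hF2]
  simp only [Sat]
  tauto

private theorem fmtr_and (hF2 : ∀ f g n, F (c.nd f g) n = .nand (F f n) (F g n)) (f g : Tree) (n : ℕ) (v : ℕ → M) :
    Sat E (F (c.cand f g) n) v ↔ Sat E (F f n) v ∧ Sat E (F g n) v := by
  show Sat E (F (c.cnot (c.nd f g)) n) v ↔ _
  rw [fmtr_not hF2, hF2]
  simp only [Sat]
  tauto

private theorem fmtr_imp (hF2 : ∀ f g n, F (c.nd f g) n = .nand (F f n) (F g n)) (f g : Tree) (n : ℕ) (v : ℕ → M) :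
    Sat E (F (c.cimp f g) n) v ↔ (Sat E (F f n) v → Sat E (F g n) v) := by
  show Sat E (F (c.nd f (c.cnot g)) n) v ↔ _
  rw [hF2]
  simp only [Sat]
  rw [fmtr_not hF2]
  tauto

private theorem fmtr_iff (hF2 : ∀ f g n, F (c.nd f g) n = .nand (F f n) (F g n)) (f g : Tree) (n : ℕ) (v : ℕ → M) :
    Sat E (F (c.ciff f g) n) v ↔ (Sat E (F f n) v ↔ Sat E (F g n) v) := by
  show Sat E (F (c.cand (c.cimp f g) (c.cimp g f)) n) v ↔ _
  rw [fmtr_and hF2, fmtr_imp hF2, fmtr_imp hF2]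
  tauto

private theorem fmtr_all (hF2 : ∀ f g n, F (c.nd f g) n = .nand (F f n) (F g n)) (hF3 : ∀ f n, F (c.ec f) n = .ex (F f (n + 1)))
    (f : Tree) (n : ℕ) (v : ℕ → M) :
    Sat E (F (c.call f) n) v ↔ ∀ z, Sat E (F f (n + 1)) (cons z v) := by
  show Sat E (F (c.cnot (c.ec (c.cnot f))) n) v ↔ _
  rw [fmtr_not hF2, hF3]
  simp only [Sat]
  constructor
  · intro h z
    by_contra hz
    exact h ⟨z, (fmtr_not hF2 _ _ _).2 hz⟩
  · rintro h ⟨z, hz⟩
    exact (fmtr_not hF2 _ _ _).1 hz (h z)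

private theorem fmtr_eqv (hF1 : ∀ n, F .o (n + 1) = .mem 0 1)
    (hF2 : ∀ f g n, F (c.nd f g) n = .nand (F f n) (F g n)) (hF3 : ∀ f n, F (c.ec f) n = .ex (F f (n + 1)))
    (hF4 : ∀ u g n, F (c.dr u g) (n + 1) = ren (fun i => if i = 0 then 0 else i + 1) (F g n))
    (he : ∀ x y, (∀ z, E z x ↔ E z y) → x = y) (i j n : ℕ) (hi : i < n + 1) (hj : j < n + 1) (v : ℕ → M) :
    Sat E (F (c.eqv i j) n) v ↔ v i = v j := by
  show Sat E (F (c.call (c.ciff (c.vr i) (c.vr j))) n) v ↔ _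
  rw [fmtr_all hF2 hF3]
  constructor
  · intro h
    apply he
    intro z
    have h1 := h z
    rw [fmtr_iff hF2, fmtr_vr hF1 hF4 i _ _ hi, fmtr_vr hF1 hF4 j _ _ hj] at h1
    exact h1
  · intro h z
    rw [fmtr_iff hF2, fmtr_vr hF1 hF4 i _ _ hi, fmtr_vr hF1 hF4 j _ _ hj]
    show E z (v i) ↔ E z (v j)
    rw [h]

end aux

theorem sat_fm_tr {c : Sys} {F : Tree → ℕ → Fml} (hF1 : ∀ n, F .o (n + 1) = .mem 0 1)
    (hF2 : ∀ f g n, F (c.nd f g) n = .nand (F f n) (F g n)) (hF3 : ∀ f n, F (c.ec f) n = .ex (F f (n + 1)))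
    (hF4 : ∀ u g n, F (c.dr u g) (n + 1) = ren (fun i => if i = 0 then 0 else i + 1) (F g n))
    {M : Type} {E : M → M → Prop} (he : ∀ x y, (∀ z, E z x ↔ E z y) → x = y) (f : Fml) :
    ∀ (n : ℕ) (v : ℕ → M), Bd f (n + 1) → (Sat E (F (c.tr f) n) v ↔ Sat E f v) := by
  induction f with
  | mem i j =>
    intro n v hb
    show Sat E (F (c.ec (c.cand (c.vr j) (c.eqv 0 (i + 1)))) n) v ↔ _
    rw [hF3]
    have hi : i < n + 1 := hb.1
    have hj : j < n + 1 := hb.2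
    constructor
    · rintro ⟨z, hz⟩
      rw [fmtr_and hF2, fmtr_vr hF1 hF4 j _ _ hj, fmtr_eqv hF1 hF2 hF3 hF4 he 0 (i + 1) (n + 1) (by omega) (by omega)] at hz
      obtain ⟨h1, h2⟩ := hz
      have h1' : E z (v j) := h1
      have h2' : z = v i := h2
      rw [h2'] at h1'
      exact h1'
    · intro h
      refine ⟨v i, ?_⟩
      rw [fmtr_and hF2, fmtr_vr hF1 hF4 j _ _ hj, fmtr_eqv hF1 hF2 hF3 hF4 he 0 (i + 1) (n + 1) (by omega) (by omega)]
      exact ⟨h, rfl⟩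
  | eq i j =>
    intro n v hb
    exact fmtr_eqv hF1 hF2 hF3 hF4 he i j n hb.1 hb.2 v
  | nand f g ihf ihg =>
    intro n v hb
    show Sat E (F (c.nd (c.tr f) (c.tr g)) n) v ↔ _
    rw [hF2]
    simp only [Sat]
    rw [ihf n v hb.1, ihg n v hb.2]
  | ex f ih =>
    intro n v hb
    show Sat E (F (c.ec (c.tr f)) n) v ↔ _
    rw [hF3]
    simp only [Sat]
    exact exists_congr fun x => ih (n + 1) (cons x v) hb

end Pool.Agent.Helper62.ZH
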