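import Pool.Agent.Helper62.ZH.KPair

/-!
# The one-parameter version of the `KModel` (idea of helper38): `K1Model` gives `T0`

`tv` is only assumed for formulas with one parameter. Proof. `k` is transitive, as for `KModel`; parameter-free reflection (`refl1`) by a dummy
parameter. Pairing: for `x ∈ k` every `y ∈ k` has a pair with `x` (a separation subset of `k`), so by `tv` (parameter `x`) every `y` has;
so all `x ∈ k` have a pair with every `y`, so by `refl1` all `x`. Union, weak power set, transitive sets: one parameter. Collection for a formula with one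
parameter `p`: if it fails for `a`, `p` then (`refl1`) there is `c ∈ k`, an ordered pair of such `a`, `p`; the set of the ordered
pairs `(x, c)`, `x ∈ a`, exists, so by `tv` (parameter `c`) it is contained in an element of `k`; so for `x ∈ a` there is `q ∈ k`, an ordered pair of `x`, `c`, and by `tv`
(parameter `q`) there is a witness in `k` if there is any; so `k` collects. More parameters are coded by ordered pairs.
-/

set_option autoImplicit false

namespace Pool.Agent.Helper62.ZH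

/-- The properties of the set `k` and of the structure `(M, E)` given by the rules of the machine. -/
structure K1Model {M : Type} (E : M → M → Prop) (k : M) : Prop where
  sep : ∀ (f : Fml) (v : ℕ → M) (a : M), ∃ s, ∀ x, E x s ↔ E x a ∧ Sat E f (cons x v)
  sepK : ∀ (f : Fml) (v : ℕ → M) (a : M), E a k → ∃ s, E s k ∧ ∀ x, E x s ↔ E x a ∧ Sat E f (cons x v)
  tv : ∀ f : Fml, Bd f 2 → ∀ v : ℕ → M, E (v 0) k → (∃ z, Sat E f (cons z v)) → ∃ z, E z k ∧ Sat E f (cons z v)
  ne : ∃ t, E t k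

variable {M : Type} {E : M → M → Prop} {n : ℕ} {P : (ℕ → M) → Prop} {k : M}

namespace K1Model

theorem sepD (h : K1Model E k) (hP : Df E n P) (v : ℕ → M) (a : M) : ∃ s, ∀ x, E x s ↔ E x a ∧ P (cons x v) := by
  obtain ⟨f, _, hs⟩ := hP
  obtain ⟨s, h1⟩ := h.sep f v a
  exact ⟨s, fun x => by rw [h1, hs]⟩

theorem sepKD (h : K1Model E k) (hP : Df E n P) (v : ℕ → M) (a : M) (ha : E a k) :
    ∃ s, E s k ∧ ∀ x, E x s ↔ E x a ∧ P (cons x v) := by
  obtain ⟨f, _, hs⟩ := hP
  obtain ⟨s, h0, h1⟩ := h.sepK f v a ha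
  exact ⟨s, h0, fun x => by rw [h1, hs]⟩

theorem tvD (h : K1Model E k) (hP : Df E 2 P) (v : ℕ → M) (h0 : E (v 0) k) (h2 : ∃ z, P (cons z v)) :
    ∃ z, E z k ∧ P (cons z v) := by
  obtain ⟨f, hf, hs⟩ := hP
  obtain ⟨z, hz, hz2⟩ := h.tv f hf v h0 (by obtain ⟨z, hz⟩ := h2; exact ⟨z, (hs _).1 hz⟩)
  exact ⟨z, hz, (hs _).2 hz2⟩

theorem trans (h : K1Model E k) {a x : M} (ha : E a k) (hx : E x a) : E x k := by
  obtain ⟨d, hdk, hd⟩ := h.sepKD (n := 2) (P := fun w => ¬ E (w 0) (w 1)) (Df.not (Df.mem 0 1 (by omega) (by omega)))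
    (fun _ => k) a ha
  by_contra hxk
  obtain ⟨z, hz, hz2⟩ := h.tvD (P := fun w => E (w 0) (w 1)) (Df.mem 0 1 (by omega) (by omega)) (fun _ => d) hdk
    ⟨x, (hd x).mpr ⟨hx, hxk⟩⟩
  exact ((hd z).mp hz2).2 hz

/-- Parameter-free reflection. -/
theorem refl1 (h : K1Model E k) (hP : Df E 1 P) {z : M} (hz : P (fun _ => z)) : ∃ z, E z k ∧ P (fun _ => z) := by
  obtain ⟨t, ht⟩ := h.ne
  have hd : ∀ z, P (cons z (fun _ => t)) ↔ P (fun _ => z) := fun z => hP.dep fun i hi => by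
    cases i with
    | zero => rfl
    | succ i => omega
  obtain ⟨z', h1, h2⟩ := h.tvD (hP.mono (by omega)) (fun _ => t) ht ⟨z, (hd z).2 hz⟩
  exact ⟨z', h1, (hd z').1 h2⟩

/-- A definable condition that holds for all elements of `k` holds for all elements. -/
theorem all1 (h : K1Model E k) (hP : Df E 1 P) (hk : ∀ z, E z k → P (fun _ => z)) (z : M) : P (fun _ => z) := by
  by_contra hz
  obtain ⟨z', h1, h2⟩ := h.refl1 (P := fun v => ¬ P v) hP.not hz
  exact h2 (hk z' h1)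

theorem t0_pair (h : K1Model E k) : ∀ x y, ∃ z, ∀ u, E u z ↔ u = x ∨ u = y := by
  have hdf : Df E 1 (fun v => ∀ y, ∃ z, IsPair E z (v 0) y) := by
    refine Df.all (R := fun y v => ∃ z, IsPair E z (v 0) y) ?_
    refine Df.ex (R := fun z (w : ℕ → M) => IsPair E z (w 1) (w 0)) ?_
    exact IsPair.df 0 2 1 (by omega) (by omega) (by omega)
  refine h.all1 hdf fun x hx => ?_
  intro y
  by_contra hy
  have hdf2 : Df E 2 (fun w => ¬ ∃ z, IsPair E z (w 1) (w 0)) := by
    refine Df.not ?_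
    refine Df.ex (R := fun z (w : ℕ → M) => IsPair E z (w 1) (w 0)) ?_
    exact IsPair.df 0 2 1 (by omega) (by omega) (by omega)
  obtain ⟨y', hyk, hy'⟩ := h.tvD hdf2 (fun _ => x) hx ⟨y, hy⟩
  apply hy'
  obtain ⟨z, hz⟩ := h.sepD (n := 3) (P := fun w => w 0 = w 1 ∨ w 0 = w 2)
    (Df.or (Df.eq 0 1 (by omega) (by omega)) (Df.eq 0 2 (by omega) (by omega))) (cons x (fun _ => y')) k
  refine ⟨z, fun u => (hz u).trans ?_⟩
  constructor
  · rintro ⟨_, hu⟩
    exact hu
  · intro hu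
    refine ⟨?_, hu⟩
    rcases hu with hu | hu
    · change u = x at hu
      rw [hu]
      exact hx
    · change u = y' at hu
      rw [hu]
      exact hyk

theorem t0_union (h : K1Model E k) : ∀ x, ∃ y, ∀ u, E u y ↔ ∃ z, E u z ∧ E z x := by
  have hdf : Df E 1 (fun v => ∃ y, ∀ u, E u y ↔ ∃ z, E u z ∧ E z (v 0)) := by
    refine Df.ex (R := fun y v => ∀ u, E u y ↔ ∃ z, E u z ∧ E z (v 0)) ?_
    refine Df.all (R := fun u (v : ℕ → M) => E u (v 0) ↔ ∃ z, E u z ∧ E z (v 1)) ?_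
    refine Df.iff (Df.mem 0 1 (by omega) (by omega)) ?_
    refine Df.ex (R := fun z (v : ℕ → M) => E (v 0) z ∧ E z (v 2)) ?_
    exact Df.and (Df.mem 1 0 (by omega) (by omega)) (Df.mem 0 3 (by omega) (by omega))
  refine h.all1 hdf fun x hx => ?_
  obtain ⟨s, hs⟩ := h.sepD (n := 2) (P := fun w => ∃ z, E (w 0) z ∧ E z (w 1)) (by
    refine Df.ex (R := fun z (w : ℕ → M) => E (w 0) z ∧ E z (w 1)) ?_
    exact Df.and (Df.mem 1 0 (by omega) (by omega)) (Df.mem 0 2 (by omega) (by omega))) (fun _ => x) k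
  refine ⟨s, fun u => (hs u).trans ?_⟩
  constructor
  · rintro ⟨_, hu⟩
    exact hu
  · rintro ⟨z, hz, hz2⟩
    exact ⟨h.trans (h.trans hx hz2) hz, z, hz, hz2⟩

theorem t0_power (h : K1Model E k) :
    ∀ x, ∃ p, ∀ y, (∀ z, E z y → E z x) → ∃ y', E y' p ∧ ∀ z, E z y' ↔ E z y := by
  have hdf : Df E 1 (fun v => ∃ p, ∀ y, (∀ z, E z y → E z (v 0)) → ∃ y', E y' p ∧ ∀ z, E z y' ↔ E z y) := by
    refine Df.ex (R := fun p v => ∀ y, (∀ z, E z y → E z (v 0)) → ∃ y', E y' p ∧ ∀ z, E z y' ↔ E z y) ?_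
    refine Df.all (R := fun y (v : ℕ → M) => (∀ z, E z y → E z (v 1)) →
      ∃ y', E y' (v 0) ∧ ∀ z, E z y' ↔ E z y) ?_
    refine Df.imp ?_ ?_
    · refine Df.all (R := fun z (v : ℕ → M) => E z (v 0) → E z (v 2)) ?_
      exact Df.imp (Df.mem 0 1 (by omega) (by omega)) (Df.mem 0 3 (by omega) (by omega))
    · refine Df.ex (R := fun y' (v : ℕ → M) => E y' (v 1) ∧ ∀ z, E z y' ↔ E z (v 0)) ?_
      refine Df.and (Df.mem 0 2 (by omega) (by omega)) ?_
      refine Df.all (R := fun z (v : ℕ → M) => E z (v 0) ↔ E z (v 1)) ?_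
      exact Df.iff (Df.mem 0 1 (by omega) (by omega)) (Df.mem 0 2 (by omega) (by omega))
  refine h.all1 hdf fun x hx => ?_
  refine ⟨k, fun y hy => ?_⟩
  obtain ⟨s, hsk, hs⟩ := h.sepKD (n := 2) (P := fun w => E (w 0) (w 1)) (Df.mem 0 1 (by omega) (by omega)) (fun _ => y) x hx
  refine ⟨s, hsk, fun z => (hs z).trans ?_⟩
  constructor
  · rintro ⟨_, hz⟩
    exact hz
  · intro hz
    exact ⟨hy z hz, hz⟩

theorem t0_inf (h : K1Model E k) :
    ∃ x, (∃ y, E y x ∧ ∀ z, ¬ E z y) ∧ ∀ y, E y x → ∃ z, E z x ∧ ∀ u, E u z ↔ E u y ∨ u = y := by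
  refine ⟨k, ?_, ?_⟩
  · obtain ⟨t, ht⟩ := h.ne
    obtain ⟨s, hsk, hs⟩ := h.sepKD (n := 1) (P := fun w => ¬ w 0 = w 0) (Df.not (Df.eq 0 0 (by omega) (by omega))) (fun _ => t) t ht
    exact ⟨s, hsk, fun z hz => ((hs z).mp hz).2 rfl⟩
  · intro y hy
    refine h.tvD (P := fun w => ∀ u, E u (w 0) ↔ E u (w 1) ∨ u = w 1) ?_ (fun _ => y) hy ?_
    · refine Df.all (R := fun u (w : ℕ → M) => E u (w 0) ↔ E u (w 1) ∨ u = w 1) ?_
      exact Df.iff (Df.mem 0 1 (by omega) (by omega)) (Df.or (Df.mem 0 2 (by omega) (by omega)) (Df.eq 0 2 (by omega) (by omega)))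
    · obtain ⟨s, hs⟩ := h.sepD (n := 2) (P := fun w => E (w 0) (w 1) ∨ w 0 = w 1)
        (Df.or (Df.mem 0 1 (by omega) (by omega)) (Df.eq 0 1 (by omega) (by omega))) (fun _ => y) k
      refine ⟨s, fun u => (hs u).trans ?_⟩
      constructor
      · rintro ⟨_, hu⟩
        exact hu
      · intro hu
        refine ⟨?_, hu⟩
        rcases hu with hu | hu
        · exact h.trans hy hu
        · change u = y at hu
          rw [hu]
          exact hy

theorem t0_tc (h : K1Model E k) : ∀ x, ∃ t, E x t ∧ ∀ y z, E y t → E z y → E z t := by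
  have hdf : Df E 1 (fun v => ∃ t, E (v 0) t ∧ ∀ y z, E y t → E z y → E z t) := by
    refine Df.ex (R := fun t (v : ℕ → M) => E (v 0) t ∧ ∀ y z, E y t → E z y → E z t) ?_
    refine Df.and (Df.mem 1 0 (by omega) (by omega)) ?_
    refine Df.all (R := fun y (v : ℕ → M) => ∀ z, E y (v 0) → E z y → E z (v 0)) ?_
    refine Df.all (R := fun z (v : ℕ → M) => E (v 0) (v 1) → E z (v 0) → E z (v 1)) ?_
    exact Df.imp (Df.mem 1 2 (by omega) (by omega)) (Df.imp (Df.mem 0 1 (by omega) (by omega)) (Df.mem 0 2 (by omega) (by omega)))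
  exact h.all1 hdf fun x hx => ⟨k, hx, fun y z hy hz => h.trans hy hz⟩

/-- For all `a`, `c` there is a set that contains ordered pairs of `x` and `c` for all `x ∈ a`. -/
theorem exists_prod (h : K1Model E k) (a c : M) : ∃ z, ∀ x, E x a → ∃ q, E q z ∧ OP E q x c := by
  obtain ⟨d, hd⟩ := h.t0_pair c c
  obtain ⟨e, he⟩ := h.t0_pair a d
  obtain ⟨s, hs⟩ := h.t0_union e
  have hsa : ∀ x, E x a → E x s := fun x hx => (hs x).2 ⟨a, hx, (he a).2 (Or.inl rfl)⟩
  have hsc : E c s := (hs c).2 ⟨d, (hd c).2 (Or.inl rfl), (he d).2 (Or.inr rfl)⟩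
  obtain ⟨p1, hp1⟩ := h.t0_power s
  obtain ⟨p2, hp2⟩ := h.t0_power p1
  refine ⟨p2, fun x hx => ?_⟩
  have key : ∀ u v, E u s → E v s → ∃ c', E c' p1 ∧ IsPair E c' u v := by
    intro u v hu hv
    obtain ⟨b, hb⟩ := h.t0_pair u v
    obtain ⟨c', h1, h2⟩ := hp1 b (by
      intro z hz
      rcases (hb z).1 hz with rfl | rfl
      · exact hu
      · exact hv)
    exact ⟨c', h1, fun w => (h2 w).trans (hb w)⟩
  obtain ⟨c1, h1, h1'⟩ := key x x (hsa x hx) (hsa x hx)
  obtain ⟨c2, h2, h2'⟩ := key x c (hsa x hx) hsc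
  obtain ⟨b, hb⟩ := h.t0_pair c1 c2
  obtain ⟨q, hq, hq'⟩ := hp2 b (by
    intro z hz
    rcases (hb z).1 hz with rfl | rfl
    · exact h1
    · exact h2)
  have hq2 : ∀ w, E w q ↔ w = c1 ∨ w = c2 := fun w => (hq' w).trans (hb w)
  refine ⟨q, hq, fun w hw => ?_, ⟨c1, (hq2 c1).2 (Or.inl rfl), h1'⟩, ⟨c2, (hq2 c2).2 (Or.inr rfl), h2'⟩⟩
  rcases (hq2 w).1 hw with rfl | rfl
  · exact Or.inl h1'
  · exact Or.inr h2'

/-- `k` contains the components of the ordered pairs in `k`. -/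
theorem op_mem (h : K1Model E k) {c a p : M} (hc : E c k) (hop : OP E c a p) : E a k ∧ E p k := by
  obtain ⟨-, ⟨c1, h1, h1'⟩, ⟨c2, h2, h2'⟩⟩ := hop
  exact ⟨h.trans (h.trans hc h1) ((h1' a).2 (Or.inl rfl)), h.trans (h.trans hc h2) ((h2' p).2 (Or.inr rfl))⟩

/-- Collection for a formula `P (x, y, p)`. -/
theorem coll1 (h : K1Model E k) (hP : Df E 3 P) (a p : M) : ∃ b, ∀ x, E x a → (∃ y, P (cons x (cons y (fun _ => p)))) →
    ∃ y, E y b ∧ P (cons x (cons y (fun _ => p))) := by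
  by_contra hcon
  -- `P (w i, w j, w l)` is definable
  have hPd : ∀ {m : ℕ} (i j l : ℕ), i < m → j < m → l < m →
      Df E m (fun w : ℕ → M => P (cons (w i) (cons (w j) (fun _ => w l)))) := by
    intro m i j l hi hj hl
    refine (hP.ren (m := m) (fun s => match s with
      | 0 => i
      | 1 => j
      | _ + 2 => l) ?_).congr ?_
    · intro s hs
      match s, hs with
      | 0, _ => exact hi
      | 1, _ => exact hj
      | _ + 2, _ => exact hl
    · intro w
      have h1 : (cons (w i) (cons (w j) (fun _ => w l))) = (fun s => w ((fun s => match s with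
          | 0 => i
          | 1 => j
          | _ + 2 => l) s)) := by
        funext s
        match s with
        | 0 => rfl
        | 1 => rfl
        | _ + 2 => rfl
      show P _ ↔ P _
      rw [← h1]
  -- collection fails for the ordered pair `c`
  let Q : (ℕ → M) → Prop := fun v => ∃ a, ∃ p, OP E (v 0) a p ∧ ¬ ∃ b, ∀ x, E x a → (∃ y, P (cons x (cons y (fun _ => p)))) →
    ∃ y, E y b ∧ P (cons x (cons y (fun _ => p)))
  have hQ : Df E 1 Q := by
    refine Df.ex (R := fun a (v : ℕ → M) => ∃ p, OP E (v 0) a p ∧ ¬ ∃ b, ∀ x, E x a → (∃ y, P (cons x (cons y (fun _ => p)))) →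
      ∃ y, E y b ∧ P (cons x (cons y (fun _ => p)))) ?_
    refine Df.ex (R := fun p (w : ℕ → M) => OP E (w 1) (w 0) p ∧ ¬ ∃ b, ∀ x, E x (w 0) → (∃ y, P (cons x (cons y (fun _ => p)))) →
      ∃ y, E y b ∧ P (cons x (cons y (fun _ => p)))) ?_
    refine Df.and (OP.df 2 1 0 (by omega) (by omega) (by omega)) (Df.not ?_)
    refine Df.ex (R := fun b (w : ℕ → M) => ∀ x, E x (w 1) → (∃ y, P (cons x (cons y (fun _ => w 0)))) →
      ∃ y, E y b ∧ P (cons x (cons y (fun _ => w 0)))) ?_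
    refine Df.all (R := fun x (w : ℕ → M) => E x (w 2) → (∃ y, P (cons x (cons y (fun _ => w 1)))) →
      ∃ y, E y (w 0) ∧ P (cons x (cons y (fun _ => w 1)))) ?_
    refine Df.imp (Df.mem 0 3 (by omega) (by omega)) (Df.imp ?_ ?_)
    · refine Df.ex (R := fun y (w : ℕ → M) => P (cons (w 0) (cons y (fun _ => w 2)))) ?_
      exact hPd 1 0 3 (by omega) (by omega) (by omega)
    · refine Df.ex (R := fun y (w : ℕ → M) => E y (w 1) ∧ P (cons (w 0) (cons y (fun _ => w 2)))) ?_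
      exact Df.and (Df.mem 0 2 (by omega) (by omega)) (hPd 1 0 3 (by omega) (by omega) (by omega))
  obtain ⟨c0, hc0⟩ := exists_op h.t0_pair a p
  obtain ⟨c, hck, a', p', hop, hfail⟩ := h.refl1 hQ (z := c0) ⟨a, p, hc0, hcon⟩
  change OP E c a' p' at hop
  have hak : E a' k := (h.op_mem hck hop).1
  -- the ordered pairs `(x, c)`
  have hR : Df E 2 (fun w : ℕ → M => ∃ a, ∃ p, OP E (w 1) a p ∧ ∀ x, E x a → ∃ q, E q (w 0) ∧ OP E q x (w 1)) := by
    refine Df.ex (R := fun a (w : ℕ → M) => ∃ p, OP E (w 1) a p ∧ ∀ x, E x a → ∃ q, E q (w 0) ∧ OP E q x (w 1)) ?_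
    refine Df.ex (R := fun p (w : ℕ → M) => OP E (w 2) (w 0) p ∧ ∀ x, E x (w 0) → ∃ q, E q (w 1) ∧ OP E q x (w 2)) ?_
    refine Df.and (OP.df 3 1 0 (by omega) (by omega) (by omega)) ?_
    refine Df.all (R := fun x (w : ℕ → M) => E x (w 1) → ∃ q, E q (w 2) ∧ OP E q x (w 3)) ?_
    refine Df.imp (Df.mem 0 2 (by omega) (by omega)) ?_
    refine Df.ex (R := fun q (w : ℕ → M) => E q (w 3) ∧ OP E q (w 0) (w 4)) ?_
    exact Df.and (Df.mem 0 4 (by omega) (by omega)) (OP.df 0 1 5 (by omega) (by omega) (by omega))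
  obtain ⟨z0, hz0⟩ := h.exists_prod a' c
  obtain ⟨z, hzk, a2, p2, hop2, hz⟩ := h.tvD hR (fun _ => c) hck ⟨z0, a', p', hop, hz0⟩
  change OP E c a2 p2 at hop2
  obtain ⟨rfl, rfl⟩ := OP.inj hop2 hop
  apply hfail
  refine ⟨k, fun x hx hy => ?_⟩
  obtain ⟨y, hy⟩ := hy
  obtain ⟨q, hqz, hq⟩ := hz x hx
  change E q z at hqz
  change OP E q x c at hq
  have hqk : E q k := h.trans hzk hqz
  have hS : Df E 2 (fun w : ℕ → M => ∃ x, ∃ c, ∃ a, ∃ p, OP E (w 1) x c ∧ OP E c a p ∧ P (cons x (cons (w 0) (fun _ => p)))) := by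
    refine Df.ex (R := fun x (w : ℕ → M) => ∃ c, ∃ a, ∃ p, OP E (w 1) x c ∧ OP E c a p ∧ P (cons x (cons (w 0) (fun _ => p)))) ?_
    refine Df.ex (R := fun c (w : ℕ → M) => ∃ a, ∃ p, OP E (w 2) (w 0) c ∧ OP E c a p ∧ P (cons (w 0) (cons (w 1) (fun _ => p)))) ?_
    refine Df.ex (R := fun a (w : ℕ → M) => ∃ p, OP E (w 3) (w 1) (w 0) ∧ OP E (w 0) a p ∧ P (cons (w 1) (cons (w 2) (fun _ => p)))) ?_
    refine Df.ex (R := fun p (w : ℕ → M) => OP E (w 4) (w 2) (w 1) ∧ OP E (w 1) (w 0) p ∧ P (cons (w 2) (cons (w 3) (fun _ => p)))) ?_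
    exact Df.and (OP.df 5 3 2 (by omega) (by omega) (by omega)) (Df.and (OP.df 2 1 0 (by omega) (by omega) (by omega)) (hPd 3 4 0 (by omega) (by omega) (by omega)))
  obtain ⟨y', hyk, x', c', a'', p'', h1, h2, h3⟩ := h.tvD hS (fun _ => q) hqk ⟨y, x, c, a2, p2, hq, hop, hy⟩
  change OP E q x' c' at h1
  obtain ⟨rfl, rfl⟩ := OP.inj h1 hq
  obtain ⟨rfl, rfl⟩ := OP.inj h2 hop
  exact ⟨y', hyk, h3⟩

/-- Collection for a formula with `n` parameters. -/
theorem colln (h : K1Model E k) : ∀ (n : ℕ) {P : (ℕ → M) → Prop}, Df E (n + 2) P → ∀ (v : ℕ → M) (a : M),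
    ∃ b, ∀ x, E x a → (∃ y, P (cons x (cons y v))) → ∃ y, E y b ∧ P (cons x (cons y v)) := by
  have small : ∀ {P : (ℕ → M) → Prop}, Df E 3 P → ∀ (v : ℕ → M) (a : M),
      ∃ b, ∀ x, E x a → (∃ y, P (cons x (cons y v))) → ∃ y, E y b ∧ P (cons x (cons y v)) := by
    intro P hP v a
    have hd : ∀ x y, P (cons x (cons y (fun _ => v 0))) ↔ P (cons x (cons y v)) := fun x y => hP.dep fun i hi => by
      match i, hi with
      | 0, _ => rfl
      | 1, _ => rfl
      | 2, _ => rfl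
    obtain ⟨b, hb⟩ := h.coll1 hP a (v 0)
    refine ⟨b, fun x hx hy => ?_⟩
    obtain ⟨y, hy⟩ := hy
    obtain ⟨y', h1, h2⟩ := hb x hx ⟨y, (hd x y).2 hy⟩
    exact ⟨y', h1, (hd x y').1 h2⟩
  intro n
  induction n with
  | zero => exact fun {P} hP => small (hP.mono (by omega))
  | succ n ih =>
    rcases Nat.lt_or_ge n 1 with hn | hn
    · exact fun {P} hP => small (hP.mono (by omega))
    · obtain ⟨m, rfl⟩ : ∃ m, n = m + 1 := ⟨n - 1, by omega⟩
      intro P hP v a
      obtain ⟨q, hop⟩ := exists_op h.t0_pair (v 0) (v 1)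
      have hdf : Df E (m + 1 + 2) (fun w : ℕ → M => ∃ s, ∃ t, OP E (w 2) s t ∧
          P (cons (w 0) (cons (w 1) (cons s (cons t (fun i => w (i + 3))))))) := by
        refine Df.ex (R := fun s w => ∃ t, OP E (w 2) s t ∧
          P (cons (w 0) (cons (w 1) (cons s (cons t (fun i => w (i + 3))))))) ?_
        refine Df.ex (R := fun t w => OP E (w 3) (w 0) t ∧
          P (cons (w 1) (cons (w 2) (cons (w 0) (cons t (fun i => w (i + 4))))))) ?_
        refine Df.and (OP.df 4 1 0 (by omega) (by omega) (by omega)) ?_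
        refine (hP.ren (m := m + 1 + 2 + 1 + 1) (fun i => match i with
          | 0 => 2
          | 1 => 3
          | 2 => 1
          | 3 => 0
          | i + 4 => i + 5) ?_).congr ?_
        · intro i hi
          match i, hi with
          | 0, _ => show 2 < m + 5; omega
          | 1, _ => show 3 < m + 5; omega
          | 2, _ => show 1 < m + 5; omega
          | 3, _ => show 0 < m + 5; omega
          | i + 4, hi => show i + 5 < m + 5; omega
        · intro w
          have h1 : (cons (w (1 + 1)) (cons (w (2 + 1)) (cons (w (0 + 1)) (cons (w 0) (fun i => w (i + 4 + 1)))))) =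
              (fun i => w ((fun i => match i with
                | 0 => 2
                | 1 => 3
                | 2 => 1
                | 3 => 0
                | i + 4 => i + 5) i)) := by
            funext i
            match i with
            | 0 => rfl
            | 1 => rfl
            | 2 => rfl
            | 3 => rfl
            | i + 4 => rfl
          show P _ ↔ P _
          rw [← h1]
      have heta : ∀ x y, cons x (cons y (cons (v 0) (cons (v 1) (fun i => v (i + 2))))) = cons x (cons y v) := by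
        intro x y
        funext i
        match i with
        | 0 => rfl
        | 1 => rfl
        | 2 => rfl
        | 3 => rfl
        | i + 4 => rfl
      obtain ⟨b, hb⟩ := ih hdf (cons q (fun i => v (i + 2))) a
      refine ⟨b, fun x hx hy => ?_⟩
      obtain ⟨y, hy⟩ := hy
      obtain ⟨y', h1, s, t, h2, h3⟩ := hb x hx ⟨y, v 0, v 1, hop, by
        show P (cons x (cons y (cons (v 0) (cons (v 1) (fun i => v (i + 2))))))
        rw [heta]
        exact hy⟩
      obtain ⟨rfl, rfl⟩ := OP.inj h2 hop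
      refine ⟨y', h1, ?_⟩
      rw [← heta]
      exact h3

theorem t0 (h : K1Model E k) : T0 E := by
  refine ⟨h.t0_pair, h.t0_union, h.t0_power, h.t0_inf, h.t0_tc, h.sep, ?_⟩
  intro f v a
  obtain ⟨N, hN⟩ := exists_bd f
  exact h.colln N (P := fun v => Sat E f v) ⟨f, hN.mono (by omega), fun _ => Iff.rfl⟩ v a

end K1Model

end Pool.Agent.Helper62.ZH
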