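import Pool.Agent.Helper62.ZH.Quo

/-!
# ZH-07 QT0: the quotient by bisimilarity satisfies `T0`

Proof. Write every element as `π a` (`hq.surj`), every sequence as `fun i => π (v i)` (choice). `mem_iff` and `eq_iff` describe `E'`.
* pair: `z` the pair of `a`, `b` in `M`; `E' (π u) (π z) ↔ ∃ u' ∈ z, Sim u' u ↔ Sim a u ∨ Sim b u`.
* union: `y` the union of `a`: `E' (π u) (π y) ↔ ∃ u' z, u' ∈ z ∈ a, Sim u' u`; the other side: `∃ Z, E' (π u) Z, E' Z (π a)`: `Z = π z`, some `z' ∈ a` with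
  `Sim z' z`, and `u' ∈ z` with `Sim u' u`; use `Sim.step` to move `u'` into `z'`.
* power: for `x = π a` let `p` be the weak power set of `a`, take `π p`. Let `Y = π b` with `E' z Y → E' z (π a)` for all `z`. By `sepD` (predicate
  `∃ b', E b' b ∧ Sim E b' (w 0)`) let `s := {u ∈ a : E' (π u) (π b)}`, it has a copy `s' ∈ p` with the same elements. `π s'` is as required: `E' (π z) (π s')
  ↔ E' (π z) (π b)`: left to right: `u ∈ s'`, `Sim u z`, `π u = π z`; right to left: `E' (π z) (π a)` so `u ∈ a`, `Sim u z`, `E' (π u) (π b)` as `π u = π z`.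
* inf: for the set `x` of `M` take `π x`: if `y` is empty so is `π y`; for `E' Y (π x)`: `Y = π y` with `y ∈ x` (replace by the bisimilar element),
  `z ∈ x` as in `h.inf`, `E' (π u) (π z) ↔ (∃ u' ∈ y, Sim u' u) ∨ Sim y u`.
* tc: `t` transitive with `a ∈ t`: `π t`: if `E' Y (π t)` then `Y = π y`, `y ∈ t`; `E' Z (π y)` → `Z = π z`, `z ∈ y`, so `z ∈ t`.
* sep for `f`, `π ∘ v`, `π a`: by `h.sep (trQ f)`: `s` with `x ∈ s ↔ x ∈ a ∧ Sat E (trQ f) (cons x v)`; `π s`; use `Quo.sat`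
  (`cons (π x) (fun i => π (v i)) = fun i => π (cons x v i)`).
* coll for `f`: `h.coll (trQ f)` on `a` gives `b`; `π b`.
-/

set_option autoImplicit false

namespace Pool.Agent.Helper62.ZH

variable {M M' : Type} {E : M → M → Prop} {E' : M' → M' → Prop} {π : M → M'}

theorem Quo.t0 (h : T0 E) (hq : Quo E E' π) : T0 E' := by
  have hc : ∀ (x : M) (v : ℕ → M), cons (π x) (fun i => π (v i)) = fun i => π (cons x v i) := by
    intro x v
    funext i
    cases i <;> rfl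
  have hrep : ∀ v' : ℕ → M', ∃ v : ℕ → M, (fun i => π (v i)) = v' := by
    intro v'
    choose g hg using hq.surj
    exact ⟨fun i => g (v' i), funext fun i => hg (v' i)⟩
  have hin : ∀ {x y : M}, E x y → E' (π x) (π y) := fun {x y} hxy =>
    (hq.mem_iff x y).2 ⟨x, hxy, h.sim_refl x⟩
  have hout : ∀ {X : M'} {y : M}, E' X (π y) → ∃ x, E x y ∧ π x = X := by
    intro X y hX
    obtain ⟨x0, rfl⟩ := hq.surj X
    obtain ⟨x, hx, hs⟩ := (hq.mem_iff x0 y).1 hX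
    exact ⟨x, hx, (hq.eq_iff x x0).2 hs⟩
  have hstep : ∀ {z z' u : M}, π z' = π z → E u z → ∃ u', E u' z' ∧ π u' = π u := by
    intro z z' u hz hu
    have h1 : Sim E z' z := (hq.eq_iff z' z).1 hz
    obtain ⟨u', hu', hs⟩ := h1.step.2 u hu
    exact ⟨u', hu', (hq.eq_iff u' u).2 hs⟩
  refine ⟨?_, ?_, ?_, ?_, ?_, ?_, ?_⟩
  · intro X Y
    obtain ⟨a, rfl⟩ := hq.surj X
    obtain ⟨b, rfl⟩ := hq.surj Y
    obtain ⟨z, hz⟩ := h.pair a b
    refine ⟨π z, fun U => ⟨fun hU => ?_, ?_⟩⟩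
    · obtain ⟨u, hu, rfl⟩ := hout hU
      rcases (hz u).1 hu with rfl | rfl
      · exact Or.inl rfl
      · exact Or.inr rfl
    · rintro (rfl | rfl)
      · exact hin ((hz a).2 (Or.inl rfl))
      · exact hin ((hz b).2 (Or.inr rfl))
  · intro X
    obtain ⟨a, rfl⟩ := hq.surj X
    obtain ⟨y, hy⟩ := h.union a
    refine ⟨π y, fun U => ⟨fun hU => ?_, ?_⟩⟩
    · obtain ⟨u, hu, rfl⟩ := hout hU
      obtain ⟨z, huz, hza⟩ := (hy u).1 hu
      exact ⟨π z, hin huz, hin hza⟩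
    · rintro ⟨Z, hUZ, hZ⟩
      obtain ⟨z, hz, rfl⟩ := hout hZ
      obtain ⟨u, hu, rfl⟩ := hout hUZ
      exact hin ((hy u).2 ⟨z, hu, hz⟩)
  · intro X
    obtain ⟨a, rfl⟩ := hq.surj X
    obtain ⟨p, hp⟩ := h.power a
    refine ⟨π p, fun Y hY => ?_⟩
    obtain ⟨b, rfl⟩ := hq.surj Y
    have hdf : Df E 2 (fun w => ∃ b', E b' (w 1) ∧ Sim E b' (w 0)) :=
      Df.ex (R := fun b' w => E b' (w 1) ∧ Sim E b' (w 0)) (Df.and (Df.mem 0 2 (by omega) (by omega)) (Sim.df 0 1 (by omega) (by omega)))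
    obtain ⟨s, hs⟩ := h.sepD hdf (fun _ => b) a
    have hs' : ∀ x, E x s ↔ E x a ∧ ∃ b', E b' b ∧ π b' = π x := by
      intro x
      rw [hs x]
      constructor
      · rintro ⟨h1, b', h2, h3⟩
        exact ⟨h1, b', h2, (hq.eq_iff b' x).2 h3⟩
      · rintro ⟨h1, b', h2, h3⟩
        exact ⟨h1, b', h2, (hq.eq_iff b' x).1 h3⟩
    obtain ⟨s', hs1, hs2⟩ := hp s (fun z hz => ((hs' z).1 hz).1)
    refine ⟨π s', hin hs1, fun Z => ⟨fun hZ => ?_, fun hZ => ?_⟩⟩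
    · obtain ⟨u, hu, rfl⟩ := hout hZ
      obtain ⟨_, b', hb', he⟩ := (hs' u).1 ((hs2 u).1 hu)
      rw [← he]
      exact hin hb'
    · obtain ⟨u, hu, hu2⟩ := hout (hY Z hZ)
      obtain ⟨b', hb', hb2⟩ := hout hZ
      have h1 : E u s' := (hs2 u).2 ((hs' u).2 ⟨hu, b', hb', hb2.trans hu2.symm⟩)
      rw [← hu2]
      exact hin h1
  · obtain ⟨x, ⟨y0, hy0, hemp⟩, hsx⟩ := h.inf
    refine ⟨π x, ⟨π y0, hin hy0, fun Z hZ => ?_⟩, fun Y hY => ?_⟩
    · obtain ⟨z, hz, _⟩ := hout hZ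
      exact hemp z hz
    · obtain ⟨y, hy, rfl⟩ := hout hY
      obtain ⟨z, hz, hzu⟩ := hsx y hy
      refine ⟨π z, hin hz, fun U => ⟨fun hU => ?_, ?_⟩⟩
      · obtain ⟨u, hu, rfl⟩ := hout hU
        rcases (hzu u).1 hu with h1 | rfl
        · exact Or.inl (hin h1)
        · exact Or.inr rfl
      · rintro (hU | rfl)
        · obtain ⟨u, hu, rfl⟩ := hout hU
          exact hin ((hzu u).2 (Or.inl hu))
        · exact hin ((hzu y).2 (Or.inr rfl))
  · intro X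
    obtain ⟨a, rfl⟩ := hq.surj X
    obtain ⟨t, hat, htr⟩ := h.tc a
    refine ⟨π t, hin hat, fun Y Z hY hZ => ?_⟩
    obtain ⟨y, hy, rfl⟩ := hout hY
    obtain ⟨z, hz, rfl⟩ := hout hZ
    exact hin (htr y z hy hz)
  · intro f v' A
    obtain ⟨v, rfl⟩ := hrep v'
    obtain ⟨a, rfl⟩ := hq.surj A
    obtain ⟨s, hs⟩ := h.sep (trQ f) v a
    have hsat : ∀ x, Sat E' f (cons (π x) (fun i => π (v i))) ↔ Sat E (trQ f) (cons x v) := by
      intro x
      rw [hc]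
      exact hq.sat f _
    refine ⟨π s, fun X => ⟨fun hX => ?_, ?_⟩⟩
    · obtain ⟨x, hx, rfl⟩ := hout hX
      obtain ⟨h1, h2⟩ := (hs x).1 hx
      exact ⟨hin h1, (hsat x).2 h2⟩
    · rintro ⟨h1, h2⟩
      obtain ⟨x, hx, rfl⟩ := hout h1
      exact hin ((hs x).2 ⟨hx, (hsat x).1 h2⟩)
  · intro f v' A
    obtain ⟨v, rfl⟩ := hrep v'
    obtain ⟨a, rfl⟩ := hq.surj A
    obtain ⟨b, hb⟩ := h.coll (trQ f) v a
    have hsat : ∀ x y, Sat E' f (cons (π x) (cons (π y) (fun i => π (v i)))) ↔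
        Sat E (trQ f) (cons x (cons y v)) := by
      intro x y
      rw [hc, hc]
      exact hq.sat f _
    refine ⟨π b, fun X hX hY => ?_⟩
    obtain ⟨x, hx, rfl⟩ := hout hX
    obtain ⟨Y, hY⟩ := hY
    obtain ⟨y, rfl⟩ := hq.surj Y
    obtain ⟨y', hy', h2⟩ := hb x hx ⟨y, (hsat x y).1 hY⟩
    exact ⟨π y', hin hy', (hsat x y').2 h2⟩

end Pool.Agent.Helper62.ZH
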