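import Pool.Agent.Helper62.ZH.Reg

/-!
# ZH-09 RegZF: in `T0` with extensionality the regular sets form a model of ZF

Proof. By `rg_iff` elements of regular sets are regular and a set all whose elements are regular is regular. Write `N := {x // Rg E x}`.
* ext: `he`, elements of `x.1` are regular.
* found: `x` has an element `y`; `y` is regular and `y ∈ x.1`, so `Rg E y.1` for `c := x.1` gives the minimal element.
* pair, union: the sets of `M` consist of regular elements.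
* power: weak power set `p` of `x.1`; by `sepD` `p' := {u ∈ p : u ⊆ x}` (`Sub.df`); all subsets of `x` are in it by `he` (a set with the same elements is
  equal); its elements are regular since subsets of `x`.
* inf: `w` of `h.inf`, `w' := {u ∈ w : Rg u}` (`sepD`, `Rg.df`): the empty set is regular, the successor of a regular `y` is regular.
* sep: `h.sep (trR f)` with `sat_trR`.
* repl: for `f` and `a`: `h.coll` for `andF (trR f) (rgF 1)` on `a.1` gives `b`; `b' := {y ∈ b : Rg y ∧ ∃ x ∈ a, Sat (trR f) (x, y, v)}` by `sepD`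
  (its definability: `⟨_, _, fun _ => Iff.rfl⟩`-style from an explicit formula, or `Df.ex`, `Df.and` and `Df.ren`).
-/

set_option autoImplicit false

namespace Pool.Agent.Helper62.ZH

variable {M : Type} {E : M → M → Prop}

private theorem T0.rg_mem (h : T0 E) {x y : M} (hx : Rg E x) (hy : E y x) : Rg E y := h.rg_iff.1 hx y hy

private theorem T0.rg_of (h : T0 E) {x : M} (hx : ∀ y, E y x → Rg E y) : Rg E x := h.rg_iff.2 hx

private theorem coe_cons {N : Set M} (x : N) (v : ℕ → N) : (fun i => ((cons x v i : N) : M)) = cons (x : M) (fun i => (v i : M)) := by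
  funext i
  cases i <;> rfl

private theorem zf_power (h : T0 E) (he : ∀ x y, (∀ z, E z x ↔ E z y) → x = y) (x : {x // Rg E x}) :
    ∃ y : {x // Rg E x}, ∀ u : {x // Rg E x}, E u.1 y.1 ↔ ∀ z : {x // Rg E x}, E z.1 u.1 → E z.1 x.1 := by
  obtain ⟨p, hp⟩ := h.power x.1
  obtain ⟨q, hq⟩ := h.sepD (Sub.df (n := 2) 0 1 (by omega) (by omega)) (fun _ => x.1) p
  have hq' : ∀ u, E u q ↔ E u p ∧ Sub E u x.1 := hq
  have hqr : Rg E q := h.rg_of fun u hu => h.rg_of fun z hz => h.rg_mem x.2 (((hq' u).1 hu).2 z hz)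
  refine ⟨⟨q, hqr⟩, fun u => ?_⟩
  constructor
  · intro hu z hz
    exact ((hq' u.1).1 hu).2 z.1 hz
  · intro hu
    have hsub : Sub E u.1 x.1 := fun z hz => hu ⟨z, h.rg_mem u.2 hz⟩ hz
    refine (hq' u.1).2 ⟨?_, hsub⟩
    obtain ⟨y', hy1, hy2⟩ := hp u.1 hsub
    rw [← he y' u.1 hy2]
    exact hy1

private theorem zf_inf (h : T0 E) : ∃ x : {x // Rg E x}, (∃ y : {x // Rg E x}, E y.1 x.1 ∧ ∀ z : {x // Rg E x}, ¬ E z.1 y.1) ∧
    ∀ y : {x // Rg E x}, E y.1 x.1 → ∃ z : {x // Rg E x}, E z.1 x.1 ∧ ∀ u : {x // Rg E x}, E u.1 z.1 ↔ E u.1 y.1 ∨ u = y := by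
  obtain ⟨w, ⟨e, hew, hee⟩, hs⟩ := h.inf
  obtain ⟨q, hq⟩ := h.sepD (Rg.df (n := 1) 0 (by omega)) (fun _ => w) w
  have hq' : ∀ u, E u q ↔ E u w ∧ Rg E u := hq
  have hqr : Rg E q := h.rg_of fun u hu => ((hq' u).1 hu).2
  have her : Rg E e := h.rg_of fun z hz => absurd hz (hee z)
  refine ⟨⟨q, hqr⟩, ⟨⟨e, her⟩, (hq' e).2 ⟨hew, her⟩, fun z => hee z.1⟩, fun y hy => ?_⟩
  obtain ⟨z, hz1, hz2⟩ := hs y.1 ((hq' y.1).1 hy).1
  have hzr : Rg E z := h.rg_of fun u hu => by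
    rcases (hz2 u).1 hu with h1 | h1
    · exact h.rg_mem y.2 h1
    · rw [h1]; exact y.2
  refine ⟨⟨z, hzr⟩, (hq' z).2 ⟨hz1, hzr⟩, fun u => ?_⟩
  show E u.1 z ↔ E u.1 y.1 ∨ u = y
  rw [hz2, Subtype.ext_iff]

private theorem zf_sep (h : T0 E) (f : Fml) (v : ℕ → {x // Rg E x}) (a : {x // Rg E x}) :
    ∃ s : {x // Rg E x}, ∀ x : {x // Rg E x}, E x.1 s.1 ↔ E x.1 a.1 ∧ Sat (fun x y : {x // Rg E x} => E x.1 y.1) f (cons x v) := by
  obtain ⟨s, hs⟩ := h.sep (trR f) (fun i => (v i).1) a.1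
  have hsr : Rg E s := h.rg_of fun u hu => h.rg_mem a.2 ((hs u).1 hu).1
  refine ⟨⟨s, hsr⟩, fun x => ?_⟩
  show E x.1 s ↔ _
  rw [hs, sat_trR]
  have h2 : (fun i => (cons x v i).1) = cons x.1 (fun i => (v i).1) := by
    funext i
    cases i <;> rfl
  rw [h2]

/-- The renaming `x, y, v ↦ x, y, a, v`. -/
private def sh : ℕ → ℕ
  | 0 => 0
  | 1 => 1
  | i + 2 => i + 3

private theorem zf_repl (h : T0 E) (f : Fml) (v : ℕ → {x // Rg E x}) (a : {x // Rg E x})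
    (hu : ∀ x : {x // Rg E x}, E x.1 a.1 → ∃! y : {x // Rg E x}, Sat (fun x y : {x // Rg E x} => E x.1 y.1) f (cons x (cons y v))) :
    ∃ b : {x // Rg E x}, ∀ y : {x // Rg E x}, E y.1 b.1 ↔ ∃ x : {x // Rg E x}, E x.1 a.1 ∧
      Sat (fun x y : {x // Rg E x} => E x.1 y.1) f (cons x (cons y v)) := by
  have key : ∀ x y : {x // Rg E x}, Sat (fun x y : {x // Rg E x} => E x.1 y.1) f (cons x (cons y v)) ↔
      Sat E (trR f) (cons x.1 (cons y.1 (fun i => (v i).1))) := by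
    intro x y
    rw [sat_trR]
    have h2 : (fun i => (cons x (cons y v) i).1) = cons x.1 (cons y.1 (fun i => (v i).1)) := by
      funext i
      cases i with
      | zero => rfl
      | succ i => cases i <;> rfl
    rw [h2]
  obtain ⟨b, hb⟩ := h.coll (andF (trR f) (rgF 1)) (fun i => (v i).1) a.1
  obtain ⟨c, hc⟩ := h.sep (andF (rgF 0) (.ex (andF (.mem 0 2) (ren sh (trR f))))) (cons a.1 (fun i => (v i).1)) b
  have hc' : ∀ y, E y c ↔ E y b ∧ Rg E y ∧ ∃ x, E x a.1 ∧ Sat E (trR f) (cons x (cons y (fun i => (v i).1))) := by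
    intro y
    rw [hc, sat_and, sat_rgF, sat_ex]
    refine and_congr Iff.rfl (and_congr Iff.rfl (exists_congr fun x => ?_))
    rw [sat_and, sat_ren]
    have h2 : (fun i => cons x (cons y (cons a.1 (fun i => (v i).1))) (sh i)) = cons x (cons y (fun i => (v i).1)) := by
      funext i
      cases i with
      | zero => rfl
      | succ i => cases i <;> rfl
    rw [h2]
    exact Iff.rfl
  have hcr : Rg E c := h.rg_of fun y hy => ((hc' y).1 hy).2.1
  refine ⟨⟨c, hcr⟩, fun y => ?_⟩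
  constructor
  · intro hy
    obtain ⟨_, _, x, hx1, hx2⟩ := (hc' y.1).1 hy
    exact ⟨⟨x, h.rg_mem a.2 hx1⟩, hx1, (key _ _).2 hx2⟩
  · rintro ⟨x, hx1, hx2⟩
    refine (hc' y.1).2 ⟨?_, y.2, x.1, hx1, (key _ _).1 hx2⟩
    obtain ⟨y2, hy2, hy3⟩ := hb x.1 hx1 ⟨y.1, by
      rw [sat_and, sat_rgF]
      exact ⟨(key _ _).1 hx2, y.2⟩⟩
    rw [sat_and, sat_rgF] at hy3
    have hr2 : Rg E y2 := hy3.2
    have h4 : Sat (fun x y : {x // Rg E x} => E x.1 y.1) f (cons x (cons ⟨y2, hr2⟩ v)) := (key x ⟨y2, hr2⟩).2 hy3.1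
    have h5 : (⟨y2, hr2⟩ : {x // Rg E x}) = y := (hu x hx1).unique h4 hx2
    have h6 : y2 = y.1 := congrArg Subtype.val h5
    rw [← h6]
    exact hy2

theorem T0.zf (h : T0 E) (he : ∀ x y, (∀ z, E z x ↔ E z y) → x = y) : ZFModel (fun x y : {x // Rg E x} => E x.1 y.1) := by
  refine ⟨?_, ?_, ?_, ?_, zf_power h he, zf_inf h, zf_sep h, zf_repl h⟩
  · intro x y hxy
    refine Subtype.ext (he _ _ fun z => ⟨fun hz => ?_, fun hz => ?_⟩)
    · exact (hxy ⟨z, h.rg_mem x.2 hz⟩).1 hz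
    · exact (hxy ⟨z, h.rg_mem y.2 hz⟩).2 hz
  · rintro x ⟨y, hy⟩
    obtain ⟨m, hm1, hm2⟩ := y.2 x.1 hy
    exact ⟨⟨m, h.rg_mem x.2 hm1⟩, hm1, fun z => hm2 z.1⟩
  · intro x y
    obtain ⟨z, hz⟩ := h.pair x.1 y.1
    have hzr : Rg E z := h.rg_of fun u hu => by
      rcases (hz u).1 hu with h1 | h1
      · rw [h1]; exact x.2
      · rw [h1]; exact y.2
    refine ⟨⟨z, hzr⟩, fun u => ?_⟩
    show E u.1 z ↔ _
    rw [hz, Subtype.ext_iff, Subtype.ext_iff]
  · intro x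
    obtain ⟨y, hy⟩ := h.union x.1
    have hyr : Rg E y := h.rg_of fun u hu => by
      obtain ⟨z, hz1, hz2⟩ := (hy u).1 hu
      exact h.rg_mem (h.rg_mem x.2 hz2) hz1
    refine ⟨⟨y, hyr⟩, fun u => ?_⟩
    show E u.1 y ↔ _
    rw [hy]
    constructor
    · rintro ⟨z, hz1, hz2⟩
      exact ⟨⟨z, h.rg_mem x.2 hz2⟩, hz1, hz2⟩
    · rintro ⟨z, hz1, hz2⟩
      exact ⟨z.1, hz1, hz2⟩

end Pool.Agent.Helper62.ZH
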