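import Pool.Agent.Helper62.ZH.Basic

/-!
# ZH-01 KPair: ordered pairs; `k` is transitive and closed under pairs

Proofs. (1) `OP.inj`: let `q` be an ordered pair of `x, y` and of `x', y'`. The `c ∈ q` with `IsPair c x x` satisfies `IsPair c x' x'` or
`IsPair c x' y'`, so `x' ∈ c` and `x' = x`. The `c ∈ q` with `IsPair c x y` satisfies `IsPair c x x` or `IsPair c x y'` so `y = x` or `y = y'`; in the
case `y = x` the `c ∈ q` with `IsPair c x y'` (it exists) satisfies `IsPair c x x` (both alternatives), so `y' = x = y`.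
(2) `exists_op`: take `c1` for `x, x`, `c2` for `x, y`, `q` for `c1, c2`.
(3) `KModel.trans`: by `sepKD` for `P w := ¬ E (w 0) (w 1)`, `v := fun _ => k` there is `d` with `E d k` and `E x d ↔ E x a ∧ ¬ E x k`. If `d` has an
element then by `tvD` for `P w := E (w 0) (w 1)`, `v := fun _ => d`, it has an element in `k`: contradiction.
(4) `KModel.pair`: `tvD` for `P w := IsPair E (w 0) (w 1) (w 2)`, `v := cons x (fun _ => y)`; existence of `z` by `sepD` on `k`
(`P w := w 0 = w 1 ∨ w 0 = w 2`).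
(5) `KModel.op`: by (4) take `c1, c2, q` in `k` as in (2).
-/

set_option autoImplicit false

namespace Pool.Agent.Helper62.ZH

variable {M : Type} {E : M → M → Prop} {k : M}

theorem OP.inj {q x y x' y' : M} (h : OP E q x y) (h' : OP E q x' y') : x = x' ∧ y = y' := by
  obtain ⟨h1, ⟨c1, hc1, hp1⟩, ⟨c2, hc2, hp2⟩⟩ := h
  obtain ⟨h1', ⟨c1', hc1', hp1'⟩, ⟨c2', hc2', hp2'⟩⟩ := h'
  have hx : x = x' := by
    have hx' : E x' c1 := by
      rcases h1' c1 hc1 with h | h
      · exact (h x').mpr (Or.inl rfl)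
      · exact (h x').mpr (Or.inl rfl)
    rcases (hp1 x').mp hx' with h | h
    · exact h.symm
    · exact h.symm
  refine ⟨hx, ?_⟩
  subst hx
  have hy : E y c2 := (hp2 y).mpr (Or.inr rfl)
  have hyy : y = x ∨ y = y' := by
    rcases h1' c2 hc2 with h | h
    · rcases (h y).mp hy with h | h
      · exact Or.inl h
      · exact Or.inl h
    · exact (h y).mp hy
  rcases hyy with h | h
  · have hy' : E y' c2' := (hp2' y').mpr (Or.inr rfl)
    have h2 : y' = x := by
      rcases h1 c2' hc2' with h3 | h3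
      · rcases (h3 y').mp hy' with h4 | h4
        · exact h4
        · exact h4
      · rcases (h3 y').mp hy' with h4 | h4
        · exact h4
        · exact h4.trans h
    exact h.trans h2.symm
  · exact h

theorem exists_op (hp : ∀ x y, ∃ z, IsPair E z x y) (x y : M) : ∃ q, OP E q x y := by
  obtain ⟨c1, h1⟩ := hp x x
  obtain ⟨c2, h2⟩ := hp x y
  obtain ⟨q, hq⟩ := hp c1 c2
  refine ⟨q, fun c hc => ?_, ⟨c1, (hq c1).mpr (Or.inl rfl), h1⟩, ⟨c2, (hq c2).mpr (Or.inr rfl), h2⟩⟩
  rcases (hq c).mp hc with rfl | rfl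
  · exact Or.inl h1
  · exact Or.inr h2

theorem KModel.trans (h : KModel E k) {a x : M} (ha : E a k) (hx : E x a) : E x k := by
  obtain ⟨d, hdk, hd⟩ := h.sepKD (n := 2) (P := fun w => ¬ E (w 0) (w 1)) (Df.not (Df.mem 0 1 (by omega) (by omega)))
    (fun _ => k) a ha
  by_contra hxk
  obtain ⟨z, hz, hz2⟩ := h.tvD (P := fun w => E (w 0) (w 1)) (Df.mem 0 1 (by omega) (by omega)) (fun _ => d) hdk hdk
    ⟨x, (hd x).mpr ⟨hx, hxk⟩⟩
  exact ((hd z).mp hz2).2 hz

theorem KModel.pair (h : KModel E k) {x y : M} (hx : E x k) (hy : E y k) : ∃ z, E z k ∧ IsPair E z x y := by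
  refine h.tvD (P := fun w => IsPair E (w 0) (w 1) (w 2)) (IsPair.df 0 1 2 (by omega) (by omega) (by omega))
    (cons x (fun _ => y)) hx hy ?_
  obtain ⟨z, hz⟩ := h.sepD (n := 3) (P := fun w => w 0 = w 1 ∨ w 0 = w 2)
    (Df.or (Df.eq 0 1 (by omega) (by omega)) (Df.eq 0 2 (by omega) (by omega))) (cons x (fun _ => y)) k
  refine ⟨z, fun u => (hz u).trans ?_⟩
  constructor
  · rintro ⟨_, hu⟩
    exact hu
  · intro hu
    refine ⟨?_, hu⟩
    rcases hu with hu | hu
    · change u = x at hu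
      rw [hu]
      exact hx
    · change u = y at hu
      rw [hu]
      exact hy

theorem KModel.op (h : KModel E k) {x y : M} (hx : E x k) (hy : E y k) : ∃ q, E q k ∧ OP E q x y := by
  obtain ⟨c1, h1k, h1⟩ := h.pair hx hx
  obtain ⟨c2, h2k, h2⟩ := h.pair hx hy
  obtain ⟨q, hqk, hq⟩ := h.pair h1k h2k
  refine ⟨q, hqk, fun c hc => ?_, ⟨c1, (hq c1).mpr (Or.inl rfl), h1⟩,
    ⟨c2, (hq c2).mpr (Or.inr rfl), h2⟩⟩
  rcases (hq c).mp hc with rfl | rfl
  · exact Or.inl h1
  · exact Or.inr h2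

end Pool.Agent.Helper62.ZH
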