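import Pool.Agent.Helper62.ZH.KPair

/-!
# ZH-02 KRefl: witnesses in `k` for formulas with `n` parameters in `k`; reflection

Proofs. `KModel.tvn`: induction on `n`. For `n ≤ 2` use `tvD` (`Df.mono` to `3`) with the parameters `v 0`, `v 1` replaced by an element
`t` of `k` (`h.ne`) where they are not in `k` (values at indices `≥ n + 1` of `cons z v` do not matter: `Df.dep`).
Step from `n ≥ 2` to `n + 1`: `P` has the variables `z, v 0, ..., v n`. Take `q ∈ k` with `OP q (v 0) (v 1)` (`KModel.op`) and
`P' w := ∃ x, ∃ y, OP E (w 1) x y ∧ P (z := w 0, x, y, w 2, w 3, ...)`; as a predicate of `(z, q, v 2, ..., v n)` it has `n + 1` variables. Apply the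
induction hypothesis to `P'` and `cons q (fun i => v (i + 2))`; by `OP.inj` its witness is a witness for `P`.
(To get `Df E (n + 1) P'` use `Df.ex`, `Df.and`, `OP.df`, `Df.ren` with the renaming that sends the variables `z, x, y, v 2, ...` to their places:
in the environment `y, x, z, q, v 2, ...` this is `0 ↦ 2, 1 ↦ 1, 2 ↦ 0, i + 3 ↦ i + 4`.)
`KModel.refl`: induction on `n`, `P' v := ∃ x, P (cons x v)` has `n` variables; the induction hypothesis gives `v` in `k` with `∃ x, P (cons x v)`,
then `tvn` gives `x ∈ k`; take `cons x v`. For `n = 0` take the constant sequence `t ∈ k` (`Df.dep`).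
-/

set_option autoImplicit false

namespace Pool.Agent.Helper62.ZH

variable {M : Type} {E : M → M → Prop} {k : M}

theorem KModel.tvn (h : KModel E k) : ∀ (n : ℕ) {P : (ℕ → M) → Prop}, Df E (n + 1) P → ∀ v : ℕ → M, (∀ i, i < n → E (v i) k) →
    (∃ z, P (cons z v)) → ∃ z, E z k ∧ P (cons z v) := by
  obtain ⟨t, ht⟩ := h.ne
  have small : ∀ n, n ≤ 2 → ∀ {P : (ℕ → M) → Prop}, Df E (n + 1) P → ∀ v : ℕ → M, (∀ i, i < n → E (v i) k) →
      (∃ z, P (cons z v)) → ∃ z, E z k ∧ P (cons z v) := by
    intro n hn P hP v hv hz
    have hmem : ∀ i, E (if i < n then v i else t) k := by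
      intro i
      split_ifs with hi
      · exact hv i hi
      · exact ht
    have hdep : ∀ z, P (cons z v) ↔ P (cons z (fun i => if i < n then v i else t)) := by
      intro z
      refine hP.dep fun i hi => ?_
      cases i with
      | zero => rfl
      | succ i =>
        show v i = if i < n then v i else t
        rw [if_pos (by omega)]
    obtain ⟨z, hz⟩ := hz
    obtain ⟨z', h1, h2⟩ := h.tvD (hP.mono (by omega)) (fun i => if i < n then v i else t) (hmem 0) (hmem 1)
      ⟨z, (hdep z).1 hz⟩
    exact ⟨z', h1, (hdep z').2 h2⟩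
  intro n
  induction n with
  | zero => exact fun {P} => small 0 (by omega)
  | succ n ih =>
    rcases Nat.lt_or_ge n 2 with hn | hn
    · exact fun {P} => small (n + 1) (by omega)
    · obtain ⟨m, rfl⟩ : ∃ m, n = m + 2 := ⟨n - 2, by omega⟩
      intro P hP v hv hz
      obtain ⟨q, hq, hop⟩ := h.op (hv 0 (by omega)) (hv 1 (by omega))
      have hdf : Df E (m + 2 + 1) (fun w : ℕ → M => ∃ x, ∃ y, OP E (w 1) x y ∧
          P (cons (w 0) (cons x (cons y (fun i => w (i + 2)))))) := by
        refine Df.ex (R := fun x w => ∃ y, OP E (w 1) x y ∧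
          P (cons (w 0) (cons x (cons y (fun i => w (i + 2)))))) ?_
        refine Df.ex (R := fun y w => OP E (w 2) (w 0) y ∧
          P (cons (w 1) (cons (w 0) (cons y (fun i => w (i + 3)))))) ?_
        refine Df.and (OP.df 3 1 0 (by omega) (by omega) (by omega)) ?_
        refine (hP.ren (m := m + 2 + 1 + 1 + 1) (fun i => match i with
          | 0 => 2
          | 1 => 1
          | 2 => 0
          | i + 3 => i + 4) ?_).congr ?_
        · intro i hi
          match i, hi with
          | 0, _ => show 2 < m + 5; omega
          | 1, _ => show 1 < m + 5; omega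
          | 2, _ => show 0 < m + 5; omega
          | i + 3, hi => show i + 4 < m + 5; omega
        · intro w
          have h1 : (cons (w (1 + 1)) (cons (w (0 + 1)) (cons (w 0) (fun i => w (i + 3 + 1))))) =
              (fun i => w ((fun i => match i with
                | 0 => 2
                | 1 => 1
                | 2 => 0
                | i + 3 => i + 4) i)) := by
            funext i
            match i with
            | 0 => rfl
            | 1 => rfl
            | 2 => rfl
            | i + 3 => rfl
          show P _ ↔ P _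
          rw [← h1]
      have hv' : ∀ i, i < m + 2 → E (cons q (fun i => v (i + 2)) i) k := by
        intro i hi
        cases i with
        | zero => exact hq
        | succ i => exact hv (i + 2) (by omega)
      have heta : ∀ z, cons z (cons (v 0) (cons (v 1) (fun i => v (i + 2)))) = cons z v := by
        intro z
        funext i
        match i with
        | 0 => rfl
        | 1 => rfl
        | 2 => rfl
        | i + 3 => rfl
      obtain ⟨z, hz⟩ := hz
      obtain ⟨z', h1, x, y, h2, h3⟩ := ih hdf (cons q (fun i => v (i + 2))) hv'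
        ⟨z, v 0, v 1, hop, by
          show P (cons z (cons (v 0) (cons (v 1) (fun i => v (i + 2)))))
          rw [heta]
          exact hz⟩
      obtain ⟨rfl, rfl⟩ := OP.inj h2 hop
      refine ⟨z', h1, ?_⟩
      rw [← heta]
      exact h3

theorem KModel.refl (h : KModel E k) : ∀ (n : ℕ) {P : (ℕ → M) → Prop}, Df E n P → (∃ v, P v) → ∃ v, (∀ i, E (v i) k) ∧ P v := by
  intro n
  induction n with
  | zero =>
    intro P hP hv
    obtain ⟨v, hv⟩ := hv
    obtain ⟨t, ht⟩ := h.ne
    exact ⟨fun _ => t, fun _ => ht, (hP.dep (fun i hi => absurd hi (Nat.not_lt_zero i))).1 hv⟩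
  | succ n ih =>
    intro P hP hv
    obtain ⟨v, hv⟩ := hv
    have hdf : Df E n (fun v => ∃ x, P (cons x v)) := by
      refine Df.ex (R := fun x v => P (cons x v)) ?_
      refine hP.congr fun w => ?_
      show P (cons (w 0) (fun i => w (i + 1))) ↔ P w
      rw [cons_eta]
    obtain ⟨v', h1, x, hx⟩ := ih hdf ⟨fun i => v (i + 1), v 0, by rw [cons_eta]; exact hv⟩
    obtain ⟨x', h2, h3⟩ := h.tvn n hP v' (fun i _ => h1 i) ⟨x, hx⟩
    refine ⟨cons x' v', fun i => ?_, h3⟩
    cases i with
    | zero => exact h2
    | succ i => exact h1 i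

end Pool.Agent.Helper62.ZH
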