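import Pool.Agent.Helper62.ZH.KRefl

/-!
# ZH-03 KT0: the structure satisfies `T0`

Proof. Each axiom says that a definable condition holds for all values of its parameters; if it fails for some then by `KModel.refl`
(for the negation) it fails for parameters in `k`. So let all parameters be in `k`.
* pair: `sepD` on `k`: `{u ∈ k : u = x ∨ u = y}` (or `KModel.pair`).
* union: `{u ∈ k : ∃ z, E u z ∧ E z x}` (`KModel.trans` twice: such `u` are in `k`).
* power (`P v := ∃ p, ∀ y, (∀ z, E z y → E z x) → ∃ y', E y' p ∧ ∀ z, E z y' ↔ E z y` with `x = v 0`): `p := k`, `y'` by `sepKD` from `x`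
  (`P w := E (w 0) (w 1)` with the parameter `y`).
* inf: no parameter, directly: `k` itself; an empty set in `k`: `sepKD` from `t ∈ k` with a false predicate (`h.ne`); for `y ∈ k` the set
  `{u ∈ k : u ∈ y ∨ u = y}` exists so by `tvn 1` (or `tvD`) there is such a set in `k` (its elements are exactly those of `y` and `y`, by `trans`).
* tc: `t := k`.
* sep: `h.sep`.
* coll: for the formula `f` take `N` with `Bd f N` (`exists_bd`). The condition on `a, v 0, v 1, ...` (the sequence `cons a v`) is definable with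
  `N + 1` variables. For `a` and all `v i` in `k`: `b := k`; for `x ∈ a` (so `x ∈ k`), `tvn N` (variables: `y`, then `x, v 0, ...`; rename the first two
  by `Df.ren`) gives `y ∈ k`.
-/

set_option autoImplicit false

namespace Pool.Agent.Helper62.ZH

variable {M : Type} {E : M → M → Prop} {k : M}

/-- A definable condition that holds for all parameters in `k` holds for all parameters. -/
theorem KModel.forall_of_k (h : KModel E k) {n : ℕ} {P : (ℕ → M) → Prop} (hP : Df E n P)
    (hk : ∀ v : ℕ → M, (∀ i, E (v i) k) → P v) : ∀ v, P v := by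
  intro v
  by_contra hv
  obtain ⟨w, hw, hw2⟩ := h.refl n hP.not ⟨v, hv⟩
  exact hw2 (hk w hw)

theorem KModel.t0_pair (h : KModel E k) : ∀ x y, ∃ z, ∀ u, E u z ↔ u = x ∨ u = y := by
  have hdf : Df E 2 (fun v => ∃ z, IsPair E z (v 0) (v 1)) := by
    refine Df.ex (R := fun z v => IsPair E z (v 0) (v 1)) ?_
    exact IsPair.df 0 1 2 (by omega) (by omega) (by omega)
  have h1 := h.forall_of_k hdf (fun v hv => by
    obtain ⟨z, _, hz⟩ := h.pair (hv 0) (hv 1)
    exact ⟨z, hz⟩)
  intro x y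
  exact h1 (cons x (fun _ => y))

theorem KModel.t0_union (h : KModel E k) : ∀ x, ∃ y, ∀ u, E u y ↔ ∃ z, E u z ∧ E z x := by
  have hdf : Df E 1 (fun v => ∃ y, ∀ u, E u y ↔ ∃ z, E u z ∧ E z (v 0)) := by
    refine Df.ex (R := fun y v => ∀ u, E u y ↔ ∃ z, E u z ∧ E z (v 0)) ?_
    refine Df.all (R := fun u (v : ℕ → M) => E u (v 0) ↔ ∃ z, E u z ∧ E z (v 1)) ?_
    refine Df.iff (Df.mem 0 1 (by omega) (by omega)) ?_
    refine Df.ex (R := fun z (v : ℕ → M) => E (v 0) z ∧ E z (v 2)) ?_
    exact Df.and (Df.mem 1 0 (by omega) (by omega)) (Df.mem 0 3 (by omega) (by omega))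
  have h1 := h.forall_of_k hdf (fun v hv => by
    obtain ⟨s, hs⟩ := h.sepD (n := 2) (P := fun w => ∃ z, E (w 0) z ∧ E z (w 1)) (by
      refine Df.ex (R := fun z (w : ℕ → M) => E (w 0) z ∧ E z (w 1)) ?_
      exact Df.and (Df.mem 1 0 (by omega) (by omega)) (Df.mem 0 2 (by omega) (by omega))) (fun _ => v 0) k
    refine ⟨s, fun u => (hs u).trans ?_⟩
    constructor
    · rintro ⟨_, hu⟩
      exact hu
    · rintro ⟨z, hz, hz2⟩
      exact ⟨h.trans (h.trans (hv 0) hz2) hz, z, hz, hz2⟩)
  intro x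
  exact h1 (fun _ => x)

theorem KModel.t0_power (h : KModel E k) :
    ∀ x, ∃ p, ∀ y, (∀ z, E z y → E z x) → ∃ y', E y' p ∧ ∀ z, E z y' ↔ E z y := by
  have hdf : Df E 1 (fun v => ∃ p, ∀ y, (∀ z, E z y → E z (v 0)) → ∃ y', E y' p ∧ ∀ z, E z y' ↔ E z y) := by
    refine Df.ex (R := fun p v => ∀ y, (∀ z, E z y → E z (v 0)) → ∃ y', E y' p ∧ ∀ z, E z y' ↔ E z y) ?_
    refine Df.all (R := fun y (v : ℕ → M) => (∀ z, E z y → E z (v 1)) →
      ∃ y', E y' (v 0) ∧ ∀ z, E z y' ↔ E z y) ?_
    refine Df.imp ?_ ?_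
    · refine Df.all (R := fun z (v : ℕ → M) => E z (v 0) → E z (v 2)) ?_
      exact Df.imp (Df.mem 0 1 (by omega) (by omega)) (Df.mem 0 3 (by omega) (by omega))
    · refine Df.ex (R := fun y' (v : ℕ → M) => E y' (v 1) ∧ ∀ z, E z y' ↔ E z (v 0)) ?_
      refine Df.and (Df.mem 0 2 (by omega) (by omega)) ?_
      refine Df.all (R := fun z (v : ℕ → M) => E z (v 0) ↔ E z (v 1)) ?_
      exact Df.iff (Df.mem 0 1 (by omega) (by omega)) (Df.mem 0 2 (by omega) (by omega))
  have h1 := h.forall_of_k hdf (fun v hv => by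
    refine ⟨k, fun y hy => ?_⟩
    obtain ⟨s, hsk, hs⟩ := h.sepKD (n := 2) (P := fun w => E (w 0) (w 1)) (Df.mem 0 1 (by omega) (by omega)) (fun _ => y) (v 0) (hv 0)
    refine ⟨s, hsk, fun z => (hs z).trans ?_⟩
    constructor
    · rintro ⟨_, hz⟩
      exact hz
    · intro hz
      exact ⟨hy z hz, hz⟩)
  intro x
  exact h1 (fun _ => x)

theorem KModel.t0_inf (h : KModel E k) :
    ∃ x, (∃ y, E y x ∧ ∀ z, ¬ E z y) ∧ ∀ y, E y x → ∃ z, E z x ∧ ∀ u, E u z ↔ E u y ∨ u = y := by
  refine ⟨k, ?_, ?_⟩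
  · obtain ⟨t, ht⟩ := h.ne
    obtain ⟨s, hsk, hs⟩ := h.sepKD (n := 1) (P := fun w => ¬ w 0 = w 0) (Df.not (Df.eq 0 0 (by omega) (by omega))) (fun _ => t) t ht
    exact ⟨s, hsk, fun z hz => ((hs z).mp hz).2 rfl⟩
  · intro y hy
    refine h.tvD (P := fun w => ∀ u, E u (w 0) ↔ E u (w 1) ∨ u = w 1) ?_ (fun _ => y) hy hy ?_
    · refine Df.all (R := fun u (w : ℕ → M) => E u (w 0) ↔ E u (w 1) ∨ u = w 1) ?_
      exact Df.iff (Df.mem 0 1 (by omega) (by omega)) (Df.or (Df.mem 0 2 (by omega) (by omega)) (Df.eq 0 2 (by omega) (by omega)))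
    · obtain ⟨s, hs⟩ := h.sepD (n := 2) (P := fun w => E (w 0) (w 1) ∨ w 0 = w 1)
        (Df.or (Df.mem 0 1 (by omega) (by omega)) (Df.eq 0 1 (by omega) (by omega))) (fun _ => y) k
      refine ⟨s, fun u => (hs u).trans ?_⟩
      constructor
      · rintro ⟨_, hu⟩
        exact hu
      · intro hu
        refine ⟨?_, hu⟩
        rcases hu with hu | hu
        · exact h.trans hy hu
        · change u = y at hu
          rw [hu]
          exact hy

theorem KModel.t0_tc (h : KModel E k) : ∀ x, ∃ t, E x t ∧ ∀ y z, E y t → E z y → E z t := by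
  have hdf : Df E 1 (fun v => ∃ t, E (v 0) t ∧ ∀ y z, E y t → E z y → E z t) := by
    refine Df.ex (R := fun t (v : ℕ → M) => E (v 0) t ∧ ∀ y z, E y t → E z y → E z t) ?_
    refine Df.and (Df.mem 1 0 (by omega) (by omega)) ?_
    refine Df.all (R := fun y (v : ℕ → M) => ∀ z, E y (v 0) → E z y → E z (v 0)) ?_
    refine Df.all (R := fun z (v : ℕ → M) => E (v 0) (v 1) → E z (v 0) → E z (v 1)) ?_
    exact Df.imp (Df.mem 1 2 (by omega) (by omega)) (Df.imp (Df.mem 0 1 (by omega) (by omega)) (Df.mem 0 2 (by omega) (by omega)))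
  have h1 := h.forall_of_k hdf (fun v hv => ⟨k, hv 0, fun y z hy hz => h.trans hy hz⟩)
  intro x
  exact h1 (fun _ => x)

theorem KModel.t0_coll (h : KModel E k) : ∀ (f : Fml) (v : ℕ → M) (a : M), ∃ b, ∀ x, E x a →
    (∃ y, Sat E f (cons x (cons y v))) → ∃ y, E y b ∧ Sat E f (cons x (cons y v)) := by
  intro f
  obtain ⟨N, hN⟩ := exists_bd f
  have hf : Df E N (fun v => Sat E f v) := ⟨f, hN, fun _ => Iff.rfl⟩
  -- the predicate `Sat E f (x, y, v)` in the environment `y, x, b, a, v`
  have hs4 : Df E (N + 1 + 1 + 1 + 1)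
      (fun w : ℕ → M => Sat E f (cons (w 1) (cons (w 0) (fun i => w (i + 4))))) := by
    refine (hf.ren (m := N + 1 + 1 + 1 + 1) (fun i => match i with
      | 0 => 1
      | 1 => 0
      | i + 2 => i + 4) ?_).congr ?_
    · intro i hi
      match i, hi with
      | 0, _ => show 1 < N + 4; omega
      | 1, _ => show 0 < N + 4; omega
      | i + 2, hi => show i + 4 < N + 4; omega
    · intro w
      have h1 : (cons (w 1) (cons (w 0) (fun i => w (i + 4)))) =
          (fun i => w ((fun i => match i with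
            | 0 => 1
            | 1 => 0
            | i + 2 => i + 4) i)) := by
        funext i
        match i with
        | 0 => rfl
        | 1 => rfl
        | i + 2 => rfl
      show Sat E f _ ↔ Sat E f _
      rw [← h1]
  -- the predicate `Sat E f (x, y, v)` in the environment `y, x, v`
  have hs2 : Df E (N + 1 + 1)
      (fun w : ℕ → M => Sat E f (cons (w 1) (cons (w 0) (fun i => w (i + 2))))) := by
    refine (hf.ren (m := N + 1 + 1) (fun i => match i with
      | 0 => 1
      | 1 => 0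
      | i + 2 => i + 2) ?_).congr ?_
    · intro i hi
      match i, hi with
      | 0, _ => show 1 < N + 2; omega
      | 1, _ => show 0 < N + 2; omega
      | i + 2, hi => show i + 2 < N + 2; omega
    · intro w
      have h1 : (cons (w 1) (cons (w 0) (fun i => w (i + 2)))) =
          (fun i => w ((fun i => match i with
            | 0 => 1
            | 1 => 0
            | i + 2 => i + 2) i)) := by
        funext i
        match i with
        | 0 => rfl
        | 1 => rfl
        | i + 2 => rfl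
      show Sat E f _ ↔ Sat E f _
      rw [← h1]
  have hdf : Df E (N + 1) (fun w : ℕ → M => ∃ b, ∀ x, E x (w 0) →
      (∃ y, Sat E f (cons x (cons y (fun i => w (i + 1))))) →
      ∃ y, E y b ∧ Sat E f (cons x (cons y (fun i => w (i + 1))))) := by
    refine Df.ex (R := fun b (w : ℕ → M) => ∀ x, E x (w 0) →
      (∃ y, Sat E f (cons x (cons y (fun i => w (i + 1))))) →
      ∃ y, E y b ∧ Sat E f (cons x (cons y (fun i => w (i + 1))))) ?_
    refine Df.all (R := fun x (w : ℕ → M) => E x (w 1) →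
      (∃ y, Sat E f (cons x (cons y (fun i => w (i + 2))))) →
      ∃ y, E y (w 0) ∧ Sat E f (cons x (cons y (fun i => w (i + 2))))) ?_
    refine Df.imp (Df.mem 0 2 (by omega) (by omega)) (Df.imp ?_ ?_)
    · exact Df.ex (R := fun y (w : ℕ → M) => Sat E f (cons (w 0) (cons y (fun i => w (i + 3))))) hs4
    · refine Df.ex (R := fun y (w : ℕ → M) => E y (w 1) ∧ Sat E f (cons (w 0) (cons y (fun i => w (i + 3))))) ?_
      exact Df.and (Df.mem 0 2 (by omega) (by omega)) hs4
  have h1 := h.forall_of_k hdf (fun w hw => by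
    refine ⟨k, fun x hx hy => ?_⟩
    obtain ⟨y, hy⟩ := hy
    have hxk : E x k := h.trans (hw 0) hx
    obtain ⟨z, hz, hz2⟩ := h.tvn (N + 1) hs2 (cons x (fun i => w (i + 1))) (by
      intro i _
      cases i with
      | zero => exact hxk
      | succ i => exact hw (i + 1)) ⟨y, hy⟩
    exact ⟨z, hz, hz2⟩)
  intro v a
  exact h1 (cons a v)

theorem KModel.t0 (h : KModel E k) : T0 E :=
  ⟨h.t0_pair, h.t0_union, h.t0_power, h.t0_inf, h.t0_tc, h.sep, h.t0_coll⟩

end Pool.Agent.Helper62.ZH
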