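import Pool.Agent.Helper62.ZH.KT0
import Pool.Agent.Helper62.ZH.QT0
import Pool.Agent.Helper62.ZH.RegZF

/-!
# ZH-10 KZF: from the `KModel` to a model of ZF (assembly of ZH-01 ... ZH-09)
-/

set_option autoImplicit false

namespace Pool.Agent.Helper62.ZH

theorem KModel.zf {M : Type} {E : M → M → Prop} {k : M} (h : KModel E k) :
    ∃ (N : Type) (E' : N → N → Prop), ZFModel E' ∧ ∀ s, Bd s 0 → ∀ (v : ℕ → M) (v' : ℕ → N), (Sat E' s v' ↔ Sat E (trQ (trR s)) v) := by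
  have h0 := h.t0
  obtain ⟨N, E', π, hq⟩ := h0.exists_quo
  refine ⟨{x // Rg E' x}, fun x y => E' x.1 y.1, (hq.t0 h0).zf (hq.ext h0), ?_⟩
  intro s hs v v'
  rw [sat_trR, ← hq.sat]
  exact sat_congr (bd_trR hs) (fun i hi => absurd hi (Nat.not_lt_zero i))

end Pool.Agent.Helper62.ZH
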