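import Pool.Agent.Helper62.ZH.SysA

/-!
# ZH-22 SysB: a good `T` gives a `KModel`

Proofs. `exists_tquo`: `M := Quotient` of the setoid `Same T` (an equivalence relation), `E X Y := ∃ x y, π x = X ∧ π y = Y ∧ ∃ u, Ep T u y ∧ Same T u x`.
`kmodel`: `sep` for `f`, `v = fun i => π (w i)` (`hq.surj`), `a = π b`: take `N` with `Bd f (N + 1)` (`exists_bd`, `Bd.mono`), `l := List.ofFn` (or
`(List.range N).map w`) the list `w 0, ..., w (N - 1)`, `s := π (c.S b (env l) (c.tr f))`. By `hT.S`: `Ep T u (S b ..) ↔ Ep T u b ∧ T u (env l) (tr f) = true`, and by `TQuo.sat`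
`T u (env l) (tr f) = true ↔ Sat E f (cons (π u) v)`. `E (π x) s ↔ ∃ u, Ep T u (S b ..) ∧ Same T u x`; `Same T u x` is `π u = π x`.
`sepK`: `a = π b`, `E (π b) (π k)`: there is `b'` with `Ep T b' k`, `Same T b' b`, so `a = π b'`; do the same with `b'`; `hT.K`.
`tv` (`Bd f 3`): `v 0 = π x`, `v 1 = π y`, with `Ep T x k`, `Ep T y k` (choose as for `sepK`); `∃ z` → `T x (env [y]) (ec (tr f)) = true` (`ex_iff` and `TQuo.sat` for the
list `[x, y]`) → by `hT.Eb` the witness is `c.W x (.p y .o) (tr f)`, it is in `k` by `hT.TV` (`Ep T w k` gives `E (π w) (π k)` by `Same` reflexive).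
`ne`: `hT.N0`. Sentences: `TQuo.sat` with `l = []` and `sat_congr`.
-/

set_option autoImplicit false

namespace Pool.Agent.Helper62.ZH

theorem exists_tquo (T : Tree → Tree → Tree → Bool) : ∃ (M : Type) (E : M → M → Prop) (π : Tree → M), TQuo T E π := by
  let s : Setoid Tree := ⟨Same T, ⟨fun _ _ => Iff.rfl, fun h u => (h u).symm, fun h1 h2 u => (h1 u).trans (h2 u)⟩⟩
  refine ⟨Quotient s, fun X Y => ∃ x y, Quotient.mk s x = X ∧ Quotient.mk s y = Y ∧ ∃ u, Ep T u y ∧ Same T u x, Quotient.mk s, ?_, ?_, ?_⟩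
  · intro y
    exact Quotient.exists_rep y
  · intro x y
    exact ⟨fun h => Quotient.exact h, fun h => Quotient.sound h⟩
  · intro x y
    constructor
    · rintro ⟨x', y', hx, hy, u, hu, hs⟩
      have hx' : Same T x' x := Quotient.exact hx
      have hy' : Same T y' y := Quotient.exact hy
      exact ⟨u, (hy' u).1 hu, fun w => (hs w).trans (hx' w)⟩
    · rintro ⟨u, hu, hs⟩
      exact ⟨x, y, rfl, rfl, u, hu, hs⟩

private theorem exists_env {c : Sys} {T : Tree → Tree → Tree → Bool} {M : Type} {E : M → M → Prop} {π : Tree → M} (hT : c.Good T)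
    (hq : TQuo T E π) (f : Fml) (v : ℕ → M) : ∃ e, ∀ u, T u e (c.tr f) = true ↔ Sat E f (cons (π u) v) := by
  obtain ⟨N, hN⟩ := exists_bd f
  choose w hw using fun i => hq.surj (v i)
  refine ⟨env (List.ofFn (fun i : Fin N => w i)), fun u => ?_⟩
  have h1 := TQuo.sat hT hq f u (List.ofFn (fun i : Fin N => w i)) w (by intro i hi; simp)
    (by rw [List.length_ofFn]; exact hN.mono (by omega))
  rw [h1]
  have h2 : (fun i => π (w i)) = v := funext hw
  rw [h2]

private theorem mem_S {c : Sys} {T : Tree → Tree → Tree → Bool} {M : Type} {E : M → M → Prop} {π : Tree → M} (hT : c.Good T)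
    (hq : TQuo T E π) (f : Fml) (v : ℕ → M) (e : Tree) (he : ∀ u, T u e (c.tr f) = true ↔ Sat E f (cons (π u) v)) (b : Tree) (y : M) :
    E y (π (c.S b e (c.tr f))) ↔ E y (π b) ∧ Sat E f (cons y v) := by
  obtain ⟨x, rfl⟩ := hq.surj y
  have hS : ∀ u, Ep T u (c.S b e (c.tr f)) ↔ Ep T u b ∧ T u e (c.tr f) = true := by
    intro u
    unfold Ep
    rw [hT.S u b e (c.tr f) .o, Bool.and_eq_true]
  constructor
  · intro h
    obtain ⟨u, hu, hs⟩ := (hq.mem_iff _ _).1 h
    have h1 := (hS u).1 hu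
    have h2 : π u = π x := (hq.eq_iff _ _).2 hs
    refine ⟨(hq.mem_iff _ _).2 ⟨u, h1.1, hs⟩, ?_⟩
    rw [← h2]
    exact (he u).1 h1.2
  · rintro ⟨h, h3⟩
    obtain ⟨u, hu, hs⟩ := (hq.mem_iff _ _).1 h
    have h2 : π u = π x := (hq.eq_iff _ _).2 hs
    refine (hq.mem_iff _ _).2 ⟨u, (hS u).2 ⟨hu, (he u).2 ?_⟩, hs⟩
    rw [h2]
    exact h3

private theorem exists_rep {T : Tree → Tree → Tree → Bool} {M : Type} {E : M → M → Prop} {π : Tree → M}
    (hq : TQuo T E π) (a : M) (k : Tree) (h : E a (π k)) : ∃ b, π b = a ∧ Ep T b k := by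
  obtain ⟨x, rfl⟩ := hq.surj a
  obtain ⟨u, hu, hs⟩ := (hq.mem_iff _ _).1 h
  exact ⟨u, (hq.eq_iff _ _).2 hs, hu⟩

private theorem mem_of_ep {T : Tree → Tree → Tree → Bool} {M : Type} {E : M → M → Prop} {π : Tree → M}
    (hq : TQuo T E π) (a k : Tree) (h : Ep T a k) : E (π a) (π k) :=
  (hq.mem_iff _ _).2 ⟨a, h, fun _ => Iff.rfl⟩

theorem TQuo.kmodel {c : Sys} {T : Tree → Tree → Tree → Bool} {M : Type} {E : M → M → Prop} {π : Tree → M} (hT : c.Good T) (hq : TQuo T E π) :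
    KModel E (π c.k) := by
  refine ⟨?_, ?_, ?_, ?_⟩
  · intro f v a
    obtain ⟨b, rfl⟩ := hq.surj a
    obtain ⟨e, he⟩ := exists_env hT hq f v
    exact ⟨π (c.S b e (c.tr f)), fun x => mem_S hT hq f v e he b x⟩
  · intro f v a ha
    obtain ⟨b, rfl, hb⟩ := exists_rep hq a c.k ha
    obtain ⟨e, he⟩ := exists_env hT hq f v
    exact ⟨π (c.S b e (c.tr f)), mem_of_ep hq _ _ (hT.K b e (c.tr f) hb), fun x => mem_S hT hq f v e he b x⟩
  · intro f hf v h0 h1 hz
    obtain ⟨z, hz⟩ := hz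
    obtain ⟨x, hx, hxk⟩ := exists_rep hq _ c.k h0
    obtain ⟨y, hy, hyk⟩ := exists_rep hq _ c.k h1
    have hs : ∀ u, T u (.p x (.p y .o)) (c.tr f) = true ↔ Sat E f (cons (π u) v) := by
      intro u
      have h2 := TQuo.sat hT hq f u [x, y] (cons x (fun _ => y)) (by
        intro i hi
        match i, hi with
        | 0, _ => rfl
        | 1, _ => rfl) hf
      have h3 : Sat E f (cons (π u) (fun i => π (cons x (fun _ => y) i))) ↔ Sat E f (cons (π u) v) := by
        refine sat_congr hf ?_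
        intro i hi
        match i, hi with
        | 0, _ => rfl
        | 1, _ => exact hx
        | 2, _ => exact hy
      exact h2.trans h3
    obtain ⟨z', rfl⟩ := hq.surj z
    have h4 : T x (.p y .o) (c.ec (c.tr f)) = true := hT.Ea z' x (.p y .o) (c.tr f) ((hs z').2 hz)
    have h5 := hT.Eb x (.p y .o) (c.tr f) h4
    exact ⟨π (c.W x (.p y .o) (c.tr f)), mem_of_ep hq _ _ (hT.TV x y (c.tr f) hxk hyk), (hs _).1 h5⟩
  · exact ⟨π c.t0, mem_of_ep hq _ _ hT.N0⟩

theorem Sys.Good.kmodel {c : Sys} {T : Tree → Tree → Tree → Bool} (hT : c.Good T) :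
    ∃ (M : Type) (E : M → M → Prop) (k : M), KModel E k ∧ ∀ s, Bd s 0 → ∀ v, (Sat E s v ↔ T .o .o (c.tr s) = true) := by
  obtain ⟨M, E, π, hq⟩ := exists_tquo T
  refine ⟨M, E, π c.k, TQuo.kmodel hT hq, fun s hs v => ?_⟩
  have h1 := TQuo.sat hT hq s .o [] (fun _ => .o) (fun i hi => absurd hi (Nat.not_lt_zero i)) (hs.mono (Nat.zero_le _))
  have h2 : Sat E s (cons (π .o) (fun _ => π .o)) ↔ Sat E s v := sat_congr hs (fun i hi => absurd hi (Nat.not_lt_zero i))
  exact (h1.trans h2).symm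

end Pool.Agent.Helper62.ZH
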