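import Pool.Agent.Helper62.ZH.KZF
import Pool.Agent.Helper62.ZH.SysB
import Pool.Agent.Helper62.ZH.DGood

/-!
# ZH-28 Main: the rules are satisfiable iff ZF (with a sentence) has a model (assembly)
-/

set_option autoImplicit false

namespace Pool.Agent.Helper62.ZH

theorem Sys.Nice.good_iff {c : Sys} (hc : c.Nice) : (∃ T, c.Good T) ↔ ∃ (M : Type) (E : M → M → Prop), ZFModel E := by
  constructor
  · rintro ⟨T, hT⟩
    obtain ⟨M, E, k, hk, _⟩ := hT.kmodel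
    obtain ⟨N, E', hN, _⟩ := hk.zf
    exact ⟨N, E', hN⟩
  · rintro ⟨M, E, h⟩
    obtain ⟨T, hT, _⟩ := h.good hc
    exact ⟨T, hT⟩

theorem Sys.Nice.good_code_iff {c : Sys} (hc : c.Nice) {s : Fml} (hs : Bd s 0) :
    (∃ T, c.Good T ∧ T .o .o (c.code s) = true) ↔ ∃ (M : Type) (E : M → M → Prop), ZFModel E ∧ ∀ v, Sat E s v := by
  constructor
  · rintro ⟨T, hT, ht⟩
    obtain ⟨M, E, k, hk, hk2⟩ := hT.kmodel
    obtain ⟨N, E', hN, hN2⟩ := hk.zf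
    refine ⟨N, E', hN, fun v => ?_⟩
    rw [hN2 s hs (fun _ => k) v, hk2 _ (bd_trQ (bd_trR hs))]
    exact ht
  · rintro ⟨M, E, h, h2⟩
    obtain ⟨T, hT, hT2⟩ := h.good hc
    exact ⟨T, hT, hT2 s hs h2⟩

end Pool.Agent.Helper62.ZH
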