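import Pool.Agent.Helper62.ZH.K1
import Pool.Agent.Helper62.ZH.SysB
import Pool.Agent.Helper62.ZH.Sys2A

/-!
# A good `T` gives a `K1Model` (rules R')

Proofs. `exists_tquo`: `M := Quotient` of the setoid `Same T` (an equivalence relation), `E X Y := ∃ x y, π x = X ∧ π y = Y ∧ ∃ u, Ep T u y ∧ Same T u x`.
`kmodel`: `sep` for `f`, `v = fun i => π (w i)` (`hq.surj`), `a = π b`: take `N` with `Bd f (N + 1)` (`exists_bd`, `Bd.mono`), `l := List.ofFn` (or
`(List.range N).map w`) the list `w 0, ..., w (N - 1)`, `s := π (c.S b (env l) (c.tr f))`. By `hT.S`: `Ep T u (S b ..) ↔ Ep T u b ∧ T u (env l) (tr f) = true`, and by `TQuo.sat2`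
`T u (env l) (tr f) = true ↔ Sat E f (cons (π u) v)`. `E (π x) s ↔ ∃ u, Ep T u (S b ..) ∧ Same T u x`; `Same T u x` is `π u = π x`.
`sepK`: `a = π b`, `E (π b) (π k)`: there is `b'` with `Ep T b' k`, `Same T b' b`, so `a = π b'`; do the same with `b'`; `hT.K`.
`tv` (`Bd f 2`): `v 0 = π x`, with `Ep T x k` (choose as for `sepK`); `∃ z` → `T x (env []) (ec (tr f)) = true` (`ex_iff` and `TQuo.sat2` for the
list `[x]`) → by `hT.Eb` the witness is `c.W x .o (tr f)`, it is in `k` by `hT.TV` (`Ep T w k` gives `E (π w) (π k)` by `Same` reflexive).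
`ne`: `hT.N0`. Sentences: `TQuo.sat2` with `l = []` and `sat_congr`.
-/

set_option autoImplicit false

namespace Pool.Agent.Helper62.ZH

/-- The code of the true formula. -/
def Sys2.top (c : Sys2) : Tree := c.nd .o (c.cnot .o)

private theorem top_true {c : Sys2} {T : Tree → Tree → Tree → Bool} (hT : c.Good T) (x e : Tree) : T x e c.top = true := by
  unfold Sys2.top
  rw [hT.nd_iff, hT.not_iff]
  tauto

private theorem ep_k {c : Sys2} {T : Tree → Tree → Tree → Bool} (hT : c.Good T) (u : Tree) :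
    Ep T u (c.S .o c.top) ↔ T u .o .o = true := by
  unfold Ep
  rw [hT.S, top_true hT, Bool.and_true]

/-- The formula `f` with the variable 1 skipped. -/
def skipF (f : Fml) : Fml := ren (fun i => if i = 0 then 0 else i + 1) f

private theorem exists_env {c : Sys2} {T : Tree → Tree → Tree → Bool} {M : Type} {E : M → M → Prop} {π : Tree → M} (hT : c.Good T)
    (hq : TQuo T E π) (f : Fml) (v : ℕ → M) (b : Tree) :
    ∃ e, ∀ u, T u (.p b e) (c.tr (skipF f)) = true ↔ Sat E f (cons (π u) v) := by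
  obtain ⟨N, hN⟩ := exists_bd f
  choose w hw using fun i => hq.surj (v i)
  refine ⟨env (List.ofFn (fun i : Fin N => w i)), fun u => ?_⟩
  have hb : Bd (skipF f) ((b :: List.ofFn (fun i : Fin N => w i)).length + 1) := by
    rw [List.length_cons, List.length_ofFn]
    refine bd_ren hN fun i hi => ?_
    split_ifs <;> omega
  have h1 := TQuo.sat2 hT hq (skipF f) u (b :: List.ofFn (fun i : Fin N => w i)) (cons b w) (by
    intro i hi
    cases i with
    | zero => rfl
    | succ i => simp) hb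
  have h0 : env (b :: List.ofFn (fun i : Fin N => w i)) = .p b (env (List.ofFn (fun i : Fin N => w i))) := rfl
  rw [h0] at h1
  rw [h1, skipF, sat_ren]
  have h2 : (fun i => cons (π u) (fun i => π (cons b w i)) (if i = 0 then 0 else i + 1)) = cons (π u) v := by
    funext i
    cases i with
    | zero => rfl
    | succ i => simp [hw]
  rw [h2]

private theorem mem_S {c : Sys2} {T : Tree → Tree → Tree → Bool} {M : Type} {E : M → M → Prop} {π : Tree → M} (hT : c.Good T)
    (hq : TQuo T E π) (f : Fml) (v : ℕ → M) (b e : Tree) (he : ∀ u, T u (.p b e) (c.tr (skipF f)) = true ↔ Sat E f (cons (π u) v)) (y : M) :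
    E y (π (c.S (.p b e) (c.tr (skipF f)))) ↔ E y (π b) ∧ Sat E f (cons y v) := by
  obtain ⟨x, rfl⟩ := hq.surj y
  have hS : ∀ u, Ep T u (c.S (.p b e) (c.tr (skipF f))) ↔ Ep T u b ∧ T u (.p b e) (c.tr (skipF f)) = true := by
    intro u
    have h1 : Ep T u b ↔ T u (.p b e) .o = true := (hT.atom u b e).symm
    rw [h1]
    unfold Ep
    rw [hT.S u (.p b e) (c.tr (skipF f)), Bool.and_eq_true]
  constructor
  · intro h
    obtain ⟨u, hu, hs⟩ := (hq.mem_iff _ _).1 h
    have h1 := (hS u).1 hu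
    have h2 : π u = π x := (hq.eq_iff _ _).2 hs
    refine ⟨(hq.mem_iff _ _).2 ⟨u, h1.1, hs⟩, ?_⟩
    rw [← h2]
    exact (he u).1 h1.2
  · rintro ⟨h, h3⟩
    obtain ⟨u, hu, hs⟩ := (hq.mem_iff _ _).1 h
    have h2 : π u = π x := (hq.eq_iff _ _).2 hs
    refine (hq.mem_iff _ _).2 ⟨u, (hS u).2 ⟨hu, (he u).2 ?_⟩, hs⟩
    rw [h2]
    exact h3

private theorem exists_rep {T : Tree → Tree → Tree → Bool} {M : Type} {E : M → M → Prop} {π : Tree → M}
    (hq : TQuo T E π) (a : M) (k : Tree) (h : E a (π k)) : ∃ b, π b = a ∧ Ep T b k := by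
  obtain ⟨x, rfl⟩ := hq.surj a
  obtain ⟨u, hu, hs⟩ := (hq.mem_iff _ _).1 h
  exact ⟨u, (hq.eq_iff _ _).2 hs, hu⟩

private theorem mem_of_ep {T : Tree → Tree → Tree → Bool} {M : Type} {E : M → M → Prop} {π : Tree → M}
    (hq : TQuo T E π) (a k : Tree) (h : Ep T a k) : E (π a) (π k) :=
  (hq.mem_iff _ _).2 ⟨a, h, fun _ => Iff.rfl⟩

theorem TQuo.kmodel2 {c : Sys2} {T : Tree → Tree → Tree → Bool} {M : Type} {E : M → M → Prop} {π : Tree → M} (hT : c.Good T) (hq : TQuo T E π) :
    K1Model E (π (c.S .o c.top)) := by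
  refine ⟨?_, ?_, ?_, ?_⟩
  · intro f v a
    obtain ⟨b, rfl⟩ := hq.surj a
    obtain ⟨e, he⟩ := exists_env hT hq f v b
    exact ⟨_, fun x => mem_S hT hq f v b e he x⟩
  · intro f v a ha
    obtain ⟨b, rfl, hb⟩ := exists_rep hq a _ ha
    obtain ⟨e, he⟩ := exists_env hT hq f v b
    exact ⟨_, mem_of_ep hq _ _ ((ep_k hT _).2 (hT.K b e (c.tr (skipF f)) ((ep_k hT _).1 hb))), fun x => mem_S hT hq f v b e he x⟩
  · intro f hf v h0 hz
    obtain ⟨z, hz⟩ := hz
    obtain ⟨x, hx, hxk⟩ := exists_rep hq _ _ h0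
    rw [ep_k hT] at hxk
    have hs : ∀ u, T u (.p x .o) (c.tr f) = true ↔ Sat E f (cons (π u) v) := by
      intro u
      have h2 := TQuo.sat2 hT hq f u [x] (fun _ => x) (by
        intro i hi
        match i, hi with
        | 0, _ => rfl) hf
      have h3 : Sat E f (cons (π u) (fun i => π ((fun _ => x) i))) ↔ Sat E f (cons (π u) v) := by
        refine sat_congr hf ?_
        intro i hi
        match i, hi with
        | 0, _ => rfl
        | 1, _ => exact hx
      exact h2.trans h3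
    obtain ⟨z', rfl⟩ := hq.surj z
    have h4 : T x .o (c.ec (c.tr f)) = true := hT.Ea z' x .o (c.tr f) ((hs z').2 hz)
    have h5 := hT.Eb x .o (c.tr f) h4
    exact ⟨π (c.W x .o (c.tr f)), mem_of_ep hq _ _ ((ep_k hT _).2 (hT.TV x (c.tr f) hxk)), (hs _).1 h5⟩
  · exact ⟨π .o, mem_of_ep hq _ _ ((ep_k hT _).2 hT.N0)⟩

theorem Sys2.Good.kmodel {c : Sys2} {T : Tree → Tree → Tree → Bool} (hT : c.Good T) :
    ∃ (M : Type) (E : M → M → Prop) (k : M), K1Model E k ∧ ∀ s, Bd s 0 → ∀ v, (Sat E s v ↔ T .o .o (c.tr s) = true) := by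
  obtain ⟨M, E, π, hq⟩ := exists_tquo T
  refine ⟨M, E, π (c.S .o c.top), TQuo.kmodel2 hT hq, fun s hs v => ?_⟩
  have h1 := TQuo.sat2 hT hq s .o [] (fun _ => .o) (fun i hi => absurd hi (Nat.not_lt_zero i)) (hs.mono (Nat.zero_le _))
  have h2 : Sat E s (cons (π .o) (fun _ => π .o)) ↔ Sat E s v := sat_congr hs (fun i hi => absurd hi (Nat.not_lt_zero i))
  exact (h1.trans h2).symm

end Pool.Agent.Helper62.ZH
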