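import Pool.Agent.Helper62.ZH.K1ZF
import Pool.Agent.Helper62.ZH.Sys2B
import Pool.Agent.Helper62.ZH.D2Good

/-!
# Main2: the rules HGood are satisfiable iff ZF (with a sentence) has a model (assembly)
-/

set_option autoImplicit false

namespace Pool.Agent.Helper62.ZH

theorem Sys2.HGood.tau_true {c : Sys2} {T : Tree → Tree → Tree → Bool} (hT : c.HGood T) (x e : Tree) : T x e c.tau = true := by
  have h1 : T .o .o (c.nd .o .o) = false := by
    rw [hT.N]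
    cases T .o .o .o <;> rfl
  have h2 : T .o (.p (c.S .o (c.nd .o .o)) (.p x e)) .o = true := by
    rw [hT.I, hT.S, hT.N0, h1]
    rfl
  exact hT.Ea _ _ _ _ (hT.Ea _ _ _ _ h2)

theorem Sys2.HGood.hnot_eq {c : Sys2} {T : Tree → Tree → Tree → Bool} (hT : c.HGood T) (x e f : Tree) : T x e (c.hnot f) = !T x e f := by
  show T x e (c.nd f c.tau) = _
  rw [hT.N, hT.tau_true, Bool.and_true]

theorem Sys2.HGood.good {c : Sys2} {T : Tree → Tree → Tree → Bool} (hT : c.HGood T) : c.der.Good T where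
  D := hT.D
  N x e f g := by
    show T x e (c.hnot (c.nd (c.hnot f) g)) = _
    rw [hT.hnot_eq, hT.N, hT.hnot_eq, Bool.not_not]
  Ea := hT.Ea
  Eb := hT.Eb
  S x e p := by
    show T x (.p (c.S e (c.hnot p)) .o) .o = _
    rw [hT.S, hT.hnot_eq, Bool.not_not]
  I := hT.I
  K a e p := hT.K a e (c.hnot p)
  TV := hT.TV
  N0 := hT.N0

theorem Sys2.Nice.hgood_iff {c : Sys2} (hc : c.Nice) : (∃ T, c.HGood T) ↔ ∃ (M : Type) (E : M → M → Prop), ZFModel E := by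
  constructor
  · rintro ⟨T, hT⟩
    obtain ⟨M, E, k, hk, _⟩ := hT.good.kmodel
    obtain ⟨N, E', hN, _⟩ := hk.zf
    exact ⟨N, E', hN⟩
  · rintro ⟨M, E, h⟩
    obtain ⟨T, hT, _⟩ := h.hgood hc
    exact ⟨T, hT⟩

theorem Sys2.Nice.hgood_code_iff {c : Sys2} (hc : c.Nice) {s : Fml} (hs : Bd s 0) :
    (∃ T, c.HGood T ∧ T .o .o (c.der.code s) = true) ↔ ∃ (M : Type) (E : M → M → Prop), ZFModel E ∧ ∀ v, Sat E s v := by
  constructor
  · rintro ⟨T, hT, ht⟩
    obtain ⟨M, E, k, hk, hk2⟩ := hT.good.kmodel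
    obtain ⟨N, E', hN, hN2⟩ := hk.zf
    refine ⟨N, E', hN, fun v => ?_⟩
    rw [hN2 s hs (fun _ => k) v, hk2 _ (bd_trQ (bd_trR hs))]
    exact ht
  · rintro ⟨M, E, h, h2⟩
    obtain ⟨T, hT, hT2⟩ := h.hgood hc
    exact ⟨T, hT, hT2 s hs h2⟩

end Pool.Agent.Helper62.ZH
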