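import Pool.Agent.Helper62.ZH.Formulas

/-!
# Provability (natural deduction) from the axioms of ZF, and soundness

`Prov A Γ f`: the formula `f` is provable from the axioms `A` (each axiom with all its instances by variables, i.e. its universal closure) and the assumptions `Γ`.
`ZFAx`: the axioms of ZF. `ZFModel E` says that all axioms are true (`zf_iff`).
-/

set_option autoImplicit false

namespace Pool.Agent.Helper62.ZH

/-- Replace the variable `0` by the variable `c` (and `i + 1` by `i`). -/
def inst (c : ℕ) (f : Fml) : Fml := ren (fun i => match i with | 0 => c | i + 1 => i) f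

/-- Shift all variables by one. -/
def up (f : Fml) : Fml := ren (fun i => i + 1) f

/-- A false sentence. -/
def botF : Fml := notF (allF (.eq 0 0))

/-- Natural deduction for classical first-order logic with equality; the connectives are `nand` and `ex`. `A`: the axioms; `Γ`: the assumptions. -/
inductive Prov (A : Fml → Prop) : List Fml → Fml → Prop
  /-- An axiom, with variables for its free variables. -/
  | ax {Γ : List Fml} {f : Fml} (s : ℕ → ℕ) : A f → Prov A Γ (ren s f)
  | hyp {Γ : List Fml} {f : Fml} : f ∈ Γ → Prov A Γ f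
  /-- If `f` and `g` lead to falsity, then `nand f g`. -/
  | nandI {Γ : List Fml} {f g : Fml} : Prov A (f :: g :: Γ) botF → Prov A Γ (.nand f g)
  | nandE {Γ : List Fml} {f g h : Fml} : Prov A Γ (.nand f g) → Prov A Γ f → Prov A Γ g → Prov A Γ h
  /-- Proof by contradiction. -/
  | contra {Γ : List Fml} {f : Fml} : Prov A (notF f :: Γ) botF → Prov A Γ f
  | exI {Γ : List Fml} {f : Fml} (c : ℕ) : Prov A Γ (inst c f) → Prov A Γ (.ex f)
  | exE {Γ : List Fml} {f h : Fml} : Prov A Γ (.ex f) → Prov A (f :: Γ.map up) (up h) → Prov A Γ h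
  | refl {Γ : List Fml} (i : ℕ) : Prov A Γ (.eq i i)
  | subst {Γ : List Fml} {f : Fml} (i j : ℕ) : Prov A Γ (.eq i j) → Prov A Γ (inst i f) → Prov A Γ (inst j f)

/-- The axioms of ZF (the free variables of `sep f` and `repl f` are parameters). -/
inductive ZFAx : Fml → Prop
  | ext : ZFAx (allF (allF (impF (allF (iffF (.mem 0 2) (.mem 0 1))) (.eq 1 0))))
  | found : ZFAx (allF (impF (.ex (.mem 0 1)) (.ex (andF (.mem 0 1) (allF (impF (.mem 0 1) (notF (.mem 0 2))))))))
  | pair : ZFAx (allF (allF (.ex (allF (iffF (.mem 0 1) (orF (.eq 0 3) (.eq 0 2)))))))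
  | union : ZFAx (allF (.ex (allF (iffF (.mem 0 1) (.ex (andF (.mem 1 0) (.mem 0 3)))))))
  | power : ZFAx (allF (.ex (allF (iffF (.mem 0 1) (allF (impF (.mem 0 1) (.mem 0 3)))))))
  | inf : ZFAx (.ex (andF (.ex (andF (.mem 0 1) (allF (notF (.mem 0 1)))))
      (allF (impF (.mem 0 1) (.ex (andF (.mem 0 2) (allF (iffF (.mem 0 1) (orF (.mem 0 2) (.eq 0 2))))))))))
  | sep (f : Fml) : ZFAx (allF (.ex (allF (iffF (.mem 0 1) (andF (.mem 0 2) (ren (fun i => if i = 0 then 0 else i + 2) f))))))
  | repl (f : Fml) : ZFAx (allF (impF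
      (allF (impF (.mem 0 1) (.ex (andF (ren (fun i => if i = 0 then 1 else if i = 1 then 0 else i + 1) f)
        (allF (impF (ren (fun i => if i = 0 then 2 else if i = 1 then 0 else i + 2) f) (.eq 0 1)))))))
      (.ex (allF (iffF (.mem 0 1) (.ex (andF (.mem 0 3) (ren (fun i => if i = 0 then 0 else if i = 1 then 1 else i + 2) f))))))))

section sound

variable {M : Type} {E : M → M → Prop}

theorem sat_inst {f : Fml} {c : ℕ} {v : ℕ → M} : Sat E (inst c f) v ↔ Sat E f (cons (v c) v) := by
  unfold inst
  rw [sat_ren]
  have h : (fun i => v (match i with | 0 => c | i + 1 => i)) = cons (v c) v := by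
    funext i
    cases i <;> rfl
  rw [h]

theorem sat_up {f : Fml} {x : M} {v : ℕ → M} : Sat E (up f) (cons x v) ↔ Sat E f v := by
  unfold up
  rw [sat_ren]
  exact Iff.rfl

theorem sat_bot {v : ℕ → M} : ¬ Sat E botF v := by
  unfold botF
  rw [sat_not, sat_all]
  exact fun h => h fun x => rfl

/-- Soundness. -/
theorem Prov.sound {A : Fml → Prop} {Γ : List Fml} {f : Fml} (h : Prov A Γ f) (hA : ∀ f, A f → ∀ v, Sat E f v) :
    ∀ v : ℕ → M, (∀ g ∈ Γ, Sat E g v) → Sat E f v := by
  induction h with
  | ax s hf =>
    intro v _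
    rw [sat_ren]
    exact hA _ hf _
  | hyp hf => exact fun v hv => hv _ hf
  | nandI _ ih =>
    intro v hv
    rintro ⟨h1, h2⟩
    refine sat_bot (ih v ?_)
    intro g hg
    rcases List.mem_cons.1 hg with rfl | hg
    · exact h1
    · rcases List.mem_cons.1 hg with rfl | hg
      · exact h2
      · exact hv g hg
  | nandE _ _ _ ih1 ih2 ih3 =>
    intro v hv
    exact absurd ⟨ih2 v hv, ih3 v hv⟩ (ih1 v hv)
  | contra _ ih =>
    intro v hv
    by_contra hcon
    refine sat_bot (ih v ?_)
    intro g hg
    rcases List.mem_cons.1 hg with rfl | hg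
    · exact sat_not.2 hcon
    · exact hv g hg
  | exI c _ ih =>
    intro v hv
    exact ⟨v c, sat_inst.1 (ih v hv)⟩
  | exE _ _ ih1 ih2 =>
    intro v hv
    obtain ⟨x, hx⟩ := ih1 v hv
    refine sat_up.1 (ih2 (cons x v) ?_)
    intro g hg
    rcases List.mem_cons.1 hg with rfl | hg
    · exact hx
    · obtain ⟨g', hg', rfl⟩ := List.mem_map.1 hg
      exact sat_up.2 (hv g' hg')
  | refl i => exact fun v _ => rfl
  | subst i j _ _ ih1 ih2 =>
    intro v hv
    have h1 : v i = v j := ih1 v hv
    have h2 := sat_inst.1 (ih2 v hv)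
    rw [h1] at h2
    exact sat_inst.2 h2

private theorem exu {p : M → Prop} : (∃! y, p y) ↔ ∃ y, p y ∧ ∀ z, p z → z = y := Iff.rfl

/-- `ZFModel E` iff all axioms are true. -/
theorem zf_iff [Nonempty M] : ZFModel E ↔ ∀ f, ZFAx f → ∀ v : ℕ → M, Sat E f v := by
  have e1 : ∀ (a s x : M) (v : ℕ → M), (fun i => cons x (cons s (cons a v)) (if i = 0 then 0 else i + 2)) = cons x v := by
    intro a s x v
    funext i
    cases i <;> rfl
  have e2 : ∀ (a x y : M) (v : ℕ → M), (fun i => cons y (cons x (cons a v)) (if i = 0 then 1 else if i = 1 then 0 else i + 1)) = cons x (cons y v) := by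
    intro a x y v
    funext i
    match i with
    | 0 => rfl
    | 1 => rfl
    | i + 2 => rfl
  have e3 : ∀ (a x y z : M) (v : ℕ → M), (fun i => cons z (cons y (cons x (cons a v))) (if i = 0 then 2 else if i = 1 then 0 else i + 2)) = cons x (cons z v) := by
    intro a x y z v
    funext i
    match i with
    | 0 => rfl
    | 1 => rfl
    | i + 2 => rfl
  have e4 : ∀ (a b x y : M) (v : ℕ → M), (fun i => cons x (cons y (cons b (cons a v))) (if i = 0 then 0 else if i = 1 then 1 else i + 2)) = cons x (cons y v) := by
    intro a b x y v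
    funext i
    match i with
    | 0 => rfl
    | 1 => rfl
    | i + 2 => rfl
  constructor
  · intro h f hf v
    cases hf with
    | ext => simp only [sat_all, sat_imp, sat_iff, Sat]; exact h.ext
    | found => simp only [sat_all, sat_imp, sat_and, sat_not, Sat]; exact h.found
    | pair => simp only [sat_all, sat_iff, sat_or, Sat]; exact h.pair
    | union => simp only [sat_all, sat_iff, sat_and, Sat]; exact h.union
    | power => simp only [sat_all, sat_iff, sat_imp, Sat]; exact h.power
    | inf => simp only [sat_all, sat_iff, sat_imp, sat_and, sat_or, sat_not, Sat]; exact h.inf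
    | sep f =>
      simp only [sat_all, sat_iff, sat_and, Sat, sat_ren, e1]
      exact fun a => h.sep f v a
    | repl f =>
      simp only [sat_all, sat_iff, sat_and, sat_imp, Sat, sat_ren, e2, e3, e4]
      exact fun a => h.repl f v a
  · intro h
    obtain ⟨x0⟩ := ‹Nonempty M›
    have v0 : ℕ → M := fun _ => x0
    refine ⟨?_, ?_, ?_, ?_, ?_, ?_, ?_, ?_⟩
    · have := h _ .ext v0
      simp only [sat_all, sat_imp, sat_iff, Sat] at this
      exact this
    · have := h _ .found v0
      simp only [sat_all, sat_imp, sat_and, sat_not, Sat] at this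
      exact this
    · have := h _ .pair v0
      simp only [sat_all, sat_iff, sat_or, Sat] at this
      exact this
    · have := h _ .union v0
      simp only [sat_all, sat_iff, sat_and, Sat] at this
      exact this
    · have := h _ .power v0
      simp only [sat_all, sat_iff, sat_imp, Sat] at this
      exact this
    · have := h _ .inf v0
      simp only [sat_all, sat_iff, sat_imp, sat_and, sat_or, sat_not, Sat] at this
      exact this
    · intro f v a
      have := h _ (.sep f) v
      simp only [sat_all, sat_iff, sat_and, Sat, sat_ren, e1] at this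
      exact this a
    · intro f v a
      have := h _ (.repl f) v
      simp only [sat_all, sat_iff, sat_and, sat_imp, Sat, sat_ren, e2, e3, e4] at this
      exact this a

end sound

end Pool.Agent.Helper62.ZH
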