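import Pool.Agent.Helper62.ZH.ProvRen

/-!
# Completeness: a consistent set of axioms has a model

The chain of finite sets of formulas `ch n`: the formula number `n` is added if it is consistent with the formulas added before, with a fresh variable as a witness if it is an
existential formula. The model: the variables modulo provable equality.
-/

set_option autoImplicit false

namespace Pool.Agent.Helper62.ZH

/-- A number for each formula. -/
def numF : Fml → ℕ
  | .mem i j => 4 * Nat.pair i j
  | .eq i j => 4 * Nat.pair i j + 1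
  | .nand f g => 4 * Nat.pair (numF f) (numF g) + 2
  | .ex f => 4 * numF f + 3

theorem numF_inj : Function.Injective numF := by
  intro f
  induction f with
  | mem i j =>
    intro g h
    cases g with
    | mem k l =>
      have h1 : Nat.pair i j = Nat.pair k l := by simp only [numF] at h; omega
      obtain ⟨rfl, rfl⟩ := Nat.pair_eq_pair.1 h1
      rfl
    | eq k l => simp only [numF] at h; omega
    | nand k l => simp only [numF] at h; omega
    | ex k => simp only [numF] at h; omega
  | eq i j =>
    intro g h
    cases g with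
    | mem k l => simp only [numF] at h; omega
    | eq k l =>
      have h1 : Nat.pair i j = Nat.pair k l := by simp only [numF] at h; omega
      obtain ⟨rfl, rfl⟩ := Nat.pair_eq_pair.1 h1
      rfl
    | nand k l => simp only [numF] at h; omega
    | ex k => simp only [numF] at h; omega
  | nand f f' ih ih' =>
    intro g h
    cases g with
    | mem k l => simp only [numF] at h; omega
    | eq k l => simp only [numF] at h; omega
    | nand k l =>
      have h1 : Nat.pair (numF f) (numF f') = Nat.pair (numF k) (numF l) := by simp only [numF] at h; omega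
      have h2 := Nat.pair_eq_pair.1 h1
      rw [ih h2.1, ih' h2.2]
    | ex k => simp only [numF] at h; omega
  | ex f ih =>
    intro g h
    cases g with
    | mem k l => simp only [numF] at h; omega
    | eq k l => simp only [numF] at h; omega
    | nand k l => simp only [numF] at h; omega
    | ex k =>
      have h1 : numF f = numF k := by simp only [numF] at h; omega
      rw [ih h1]

theorem exists_enum : ∃ e : ℕ → Fml, Function.Surjective e := by
  have : Countable Fml := numF_inj.countable
  have : Nonempty Fml := ⟨.eq 0 0⟩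
  exact exists_surjective_nat Fml

theorem exists_bd_list (Γ : List Fml) : ∃ n, ∀ g ∈ Γ, Bd g n := by
  induction Γ with
  | nil => exact ⟨0, fun g hg => by cases hg⟩
  | cons f Γ ih =>
    obtain ⟨n, hn⟩ := ih
    obtain ⟨m, hm⟩ := exists_bd f
    refine ⟨n + m, fun g hg => ?_⟩
    rcases List.mem_cons.1 hg with rfl | hg
    · exact hm.mono (by omega)
    · exact (hn g hg).mono (by omega)

section henkin

variable (A : Fml → Prop)

/-- The formulas added with `f`. -/
noncomputable def wit (Γ : List Fml) : Fml → List Fml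
  | .ex g => [inst (exists_bd_list (.ex g :: Γ)).choose g]
  | _ => []

open Classical in
/-- One step of the chain. -/
noncomputable def nxt (Γ : List Fml) (f : Fml) : List Fml :=
  if Prov A (f :: Γ) botF then Γ else wit Γ f ++ f :: Γ

/-- The chain. -/
noncomputable def ch (e : ℕ → Fml) : ℕ → List Fml
  | 0 => []
  | n + 1 => nxt A (ch e n) (e n)

variable {A}

theorem nxt_sub (Γ : List Fml) (f : Fml) : Γ ⊆ nxt A Γ f := by
  unfold nxt
  split_ifs
  · exact List.Subset.refl _
  · intro g hg
    exact List.mem_append_right _ (List.mem_cons_of_mem _ hg)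

theorem nxt_con {Γ : List Fml} (f : Fml) (h : ¬ Prov A Γ botF) : ¬ Prov A (nxt A Γ f) botF := by
  unfold nxt
  split_ifs with h1
  · exact h
  · cases f with
    | ex g =>
      intro h2
      have h3 := (exists_bd_list (.ex g :: Γ)).choose_spec
      exact h1 (Prov.fresh h3 (h3 _ List.mem_cons_self) (.hyp List.mem_cons_self) h2)
    | mem i j => exact h1
    | eq i j => exact h1
    | nand f g => exact h1

theorem ch_mono (e : ℕ → Fml) {n m : ℕ} (h : n ≤ m) : ch A e n ⊆ ch A e m := by
  induction m, h using Nat.le_induction with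
  | base => exact List.Subset.refl _
  | succ m _ ih => exact List.Subset.trans ih (nxt_sub _ _)

theorem ch_con (e : ℕ → Fml) (h : ¬ Prov A [] botF) (n : ℕ) : ¬ Prov A (ch A e n) botF := by
  induction n with
  | zero => exact h
  | succ n ih => exact nxt_con _ ih

/-- Provable from the chain. -/
def Der (A : Fml → Prop) (e : ℕ → Fml) (f : Fml) : Prop := ∃ n, Prov A (ch A e n) f

theorem Der.mem_or {e : ℕ → Fml} (he : Function.Surjective e) (f : Fml) : Der A e f ∨ Der A e (notF f) := by
  obtain ⟨n, rfl⟩ := he f
  by_cases h : Prov A (e n :: ch A e n) botF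
  · exact Or.inr ⟨n, h.neg⟩
  · refine Or.inl ⟨n + 1, .hyp ?_⟩
    show e n ∈ nxt A (ch A e n) (e n)
    unfold nxt
    rw [if_neg h]
    exact List.mem_append_right _ List.mem_cons_self

theorem Der.two {e : ℕ → Fml} {f g h : Fml} (hf : Der A e f) (hg : Der A e g) (H : ∀ Γ, Prov A Γ f → Prov A Γ g → Prov A Γ h) : Der A e h := by
  obtain ⟨n, hn⟩ := hf
  obtain ⟨m, hm⟩ := hg
  exact ⟨n + m, H _ (hn.weak (ch_mono e (by omega))) (hm.weak (ch_mono e (by omega)))⟩

theorem Der.one {e : ℕ → Fml} {f h : Fml} (hf : Der A e f) (H : ∀ Γ, Prov A Γ f → Prov A Γ h) : Der A e h := by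
  obtain ⟨n, hn⟩ := hf
  exact ⟨n, H _ hn⟩

theorem Der.con {e : ℕ → Fml} (h : ¬ Prov A [] botF) {f : Fml} (h1 : Der A e f) (h2 : Der A e (notF f)) : False := by
  obtain ⟨n, hn⟩ := h1.two h2 (h := botF) fun Γ a b => .nandE b a a
  exact ch_con e h n hn

theorem Der.not_iff {e : ℕ → Fml} (he : Function.Surjective e) (h : ¬ Prov A [] botF) (f : Fml) : Der A e (notF f) ↔ ¬ Der A e f := by
  constructor
  · exact fun h1 h2 => Der.con h h2 h1
  · intro h1
    rcases Der.mem_or (A := A) he f with h2 | h2
    · exact absurd h2 h1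
    · exact h2

theorem Der.nand_iff {e : ℕ → Fml} (he : Function.Surjective e) (h : ¬ Prov A [] botF) (f g : Fml) : Der A e (.nand f g) ↔ ¬ (Der A e f ∧ Der A e g) := by
  constructor
  · rintro h1 ⟨h2, h3⟩
    obtain ⟨n, hn⟩ := h1
    obtain ⟨m, hm⟩ := h2
    obtain ⟨k, hk⟩ := h3
    have l1 := hn.weak (ch_mono (A := A) e (show n ≤ n + m + k by omega))
    have l2 := hm.weak (ch_mono (A := A) e (show m ≤ n + m + k by omega))
    have l3 := hk.weak (ch_mono (A := A) e (show k ≤ n + m + k by omega))
    exact ch_con e h _ (.nandE l1 l2 l3)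
  · intro h1
    by_cases h2 : Der A e f
    · have h3 : Der A e (notF g) := (Der.not_iff he h g).2 fun h3 => h1 ⟨h2, h3⟩
      refine h3.one fun Γ a => .nandI ?_
      have l1 : Prov A (f :: g :: Γ) (notF g) := a.weak fun x hx => List.mem_cons_of_mem _ (List.mem_cons_of_mem _ hx)
      have l2 : Prov A (f :: g :: Γ) g := .hyp (List.mem_cons_of_mem _ List.mem_cons_self)
      exact .nandE l1 l2 l2
    · have h3 : Der A e (notF f) := (Der.not_iff he h f).2 h2
      refine h3.one fun Γ a => .nandI ?_
      have l1 : Prov A (f :: g :: Γ) (notF f) := a.weak fun x hx => List.mem_cons_of_mem _ (List.mem_cons_of_mem _ hx)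
      have l2 : Prov A (f :: g :: Γ) f := .hyp List.mem_cons_self
      exact .nandE l1 l2 l2

theorem Der.ex_iff {e : ℕ → Fml} (he : Function.Surjective e) (h : ¬ Prov A [] botF) (f : Fml) : Der A e (.ex f) ↔ ∃ c, Der A e (inst c f) := by
  constructor
  · intro h1
    obtain ⟨n, hn⟩ := he (.ex f)
    by_cases h2 : Prov A (e n :: ch A e n) botF
    · rw [hn] at h2
      exact absurd ⟨n, h2.neg⟩ fun h3 => Der.con h h1 h3
    · refine ⟨(exists_bd_list (.ex f :: ch A e n)).choose, n + 1, .hyp ?_⟩
      show _ ∈ nxt A (ch A e n) (e n)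
      unfold nxt
      rw [if_neg h2, hn]
      exact List.mem_append_left _ List.mem_cons_self
  · rintro ⟨c, hc⟩
    exact hc.one fun Γ a => .exI c a

theorem Der.refl (e : ℕ → Fml) (i : ℕ) : Der A e (.eq i i) := ⟨0, .refl i⟩

theorem Der.symm {e : ℕ → Fml} {i j : ℕ} (h : Der A e (.eq i j)) : Der A e (.eq j i) :=
  h.one fun _ a => Prov.subst (f := .eq 0 (i + 1)) i j a (.refl i)

theorem Der.trans {e : ℕ → Fml} {i j k : ℕ} (h : Der A e (.eq i j)) (h' : Der A e (.eq j k)) : Der A e (.eq i k) :=
  h.two h' fun _ a b => Prov.subst (f := .eq (i + 1) 0) j k b a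

theorem Der.mem_left {e : ℕ → Fml} {i i' j : ℕ} (h : Der A e (.eq i i')) (h' : Der A e (.mem i j)) : Der A e (.mem i' j) :=
  h.two h' fun _ a b => Prov.subst (f := .mem 0 (j + 1)) i i' a b

theorem Der.mem_right {e : ℕ → Fml} {i j j' : ℕ} (h : Der A e (.eq j j')) (h' : Der A e (.mem i j)) : Der A e (.mem i j') :=
  h.two h' fun _ a b => Prov.subst (f := .mem (i + 1) 0) j j' a b

end henkin

/-- Completeness: consistent axioms have a model. -/
theorem prov_complete {A : Fml → Prop} (h : ¬ Prov A [] botF) : ∃ (M : Type) (E : M → M → Prop), Nonempty M ∧ ∀ f, A f → ∀ v : ℕ → M, Sat E f v := by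
  obtain ⟨e, he⟩ := exists_enum
  let S : Setoid ℕ := ⟨fun i j => Der A e (.eq i j), fun i => Der.refl e i, fun h => h.symm, fun h h' => h.trans h'⟩
  let E : Quotient S → Quotient S → Prop := Quotient.lift₂ (fun i j => Der A e (.mem i j)) (by
    intro i j i' j' hi hj
    exact propext ⟨fun h => Der.mem_right hj (Der.mem_left hi h), fun h => Der.mem_right (Der.symm hj) (Der.mem_left (Der.symm hi) h)⟩)
  have key : ∀ (f : Fml) (s : ℕ → ℕ), Sat E f (fun i => (Quotient.mk S (s i))) ↔ Der A e (ren s f) := by
    intro f
    induction f with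
    | mem i j => exact fun s => Iff.rfl
    | eq i j =>
      intro s
      show Quotient.mk S (s i) = Quotient.mk S (s j) ↔ _
      rw [Quotient.eq]
      exact Iff.rfl
    | nand f g ihf ihg =>
      intro s
      show ¬ (_ ∧ _) ↔ Der A e (.nand (ren s f) (ren s g))
      rw [Der.nand_iff he h, ihf, ihg]
    | ex f ih =>
      intro s
      rw [ren_ex, Der.ex_iff he h]
      have h1 : ∀ c, inst c (ren (lft s) f) = ren (fun i => match i with | 0 => c | i + 1 => s i) f := by
        intro c
        unfold inst
        rw [ren_ren]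
        congr 1
        funext i
        cases i <;> rfl
      have h2 : ∀ c, (fun i => Quotient.mk S ((fun i => match i with | 0 => c | i + 1 => s i) i)) = cons (Quotient.mk S c) (fun i => Quotient.mk S (s i)) := by
        intro c
        funext i
        cases i <;> rfl
      constructor
      · rintro ⟨x, hx⟩
        obtain ⟨c, rfl⟩ := Quotient.exists_rep x
        refine ⟨c, ?_⟩
        rw [h1, ← ih, h2]
        exact hx
      · rintro ⟨c, hc⟩
        refine ⟨Quotient.mk S c, ?_⟩
        rw [h1, ← ih, h2] at hc
        exact hc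
  refine ⟨Quotient S, E, ⟨Quotient.mk S 0⟩, fun f hf v => ?_⟩
  have h1 : v = fun i => Quotient.mk S (v i).out := by
    funext i
    exact (Quotient.out_eq (v i)).symm
  rw [h1, key]
  exact ⟨0, .ax _ hf⟩

/-- ZF is inconsistent iff it has no model. -/
theorem zf_prov_iff : Prov ZFAx [] botF ↔ ¬ ∃ (M : Type) (E : M → M → Prop), ZFModel E := by
  constructor
  · rintro h ⟨M, E, hE⟩
    have hn : Nonempty M := by
      obtain ⟨x, _⟩ := hE.inf
      exact ⟨x⟩
    have x := hn.some
    exact sat_bot (h.sound (zf_iff.1 hE) (fun _ => x) (fun g hg => by cases hg))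
  · intro h
    by_contra hcon
    obtain ⟨M, E, hn, hE⟩ := prov_complete hcon
    exact h ⟨M, E, zf_iff.2 hE⟩

end Pool.Agent.Helper62.ZH
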