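import Pool.Agent.Helper62.ZH.Prov

/-!
# Provability: renaming, weakening, fresh variables
-/

set_option autoImplicit false

namespace Pool.Agent.Helper62.ZH

/-- The renaming under a quantifier. -/
def lft (s : ℕ → ℕ) : ℕ → ℕ := fun i => match i with | 0 => 0 | i + 1 => s i + 1

theorem ren_ex (s : ℕ → ℕ) (f : Fml) : ren s (.ex f) = .ex (ren (lft s) f) := rfl

theorem ren_ren (f : Fml) : ∀ s t : ℕ → ℕ, ren s (ren t f) = ren (fun i => s (t i)) f := by
  induction f with
  | mem i j => intro s t; rfl
  | eq i j => intro s t; rfl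
  | nand f g ihf ihg => intro s t; simp only [ren]; rw [ihf, ihg]
  | ex f ih =>
    intro s t
    rw [ren_ex, ren_ex, ren_ex, ih]
    congr 2
    funext i
    cases i <;> rfl

theorem ren_congr {f : Fml} : ∀ {n : ℕ} {s t : ℕ → ℕ}, Bd f n → (∀ i, i < n → s i = t i) → ren s f = ren t f := by
  induction f with
  | mem i j => intro n s t hb h; simp only [ren]; rw [h i hb.1, h j hb.2]
  | eq i j => intro n s t hb h; simp only [ren]; rw [h i hb.1, h j hb.2]
  | nand f g ihf ihg => intro n s t hb h; simp only [ren]; rw [ihf hb.1 h, ihg hb.2 h]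
  | ex f ih =>
    intro n s t hb h
    rw [ren_ex, ren_ex, ih (n := n + 1) (s := lft s) (t := lft t) hb]
    intro i hi
    cases i with
    | zero => rfl
    | succ i => show s i + 1 = t i + 1; rw [h i (by omega)]

theorem ren_id (f : Fml) : ren (fun i => i) f = f := by
  induction f with
  | mem i j => rfl
  | eq i j => rfl
  | nand f g ihf ihg => simp only [ren]; rw [ihf, ihg]
  | ex f ih =>
    rw [ren_ex]
    have h : lft (fun i => i) = fun i => i := by
      funext i
      cases i <;> rfl
    rw [h, ih]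

theorem ren_inst (s : ℕ → ℕ) (c : ℕ) (f : Fml) : ren s (inst c f) = inst (s c) (ren (lft s) f) := by
  unfold inst
  rw [ren_ren, ren_ren]
  congr 1
  funext i
  cases i <;> rfl

theorem ren_up (s : ℕ → ℕ) (f : Fml) : ren (lft s) (up f) = up (ren s f) := by
  unfold up
  rw [ren_ren, ren_ren]
  rfl

theorem ren_bot (s : ℕ → ℕ) : ren s botF = botF := rfl

theorem map_up (s : ℕ → ℕ) (Γ : List Fml) : (Γ.map up).map (ren (lft s)) = (Γ.map (ren s)).map up := by
  rw [List.map_map, List.map_map]
  exact List.map_congr_left fun g _ => ren_up s g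

variable {A : Fml → Prop}

theorem Prov.ren {Γ : List Fml} {f : Fml} (h : Prov A Γ f) : ∀ s : ℕ → ℕ, Prov A (Γ.map (ren s)) (ren s f) := by
  induction h with
  | ax t hf => intro s; rw [ren_ren]; exact .ax _ hf
  | hyp hf => intro s; exact .hyp (List.mem_map_of_mem hf)
  | nandI _ ih => intro s; exact .nandI (ih s)
  | nandE _ _ _ ih1 ih2 ih3 => intro s; exact .nandE (ih1 s) (ih2 s) (ih3 s)
  | contra _ ih => intro s; exact .contra (ih s)
  | exI c _ ih =>
    intro s
    have h1 := ih s
    rw [ren_inst] at h1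
    exact .exI (s c) h1
  | exE _ _ ih1 ih2 =>
    intro s
    have h2 := ih2 (lft s)
    rw [List.map_cons, map_up, ren_up] at h2
    exact .exE (ih1 s) h2
  | refl i => intro s; exact .refl _
  | subst i j _ _ ih1 ih2 =>
    intro s
    have h2 := ih2 s
    rw [ren_inst] at h2
    rw [ren_inst]
    exact .subst _ _ (ih1 s) h2

theorem Prov.weak {Γ : List Fml} {f : Fml} (h : Prov A Γ f) : ∀ {Δ : List Fml}, Γ ⊆ Δ → Prov A Δ f := by
  induction h with
  | ax t hf => intro Δ _; exact .ax _ hf
  | hyp hf => intro Δ hs; exact .hyp (hs hf)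
  | nandI _ ih =>
    intro Δ hs
    exact .nandI (ih (List.cons_subset_cons _ (List.cons_subset_cons _ hs)))
  | nandE _ _ _ ih1 ih2 ih3 => intro Δ hs; exact .nandE (ih1 hs) (ih2 hs) (ih3 hs)
  | contra _ ih => intro Δ hs; exact .contra (ih (List.cons_subset_cons _ hs))
  | exI c _ ih => intro Δ hs; exact .exI c (ih hs)
  | exE _ _ ih1 ih2 =>
    intro Δ hs
    exact .exE (ih1 hs) (ih2 (List.cons_subset_cons _ (List.map_subset up hs)))
  | refl i => intro Δ _; exact .refl _
  | subst i j _ _ ih1 ih2 => intro Δ hs; exact .subst _ _ (ih1 hs) (ih2 hs)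

/-- From an inconsistency of `f` to the negation of `f`. -/
theorem Prov.neg {Γ : List Fml} {f : Fml} (h : Prov A (f :: Γ) botF) : Prov A Γ (notF f) :=
  .nandI (h.weak (List.subset_cons_self _ _))

theorem Prov.cut {Γ : List Fml} {f : Fml} (h1 : Prov A Γ f) (h2 : Prov A (f :: Γ) botF) : Prov A Γ botF :=
  .nandE h2.neg h1 h1

/-- A fresh variable as a witness. -/
theorem Prov.fresh {Γ : List Fml} {f : Fml} {c : ℕ} (hΓ : ∀ g ∈ Γ, Bd g c) (hf : Bd (.ex f) c) (h1 : Prov A Γ (.ex f))
    (h2 : Prov A (inst c f :: Γ) botF) : Prov A Γ botF := by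
  have h3 := h2.ren (fun i => if i = c then 0 else i + 1)
  rw [List.map_cons, ren_bot] at h3
  have e1 : ZH.ren (fun i => if i = c then 0 else i + 1) (inst c f) = f := by
    unfold inst
    rw [ren_ren]
    have h : ZH.ren (fun i => (fun i => if i = c then 0 else i + 1) (match i with | 0 => c | i + 1 => i)) f = ZH.ren (fun i => i) f := by
      refine ren_congr (n := c + 1) hf fun i hi => ?_
      cases i with
      | zero => simp
      | succ i =>
        show (if i = c then 0 else i + 1) = i + 1
        rw [if_neg (by omega)]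
    exact h.trans (ren_id f)
  have e2 : Γ.map (ZH.ren (fun i => if i = c then 0 else i + 1)) = Γ.map up := by
    refine List.map_congr_left fun g hg => ?_
    unfold up
    refine ren_congr (hΓ g hg) fun i hi => ?_
    rw [if_neg (by omega)]
  rw [e1, e2] at h3
  exact .exE h1 h3

end Pool.Agent.Helper62.ZH
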