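import Pool.Agent.Helper62.ZH.Formulas
import Pool.Agent.Helper62.ZH.TSim

/-!
# ZH-06 Quo: the quotient by bisimilarity

Proofs. `T0.exists_quo`: `M' := Quotient` of the setoid `Sim E` (`sim_refl`, `sim_symm`, `sim_trans`), `E'` by `Quotient.lift₂` (or: `E' X Y := ∃ x y,
π x = X ∧ π y = Y ∧ ∃ x', E x' y ∧ Sim E x' x`, and then prove `mem_iff` using `Sim.step`).
Well defined: if `Sim x x2`, `Sim y y2`, `x' ∈ y`, `Sim x' x` then by `Sim.step` there is `y' ∈ y2` with `Sim x' y'`, so `Sim y' x2`.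
`Quo.sat`: induction on `f`; `mem` by `mem_iff` and `sat_simF`; `eq` by `eq_iff` and `sat_simF`; `ex` by `surj`: `X = π x`,
`cons (π x) (fun i => π (v i)) = fun i => π (cons x v i)` (funext, cases).
`Quo.ext`: let `x = π a`, `y = π b` (`surj`). `a' ∈ a` → `E' (π a') (π a)` (`sim_refl`) → `E' (π a') (π b)` → some `b' ∈ b` with `Sim b' a'`. So by `sim_of_step`
`Sim a b`.
-/

set_option autoImplicit false

namespace Pool.Agent.Helper62.ZH

variable {M M' : Type} {E : M → M → Prop} {E' : M' → M' → Prop} {π : M → M'}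

/-- `(M', E')` is the quotient of `(M, E)` by bisimilarity. -/
structure Quo (E : M → M → Prop) (E' : M' → M' → Prop) (π : M → M') : Prop where
  surj : ∀ y, ∃ x, π x = y
  eq_iff : ∀ x y, π x = π y ↔ Sim E x y
  mem_iff : ∀ x y, E' (π x) (π y) ↔ ∃ x', E x' y ∧ Sim E x' x

theorem T0.exists_quo (h : T0 E) : ∃ (N : Type) (E' : N → N → Prop) (π : M → N), Quo E E' π := by
  let S : Setoid M := ⟨Sim E, fun x => h.sim_refl x, fun hxy => h.sim_symm hxy, fun hxy hyz => h.sim_trans hxy hyz⟩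
  refine ⟨Quotient S, fun X Y => ∃ x y, Quotient.mk S x = X ∧ Quotient.mk S y = Y ∧ ∃ x', E x' y ∧ Sim E x' x,
    Quotient.mk S, ?_, ?_, ?_⟩
  · intro y
    exact Quotient.exists_rep y
  · intro x y
    exact Quotient.eq (r := S)
  · intro x y
    constructor
    · rintro ⟨a, b, ha, hb, x', hx', hs⟩
      have ha' : Sim E a x := Quotient.exact ha
      have hb' : Sim E b y := Quotient.exact hb
      obtain ⟨y', hy', hy2⟩ := (Sim.step hb').1 x' hx'
      exact ⟨y', hy', h.sim_trans (h.sim_trans (h.sim_symm hy2) hs) ha'⟩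
    · rintro ⟨x', hx', hs⟩
      exact ⟨x, y, rfl, rfl, x', hx', hs⟩

theorem Quo.sat (hq : Quo E E' π) : ∀ (f : Fml) (v : ℕ → M), Sat E' f (fun i => π (v i)) ↔ Sat E (trQ f) v := by
  intro f
  induction f with
  | mem i j =>
    intro v
    simp only [trQ, sat_mem, sat_ex, sat_and, sat_simF, cons_zero, cons_succ]
    exact hq.mem_iff (v i) (v j)
  | eq i j =>
    intro v
    simp only [trQ, sat_eq, sat_simF]
    exact hq.eq_iff (v i) (v j)
  | nand f g ihf ihg =>
    intro v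
    simp only [trQ, Sat]
    rw [ihf, ihg]
  | ex f ih =>
    intro v
    simp only [trQ, sat_ex]
    have hc : ∀ x, cons (π x) (fun i => π (v i)) = fun i => π (cons x v i) := by
      intro x
      funext i
      cases i <;> rfl
    constructor
    · rintro ⟨X, hX⟩
      obtain ⟨x, rfl⟩ := hq.surj X
      rw [hc, ih] at hX
      exact ⟨x, hX⟩
    · rintro ⟨x, hx⟩
      refine ⟨π x, ?_⟩
      rw [hc, ih]
      exact hx

theorem Quo.ext (h : T0 E) (hq : Quo E E' π) : ∀ x y, (∀ z, E' z x ↔ E' z y) → x = y := by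
  intro x y hxy
  obtain ⟨a, rfl⟩ := hq.surj x
  obtain ⟨b, rfl⟩ := hq.surj y
  rw [hq.eq_iff]
  refine h.sim_of_step ?_ ?_
  · intro a' ha'
    have h1 : E' (π a') (π a) := (hq.mem_iff a' a).2 ⟨a', ha', h.sim_refl a'⟩
    obtain ⟨b', hb', hs⟩ := (hq.mem_iff a' b).1 ((hxy _).1 h1)
    exact ⟨b', hb', h.sim_symm hs⟩
  · intro b' hb'
    have h1 : E' (π b') (π b) := (hq.mem_iff b' b).2 ⟨b', hb', h.sim_refl b'⟩
    obtain ⟨a', ha', hs⟩ := (hq.mem_iff b' a).1 ((hxy _).2 h1)
    exact ⟨a', ha', hs⟩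

end Pool.Agent.Helper62.ZH
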