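import Pool.Agent.Helper62.ZH.Formulas

/-!
# ZH-08 Reg: regular sets

`sat_trR`: induction on `f` (only `ex` is interesting: `sat_ex`, `sat_and`, `sat_rgF`, `Subtype.exists`; the sequences
`fun i => (cons x v i).1` and `cons x.1 (fun i => (v i).1)` are equal by funext, cases).
`rg_iff`: left to right: let `y ∈ x`, `y ∈ c`. Let `c' := c ∪ {x}` (`h.pair x x`, `h.pair`, `h.union`; no extensionality needed: a set whose elements are
those of `c` and `x`). As `x` is regular and `x ∈ c'`, there is `m ∈ c'` with no element in `c'`. If `m ∈ c` done. Else `m = x` but `y ∈ x`, `y ∈ c'`: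
contradiction. Right to left: let `x ∈ c`. If no element of `x` is in `c` take `x`. Else some `y ∈ x` is in `c`, `y` is regular.
-/

/-!
# ZH-08 Reg: regular sets

`sat_trR`: induction on `f` (only `ex` is interesting: `sat_ex`, `sat_and`, `sat_rgF`, `Subtype.exists`; the sequences
`fun i => (cons x v i).1` and `cons x.1 (fun i => (v i).1)` are equal by funext, cases).
`rg_iff`: left to right: let `y ∈ x`, `y ∈ c`. Let `c' := c ∪ {x}` (`h.pair x x`, `h.pair`, `h.union`; no extensionality needed: a set whose elements are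
those of `c` and `x`). As `x` is regular and `x ∈ c'`, there is `m ∈ c'` with no element in `c'`. If `m ∈ c` done. Else `m = x` but `y ∈ x`, `y ∈ c'`:
contradiction. Right to left: let `x ∈ c`. If no element of `x` is in `c` take `x`. Else some `y ∈ x` is in `c`, `y` is regular.
-/

set_option autoImplicit false

namespace Pool.Agent.Helper62.ZH

variable {M : Type} {E : M → M → Prop}

theorem sat_trR (f : Fml) : ∀ v : ℕ → {x // Rg E x}, Sat (fun x y : {x // Rg E x} => E x.1 y.1) f v ↔ Sat E (trR f) (fun i => (v i).1) := by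
  induction f with
  | mem i j => intro v; exact Iff.rfl
  | eq i j => intro v; simp only [Sat, trR]; exact Subtype.ext_iff
  | nand f g ihf ihg => intro v; simp only [Sat, trR]; rw [ihf, ihg]
  | ex f ih =>
    intro v
    simp only [trR, sat_ex, sat_and, sat_rgF, cons_zero]
    constructor
    · rintro ⟨x, hx⟩
      refine ⟨x.1, x.2, ?_⟩
      have h1 := (ih (cons x v)).1 hx
      have h2 : (fun i => (cons x v i).1) = cons x.1 (fun i => (v i).1) := by
        funext i
        cases i <;> rfl
      rw [h2] at h1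
      exact h1
    · rintro ⟨x, hx, hs⟩
      refine ⟨⟨x, hx⟩, (ih _).2 ?_⟩
      have h2 : (fun i => (cons (⟨x, hx⟩ : {x // Rg E x}) v i).1) = cons x (fun i => (v i).1) := by
        funext i
        cases i <;> rfl
      rw [h2]
      exact hs

theorem T0.rg_iff (h : T0 E) {x : M} : Rg E x ↔ ∀ y, E y x → Rg E y := by
  constructor
  · intro hx y hy c hc
    obtain ⟨p, hp⟩ := h.pair x x
    obtain ⟨q, hq⟩ := h.pair c p
    obtain ⟨c', hc'⟩ := h.union q
    have hmem : ∀ u, E u c' ↔ E u c ∨ u = x := by
      intro u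
      rw [hc']
      constructor
      · rintro ⟨z, hz1, hz2⟩
        rcases (hq z).1 hz2 with h1 | h1
        · left; rw [← h1]; exact hz1
        · right
          rw [h1] at hz1
          rcases (hp u).1 hz1 with h2 | h2 <;> exact h2
      · rintro (h1 | h1)
        · exact ⟨c, h1, (hq c).2 (Or.inl rfl)⟩
        · exact ⟨p, (hp u).2 (Or.inl h1), (hq p).2 (Or.inr rfl)⟩
    obtain ⟨m, hm, hmin⟩ := hx c' ((hmem x).2 (Or.inr rfl))
    rcases (hmem m).1 hm with h1 | h1
    · exact ⟨m, h1, fun z hz hzc => hmin z hz ((hmem z).2 (Or.inl hzc))⟩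
    · exfalso
      rw [h1] at hmin
      exact hmin y hy ((hmem y).2 (Or.inl hc))
  · intro hall c hc
    by_cases hy : ∃ y, E y x ∧ E y c
    · obtain ⟨y, hyx, hyc⟩ := hy
      exact hall y hyx c hyc
    · exact ⟨x, hc, fun z hz hzc => hy ⟨z, hz, hzc⟩⟩

end Pool.Agent.Helper62.ZH
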