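import Pool.Agent.Helper62.ZH.K1
import Pool.Agent.Helper62.ZH.SysB

/-!
# Project ZH: the cheapest rules (helper30, helper38, helper62): definitions and completeness

Codes of formulas are all trees: `o`: the current value is an element of the first value of the environment (of `k` if it is empty); `(f, o)`: exists;
`(f, g)` with a pair `g`: not `f`, and not `g` after dropping the first value of the environment (which has to be nonempty).
-/

set_option autoImplicit false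

namespace Pool.Agent.Helper62.ZH

/-- A witness for `∃ z, f (z, x :: e)`. -/
def wW (x e f : Tree) : Tree := .p x (.p e f)

/-- The set of the elements `x` of the first value of `e` (of `k` if `e` is empty) for which `q (x, e)` is false. -/
def wS (e q : Tree) : Tree := .p (.p e q) .o

/-- The rules. -/
structure Good3 (T : Tree → Tree → Tree → Bool) : Prop where
  N : ∀ x y e f h i, T x (.p y e) (.p f (.p h i)) = (!T x (.p y e) f && !T x e (.p h i))
  I : ∀ x y e, T x (.p y e) .o = T x (.p y .o) .o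
  Ea : ∀ z x e f, T z (.p x e) f = true → T x e (.p f .o) = true
  S : ∀ x e q, T x (.p (wS e q) .o) .o = (T x e .o && !T x e q)
  KT : ∀ x f e q, T x .o .o = true → T (wS (.p (wW x .o f) e) q) .o .o = true
  Eb : ∀ x e f, T x e (.p f .o) = true → T (wW x e f) (.p x e) f = true
  N0 : T .o .o .o = true

/-! ## derived codes -/

private def tau3 : Tree := .p (.p .o .o) .o
private def b0 : Tree := .p .o tau3
private def bot3 : Tree := .p b0 .o
private def neg3 (f : Tree) : Tree := .p f bot3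
private def dr3 (g : Tree) : Tree := .p (.p b0 g) bot3
private def vr3 : ℕ → Tree
  | 0 => neg3 (neg3 .o)
  | j + 1 => dr3 (vr3 j)
private def nor2 (f g : Tree) : Tree := .p (dr3 f) g
private def nor3 (f g : Tree) : Tree := .p (nor2 f g) .o
private def ns3 (i j : ℕ) : Tree := .p (nor2 (neg3 (vr3 i)) (vr3 j)) .o
private def sm3 (i j : ℕ) : Tree := nor3 (ns3 i j) (ns3 j i)
private def nsm3 (i j : ℕ) : Tree := nor3 (sm3 i j) (sm3 i j)
private def mem3 (i j : ℕ) : Tree := .p (nor2 (neg3 (vr3 j)) (.p (nsm3 0 (i + 1)) .o)) .o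

private def tr3 : Fml → (ℕ → ℕ) → Tree
  | .mem i j, r => mem3 (r i) (r j)
  | .eq i j, r => sm3 (r i) (r j)
  | .nand f g, r => nor3 (nor3 (nor3 (tr3 f r) (tr3 f r)) (nor3 (tr3 g r) (tr3 g r)))
      (nor3 (nor3 (tr3 f r) (tr3 f r)) (nor3 (tr3 g r) (tr3 g r)))
  | .ex f, r => .p (.p (tr3 f (cons 0 (fun i => r i + 2))) .o) .o

/-- A pair. -/
private def IsP (g : Tree) : Prop := ∃ a b, g = .p a b

private theorem isP_vr3 (j : ℕ) : IsP (vr3 j) := by
  cases j with
  | zero => exact ⟨_, _, rfl⟩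
  | succ j => exact ⟨_, _, rfl⟩

private theorem isP_tau3 : IsP tau3 := ⟨_, _, rfl⟩

private theorem isP_bot3 : IsP bot3 := ⟨_, _, rfl⟩

private theorem isP_neg3 (f : Tree) : IsP (neg3 f) := ⟨_, _, rfl⟩

private theorem isP_ec (f : Tree) : IsP (.p f .o) := ⟨_, _, rfl⟩

private theorem isP_nor3 (f g : Tree) : IsP (nor3 f g) := ⟨_, _, rfl⟩

private theorem isP_ns3 (i j : ℕ) : IsP (ns3 i j) := ⟨_, _, rfl⟩

private theorem isP_sm3 (i j : ℕ) : IsP (sm3 i j) := ⟨_, _, rfl⟩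

private theorem isP_tr3 (f : Fml) (r : ℕ → ℕ) : IsP (tr3 f r) := by
  cases f <;> exact ⟨_, _, rfl⟩

variable {T : Tree → Tree → Tree → Bool}

section

variable (hT : Good3 T)

include hT

private theorem nd_eq (x y e f : Tree) {g : Tree} (hg : IsP g) : T x (.p y e) (.p f g) = (!T x (.p y e) f && !T x e g) := by
  obtain ⟨a, b, rfl⟩ := hg
  exact hT.N x y e f a b

private theorem ex_iff3 (x e f : Tree) : T x e (.p f .o) = true ↔ ∃ z, T z (.p x e) f = true :=
  ⟨fun h => ⟨_, hT.Eb x e f h⟩, fun ⟨z, hz⟩ => hT.Ea z x e f hz⟩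

private theorem tau_true3 (x e : Tree) : T x e tau3 = true := by
  by_contra h
  have h1 : ∀ w z, ¬ T w (.p z .o) .o = true := by
    intro w z hw
    apply h
    have h2 : T w (.p z (.p x e)) .o = true := by rw [hT.I, hw]
    exact hT.Ea _ _ _ _ (hT.Ea _ _ _ _ h2)
  have h2 : T .o .o (.p .o .o) = false := by
    rw [Bool.eq_false_iff]
    intro h3
    exact h1 _ _ (hT.Eb _ _ _ h3)
  apply h1 .o (wS .o (.p .o .o))
  rw [hT.S, hT.N0, h2]
  rfl

private theorem b0_false (x y e : Tree) : T x (.p y e) b0 = false := by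
  show T x (.p y e) (.p .o tau3) = false
  rw [nd_eq hT x y e .o isP_tau3, tau_true3 hT]
  simp

private theorem bot_false3 (x e : Tree) : T x e bot3 = false := by
  rw [Bool.eq_false_iff]
  intro h
  obtain ⟨z, hz⟩ := (ex_iff3 hT x e b0).1 h
  rw [b0_false hT] at hz
  cases hz

private theorem neg_eq3 (x y e f : Tree) : T x (.p y e) (neg3 f) = !T x (.p y e) f := by
  show T x (.p y e) (.p f bot3) = _
  rw [nd_eq hT x y e f isP_bot3, bot_false3 hT]
  simp

private theorem dr_eq3 (x y e : Tree) {g : Tree} (hg : IsP g) : T x (.p y e) (dr3 g) = T x e g := by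
  show T x (.p y e) (.p (.p b0 g) bot3) = _
  rw [nd_eq hT x y e _ isP_bot3, bot_false3 hT, nd_eq hT x y e _ hg, b0_false hT]
  simp

private theorem nor2_eq (x y e : Tree) {f g : Tree} (hf : IsP f) (hg : IsP g) :
    T x (.p y e) (nor2 f g) = (!T x e f && !T x e g) := by
  show T x (.p y e) (.p (dr3 f) g) = _
  rw [nd_eq hT x y e _ hg, dr_eq3 hT x y e hf]

private theorem nor3_iff {e f g : Tree} {P Q : Prop} (hf : IsP f) (hg : IsP g) (h1 : ∀ x, T x e f = true ↔ P) (h2 : ∀ x, T x e g = true ↔ Q) (x : Tree) :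
    T x e (nor3 f g) = true ↔ ¬ P ∧ ¬ Q := by
  unfold nor3
  rw [ex_iff3 hT]
  have h3 : ∀ z, T z (.p x e) (nor2 f g) = true ↔ ¬ P ∧ ¬ Q := by
    intro z
    rw [nor2_eq hT z x e hf hg, ← h1 z, ← h2 z]
    cases T z e f <;> cases T z e g <;> simp
  exact ⟨fun ⟨z, hz⟩ => (h3 z).1 hz, fun h => ⟨.o, (h3 .o).2 h⟩⟩

private theorem var3 (u a : Tree) (j : ℕ) : ∀ (l : List Tree), l[j]? = some a → (T u (env l) (vr3 j) = true ↔ Ep T u a) := by
  induction j with
  | zero =>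
    intro l h
    cases l with
    | nil => cases h
    | cons b l =>
      have h1 : b = a := Option.some.inj h
      subst h1
      show T u (.p b (env l)) (neg3 (neg3 .o)) = true ↔ _
      rw [neg_eq3 hT, neg_eq3 hT, Bool.not_not, hT.I]
      rfl
  | succ j ih =>
    intro l h
    cases l with
    | nil => cases h
    | cons b l =>
      show T u (.p b (env l)) (dr3 (vr3 j)) = true ↔ _
      rw [dr_eq3 hT _ _ _ (isP_vr3 j)]
      exact ih l h

private theorem neg_var3 (u a : Tree) (j : ℕ) (l : List Tree) (h : l[j]? = some a) : T u (env l) (neg3 (vr3 j)) = true ↔ ¬ Ep T u a := by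
  cases l with
  | nil => simp at h
  | cons b l =>
    have h1 := var3 hT u a j (b :: l) h
    show T u (.p b (env l)) (neg3 (vr3 j)) = true ↔ _
    rw [neg_eq3 hT, ← h1]
    show (!T u (env (b :: l)) (vr3 j)) = true ↔ _
    simp

private theorem ns_iff (i j : ℕ) (a b : Tree) (l : List Tree) (ha : l[i]? = some a) (hb : l[j]? = some b) (x : Tree) :
    T x (env l) (ns3 i j) = true ↔ ∃ t, Ep T t a ∧ ¬ Ep T t b := by
  unfold ns3
  rw [ex_iff3 hT]
  refine exists_congr fun t => ?_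
  rw [nor2_eq hT t x _ (isP_neg3 _) (isP_vr3 j)]
  have h1 := neg_var3 hT t a i l ha
  have h2 := var3 hT t b j l hb
  rw [Bool.and_eq_true, Bool.not_eq_true', Bool.not_eq_true', ← h2]
  refine and_congr ?_ (Bool.eq_false_iff)
  rw [Bool.eq_false_iff, Ne, h1, not_not]

private theorem sm_iff (i j : ℕ) (a b : Tree) (l : List Tree) (ha : l[i]? = some a) (hb : l[j]? = some b) (x : Tree) :
    T x (env l) (sm3 i j) = true ↔ Same T a b := by
  unfold sm3
  rw [nor3_iff hT (isP_ns3 i j) (isP_ns3 j i) (ns_iff hT i j a b l ha hb) (ns_iff hT j i b a l hb ha) x]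
  unfold Same
  push Not
  exact ⟨fun h u => ⟨fun h1 => h.1 u h1, fun h1 => h.2 u h1⟩, fun h => ⟨fun t => (h t).1, fun t => (h t).2⟩⟩

private theorem nsm_iff (i j : ℕ) (a b : Tree) (l : List Tree) (ha : l[i]? = some a) (hb : l[j]? = some b) (x : Tree) :
    T x (env l) (nsm3 i j) = true ↔ ¬ Same T a b := by
  unfold nsm3
  rw [nor3_iff hT (isP_sm3 i j) (isP_sm3 i j) (sm_iff hT i j a b l ha hb) (sm_iff hT i j a b l ha hb) x, and_self]

private theorem mem3_iff (i j : ℕ) (a b : Tree) (l : List Tree) (ha : l[i]? = some a) (hb : l[j]? = some b) (x : Tree) :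
    T x (env l) (mem3 i j) = true ↔ ∃ t, Ep T t b ∧ Same T t a := by
  unfold mem3
  rw [ex_iff3 hT]
  refine exists_congr fun t => ?_
  rw [nor2_eq hT t x _ (isP_neg3 _) (isP_ec _)]
  have h1 := neg_var3 hT t b j l hb
  have h2 : T t (env l) (.p (nsm3 0 (i + 1)) .o) = true ↔ ¬ Same T t a := by
    rw [ex_iff3 hT]
    have h3 : ∀ w, T w (.p t (env l)) (nsm3 0 (i + 1)) = true ↔ ¬ Same T t a :=
      nsm_iff hT 0 (i + 1) t a (t :: l) rfl ha
    exact ⟨fun ⟨w, hw⟩ => (h3 w).1 hw, fun h => ⟨.o, (h3 .o).2 h⟩⟩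
  rw [Bool.and_eq_true, Bool.not_eq_true', Bool.not_eq_true']
  refine and_congr ?_ ?_
  · rw [Bool.eq_false_iff, Ne, h1, not_not]
  · rw [Bool.eq_false_iff, Ne, h2, not_not]

private theorem sat3 {M : Type} {E : M → M → Prop} {π : Tree → M} (hq : TQuo T E π) (f : Fml) :
    ∀ (r : ℕ → ℕ) (l : List Tree) (w : ℕ → M) (n : ℕ), Bd f n → (∀ i, i < n → ∃ a, l[r i]? = some a ∧ π a = w i) →
      ∀ x, (T x (env l) (tr3 f r) = true ↔ Sat E f w) := by
  induction f with
  | mem i j =>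
    intro r l w n hb h x
    obtain ⟨a, ha, ha2⟩ := h i hb.1
    obtain ⟨b, hb1, hb2⟩ := h j hb.2
    show T x (env l) (mem3 (r i) (r j)) = true ↔ E (w i) (w j)
    rw [mem3_iff hT _ _ a b l ha hb1, ← ha2, ← hb2, hq.mem_iff]
  | eq i j =>
    intro r l w n hb h x
    obtain ⟨a, ha, ha2⟩ := h i hb.1
    obtain ⟨b, hb1, hb2⟩ := h j hb.2
    show T x (env l) (sm3 (r i) (r j)) = true ↔ w i = w j
    rw [sm_iff hT _ _ a b l ha hb1, ← ha2, ← hb2, hq.eq_iff]
  | nand f g ihf ihg =>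
    intro r l w n hb h x
    have h1 := ihf r l w n hb.1 h
    have h2 := ihg r l w n hb.2 h
    have h3 := nor3_iff hT (isP_tr3 f r) (isP_tr3 f r) h1 h1
    have h4 := nor3_iff hT (isP_tr3 g r) (isP_tr3 g r) h2 h2
    have h5 := nor3_iff hT (isP_nor3 _ _) (isP_nor3 _ _) h3 h4
    have h6 := nor3_iff hT (isP_nor3 _ _) (isP_nor3 _ _) h5 h5 x
    show T x (env l) (nor3 (nor3 (nor3 (tr3 f r) (tr3 f r)) (nor3 (tr3 g r) (tr3 g r)))
      (nor3 (nor3 (tr3 f r) (tr3 f r)) (nor3 (tr3 g r) (tr3 g r)))) = true ↔ ¬ (Sat E f w ∧ Sat E g w)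
    rw [h6]
    tauto
  | ex f ih =>
    intro r l w n hb h x
    show T x (env l) (.p (.p (tr3 f (cons 0 (fun i => r i + 2))) .o) .o) = true ↔ ∃ y, Sat E f (cons y w)
    rw [ex_iff3 hT]
    have h1 : ∀ z, T z (.p x (env l)) (.p (tr3 f (cons 0 (fun i => r i + 2))) .o) = true ↔ Sat E f (cons (π z) w) := by
      intro z
      rw [ex_iff3 hT]
      have h2 : ∀ u, T u (.p z (.p x (env l))) (tr3 f (cons 0 (fun i => r i + 2))) = true ↔ Sat E f (cons (π z) w) := by
        intro u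
        refine ih (cons 0 (fun i => r i + 2)) (z :: x :: l) (cons (π z) w) (n + 1) hb ?_ u
        intro i hi
        cases i with
        | zero => exact ⟨z, rfl, rfl⟩
        | succ i =>
          obtain ⟨a, ha, ha2⟩ := h i (by omega)
          exact ⟨a, ha, ha2⟩
      exact ⟨fun ⟨u, hu⟩ => (h2 u).1 hu, fun h3 => ⟨.o, (h2 .o).2 h3⟩⟩
    constructor
    · rintro ⟨z, hz⟩
      exact ⟨π z, (h1 z).1 hz⟩
    · rintro ⟨y, hy⟩
      obtain ⟨z, rfl⟩ := hq.surj y
      exact ⟨z, (h1 z).2 hy⟩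

/-- The formula of the current value. -/
private theorem sat3_cur {M : Type} {E : M → M → Prop} {π : Tree → M} (hq : TQuo T E π) (f : Fml) (r : ℕ → ℕ) (l : List Tree) (w : ℕ → M) (n : ℕ)
    (hb : Bd f n) (x : Tree) (h : ∀ i, i < n → ∃ a, (x :: l)[r i]? = some a ∧ π a = w i) :
    T x (env l) (.p (tr3 f r) .o) = true ↔ Sat E f w := by
  rw [ex_iff3 hT]
  have h2 : ∀ u, T u (.p x (env l)) (tr3 f r) = true ↔ Sat E f w := sat3 hT hq f r (x :: l) w n hb h
  exact ⟨fun ⟨u, hu⟩ => (h2 u).1 hu, fun h3 => ⟨.o, (h2 .o).2 h3⟩⟩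

private theorem ep_k3 (u : Tree) : Ep T u (wS .o bot3) ↔ T u .o .o = true := by
  unfold Ep
  rw [hT.S, bot_false3 hT]
  simp

private theorem exists_q {M : Type} {E : M → M → Prop} {π : Tree → M} (hq : TQuo T E π) (f : Fml) (v : ℕ → M) :
    ∃ e q, ∀ b u, T u (.p b e) q = true ↔ ¬ Sat E f (cons (π u) v) := by
  obtain ⟨N, hN⟩ := exists_bd f
  choose w hw using fun i => hq.surj (v i)
  refine ⟨env (List.ofFn (fun i : Fin N => w i)), .p (tr3 (.nand f f) (cons 0 (fun i => i + 2))) .o, fun b u => ?_⟩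
  have h1 := sat3_cur hT hq (.nand f f) (cons 0 (fun i => i + 2)) (b :: List.ofFn (fun i : Fin N => w i)) (cons (π u) v) N ⟨hN, hN⟩ u (by
    intro i hi
    cases i with
    | zero => exact ⟨u, rfl, rfl⟩
    | succ i =>
      refine ⟨w i, ?_, hw i⟩
      show (List.ofFn (fun i : Fin N => w i))[i]? = some (w i)
      rw [List.getElem?_ofFn, dif_pos (by omega)])
  refine h1.trans ?_
  simp only [Sat, and_self]

private theorem mem_S3 {M : Type} {E : M → M → Prop} {π : Tree → M} (hq : TQuo T E π) (f : Fml) (v : ℕ → M) (b e q : Tree)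
    (he : ∀ u, T u (.p b e) q = true ↔ ¬ Sat E f (cons (π u) v)) (y : M) :
    E y (π (wS (.p b e) q)) ↔ E y (π b) ∧ Sat E f (cons y v) := by
  obtain ⟨x, rfl⟩ := hq.surj y
  have hS : ∀ u, Ep T u (wS (.p b e) q) ↔ Ep T u b ∧ Sat E f (cons (π u) v) := by
    intro u
    unfold Ep
    rw [hT.S, hT.I u b e, Bool.and_eq_true, Bool.not_eq_true', Bool.eq_false_iff, Ne, he u, not_not]
  constructor
  · intro h
    obtain ⟨u, hu, hs⟩ := (hq.mem_iff _ _).1 h
    have h1 := (hS u).1 hu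
    have h2 : π u = π x := (hq.eq_iff _ _).2 hs
    refine ⟨(hq.mem_iff _ _).2 ⟨u, h1.1, hs⟩, ?_⟩
    rw [← h2]
    exact h1.2
  · rintro ⟨h, h3⟩
    obtain ⟨u, hu, hs⟩ := (hq.mem_iff _ _).1 h
    have h2 : π u = π x := (hq.eq_iff _ _).2 hs
    refine (hq.mem_iff _ _).2 ⟨u, (hS u).2 ⟨hu, ?_⟩, hs⟩
    rw [h2]
    exact h3

private theorem kmodel3 {M : Type} {E : M → M → Prop} {π : Tree → M} (hq : TQuo T E π) : K1Model E (π (wS .o bot3)) := by
  have hrep : ∀ a, E a (π (wS .o bot3)) → ∃ b, π b = a ∧ T b .o .o = true := by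
    intro a h
    obtain ⟨x, rfl⟩ := hq.surj a
    obtain ⟨u, hu, hs⟩ := (hq.mem_iff _ _).1 h
    exact ⟨u, (hq.eq_iff _ _).2 hs, (ep_k3 hT u).1 hu⟩
  have hmem : ∀ b, T b .o .o = true → E (π b) (π (wS .o bot3)) := fun b hb =>
    (hq.mem_iff _ _).2 ⟨b, (ep_k3 hT b).2 hb, fun _ => Iff.rfl⟩
  refine ⟨?_, ?_, ?_, ?_⟩
  · intro f v a
    obtain ⟨b, rfl⟩ := hq.surj a
    obtain ⟨e, q, he⟩ := exists_q hT hq f v
    exact ⟨_, mem_S3 hT hq f v b e q (he b)⟩
  · intro f v a ha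
    obtain ⟨b, rfl, hb⟩ := hrep a ha
    obtain ⟨e, q, he⟩ := exists_q hT hq f v
    have h1 : ∀ z, T z (.p b .o) (.p (sm3 0 1) .o) = true ↔ Same T z b := by
      intro z
      rw [ex_iff3 hT]
      have h2 : ∀ u, T u (.p z (.p b .o)) (sm3 0 1) = true ↔ Same T z b := sm_iff hT 0 1 z b [z, b] rfl rfl
      exact ⟨fun ⟨u, hu⟩ => (h2 u).1 hu, fun h3 => ⟨.o, (h2 .o).2 h3⟩⟩
    have h2 : Same T (wW b .o (.p (sm3 0 1) .o)) b :=
      (h1 _).1 (hT.Eb _ _ _ (hT.Ea b b .o _ ((h1 b).2 (fun _ => Iff.rfl))))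
    have h3 : π (wW b .o (.p (sm3 0 1) .o)) = π b := (hq.eq_iff _ _).2 h2
    refine ⟨_, hmem _ (hT.KT b (.p (sm3 0 1) .o) e q hb), ?_⟩
    intro x
    rw [mem_S3 hT hq f v _ e q (he _) x, h3]
  · intro f hf v h0 hz
    obtain ⟨z, hz⟩ := hz
    obtain ⟨x, hx, hxk⟩ := hrep _ h0
    have hs : ∀ u, T u (.p x .o) (.p (tr3 f id) .o) = true ↔ Sat E f (cons (π u) v) := by
      intro u
      refine sat3_cur hT hq f id [x] (cons (π u) v) 2 hf u ?_
      intro i hi
      match i, hi with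
      | 0, _ => exact ⟨u, rfl, rfl⟩
      | 1, _ => exact ⟨x, rfl, hx⟩
    obtain ⟨z', rfl⟩ := hq.surj z
    have h4 := hT.Ea z' x .o _ ((hs z').2 hz)
    have h5 := hT.Eb x .o _ h4
    refine ⟨π (wW x .o (.p (tr3 f id) .o)), ?_, (hs _).1 h5⟩
    have h6 := hT.KT x (.p (tr3 f id) .o) .o bot3 hxk
    have h7 : π (wS (.p (wW x .o (.p (tr3 f id) .o)) .o) bot3) = π (wW x .o (.p (tr3 f id) .o)) := by
      rw [hq.eq_iff]
      intro u
      unfold Ep
      rw [hT.S, bot_false3 hT]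
      simp
    rw [← h7]
    exact hmem _ h6
  · exact ⟨π .o, hmem _ hT.N0⟩

end

/-- The rules give a model of K1. -/
theorem Good3.kmodel (hT : Good3 T) : ∃ (M : Type) (E : M → M → Prop) (k : M), K1Model E k := by
  obtain ⟨M, E, π, hq⟩ := exists_tquo T
  exact ⟨M, E, _, kmodel3 hT hq⟩

end Pool.Agent.Helper62.ZH
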