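import Pool.Agent.Helper62.ZH.Sys3
import Pool.Agent.Helper62.ZH.Codes
import Pool.Agent.Helper62.ZH.ExFm
import Pool.Agent.Helper62.ZH.Ex2Val
import Pool.Agent.Helper62.ZH.ZRefl

/-!
# Project ZH: soundness of the rules Good3, with the rule KT only for finitely many `f`

`fm3 q n` is the formula of the code `q` in an environment of length `n`, followed by the value `k` (for `n = 0` the code `o` says that `x` is in `k`).
-/

set_option autoImplicit false

namespace Pool.Agent.Helper62.ZH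

/-- The formula: neither `f` nor `g`. -/
private def norF (f g : Fml) : Fml := .nand (.nand (.nand f f) (.nand g g)) (.nand (.nand f f) (.nand g g))

private theorem sat_norF {M : Type} {E : M → M → Prop} (f g : Fml) (v : ℕ → M) : Sat E (norF f g) v ↔ ¬ Sat E f v ∧ ¬ Sat E g v := by
  simp only [norF, Sat]
  tauto

private theorem bd_norF {f g : Fml} {n : ℕ} (hf : Bd f n) (hg : Bd g n) : Bd (norF f g) n :=
  ⟨⟨⟨hf, hf⟩, ⟨hg, hg⟩⟩, ⟨⟨hf, hf⟩, ⟨hg, hg⟩⟩⟩

/-- The formula of a code. -/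
private def fm3 : Tree → ℕ → Fml
  | .o, _ => .mem 0 1
  | .p f .o, n => .ex (fm3 f (n + 1))
  | .p _ (.p _ _), 0 => falseF
  | .p f (.p h i), n + 1 => norF (fm3 f (n + 1)) (ren (fun i => if i = 0 then 0 else i + 1) (fm3 (.p h i) n))

private theorem bd_falseF (n : ℕ) : Bd falseF n := by
  constructor <;> exact ⟨Nat.succ_pos _, Nat.succ_pos _⟩

private theorem bd_fm3 (q : Tree) : (∀ n, Bd (fm3 q (n + 1)) (n + 2)) ∧ ((∃ a b, q = .p a b) → ∀ n, Bd (fm3 q n) (n + 1)) := by
  induction q with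
  | o =>
    refine ⟨fun n => ?_, ?_⟩
    · show 0 < n + 2 ∧ 1 < n + 2
      omega
    · rintro ⟨a, b, h⟩
      cases h
  | p f g ihf ihg =>
    have h1 : ∀ n, Bd (fm3 (.p f g) n) (n + 1) := by
      intro n
      cases g with
      | o =>
        rw [fm3]
        exact ihf.1 n
      | p h i =>
        cases n with
        | zero =>
          rw [fm3]
          exact bd_falseF _
        | succ n =>
          rw [fm3]
          refine bd_norF (ihf.1 n) (bd_ren (ihg.2 ⟨h, i, rfl⟩ n) fun i hi => ?_)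
          split_ifs <;> omega
    exact ⟨fun n => h1 (n + 1), fun _ => h1⟩

/-- The rules, `KT` only for the `f` in the list. -/
structure Good3F (fs : List Tree) (T : Tree → Tree → Tree → Bool) : Prop where
  N : ∀ x y e f h i, T x (.p y e) (.p f (.p h i)) = (!T x (.p y e) f && !T x e (.p h i))
  I : ∀ x y e, T x (.p y e) .o = T x (.p y .o) .o
  Ea : ∀ z x e f, T z (.p x e) f = true → T x e (.p f .o) = true
  S : ∀ x e q, T x (.p (wS e q) .o) .o = (T x e .o && !T x e q)
  KT : ∀ x f e q, f ∈ fs → T x .o .o = true → T (wS (.p (wW x .o f) e) q) .o .o = true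
  Eb : ∀ x e f, T x e (.p f .o) = true → T (wW x e f) (.p x e) f = true
  N0 : T .o .o .o = true

theorem ZFModel.good3F {M : Type} {E : M → M → Prop} (h : ZFModel E) (fs : List Tree) : ∃ T, Good3F fs T := by
  classical
  obtain ⟨κ, ⟨c0, hc0⟩, hκs, hκtv⟩ := h.reflection (fs.map (fun f => fm3 f 1)) (by
    intro f hf
    obtain ⟨q, _, rfl⟩ := List.mem_map.1 hf
    exact ((bd_fm3 q).1 0).mono (by omega))
  obtain ⟨lv, hlv0, hlv1⟩ : ∃ lv : List M → ℕ → M, (∀ x l, lv (x :: l) = cons x (lv l)) ∧ ∀ i, lv [] i = κ := by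
    refine ⟨fun l i => l.getD i κ, ?_, ?_⟩
    · intro x l
      funext i
      cases i with
      | zero => simp [cons]
      | succ i => simp [cons]
    · intro i
      simp
  obtain ⟨Tr, hTr⟩ : ∃ Tr : Tree → M → List M → Prop, ∀ q x l, Tr q x l ↔ Sat E (fm3 q l.length) (cons x (lv l)) :=
    ⟨fun q x l => Sat E (fm3 q l.length) (cons x (lv l)), fun _ _ _ => Iff.rfl⟩
  have hFS : ∀ (l : List M) (q : Tree), ∃ s, ∀ x, E x s ↔ E x (lv l 0) ∧ ¬ Tr q x l := by
    intro l q
    obtain ⟨s, hs⟩ := h.sep (.nand (fm3 q l.length) (fm3 q l.length)) (lv l) (lv l 0)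
    refine ⟨s, fun x => ?_⟩
    rw [hs, hTr]
    simp only [Sat, and_self]
  choose FS hFS using hFS
  have hFW : ∀ (x : M) (l : List M) (f : Tree), ∃ w, ((∃ z, Tr f z (x :: l)) → Tr f w (x :: l)) ∧
      ((∃ z, E z κ ∧ Tr f z (x :: l)) → E w κ) ∧ ((¬ ∃ z, Tr f z (x :: l)) → w = c0) := by
    intro x l f
    by_cases h1 : ∃ z, E z κ ∧ Tr f z (x :: l)
    · obtain ⟨z, hz1, hz2⟩ := h1
      exact ⟨z, fun _ => hz2, fun _ => hz1, fun hn => absurd ⟨z, hz2⟩ hn⟩
    · by_cases h2 : ∃ z, Tr f z (x :: l)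
      · obtain ⟨z, hz⟩ := h2
        exact ⟨z, fun _ => hz, fun h3 => absurd h3 h1, fun hn => absurd ⟨z, hz⟩ hn⟩
      · exact ⟨c0, fun h3 => absurd h3 h2, fun h3 => absurd h3 h1, fun _ => rfl⟩
  choose FW hFW using hFW
  obtain ⟨val, vals, hv1, hv2, hv3, hv5, hv6⟩ := codes_nice.exists_val FS FW c0
  have hvS : ∀ e q, val (wS e q) = FS (vals e) q := hv5
  have hvW : ∀ x e f, val (wW x e f) = FW (val x) (vals e) f := hv6
  have hnd : ∀ f h i x y l, Tr (.p f (.p h i)) x (y :: l) ↔ ¬ Tr f x (y :: l) ∧ ¬ Tr (.p h i) x l := by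
    intro f h i x y l
    rw [hTr, hTr, hTr, List.length_cons, fm3, sat_norF, sat_ren, hlv0 y]
    have e : (fun i => cons x (cons y (lv l)) (if i = 0 then 0 else i + 1)) = cons x (lv l) := by
      funext i
      cases i with
      | zero => rfl
      | succ i => simp
    rw [e]
  have hec : ∀ f x l, Tr (.p f .o) x l ↔ ∃ z, Tr f z (x :: l) := by
    intro f x l
    rw [hTr, fm3]
    refine exists_congr fun z => ?_
    rw [hTr, List.length_cons, hlv0]
  have ho : ∀ x l, Tr .o x l ↔ E x (lv l 0) := by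
    intro x l
    rw [hTr, fm3]
    exact Iff.rfl
  have hl1 : ∀ a l, lv (a :: l) 0 = a := by
    intro a l
    rw [hlv0]
    rfl
  refine ⟨fun x e q => decide (Tr q (val x) (vals e)), ?_⟩
  constructor
  · intro x y e f h i
    rw [Bool.eq_iff_iff]
    simp only [decide_eq_true_eq, Bool.not_eq_true', Bool.and_eq_true, decide_eq_false_iff_not, hv2]
    exact hnd _ _ _ _ _ _
  · intro x y e
    rw [decide_eq_decide, hv2, hv2, ho, ho, hl1, hl1]
  · intro z x e f hz
    simp only [decide_eq_true_eq, hv2] at hz ⊢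
    exact (hec _ _ _).2 ⟨_, hz⟩
  · intro x e p
    rw [Bool.eq_iff_iff]
    simp only [decide_eq_true_eq, Bool.and_eq_true, Bool.not_eq_true', decide_eq_false_iff_not, hv2, hvS, ho, hl1]
    exact hFS _ _ _
  · intro x f e q hf hx
    simp only [decide_eq_true_eq, hv1, hvS, ho, hlv1] at hx ⊢
    have h2 : E (val (wW x .o f)) κ := by
      rw [hvW, hv1]
      by_cases hz : ∃ z, Tr f z (val x :: [])
      · apply (hFW _ _ _).2.1
        obtain ⟨z, hz⟩ := hz
        have hdep : ∀ z, Sat E (fm3 f 1) (cons z (fun _ => val x)) ↔ Sat E (fm3 f 1) (cons z (lv (val x :: []))) := by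
          intro z
          refine sat_congr ((bd_fm3 f).1 0) ?_
          intro i hi
          match i, hi with
          | 0, _ => rfl
          | 1, _ => rw [hlv0]; rfl
        obtain ⟨z', hz1, hz2⟩ := hκtv (fm3 f 1) (List.mem_map.2 ⟨f, hf, rfl⟩) (fun _ => val x)
          hx hx ⟨z, (hdep z).2 ((hTr _ _ _).1 hz)⟩
        exact ⟨z', hz1, (hTr _ _ _).2 ((hdep z').1 hz2)⟩
      · rw [(hFW _ _ _).2.2 hz]
        exact hc0
    refine hκs _ _ h2 fun z hz => ?_
    have h1 := ((hFS _ _ z).1 hz).1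
    rwa [hv2, hl1] at h1
  · intro x e f hx
    simp only [decide_eq_true_eq, hv2, hvW] at hx ⊢
    exact (hFW _ _ _).1 ((hec _ _ _).1 hx)
  · simp only [decide_eq_true_eq, hv1, hv3, ho, hlv1]
    exact hc0

end Pool.Agent.Helper62.ZH
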