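import Pool.Agent.Helper62.ZH.Sys3Fin
import Pool.Agent.Helper62.ZH.Compact
import Pool.Agent.Helper62.ZH.K1ZF

/-!
# Project ZH: the rules Good3 are satisfiable iff ZF has a model
-/

set_option autoImplicit false

namespace Pool.Agent.Helper62.ZH

/-- Instances of the rules. -/
private inductive DInst3 : Type
  | N (x y e f h i : Tree) : DInst3
  | I (x y e : Tree) : DInst3
  | Ea (z x e f : Tree) : DInst3
  | S (x e q : Tree) : DInst3
  | KT (x f e q : Tree) : DInst3
  | Eb (x e f : Tree) : DInst3
  | N0 : DInst3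

/-- The condition of an instance. -/
private def dcond3 : DInst3 → (Tree × Tree × Tree → Bool) → Prop
  | .N x y e f h i, T => T (x, .p y e, .p f (.p h i)) = (!T (x, .p y e, f) && !T (x, e, .p h i))
  | .I x y e, T => T (x, .p y e, .o) = T (x, .p y .o, .o)
  | .Ea z x e f, T => T (z, .p x e, f) = true → T (x, e, .p f .o) = true
  | .S x e q, T => T (x, .p (wS e q) .o, .o) = (T (x, e, .o) && !T (x, e, q))
  | .KT x f e q, T => T (x, .o, .o) = true → T (wS (.p (wW x .o f) e) q, .o, .o) = true
  | .Eb x e f, T => T (x, e, .p f .o) = true → T (wW x e f, .p x e, f) = true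
  | .N0, T => T (.o, .o, .o) = true

open Classical in
/-- The values on which the condition of an instance depends. -/
private noncomputable def dsupp3 : DInst3 → Finset (Tree × Tree × Tree)
  | .N x y e f h i => {(x, .p y e, .p f (.p h i)), (x, .p y e, f), (x, e, .p h i)}
  | .I x y e => {(x, .p y e, .o), (x, .p y .o, .o)}
  | .Ea z x e f => {(z, .p x e, f), (x, e, .p f .o)}
  | .S x e q => {(x, .p (wS e q) .o, .o), (x, e, .o), (x, e, q)}
  | .KT x f e q => {(x, .o, .o), (wS (.p (wW x .o f) e) q, .o, .o)}
  | .Eb x e f => {(x, e, .p f .o), (wW x e f, .p x e, f)}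
  | .N0 => {(.o, .o, .o)}

private def dkt3 : DInst3 → Option Tree
  | .KT _ f _ _ => some f
  | _ => none

theorem ZFModel.good3 {M : Type} {E : M → M → Prop} (h : ZFModel E) : ∃ T, Good3 T := by
  classical
  obtain ⟨T, hT⟩ := compactness dcond3 dsupp3 (by
    intro i T T' hTT hi
    cases i with
    | N x y e f h i =>
      have h1 := hTT (x, .p y e, .p f (.p h i)) (by simp [dsupp3])
      have h2 := hTT (x, .p y e, f) (by simp [dsupp3])
      have h3 := hTT (x, e, .p h i) (by simp [dsupp3])
      show T' (x, .p y e, .p f (.p h i)) = (!T' (x, .p y e, f) && !T' (x, e, .p h i))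
      rw [← h1, ← h2, ← h3]
      exact hi
    | I x y e =>
      have h1 := hTT (x, .p y e, .o) (by simp [dsupp3])
      have h2 := hTT (x, .p y .o, .o) (by simp [dsupp3])
      show T' (x, .p y e, .o) = T' (x, .p y .o, .o)
      rw [← h1, ← h2]
      exact hi
    | Ea z x e f =>
      have h1 := hTT (z, .p x e, f) (by simp [dsupp3])
      have h2 := hTT (x, e, .p f .o) (by simp [dsupp3])
      show T' (z, .p x e, f) = true → T' (x, e, .p f .o) = true
      rw [← h1, ← h2]
      exact hi
    | S x e q =>
      have h1 := hTT (x, .p (wS e q) .o, .o) (by simp [dsupp3])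
      have h2 := hTT (x, e, .o) (by simp [dsupp3])
      have h3 := hTT (x, e, q) (by simp [dsupp3])
      show T' (x, .p (wS e q) .o, .o) = (T' (x, e, .o) && !T' (x, e, q))
      rw [← h1, ← h2, ← h3]
      exact hi
    | KT x f e q =>
      have h1 := hTT (x, .o, .o) (by simp [dsupp3])
      have h2 := hTT (wS (.p (wW x .o f) e) q, .o, .o) (by simp [dsupp3])
      show T' (x, .o, .o) = true → T' (wS (.p (wW x .o f) e) q, .o, .o) = true
      rw [← h1, ← h2]
      exact hi
    | Eb x e f =>
      have h1 := hTT (x, e, .p f .o) (by simp [dsupp3])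
      have h2 := hTT (wW x e f, .p x e, f) (by simp [dsupp3])
      show T' (x, e, .p f .o) = true → T' (wW x e f, .p x e, f) = true
      rw [← h1, ← h2]
      exact hi
    | N0 =>
      have h1 := hTT (.o, .o, .o) (by simp [dsupp3])
      show T' (.o, .o, .o) = true
      rw [← h1]
      exact hi) (by
    intro s
    obtain ⟨T, hT⟩ := h.good3F (s.toList.filterMap dkt3)
    refine ⟨fun a => T a.1 a.2.1 a.2.2, fun i hi => ?_⟩
    cases i with
    | N x y e f h i => exact hT.N x y e f h i
    | I x y e => exact hT.I x y e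
    | Ea z x e f => exact hT.Ea z x e f
    | S x e q => exact hT.S x e q
    | KT x f e q =>
      exact hT.KT x f e q (List.mem_filterMap.2 ⟨.KT x f e q, Finset.mem_toList.2 hi, rfl⟩)
    | Eb x e f => exact hT.Eb x e f
    | N0 => exact hT.N0)
  exact ⟨fun x e f => T (x, e, f), ⟨fun x y e f h i => hT (.N x y e f h i), fun x y e => hT (.I x y e),
    fun z x e f => hT (.Ea z x e f), fun x e q => hT (.S x e q), fun x f e q => hT (.KT x f e q),
    fun x e f => hT (.Eb x e f), hT .N0⟩⟩

/-- The rules are satisfiable iff ZF has a model. -/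
theorem good3_iff : (∃ T, Good3 T) ↔ ∃ (M : Type) (E : M → M → Prop), ZFModel E := by
  constructor
  · rintro ⟨T, hT⟩
    obtain ⟨M, E, k, hk⟩ := hT.kmodel
    obtain ⟨N, E', hN, _⟩ := hk.zf
    exact ⟨N, E', hN⟩
  · rintro ⟨M, E, h⟩
    exact h.good3

end Pool.Agent.Helper62.ZH
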