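import Pool.Agent.Helper62.ZH.Sys

/-!
# ZH-21 SysA: the meaning of the codes in a good `T`

Proofs. `not_iff`, ...: from `hT.N` (`simp`). `top`: `c.nd .o (c.cnot .o)` is true for all `x`, `e`. `atom`: apply `hT.S` to `S a .o top`, once with `e'` and once with `.o`.
`var`: induction on `j` and the list: `j = 0`: `atom` (the list is `a :: l'`, `env` is `.p a (env l')`); `j + 1`: `hT.D`.
`all_iff`: `hT.Ea` and `hT.Eb` give `ex_iff : T x e (ec f) = true ↔ ∃ z, T z (.p x e) f = true`.
`eqv_iff`: `all_iff`, `iff_iff` and `var` for the environment `x :: l` (the value `i` is `(x :: l)[i]`).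
`TQuo.sat`: induction on `f`; `mem`: `ex_iff`, `and_iff`, `var`, `eqv_iff`, `hq.mem_iff`; `ex`: `hq.surj`; `cons (π x) (fun i => π (v i))`.
Here `v` is any sequence whose first `l.length` values are `l` and the value `i` of `x :: l` is `cons x v i`.
-/

set_option autoImplicit false

namespace Pool.Agent.Helper62.ZH

variable {c : Sys} {T : Tree → Tree → Tree → Bool}

theorem Sys.Good.ex_iff (hT : c.Good T) (x e f : Tree) : T x e (c.ec f) = true ↔ ∃ z, T z (.p x e) f = true :=
  ⟨fun h => ⟨_, hT.Eb x e f h⟩, fun ⟨z, hz⟩ => hT.Ea z x e f hz⟩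

theorem Sys.Good.not_iff (hT : c.Good T) (x e f : Tree) : T x e (c.cnot f) = true ↔ ¬ T x e f = true := by
  unfold Sys.cnot
  rw [hT.N]
  cases T x e f <;> simp

theorem Sys.Good.nd_iff (hT : c.Good T) (x e f g : Tree) : T x e (c.nd f g) = true ↔ ¬ (T x e f = true ∧ T x e g = true) := by
  rw [hT.N]
  cases T x e f <;> cases T x e g <;> simp

theorem Sys.Good.and_iff (hT : c.Good T) (x e f g : Tree) : T x e (c.cand f g) = true ↔ T x e f = true ∧ T x e g = true := by
  unfold Sys.cand
  rw [hT.not_iff, hT.nd_iff, not_not]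

theorem Sys.Good.iff_iff (hT : c.Good T) (x e f g : Tree) : T x e (c.ciff f g) = true ↔ (T x e f = true ↔ T x e g = true) := by
  unfold Sys.ciff Sys.cimp
  rw [hT.and_iff, hT.nd_iff, hT.nd_iff, hT.not_iff, hT.not_iff]
  tauto

theorem Sys.Good.all_iff (hT : c.Good T) (x e f : Tree) : T x e (c.call f) = true ↔ ∀ z, T z (.p x e) f = true := by
  unfold Sys.call
  rw [hT.not_iff, hT.ex_iff, not_exists]
  refine forall_congr' fun z => ?_
  rw [hT.not_iff, not_not]

theorem Sys.Good.atom (hT : c.Good T) (x a e' : Tree) : T x (.p a e') .o = true ↔ Ep T x a := by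
  have htop : T x .o (c.nd .o (c.cnot .o)) = true := by
    rw [hT.nd_iff, hT.not_iff]
    tauto
  have h1 := hT.S x a .o (c.nd .o (c.cnot .o)) e'
  have h2 := hT.S x a .o (c.nd .o (c.cnot .o)) .o
  rw [htop, Bool.and_true] at h1 h2
  unfold Ep
  rw [← h1, ← h2]

theorem Sys.Good.var (hT : c.Good T) (u : Tree) (l : List Tree) (v : ℕ → Tree) (hv : ∀ i (hi : i < l.length), v i = l[i]) (j : ℕ) (hj : j < l.length) :
    T u (env l) (c.vr j) = true ↔ Ep T u (v j) := by
  induction j generalizing l v with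
  | zero =>
    cases l with
    | nil => exact absurd hj (Nat.not_lt_zero 0)
    | cons a l =>
      have h0 : v 0 = a := hv 0 hj
      rw [h0]
      exact hT.atom u a (env l)
  | succ j ih =>
    cases l with
    | nil => exact absurd hj (Nat.not_lt_zero _)
    | cons a l =>
      have h1 : T u (env (a :: l)) (c.vr (j + 1)) = T u (env l) (c.vr j) := hT.D u a (env l) (c.vr j) .o
      rw [h1]
      exact ih l (fun i => v (i + 1)) (fun i hi => hv (i + 1) (Nat.succ_lt_succ hi)) (Nat.lt_of_succ_lt_succ hj)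

theorem Sys.Good.eqv_iff (hT : c.Good T) (x : Tree) (l : List Tree) (v : ℕ → Tree) (hv : ∀ i (hi : i < l.length), v i = l[i]) (i j : ℕ)
    (hi : i < l.length + 1) (hj : j < l.length + 1) :
    T x (env l) (c.eqv i j) = true ↔ Same T (cons x v i) (cons x v j) := by
  have hv' : ∀ i (hi : i < (x :: l).length), cons x v i = (x :: l)[i] := by
    intro i hi
    cases i with
    | zero => rfl
    | succ i => exact hv i (Nat.lt_of_succ_lt_succ hi)
  unfold Sys.eqv Same
  rw [hT.all_iff]
  refine forall_congr' fun z => ?_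
  have e1 : T z (.p x (env l)) (c.vr i) = true ↔ Ep T z (cons x v i) := hT.var z (x :: l) (cons x v) hv' i hi
  have e2 : T z (.p x (env l)) (c.vr j) = true ↔ Ep T z (cons x v j) := hT.var z (x :: l) (cons x v) hv' j hj
  rw [hT.iff_iff, e1, e2]

theorem TQuo.sat {M : Type} {E : M → M → Prop} {π : Tree → M} (hT : c.Good T) (hq : TQuo T E π) (f : Fml) :
    ∀ (x : Tree) (l : List Tree) (v : ℕ → Tree), (∀ i (hi : i < l.length), v i = l[i]) → Bd f (l.length + 1) →
      (T x (env l) (c.tr f) = true ↔ Sat E f (cons (π x) (fun i => π (v i)))) := by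
  have hc : ∀ (x : Tree) (v : ℕ → Tree) (i : ℕ), cons (π x) (fun i => π (v i)) i = π (cons x v i) := by
    intro x v i
    cases i <;> rfl
  have hcv : ∀ (x : Tree) (l : List Tree) (v : ℕ → Tree), (∀ i (hi : i < l.length), v i = l[i]) →
      ∀ i (hi : i < (x :: l).length), cons x v i = (x :: l)[i] := by
    intro x l v hv i hi
    cases i with
    | zero => rfl
    | succ i => exact hv i (Nat.lt_of_succ_lt_succ hi)
  induction f with
  | mem i j =>
    intro x l v hv hb
    have hi : i < l.length + 1 := hb.1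
    have hj : j < l.length + 1 := hb.2
    show T x (env l) (c.ec (c.cand (c.vr j) (c.eqv 0 (i + 1)))) = true ↔
      E (cons (π x) (fun i => π (v i)) i) (cons (π x) (fun i => π (v i)) j)
    rw [hT.ex_iff, hc, hc, hq.mem_iff]
    refine exists_congr fun z => ?_
    have e1 : T z (.p x (env l)) (c.vr j) = true ↔ Ep T z (cons x v j) := hT.var z (x :: l) (cons x v) (hcv x l v hv) j hj
    have e2 : T z (.p x (env l)) (c.eqv 0 (i + 1)) = true ↔ Same T z (cons x v i) :=
      hT.eqv_iff z (x :: l) (cons x v) (hcv x l v hv) 0 (i + 1) (Nat.succ_pos _) (Nat.succ_lt_succ hi)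
    rw [hT.and_iff, e1, e2]
  | eq i j =>
    intro x l v hv hb
    show T x (env l) (c.eqv i j) = true ↔ cons (π x) (fun i => π (v i)) i = cons (π x) (fun i => π (v i)) j
    rw [hT.eqv_iff x l v hv i j hb.1 hb.2, hc, hc, hq.eq_iff]
  | nand f g ihf ihg =>
    intro x l v hv hb
    show T x (env l) (c.nd (c.tr f) (c.tr g)) = true ↔ ¬ (Sat E f _ ∧ Sat E g _)
    rw [hT.nd_iff, ihf x l v hv hb.1, ihg x l v hv hb.2]
  | ex f ih =>
    intro x l v hv hb
    show T x (env l) (c.ec (c.tr f)) = true ↔ ∃ y, Sat E f (cons y (cons (π x) (fun i => π (v i))))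
    rw [hT.ex_iff]
    have h1 : ∀ z, T z (.p x (env l)) (c.tr f) = true ↔ Sat E f (cons (π z) (cons (π x) (fun i => π (v i)))) := by
      intro z
      have h2 := ih z (x :: l) (cons x v) (hcv x l v hv) hb
      have h3 : (fun i => π (cons x v i)) = cons (π x) (fun i => π (v i)) := by
        funext i
        exact (hc x v i).symm
      rw [h3] at h2
      exact h2
    constructor
    · rintro ⟨z, hz⟩
      exact ⟨π z, (h1 z).1 hz⟩
    · rintro ⟨y, hy⟩
      obtain ⟨z, rfl⟩ := hq.surj y
      exact ⟨z, (h1 z).2 hy⟩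

end Pool.Agent.Helper62.ZH
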