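import Pool.Agent.Helper62.ZH.KPair

/-!
# ZH-04 TRel: sets of ordered pairs in `T0`

Proof. Fix `a`, `b`. By `exists_op` every `x, y` have an ordered pair. For each `x`: `collD` on `b` for `P w := OP E (w 1) p (w 0)`
(`p` a parameter, `p = x`) gives `c` with: for all `y ∈ b` there is `q ∈ c` with `OP q x y`. `collD` on `a` for the predicate
(`x`, `c`; parameter `b`) `∀ y, E y b → ∃ q, E q c ∧ OP E q x y` gives `C` with: for all `x ∈ a` there is `c ∈ C` as before. Let `U` be the union of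
`C` and `R := {q ∈ U : ∃ x, ∃ y, E x a ∧ E y b ∧ OP E q x y ∧ P (cons x (cons y v))}` (`sepD`, parameters `a`, `b` and `v`, i.e. the sequence
`cons a (cons b v)`; use `Df.ren` for `P`). Then `Rel R x y ↔ E x a ∧ E y b ∧ P (cons x (cons y v))`: left to right by `OP.inj`; right to left take the
`q ∈ c ∈ C`.
-/

set_option autoImplicit false

namespace Pool.Agent.Helper62.ZH

variable {M : Type} {E : M → M → Prop}

private def tRelS : ℕ → ℕ
  | 0 => 1
  | 1 => 0
  | i + 2 => i + 5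

private theorem tRelS_lt (n : ℕ) : ∀ i, i < n → tRelS i < n + 5 := by
  intro i hi
  match i, hi with
  | 0, _ => show 1 < n + 5; omega
  | 1, _ => show 0 < n + 5; omega
  | i + 2, h => show i + 5 < n + 5; omega

private theorem tRelS_cons (u : ℕ → M) :
    (fun i => u (tRelS i)) = cons (u 1) (cons (u 0) (fun i => u (i + 5))) := by
  funext i
  match i with
  | 0 => rfl
  | 1 => rfl
  | i + 2 => rfl

private theorem tRel_df {n : ℕ} {P : (ℕ → M) → Prop} (hP : Df E n P) :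
    Df E (n + 3) (fun w => ∃ x, ∃ y, E x (w 1) ∧ E y (w 2) ∧ OP E (w 0) x y ∧
      P (cons x (cons y (fun i => w (i + 3))))) := by
  refine Df.ex (Df.ex ?_)
  refine Df.and (Df.mem 1 3 (by omega) (by omega)) (Df.and (Df.mem 0 4 (by omega) (by omega)) (Df.and (OP.df 2 1 0 (by omega) (by omega) (by omega)) ?_))
  refine (hP.ren tRelS (tRelS_lt n)).congr fun u => ?_
  rw [tRelS_cons]

theorem T0.exists_rel (h : T0 E) {n : ℕ} {P : (ℕ → M) → Prop} (hP : Df E n P) (v : ℕ → M) (a b : M) :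
    ∃ R, ∀ x y, Rel E R x y ↔ E x a ∧ E y b ∧ P (cons x (cons y v)) := by
  have hop : ∀ x y, ∃ q, OP E q x y := exists_op h.pair
  have h1 : ∀ x, ∃ c, ∀ y, E y b → ∃ q, E q c ∧ OP E q x y := by
    intro x
    have hd : Df E 3 (fun w : ℕ → M => OP E (w 1) (w 2) (w 0)) := OP.df 1 2 0 (by omega) (by omega) (by omega)
    obtain ⟨c, hc⟩ := h.collD hd (fun _ => x) b
    exact ⟨c, fun y hy => hc y hy (hop x y)⟩
  have hd2 : Df E 3 (fun w : ℕ → M => ∀ y, E y (w 2) → ∃ q, E q (w 1) ∧ OP E q (w 0) y) := by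
    refine Df.all (Df.imp (Df.mem 0 3 (by omega) (by omega)) (Df.ex ?_))
    exact Df.and (Df.mem 0 3 (by omega) (by omega)) (OP.df 0 2 1 (by omega) (by omega) (by omega))
  obtain ⟨C, hC⟩ := h.collD hd2 (fun _ => b) a
  obtain ⟨U, hU⟩ := h.union C
  obtain ⟨R, hR⟩ := h.sepD (tRel_df hP) (cons a (cons b v)) U
  refine ⟨R, fun x y => ?_⟩
  constructor
  · rintro ⟨q, hq, hq2⟩
    obtain ⟨-, x', y', hx', hy', hq3, hp⟩ := (hR q).1 hq
    obtain ⟨rfl, rfl⟩ := OP.inj hq2 hq3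
    exact ⟨hx', hy', hp⟩
  · rintro ⟨hx, hy, hp⟩
    obtain ⟨c, hc, hc2⟩ := hC x hx (h1 x)
    obtain ⟨q, hq, hq2⟩ := hc2 y hy
    exact ⟨q, (hR q).2 ⟨(hU q).2 ⟨c, hq, hc⟩, x, y, hx, hy, hq2, hp⟩, hq2⟩

end Pool.Agent.Helper62.ZH
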