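import Pool.Agent.Helper62.ZH.TableMach
import Pool.Agent.Helper62.ZH.TextSearch

/-!
# The machine halts iff ZF has no model, if it simulates the search (assembly)

`cfg u`: the configuration of the machine `del text` at the start of the test of the string `u` (last bit first).
-/

set_option autoImplicit false

namespace Pool.Agent.Helper62.ZH

open Pool.Agent.Helper19.ZH

theorem mach_halts_iff (cfg : List Bool → C St) (hok : ∀ u, okSt (cfg u).q = true)
    (h0 : Reach (del text) ⟨.RV, blank, blank⟩ (cfg []))
    (happ : ∀ u, viol u.reverse = false → Reach1 (del text) (cfg u) (cfg (false :: u)))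
    (hinc : ∀ u v, viol u.reverse = true → inc u = some v → Reach1 (del text) (cfg u) (cfg v))
    (hhalt : ∀ u, viol u.reverse = true → inc u = none → ∃ L R, hd R = false ∧ Reach (del text) (cfg u) ⟨.Ie, L, R⟩) :
    mach.Halts ↔ ¬ ∃ (M : Type) (E : M → M → Prop), ZFModel E := by
  have h1 : mach.Halts ↔ Stops mach.tr (mp (cfg [])) := by
    rw [TM.halts_iff]
    exact (Reach.mp (c := ⟨.RV, blank, blank⟩) rfl h0).2.stops_iff
  have h2 : Stops mach.tr (mp (cfg [])) ↔ ∃ k, (fun x : Option (List Bool) => x.bind (step2 VP))^[k] (some []) = none := by
    refine stops_iff (step2 VP) (fun u => mp (cfg u)) (fun _ => True) ?_ ?_ [] trivial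
    · intro u v _ hF
      refine ⟨trivial, ?_⟩
      unfold step2 at hF
      by_cases hP : VP u
      · rw [if_pos hP] at hF
        exact (Reach1.mp (hok u) (hinc u v hP hF)).2
      · rw [if_neg hP] at hF
        cases hF
        have hP' : viol u.reverse = false := by
          cases h : viol u.reverse with
          | false => rfl
          | true => exact absurd h hP
        exact (Reach1.mp (hok u) (happ u hP')).2
    · intro u _ hF
      unfold step2 at hF
      by_cases hP : VP u
      · rw [if_pos hP] at hF
        obtain ⟨L, R, hR, hr⟩ := hhalt u hP hF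
        exact (Reach.mp (hok u) hr).2.stops (stops_Ie hR)
      · rw [if_neg hP] at hF
        cases hF
  rw [h1, h2]
  exact search_iff

end Pool.Agent.Helper62.ZH
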