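import Pool.Agent.Helper62.ZH.TableMap

/-!
# The machine and its relation to `del text`
-/

set_option autoImplicit false

namespace Pool.Agent.Helper62.ZH

open Pool.Agent.Helper19.ZH

/-- The machine. -/
def mach : TM 144 where
  start := Fin.ofNat 144 (stN .RV)
  tr q b := (trN q.val b).map (fun r => (r.1, r.2.1, Fin.ofNat 144 r.2.2))

/-- The configuration of the machine. -/
def mp (c : C St) : C (Fin 144) := ⟨Fin.ofNat 144 (stN c.q), c.L, c.R⟩

private theorem ofNat_val {n : ℕ} (h : n < 144) : (Fin.ofNat 144 n).val = n := Nat.mod_eq_of_lt h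

theorem tr_some {q : St} (h : okSt q = true) {b : Bool} {r : Bool × Bool × St} (hr : del text q b = some r) :
    okSt r.2.2 = true ∧ mach.tr (Fin.ofNat 144 (stN q)) b = some (r.1, r.2.1, Fin.ofNat 144 (stN r.2.2)) := by
  have h1 := chk_all q h b
  unfold chk at h1
  rw [hr] at h1
  simp only [Bool.and_eq_true, decide_eq_true_eq] at h1
  refine ⟨h1.1, ?_⟩
  show (trN (Fin.ofNat 144 (stN q)).val b).map _ = _
  rw [ofNat_val (stN_lt q h), h1.2]
  rfl

theorem stp_mp {c d : C St} (h : okSt c.q = true) (hs : stp (del text) c = some d) : okSt d.q = true ∧ stp mach.tr (mp c) = some (mp d) := by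
  unfold stp at hs
  cases hr : del text c.q (hd c.R) with
  | none => rw [hr] at hs; cases hs
  | some r =>
    obtain ⟨h1, h2⟩ := tr_some h hr
    obtain ⟨w, m, q'⟩ := r
    rw [hr] at hs
    unfold stp mp
    simp only [h2]
    cases m with
    | true =>
      simp only [Option.some.injEq] at hs
      subst hs
      exact ⟨h1, rfl⟩
    | false =>
      simp only [Option.some.injEq] at hs
      subst hs
      exact ⟨h1, rfl⟩

theorem stps_mp {k : ℕ} : ∀ {c d : C St}, okSt c.q = true → stps (del text) k c = some d → okSt d.q = true ∧ stps mach.tr k (mp c) = some (mp d) := by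
  induction k with
  | zero =>
    intro c d h hs
    simp only [stps, Option.some.injEq] at hs
    subst hs
    exact ⟨h, rfl⟩
  | succ k ih =>
    intro c d h hs
    simp only [stps] at hs
    cases h1 : stp (del text) c with
    | none => rw [h1] at hs; cases hs
    | some e =>
      rw [h1] at hs
      obtain ⟨h2, h3⟩ := stp_mp h h1
      obtain ⟨h4, h5⟩ := ih h2 hs
      refine ⟨h4, ?_⟩
      simp only [stps, h3]
      exact h5

theorem Reach.mp {c d : C St} (h : okSt c.q = true) (hr : Reach (del text) c d) : okSt d.q = true ∧ Reach mach.tr (mp c) (mp d) := by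
  obtain ⟨k, hk⟩ := hr
  obtain ⟨h1, h2⟩ := stps_mp h hk
  exact ⟨h1, k, h2⟩

theorem Reach1.mp {c d : C St} (h : okSt c.q = true) (hr : Reach1 (del text) c d) : okSt d.q = true ∧ Reach1 mach.tr (mp c) (mp d) := by
  obtain ⟨k, hk⟩ := hr
  obtain ⟨h1, h2⟩ := stps_mp h hk
  exact ⟨h1, k, h2⟩

/-- The only missing transition: `Ie` on the symbol 0. -/
theorem stops_Ie {L R : Str} (h : hd R = false) : Stops mach.tr (mp ⟨.Ie, L, R⟩) := by
  refine stops_of_none ?_
  show mach.tr (Fin.ofNat 144 (stN .Ie)) (hd R) = none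
  rw [h]
  decide +kernel

end Pool.Agent.Helper62.ZH
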