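import Pool.Agent.Helper19.ZH.Sem
import Pool.Agent.Helper62.ZH.Codes

/-!
# The text of the machine and what it tests (definitions, the run of the text)

`text`: the list of tokens. Rules in the order D, I, Ea, N, K, S, TV, Eb (the first copy token of a rule is fused with the end of the rule before).
`val b x e f`: the value of the atom `T x e f` in the test of `b`. `vD b x y e e' g`, ...: the accumulator at the end of a rule. `runs_text`: the test ends with the
disjunction of the accumulators, for the trees `t 0, t 1, ...` that are read from the digits of the instance.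
-/

set_option autoImplicit false

namespace Pool.Agent.Helper62.ZH

open Pool.Agent.Helper19.ZH

/-- The text. -/
def text : List Tok :=
  [.cp 1, .sk, .oc 3, .opL, .cp 1, .oc 1, .oc 2, .oc 1, .lit true,
    .xc, .oc 1, .opL, .cp 1, .oc 2,
    .xc, .oc 3, .opL, .sk, .cp 2, .oc 1,
    .jc 2, .sk, .cp 1, .opL, .cp 3, .jc 2, .oc 1, .lit true, .oc 1,
    .xc, .opL, .lit true, .lit true, .oc 3,
    .jc 2, .opL, .cp 3, .jc 1, .lit true, .lit true, .oc 2,
    .xc, .opL, .oc 1, .lit true, .lit false, .cp 1,
    .jc 2, .oc 1, .opL, .oc 1, .oc 2, .rw, .oc 3, .opJ, .fi]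

/-- The number of the atom `T x e f`. -/
def ix (x e f : Tree) : ℕ := num (bits x ++ bits e ++ bits f)

/-- The value of the atom `T x e f`. -/
def val (b : List Bool) (x e f : Tree) : Option Bool := (true :: b)[ix x e f]?

theorem look_eq {b w : List Bool} {x e f : Tree} (k : ℕ) (h : w ++ List.replicate k false = bits x ++ bits e ++ bits f) :
    look b w = val b x e f := by
  unfold look val ix
  rw [← h, num_append_false]

def vD (b : List Bool) (x y e e' g : Tree) : Bool :=
  opX (opL (val b x (.p e e') g)) (val b x (.p y (.p e e')) (codes.dr .o g))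

def vI (b : List Bool) (x y e : Tree) : Bool :=
  opX (opL (val b x (.p y .o) .o)) (val b x (.p y e) .o)

def vEa (b : List Bool) (z x e f : Tree) : Bool :=
  opJ (opL (val b z (.p x e) f)) (val b x e (codes.ec f))

def vN (b : List Bool) (x e f g : Tree) : Bool :=
  opX (opJ (opL (val b x e g)) (val b x e f)) (val b x e (codes.nd f g))

def vK (b : List Bool) (a e p : Tree) : Bool :=
  opJ (opL (val b a .o .o)) (val b (codes.S (.p a e) p) .o .o)

def vS (b : List Bool) (x e p : Tree) : Bool :=
  opX (opJ (opL (val b x e .o)) (val b x e p)) (val b x (.p (codes.S e p) .o) .o)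

def vTV (b : List Bool) (x f : Tree) : Bool :=
  opJ (opL (val b x .o .o)) (val b (codes.W x .o f) .o .o)

def vEb (b : List Bool) (x e f : Tree) : Bool :=
  opJ (opL (val b x e (codes.ec f))) (val b (codes.W x e f) (.p x e) f)

/-- The result of the test. -/
def vAll (b : List Bool) (t : ℕ → Tree) : Bool :=
  vD b (t 0) (t 1) (t 2) (t 3) (t 4) || (vI b (t 0) (t 1) (t 2) || (vEa b (t 0) (t 1) (t 2) (t 3) || (vN b (t 0) (t 1) (t 2) (t 3) ||
    (vK b (t 0) (t 1) (t 2) || (vS b (t 0) (t 1) (t 2) || (vTV b (t 0) (t 1) || vEb b (t 0) (t 1) (t 2)))))))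

/-- The digits of the instance are the codes of the trees `t 0, t 1, ...` up to the positions `q 1, q 2, ...`. -/
def Trees (b : List Bool) (t : ℕ → Tree) (q : ℕ → ℕ) : Prop := q 0 = 0 ∧ ∀ i, Rd (dg b) (q i) (t i) (q (i + 1))

theorem exists_trees (b : List Bool) : ∃ t q, Trees b t q := by
  have h1 : ∀ i, b.length + 1 ≤ i → dg b i = false := by
    intro i hi
    exact Nat.testBit_lt_two_pow (lt_of_lt_of_le Nat.lt_two_pow_self (Nat.pow_le_pow_right (by norm_num) hi))
  choose f g hfg using fun i => exists_rd h1 i
  refine ⟨fun n => f (g^[n] 0), fun n => g^[n] 0, rfl, fun i => ?_⟩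
  show Rd (dg b) (g^[i] 0) (f (g^[i] 0)) (g^[i + 1] 0)
  rw [Function.iterate_succ_apply']
  exact hfg _

theorem Trees.rds {b : List Bool} {t : ℕ → Tree} {q : ℕ → ℕ} (h : Trees b t q) (i k : ℕ) :
    Rds (dg b) (q i) ((List.range k).map (fun j => t (i + j))) (q (i + k)) := by
  induction k generalizing i with
  | zero => exact Rds.nil
  | succ k ih =>
    rw [List.range_succ_eq_map, List.map_cons, List.map_map]
    refine Rds.cons (h.2 i) ?_
    have h2 := ih (i + 1)
    have e1 : (List.range k).map (fun j => t (i + 1 + j)) = (List.range k).map ((fun j => t (i + j)) ∘ Nat.succ) := by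
      apply List.map_congr_left
      intro j _
      show t (i + 1 + j) = t (i + (j + 1))
      congr 1
      omega
    rw [e1] at h2
    rwa [show i + (k + 1) = i + 1 + k by omega]

end Pool.Agent.Helper62.ZH
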