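import Pool.Agent.Helper62.ZH.TableRows
import Pool.Agent.Helper62.ZH.Text

/-!
# The map from the states of `del text` to the numbers of the rows
-/

set_option autoImplicit false

namespace Pool.Agent.Helper62.ZH

open Pool.Agent.Helper19.ZH

/-- The number of a state. -/
def stN : St → ℕ
  | .C i => i
  | .R false => 57
  | .R true => 58
  | .RR false => 59
  | .RR true => 60
  | .S false => 61
  | .S true => 62
  | .K 1 => 63
  | .K 2 => 64
  | .K 3 => 65
  | .O 1 => 66
  | .O 2 => 67
  | .O 3 => 68
  | .Ks => 8
  | .KX => 69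
  | .VX => 70
  | .KJ 1 => 71
  | .KJ 2 => 72
  | .VJ => 73
  | .G => 74
  | .Gp => 75
  | .P false => 76
  | .P true => 77
  | .Q false => 78
  | .Q true => 79
  | .q false => 80
  | .q true => 81
  | .X => 70
  | .Y => 82
  | .Yp => 83
  | .Ypp => 46
  | .H => 84
  | .WL => 85
  | .WJ => 86
  | .WX => 87
  | .Wr => 88
  | .Lv => 89
  | .Ka => 90
  | .Jv => 91
  | .AV false => 92
  | .AV true => 93
  | .AA false => 94
  | .AA true => 95
  | .AD false => 96
  | .AD true => 97
  | .AE false => 98
  | .AE true => 99
  | .NV => 100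
  | .NA => 101
  | .ND => 102
  | .NE => 103
  | .DD false => 104
  | .DD true => 105
  | .DA false => 106
  | .DA true => 107
  | .DV false => 108
  | .DV true => 109
  | .DE false => 110
  | .DE true => 111
  | .NLd => 112
  | .NLa => 113
  | .NLv => 114
  | .NLe => 115
  | .FV => 116
  | .FA => 117
  | .FD => 118
  | .FE => 119
  | .GV => 120
  | .ALe => 121
  | .ALd => 122
  | .ALa => 123
  | .ALv => 124
  | .RVf => 125
  | .RV => 126
  | .RA => 127
  | .RD => 128
  | .RE false => 129
  | .RE true => 130
  | .CLd => 124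
  | .CLa => 121
  | .CLv => 122
  | .CLe => 123
  | .CV => 131
  | .rV => 132
  | .rA => 133
  | .rD => 134
  | .rE false => 135
  | .rE true => 136
  | .U1 => 141
  | .U2 => 137
  | .Er => 138
  | .Es => 139
  | .Tv => 140
  | .Id => 141
  | .Ia => 56
  | .Iv => 142
  | .Ie => 143
  | .K _ => 0
  | .O _ => 0
  | .KJ _ => 0

/-- The states that occur. -/
def okSt : St → Bool
  | .C i => decide (i < 57)
  | .K k => decide (0 < k ∧ k < 4)
  | .O k => decide (0 < k ∧ k < 4)
  | .KJ k => decide (0 < k ∧ k < 3)
  | _ => true

theorem stN_lt (q : St) (h : okSt q = true) : stN q < 144 := by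
  cases q with
  | C i => exact lt_of_lt_of_le (of_decide_eq_true h) (by norm_num)
  | K k =>
    have h1 : 0 < k ∧ k < 4 := of_decide_eq_true h
    obtain ⟨h2, h3⟩ := h1
    interval_cases k <;> decide
  | O k =>
    have h1 : 0 < k ∧ k < 4 := of_decide_eq_true h
    obtain ⟨h2, h3⟩ := h1
    interval_cases k <;> decide
  | KJ k =>
    have h1 : 0 < k ∧ k < 3 := of_decide_eq_true h
    obtain ⟨h2, h3⟩ := h1
    interval_cases k <;> decide
  | R s => cases s <;> decide
  | RR s => cases s <;> decide
  | S s => cases s <;> decide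
  | P s => cases s <;> decide
  | Q s => cases s <;> decide
  | q s => cases s <;> decide
  | AV s => cases s <;> decide
  | AA s => cases s <;> decide
  | AD s => cases s <;> decide
  | AE s => cases s <;> decide
  | DD s => cases s <;> decide
  | DA s => cases s <;> decide
  | DV s => cases s <;> decide
  | DE s => cases s <;> decide
  | RE s => cases s <;> decide
  | rE s => cases s <;> decide
  | _ => decide

/-- The check of one transition. -/
def chk (q : St) (b : Bool) : Bool :=
  match del text q b with
  | none => true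
  | some r => okSt r.2.2 && decide (trN (stN q) b = some (r.1, r.2.1, stN r.2.2))

theorem chk_all (q : St) (h : okSt q = true) (b : Bool) : chk q b = true := by
  cases q with
  | C i =>
    have h1 : ∀ i, i < 57 → ∀ b, chk (.C i) b = true := by decide +kernel
    exact h1 i (of_decide_eq_true h) b
  | K k =>
    have h1 : ∀ k, k < 4 → 0 < k → ∀ b, chk (.K k) b = true := by decide +kernel
    have h2 : 0 < k ∧ k < 4 := of_decide_eq_true h
    exact h1 k h2.2 h2.1 b
  | O k =>
    have h1 : ∀ k, k < 4 → 0 < k → ∀ b, chk (.O k) b = true := by decide +kernel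
    have h2 : 0 < k ∧ k < 4 := of_decide_eq_true h
    exact h1 k h2.2 h2.1 b
  | KJ k =>
    have h1 : ∀ k, k < 3 → 0 < k → ∀ b, chk (.KJ k) b = true := by decide +kernel
    have h2 : 0 < k ∧ k < 3 := of_decide_eq_true h
    exact h1 k h2.2 h2.1 b
  | R s => cases s <;> cases b <;> rfl
  | RR s => cases s <;> cases b <;> rfl
  | S s => cases s <;> cases b <;> rfl
  | P s => cases s <;> cases b <;> rfl
  | Q s => cases s <;> cases b <;> rfl
  | q s => cases s <;> cases b <;> rfl
  | AV s => cases s <;> cases b <;> rfl
  | AA s => cases s <;> cases b <;> rfl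
  | AD s => cases s <;> cases b <;> rfl
  | AE s => cases s <;> cases b <;> rfl
  | DD s => cases s <;> cases b <;> rfl
  | DA s => cases s <;> cases b <;> rfl
  | DV s => cases s <;> cases b <;> rfl
  | DE s => cases s <;> cases b <;> rfl
  | RE s => cases s <;> cases b <;> rfl
  | rE s => cases s <;> cases b <;> rfl
  | _ => cases b <;> rfl

end Pool.Agent.Helper62.ZH
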