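import Mathlib

/-!
# The machine with 144 states (MP_f907b0)

The rows of the table. The row number `q` is `(x, y)`: `x` is the transition of the state `q` on the symbol `0`, `y` on the symbol `1`. The number `0`: no transition (the machine halts);
the number `4 r + 2 w + d + 1` (`w, d < 2`): write `w`, move right if `d = 1`, left if `d = 0`, enter the state `r`.
-/

set_option autoImplicit false

namespace Pool.Agent.Helper62.ZH

/-- The rows 0, ..., 17. -/
def rows0 : List (ℕ × ℕ) := [
  (556, 7), (253, 11), (33, 15), (273, 19), (344, 23), (253, 27), (265, 31), (269, 35), (265, 39),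
  (236, 43), (277, 47), (265, 51), (344, 55), (253, 59), (269, 63), (277, 67), (273, 71), (344, 75)]

/-- The rows 18, ..., 35. -/
def rows1 : List (ℕ × ℕ) := [
  (33, 79), (257, 83), (265, 87), (289, 91), (33, 95), (253, 99), (344, 103), (261, 107), (289, 111),
  (265, 115), (236, 119), (265, 123), (277, 127), (344, 131), (236, 135), (236, 139), (273, 143), (289, 147)]

/-- The rows 36, ..., 53. -/
def rows2 : List (ℕ × ℕ) := [
  (344, 151), (261, 155), (285, 159), (236, 163), (236, 167), (269, 171), (277, 175), (344, 179), (265, 183),
  (236, 187), (232, 191), (253, 195), (289, 199), (265, 203), (344, 207), (265, 211), (269, 215), (356, 219)]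

/-- The rows 54, ..., 71. -/
def rows3 : List (ℕ × ℕ) := [
  (273, 223), (348, 227), (558, 571), (370, 232), (374, 236), (246, 240), (250, 244), (302, 232), (302, 236),
  (300, 300), (255, 300), (259, 300), (244, 300), (267, 300), (271, 300), (284, 300), (350, 330), (296, 300)]

/-- The rows 72, ..., 89. -/
def rows4 : List (ℕ × ℕ) := [
  (287, 300), (346, 296), (302, 300), (402, 304), (313, 307), (317, 311), (321, 323), (325, 327), (282, 323),
  (244, 327), (334, 240), (340, 187), (1, 340), (358, 344), (366, 348), (466, 352), (530, 356), (362, 567)]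

/-- The rows 90, ..., 107. -/
def rows5 : List (ℕ × ℕ) := [
  (476, 503), (510, 472), (378, 380), (382, 384), (386, 392), (390, 386), (394, 396), (398, 400), (449, 372),
  (449, 376), (406, 408), (410, 412), (414, 416), (421, 404), (425, 431), (429, 425), (433, 435), (437, 439)]

/-- The rows 108, ..., 125. -/
def rows6 : List (ℕ × ℕ) := [
  (441, 443), (445, 447), (309, 419), (305, 423), (453, 455), (457, 459), (461, 463), (1, 451), (470, 472),
  (476, 483), (480, 480), (497, 468), (510, 487), (502, 491), (493, 495), (526, 499), (485, 487), (512, 510)]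

/-- The rows 126, ..., 143. -/
def rows7 : List (ℕ × ℕ) := [
  (510, 512), (516, 516), (520, 524), (449, 508), (565, 508), (461, 461), (534, 536), (538, 540), (544, 548),
  (449, 532), (508, 532), (554, 551), (562, 554), (1, 558), (534, 512), (549, 227), (495, 573), (0, 567)]

/-- The table. -/
def rows : List (ℕ × ℕ) := rows0 ++ rows1 ++ rows2 ++ rows3 ++ rows4 ++ rows5 ++ rows6 ++ rows7

/-- The transition coded by the number `x`: nothing for `0`, otherwise written symbol, direction (`true`: right), next state. -/
def dec (x : ℕ) : Option (Bool × Bool × ℕ) :=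
  if x = 0 then none else some (decide ((x - 1) / 2 % 2 = 1), decide ((x - 1) % 2 = 1), (x - 1) / 4)

/-- The transition of the state `q` on the symbol `b`. -/
def trN (q : ℕ) (b : Bool) : Option (Bool × Bool × ℕ) := dec (if b then (rows.getD q (0, 0)).2 else (rows.getD q (0, 0)).1)

theorem trN_lt : ∀ q, q < 144 → ∀ b r, trN q b = some r → r.2.2 < 144 := by
  have h : ∀ q, q < 144 → ∀ b, ((trN q b).map (fun r => decide (r.2.2 < 144))).getD true = true := by decide +kernel
  intro q hq b r hr
  have := h q hq b
  rw [hr] at this
  simpa using this

end Pool.Agent.Helper62.ZH
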