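import Pool.Agent.Helper62.ZH.Sys3Good
import Pool.Agent.Helper62.ZH.TextBad

/-!
# Project ZH: what the text with the rules `Good3` tests

`val b x e f`: the value of the atom `T x e f` in the test of `b`. `v3N b x y e f h i`, ...: the accumulator at the end of a rule. The rules in the order
N, I, Ea, S, KT, Eb; the accumulator is `true` at the start.
* `viol3_false`: the initial segments of the values of a `T` with all rules pass all tests.
* `viol3_persists`: if there is no such `T`, every branch has an initial segment such that at infinitely many levels all strings with this initial segment fail.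
* `search3_iff`: the search of the machine ends iff ZF has no model.
-/

set_option autoImplicit false

namespace Pool.Agent.Helper62.ZH

open Pool.Agent.Helper19.ZH

def v3N (b : List Bool) (x y e f h i : Tree) : Bool :=
  opX (opJ (opJ true (val b x (.p y e) f)) (val b x e (.p h i))) (val b x (.p y e) (.p f (.p h i)))

def v3I (b : List Bool) (x y e : Tree) : Bool :=
  opX (opL (val b x (.p y .o) .o)) (val b x (.p y e) .o)

def v3Ea (b : List Bool) (z x e f : Tree) : Bool :=
  opJ (opL (val b z (.p x e) f)) (val b x e (.p f .o))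

def v3S (b : List Bool) (x e q : Tree) : Bool :=
  opX (opJ (opL (val b x e .o)) (val b x e q)) (val b x (.p (wS e q) .o) .o)

def v3KT (b : List Bool) (x f e q : Tree) : Bool :=
  opJ (opL (val b x .o .o)) (val b (wS (.p (wW x .o f) e) q) .o .o)

def v3Eb (b : List Bool) (x e f : Tree) : Bool :=
  opJ (opL (val b x e (.p f .o))) (val b (wW x e f) (.p x e) f)

/-- The result of the test. -/
def v3All (b : List Bool) (t : ℕ → Tree) : Bool :=
  v3N b (t 0) (t 1) (t 2) (t 3) (t 4) (t 5) || (v3I b (t 0) (t 1) (t 2) || (v3Ea b (t 0) (t 1) (t 2) (t 3) || (v3S b (t 0) (t 1) (t 2) ||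
    (v3KT b (t 0) (t 1) (t 2) (t 3) || v3Eb b (t 0) (t 1) (t 2)))))

/-- The result of the test of `b` (`true`: a rule is violated). -/
noncomputable def viol3 (b : List Bool) : Bool := v3All b (exists_trees b).choose

/-! ## numbers of atoms -/

private theorem le_num_right (u v : List Bool) : num v ≤ num (u ++ v) := by
  rw [num_append]
  have h : 1 * num v ≤ 2 ^ u.length * num v := Nat.mul_le_mul_right _ Nat.one_le_two_pow
  omega

private theorem le_num_left (u v : List Bool) : num u ≤ num (u ++ v) := by
  rw [num_append]
  omega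

private theorem num_mono (u : List Bool) {v v' : List Bool} (h : num v ≤ num v') : num (u ++ v) ≤ num (u ++ v') := by
  rw [num_append, num_append]
  have := Nat.mul_le_mul_left (2 ^ u.length) h
  omega

private theorem ix3_N1 (x y e f h i : Tree) : ix x (.p y e) f ≤ ix x (.p y e) (.p f (.p h i)) := by
  refine num_mono _ ?_
  have e1 : bits (.p f (.p h i)) = [true] ++ (bits f ++ (true :: (bits h ++ bits i))) := by simp [bits]
  rw [e1]
  exact (le_num_left _ _).trans (le_num_right _ _)

private theorem ix3_N2 (x y e f h i : Tree) : ix x e (.p h i) ≤ ix x (.p y e) (.p f (.p h i)) := by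
  have h2 : num (bits e ++ bits (.p h i)) ≤ num (bits (.p y e) ++ bits (.p f (.p h i))) := by
    have e1 : bits (.p y e) ++ bits (.p f (.p h i)) = (true :: bits y) ++ (bits e ++ ((true :: bits f) ++ bits (.p h i))) := by
      simp [bits]
    rw [e1]
    exact (num_mono _ (le_num_right _ _)).trans (le_num_right _ _)
  unfold ix
  rw [List.append_assoc, List.append_assoc]
  exact num_mono _ h2

private theorem ix3_I (x y e : Tree) : ix x (.p y .o) .o ≤ ix x (.p y e) .o := ix_I x y e

private theorem ix3_S1 (x e q : Tree) : ix x e .o ≤ ix x (.p (wS e q) .o) .o := by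
  have e1 : bits x ++ bits e ++ bits .o = bits x ++ (bits e ++ [false]) := by simp [bits]
  have e2 : bits x ++ bits (.p (wS e q) .o) ++ bits .o = bits x ++ ([true, true, true] ++ (bits e ++ (bits q ++ [false, false, false]))) := by
    simp [bits, wS]
  have h : num (bits e ++ [false]) ≤ num (bits e ++ (bits q ++ [false, false, false])) := num_mono _ (by simp [num])
  unfold ix
  rw [e1, e2]
  exact num_mono _ (h.trans (le_num_right _ _))

private theorem ix3_S2 (x e q : Tree) : ix x e q ≤ ix x (.p (wS e q) .o) .o := by
  have e2 : bits x ++ bits (.p (wS e q) .o) ++ bits .o = bits x ++ ([true, true, true] ++ ((bits e ++ bits q) ++ [false, false, false])) := by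
    simp [bits, wS]
  unfold ix
  rw [e2, List.append_assoc]
  exact num_mono _ ((le_num_left _ _).trans (le_num_right _ _))

/-! ## a `T` with all rules gives a branch without violations -/

section sound

variable {T : Tree → Tree → Tree → Bool} {b : List Bool} {n : ℕ}

private theorem opJ_false {u v : Bool} (h : u = true → v = true) (P Q : Prop) [Decidable P] [Decidable Q] :
    opJ (opL (if P then some u else none)) (if Q then some v else none) = false := by
  by_cases hQ : Q
  · rw [if_pos hQ]
    by_cases hP : P
    · rw [if_pos hP]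
      cases u with
      | false => rfl
      | true => rw [h rfl]; rfl
    · rw [if_neg hP]
      rfl
  · rw [if_neg hQ]
    rfl

theorem v3All_false (hT : Good3 T) (hb : ∀ x e f, val b x e f = if ix x e f < n then some (T x e f) else none) (t : ℕ → Tree) :
    v3All b t = false := by
  have hN : ∀ x y e f h i, v3N b x y e f h i = false := by
    intro x y e f h i
    unfold v3N
    rw [hb, hb, hb]
    have h1 := ix3_N1 x y e f h i
    have h1' := ix3_N2 x y e f h i
    by_cases h2 : ix x (.p y e) (.p f (.p h i)) < n
    · rw [if_pos h2, if_pos (lt_of_le_of_lt h1 h2), if_pos (lt_of_le_of_lt h1' h2), hT.N]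
      cases T x (.p y e) f <;> cases T x e (.p h i) <;> rfl
    · rw [if_neg h2]
      rfl
  have hI : ∀ x y e, v3I b x y e = false := by
    intro x y e
    unfold v3I
    rw [hb, hb]
    have h := ix3_I x y e
    by_cases h2 : ix x (.p y e) .o < n
    · rw [if_pos h2, if_pos (lt_of_le_of_lt h h2), hT.I x y e]
      cases T x (.p y .o) .o <;> rfl
    · rw [if_neg h2]
      rfl
  have hEa : ∀ z x e f, v3Ea b z x e f = false := by
    intro z x e f
    unfold v3Ea
    rw [hb, hb]
    exact opJ_false (hT.Ea z x e f) _ _
  have hS : ∀ x e q, v3S b x e q = false := by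
    intro x e q
    unfold v3S
    rw [hb, hb, hb]
    have h := ix3_S1 x e q
    have h' := ix3_S2 x e q
    by_cases h2 : ix x (.p (wS e q) .o) .o < n
    · rw [if_pos h2, if_pos (lt_of_le_of_lt h h2), if_pos (lt_of_le_of_lt h' h2), hT.S]
      cases T x e .o <;> cases T x e q <;> rfl
    · rw [if_neg h2]
      rfl
  have hKT : ∀ x f e q, v3KT b x f e q = false := by
    intro x f e q
    unfold v3KT
    rw [hb, hb]
    exact opJ_false (hT.KT x f e q) _ _
  have hEb : ∀ x e f, v3Eb b x e f = false := by
    intro x e f
    unfold v3Eb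
    rw [hb, hb]
    exact opJ_false (hT.Eb x e f) _ _
  unfold v3All
  rw [hN, hI, hEa, hS, hKT, hEb]
  rfl

end sound

/-- The initial segments of the values of a good `T` pass all tests. -/
theorem viol3_false {T : Tree → Tree → Tree → Bool} (hT : Good3 T) {β : ℕ → Bool}
    (hβ : ∀ x e f i, ix x e f = i + 1 → β i = T x e f) {b : List Bool} (hb : ∀ i, i < b.length → b[i]? = some (β i)) :
    viol3 b = false := by
  refine v3All_false (n := b.length + 1) hT (fun x e f => ?_) _
  unfold val
  cases h : ix x e f with
  | zero =>
    obtain ⟨rfl, rfl, rfl⟩ := ix_zero h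
    rw [if_pos (Nat.succ_pos _), hT.N0]
    rfl
  | succ i =>
    rw [List.getElem?_cons_succ]
    by_cases hi : i < b.length
    · rw [if_pos (by omega), hb i hi, hβ x e f i h]
    · rw [if_neg (by omega)]
      exact List.getElem?_eq_none (by omega)

/-! ## if no `T` has all rules, the tests fail persistently -/

private theorem rds_of_at {d : ℕ → Bool} {i : ℕ} {l : List Tree} (h : At d i (bitss l)) : ∃ j, Rds d i l j := by
  induction l generalizing i with
  | nil => exact ⟨i, Rds.nil⟩
  | cons a l ih =>
    obtain ⟨h1, h2⟩ := at_append.1 (show At d i (bits a ++ bitss l) from h)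
    obtain ⟨j, hj⟩ := ih h2
    exact ⟨j, Rds.cons (rd_iff.2 ⟨h1, rfl⟩) hj⟩

private theorem trees_eq {b : List Bool} {t : ℕ → Tree} {q : ℕ → ℕ} (h : Trees b t q) {l : List Tree} : ∀ {i j : ℕ}, Rds (dg b) (q i) l j →
    ∀ k (hk : k < l.length), t (i + k) = l[k] := by
  induction l with
  | nil => intro i j _ k hk; exact absurd hk (Nat.not_lt_zero k)
  | cons a l ih =>
    intro i j hr k hk
    cases hr with
    | cons h1 h2 =>
      obtain ⟨e1, e2⟩ := (h.2 i).unique h1
      rw [← e2] at h2
      cases k with
      | zero => exact e1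
      | succ k =>
        have h3 := ih h2 k (by simpa using hk)
        rw [show i + (k + 1) = i + 1 + k by omega, h3]
        rfl

/-- A violated instance with atoms numbers `≤ N` persists. -/
private theorem viol3_of_instance {β : ℕ → Bool} {l : List Tree} {N : ℕ} (hV : ∀ (b : List Bool) (t : ℕ → Tree), (∀ k (hk : k < l.length), t k = l[k]) →
    (∀ i, i < N → b[i]? = some (β i)) → v3All b t = true) (M : ℕ) :
    ∃ n, M ≤ n ∧ ∀ u : List Bool, u.length = n → ∀ v : List Bool, v.length = N → (∀ i, i < N → v[i]? = some (β i)) → viol3 (v ++ u) = true := by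
  obtain ⟨n', h1, h2⟩ := exists_number (bitss l) (N + M + 1)
  refine ⟨n' - N - 1, by omega, fun u hu v hv hvβ => ?_⟩
  have hlen : (v ++ u).length + 1 = n' := by
    rw [List.length_append]
    omega
  have hdg : dg (v ++ u) = fun i => n'.testBit i := by
    funext i
    unfold dg
    rw [hlen]
  obtain ⟨q, hq⟩ := (exists_trees (v ++ u)).choose_spec
  refine hV _ _ ?_ ?_
  · intro k hk
    rw [← hdg] at h2
    obtain ⟨j, hj⟩ := rds_of_at h2
    have h3 : Rds (dg (v ++ u)) (q 0) l j := by rw [hq.1]; exact hj
    have h4 := trees_eq hq h3 k hk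
    rwa [Nat.zero_add] at h4
  · intro i hi
    rw [List.getElem?_append_left (by omega)]
    exact hvβ i hi

private theorem val_tOf {β : ℕ → Bool} {N : ℕ} {b : List Bool} (hb : ∀ i, i < N → b[i]? = some (β i)) (x e f : Tree) (h : ix x e f ≤ N) :
    val b x e f = some (tOf β x e f) := by
  unfold val tOf
  cases hi : ix x e f with
  | zero => rfl
  | succ i =>
    rw [List.getElem?_cons_succ]
    exact hb i (by omega)

private theorem opJ_true {u v : Bool} (h : ¬ (u = true → v = true)) : opJ (opL (some u)) (some v) = true := by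
  cases u with
  | false => exact absurd (fun h2 => absurd h2 Bool.false_ne_true) h
  | true =>
    cases v with
    | false => rfl
    | true => exact absurd (fun _ => rfl) h

/-- If the values of `β` violate a rule, there is a violated instance. -/
private theorem exists_instance3 {β : ℕ → Bool} (h : ¬ Good3 (tOf β)) : ∃ (l : List Tree) (N : ℕ), ∀ (b : List Bool) (t : ℕ → Tree),
    (∀ k (hk : k < l.length), t k = l[k]) → (∀ i, i < N → b[i]? = some (β i)) → v3All b t = true := by
  by_contra hcon
  push Not at hcon
  apply h
  refine ⟨?_, ?_, ?_, ?_, ?_, ?_, ?_⟩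
  · intro x y e f h i
    by_contra hne
    obtain ⟨b, t, ht, hb, hv⟩ := hcon [x, y, e, f, h, i] (ix x (.p y e) f + ix x e (.p h i) + ix x (.p y e) (.p f (.p h i)))
    apply hv
    have h0 := ht 0 (by simp)
    have h1 := ht 1 (by simp)
    have h2 := ht 2 (by simp)
    have h3 := ht 3 (by simp)
    have h4 := ht 4 (by simp)
    have h5 := ht 5 (by simp)
    simp only [List.getElem_cons_zero, List.getElem_cons_succ] at h0 h1 h2 h3 h4 h5
    have hx : v3N b x y e f h i = true := by
      unfold v3N
      rw [val_tOf hb _ _ _ (by omega), val_tOf hb _ _ _ (by omega), val_tOf hb _ _ _ (by omega)]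
      revert hne
      cases tOf β x (.p y e) (.p f (.p h i)) <;> cases tOf β x (.p y e) f <;> cases tOf β x e (.p h i) <;> simp [opX, opJ]
    unfold v3All
    rw [h0, h1, h2, h3, h4, h5, hx]
    rfl
  · intro x y e
    by_contra hne
    obtain ⟨b, t, ht, hb, hv⟩ := hcon [x, y, e] (ix x (.p y .o) .o + ix x (.p y e) .o)
    apply hv
    have h0 := ht 0 (by simp)
    have h1 := ht 1 (by simp)
    have h2 := ht 2 (by simp)
    simp only [List.getElem_cons_zero, List.getElem_cons_succ] at h0 h1 h2
    have hx : v3I b x y e = true := by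
      unfold v3I
      rw [val_tOf hb _ _ _ (by omega), val_tOf hb _ _ _ (by omega)]
      revert hne
      cases tOf β x (.p y e) .o <;> cases tOf β x (.p y .o) .o <;> simp [opX, opL]
    unfold v3All
    rw [h0, h1, h2, hx]
    simp
  · intro z x e f
    by_contra hne
    obtain ⟨b, t, ht, hb, hv⟩ := hcon [z, x, e, f] (ix z (.p x e) f + ix x e (.p f .o))
    apply hv
    have h0 := ht 0 (by simp)
    have h1 := ht 1 (by simp)
    have h2 := ht 2 (by simp)
    have h3 := ht 3 (by simp)
    simp only [List.getElem_cons_zero, List.getElem_cons_succ] at h0 h1 h2 h3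
    have hx : v3Ea b z x e f = true := by
      unfold v3Ea
      rw [val_tOf hb _ _ _ (by omega), val_tOf hb _ _ _ (by omega)]
      exact opJ_true hne
    unfold v3All
    rw [h0, h1, h2, h3, hx]
    simp
  · intro x e q
    by_contra hne
    obtain ⟨b, t, ht, hb, hv⟩ := hcon [x, e, q] (ix x e .o + ix x e q + ix x (.p (wS e q) .o) .o)
    apply hv
    have h0 := ht 0 (by simp)
    have h1 := ht 1 (by simp)
    have h2 := ht 2 (by simp)
    simp only [List.getElem_cons_zero, List.getElem_cons_succ] at h0 h1 h2
    have hx : v3S b x e q = true := by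
      unfold v3S
      rw [val_tOf hb _ _ _ (by omega), val_tOf hb _ _ _ (by omega), val_tOf hb _ _ _ (by omega)]
      revert hne
      cases tOf β x (.p (wS e q) .o) .o <;> cases tOf β x e .o <;> cases tOf β x e q <;> simp [opX, opL, opJ]
    unfold v3All
    rw [h0, h1, h2, hx]
    simp
  · intro x f e q
    by_contra hne
    obtain ⟨b, t, ht, hb, hv⟩ := hcon [x, f, e, q] (ix x .o .o + ix (wS (.p (wW x .o f) e) q) .o .o)
    apply hv
    have h0 := ht 0 (by simp)
    have h1 := ht 1 (by simp)
    have h2 := ht 2 (by simp)
    have h3 := ht 3 (by simp)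
    simp only [List.getElem_cons_zero, List.getElem_cons_succ] at h0 h1 h2 h3
    have hx : v3KT b x f e q = true := by
      unfold v3KT
      rw [val_tOf hb _ _ _ (by omega), val_tOf hb _ _ _ (by omega)]
      exact opJ_true hne
    unfold v3All
    rw [h0, h1, h2, h3, hx]
    simp
  · intro x e f
    by_contra hne
    obtain ⟨b, t, ht, hb, hv⟩ := hcon [x, e, f] (ix x e (.p f .o) + ix (wW x e f) (.p x e) f)
    apply hv
    have h0 := ht 0 (by simp)
    have h1 := ht 1 (by simp)
    have h2 := ht 2 (by simp)
    simp only [List.getElem_cons_zero, List.getElem_cons_succ] at h0 h1 h2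
    have hx : v3Eb b x e f = true := by
      unfold v3Eb
      rw [val_tOf hb _ _ _ (by omega), val_tOf hb _ _ _ (by omega)]
      exact opJ_true hne
    unfold v3All
    rw [h0, h1, h2, hx]
    simp
  · rfl

/-- If no `T` has all rules, the violations persist. -/
theorem viol3_persists (h : ¬ ∃ T, Good3 T) (β : ℕ → Bool) : ∃ N, ∀ M, ∃ n, M ≤ n ∧ ∀ u : List Bool, u.length = n →
    ∀ v : List Bool, v.length = N → (∀ i, i < N → v[i]? = some (β i)) → viol3 (v ++ u) = true := by
  obtain ⟨l, N, hV⟩ := exists_instance3 (β := β) (fun h2 => h ⟨_, h2⟩)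
  exact ⟨N, viol3_of_instance hV⟩

/-! ## the search -/

/-- The test of the string `u` (last bit first) fails. -/
def VP3 (u : List Bool) : Prop := viol3 u.reverse = true

noncomputable instance : DecidablePred VP3 := fun u => inferInstanceAs (Decidable (viol3 u.reverse = true))

private theorem getElem_pre (β : ℕ → Bool) (n i : ℕ) (h : i < n) : (pre β n).reverse[i]? = some (β i) := by
  have h1 := bit_pre β n i
  rw [if_pos h] at h1
  exact h1

theorem search3_never (h : ∃ T, Good3 T) (k : ℕ) : its2 VP3 k (some []) ≠ none := by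
  obtain ⟨T, hT⟩ := h
  obtain ⟨β, hβ⟩ := exists_branch T
  refine inc_never VP3 (β := β) (fun n hn => ?_) 0 (fun i hi => absurd hi (Nat.not_lt_zero i)) k
  have h1 : viol3 (pre β n).reverse = false := by
    refine viol3_false hT hβ (fun i hi => ?_)
    rw [List.length_reverse, length_pre] at hi
    exact getElem_pre β n i hi
  have h2 : viol3 (pre β n).reverse = true := hn
  rw [h1] at h2
  cases h2

theorem search3_ends (h : ¬ ∃ T, Good3 T) : ∃ k, its2 VP3 k (some []) = none := by
  refine inc_ends VP3 (fun β => ?_) []
  obtain ⟨N, hN⟩ := viol3_persists h β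
  refine ⟨N, fun M => ?_⟩
  obtain ⟨n, hn, hu⟩ := hN M
  refine ⟨n, hn, fun u hu2 => ?_⟩
  show viol3 (u ++ pre β N).reverse = true
  rw [List.reverse_append]
  exact hu _ (by rw [List.length_reverse, hu2]) _ (by rw [List.length_reverse, length_pre]) (fun i hi => getElem_pre β N i hi)

/-- The search of the machine ends iff ZF has no model. -/
theorem search3_iff : (∃ k, its2 VP3 k (some []) = none) ↔ ¬ ∃ (M : Type) (E : M → M → Prop), ZFModel E := by
  rw [← good3_iff]
  constructor
  · rintro ⟨k, hk⟩ h
    exact search3_never h k hk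
  · exact search3_ends

end Pool.Agent.Helper62.ZH
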