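import Pool.Agent.Helper62.ZH.TextRun

/-!
# The tests of the machine and the rules `codes.HGood`

`viol b`: the result of the test of `b`. `viol_false`: the initial segments of the values of a `T` with all rules pass all tests. `viol_persists`: if there is no such `T`,
every branch has an initial segment such that at infinitely many levels all strings with this initial segment fail.
-/

set_option autoImplicit false

namespace Pool.Agent.Helper62.ZH

open Pool.Agent.Helper19.ZH

/-- The result of the test of `b` (`true`: a rule is violated). -/
noncomputable def viol (b : List Bool) : Bool := vAll b (exists_trees b).choose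

theorem runs_viol (b : List Bool) : Runs text b 0 (false, 0, []) (viol b) := by
  obtain ⟨q, hq⟩ := (exists_trees b).choose_spec
  exact runs_text hq

/-! ## numbers of atoms -/

private theorem le_num_right (u v : List Bool) : num v ≤ num (u ++ v) := by
  rw [num_append]
  have h : 1 * num v ≤ 2 ^ u.length * num v := Nat.mul_le_mul_right _ Nat.one_le_two_pow
  omega

private theorem le_num_left (u v : List Bool) : num u ≤ num (u ++ v) := by
  rw [num_append]
  omega

private theorem num_mono (u : List Bool) {v v' : List Bool} (h : num v ≤ num v') : num (u ++ v) ≤ num (u ++ v') := by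
  rw [num_append, num_append]
  have := Nat.mul_le_mul_left (2 ^ u.length) h
  omega

theorem ix_D (x y e e' g : Tree) : ix x (.p e e') g ≤ ix x (.p y (.p e e')) (codes.dr .o g) := by
  have h : num (bits g) ≤ num (bits (codes.dr .o g)) := by
    show num (bits g) ≤ num ([true] ++ (bits g ++ [true, false, false]))
    exact (le_num_left _ _).trans (le_num_right _ _)
  have h2 : num (bits (.p e e') ++ bits g) ≤ num (bits (.p y (.p e e')) ++ bits (codes.dr .o g)) := by
    have e1 : bits (.p y (.p e e')) ++ bits (codes.dr .o g) = (true :: bits y) ++ (bits (.p e e') ++ bits (codes.dr .o g)) := by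
      simp [bits]
    rw [e1]
    exact (num_mono _ h).trans (le_num_right _ _)
  unfold ix
  rw [List.append_assoc, List.append_assoc]
  exact num_mono _ h2

theorem ix_I (x y e : Tree) : ix x (.p y .o) .o ≤ ix x (.p y e) .o := by
  have h : num ((bits x ++ true :: bits y) ++ [false, false]) ≤ num ((bits x ++ true :: bits y) ++ (bits e ++ [false])) :=
    num_mono _ (by
      show num [false, false] ≤ _
      simp [num])
  have e1 : bits x ++ bits (.p y .o) ++ bits .o = (bits x ++ true :: bits y) ++ [false, false] := by simp [bits]
  have e2 : bits x ++ bits (.p y e) ++ bits .o = (bits x ++ true :: bits y) ++ (bits e ++ [false]) := by simp [bits]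
  unfold ix
  rw [e1, e2]
  exact h

theorem ix_N1 (x e f g : Tree) : ix x e g ≤ ix x e (codes.nd f g) := by
  refine num_mono _ ?_
  have e1 : bits (codes.nd f g) = (true :: (bits f ++ [true, true])) ++ (bits g ++ [false, false]) := by simp [bits, codes]
  rw [e1]
  exact (le_num_left _ _).trans (le_num_right _ _)

theorem ix_N2 (x e f g : Tree) : ix x e f ≤ ix x e (codes.nd f g) := by
  refine num_mono _ ?_
  have e1 : bits (codes.nd f g) = [true] ++ (bits f ++ ([true, true] ++ (bits g ++ [false, false]))) := by simp [bits, codes]
  rw [e1]
  exact (le_num_left _ _).trans (le_num_right _ _)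

theorem ix_S1 (x e p : Tree) : ix x e .o ≤ ix x (.p (codes.S e p) .o) .o := by
  have e1 : bits x ++ bits e ++ bits .o = bits x ++ (bits e ++ [false]) := by simp [bits]
  have e2 : bits x ++ bits (.p (codes.S e p) .o) ++ bits .o = bits x ++ ([true, true, true] ++ (bits e ++ (bits p ++ [false, false, false]))) := by
    simp [bits, codes]
  have h : num (bits e ++ [false]) ≤ num (bits e ++ (bits p ++ [false, false, false])) := num_mono _ (by simp [num])
  unfold ix
  rw [e1, e2]
  exact num_mono _ (h.trans (le_num_right _ _))

theorem ix_S2 (x e p : Tree) : ix x e p ≤ ix x (.p (codes.S e p) .o) .o := by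
  have e2 : bits x ++ bits (.p (codes.S e p) .o) ++ bits .o = bits x ++ ([true, true, true] ++ ((bits e ++ bits p) ++ [false, false, false])) := by
    simp [bits, codes]
  unfold ix
  rw [e2, List.append_assoc]
  exact num_mono _ ((le_num_left _ _).trans (le_num_right _ _))

theorem ix_zero {x e f : Tree} (h : ix x e f = 0) : x = .o ∧ e = .o ∧ f = .o := by
  have h1 : num (bitss [x, e, f]) = num (bitss [.o, .o, .o]) := by
    have e1 : bitss [x, e, f] = bits x ++ bits e ++ bits f := by simp [bitss]
    rw [e1]
    exact h
  have h2 := num_inj h1 rfl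
  simpa using h2

theorem ix_inj {x e f x' e' f' : Tree} (h : ix x e f = ix x' e' f') : x = x' ∧ e = e' ∧ f = f' := by
  have h1 : num (bitss [x, e, f]) = num (bitss [x', e', f']) := by
    have e1 : ∀ a b c, bitss [a, b, c] = bits a ++ bits b ++ bits c := by
      intro a b c
      simp [bitss]
    rw [e1, e1]
    exact h
  have h2 := num_inj h1 rfl
  simpa using h2

/-! ## a `T` with all rules gives a branch without violations -/

section sound

variable {T : Tree → Tree → Tree → Bool} {b : List Bool} {n : ℕ}

theorem vD_false (hT : codes.HGood T) (hb : ∀ x e f, val b x e f = if ix x e f < n then some (T x e f) else none) (x y e e' g : Tree) :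
    vD b x y e e' g = false := by
  unfold vD
  rw [hb, hb]
  have h := ix_D x y e e' g
  by_cases h2 : ix x (.p y (.p e e')) (codes.dr .o g) < n
  · rw [if_pos h2, if_pos (lt_of_le_of_lt h h2), hT.D]
    cases T x (.p e e') g <;> rfl
  · rw [if_neg h2]
    rfl

theorem vI_false (hT : codes.HGood T) (hb : ∀ x e f, val b x e f = if ix x e f < n then some (T x e f) else none) (x y e : Tree) :
    vI b x y e = false := by
  unfold vI
  rw [hb, hb]
  have h := ix_I x y e
  by_cases h2 : ix x (.p y e) .o < n
  · rw [if_pos h2, if_pos (lt_of_le_of_lt h h2), hT.I x y e]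
    cases T x (.p y .o) .o <;> rfl
  · rw [if_neg h2]
    rfl

private theorem opJ_false {u v : Bool} (h : u = true → v = true) (P Q : Prop) [Decidable P] [Decidable Q] :
    opJ (opL (if P then some u else none)) (if Q then some v else none) = false := by
  by_cases hQ : Q
  · rw [if_pos hQ]
    by_cases hP : P
    · rw [if_pos hP]
      cases u with
      | false => rfl
      | true => rw [h rfl]; rfl
    · rw [if_neg hP]
      rfl
  · rw [if_neg hQ]
    rfl

theorem vEa_false (hT : codes.HGood T) (hb : ∀ x e f, val b x e f = if ix x e f < n then some (T x e f) else none) (z x e f : Tree) :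
    vEa b z x e f = false := by
  unfold vEa
  rw [hb, hb]
  exact opJ_false (hT.Ea z x e f) _ _

theorem vEb_false (hT : codes.HGood T) (hb : ∀ x e f, val b x e f = if ix x e f < n then some (T x e f) else none) (x e f : Tree) :
    vEb b x e f = false := by
  unfold vEb
  rw [hb, hb]
  exact opJ_false (hT.Eb x e f) _ _

theorem vK_false (hT : codes.HGood T) (hb : ∀ x e f, val b x e f = if ix x e f < n then some (T x e f) else none) (a e p : Tree) :
    vK b a e p = false := by
  unfold vK
  rw [hb, hb]
  exact opJ_false (hT.K a e p) _ _

theorem vTV_false (hT : codes.HGood T) (hb : ∀ x e f, val b x e f = if ix x e f < n then some (T x e f) else none) (x f : Tree) :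
    vTV b x f = false := by
  unfold vTV
  rw [hb, hb]
  exact opJ_false (hT.TV x f) _ _

theorem vN_false (hT : codes.HGood T) (hb : ∀ x e f, val b x e f = if ix x e f < n then some (T x e f) else none) (x e f g : Tree) :
    vN b x e f g = false := by
  unfold vN
  rw [hb, hb, hb]
  have h := ix_N1 x e f g
  have h' := ix_N2 x e f g
  by_cases h2 : ix x e (codes.nd f g) < n
  · rw [if_pos h2, if_pos (lt_of_le_of_lt h h2), if_pos (lt_of_le_of_lt h' h2), hT.N]
    cases T x e f <;> cases T x e g <;> rfl
  · rw [if_neg h2]
    rfl

theorem vS_false (hT : codes.HGood T) (hb : ∀ x e f, val b x e f = if ix x e f < n then some (T x e f) else none) (x e p : Tree) :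
    vS b x e p = false := by
  unfold vS
  rw [hb, hb, hb]
  have h := ix_S1 x e p
  have h' := ix_S2 x e p
  by_cases h2 : ix x (.p (codes.S e p) .o) .o < n
  · rw [if_pos h2, if_pos (lt_of_le_of_lt h h2), if_pos (lt_of_le_of_lt h' h2), hT.S]
    cases T x e .o <;> cases T x e p <;> rfl
  · rw [if_neg h2]
    rfl

theorem vAll_false (hT : codes.HGood T) (hb : ∀ x e f, val b x e f = if ix x e f < n then some (T x e f) else none) (t : ℕ → Tree) :
    vAll b t = false := by
  unfold vAll
  rw [vD_false hT hb, vI_false hT hb, vEa_false hT hb, vN_false hT hb, vK_false hT hb, vS_false hT hb, vTV_false hT hb, vEb_false hT hb]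
  rfl

end sound

/-- The initial segments of the values of a good `T` pass all tests. -/
theorem viol_false {T : Tree → Tree → Tree → Bool} (hT : codes.HGood T) {β : ℕ → Bool}
    (hβ : ∀ x e f i, ix x e f = i + 1 → β i = T x e f) {b : List Bool} (hb : ∀ i, i < b.length → b[i]? = some (β i)) :
    viol b = false := by
  refine vAll_false (n := b.length + 1) hT (fun x e f => ?_) _
  unfold val
  cases h : ix x e f with
  | zero =>
    obtain ⟨rfl, rfl, rfl⟩ := ix_zero h
    rw [if_pos (Nat.succ_pos _), hT.N0]
    rfl
  | succ i =>
    rw [List.getElem?_cons_succ]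
    by_cases hi : i < b.length
    · rw [if_pos (by omega), hb i hi, hβ x e f i h]
    · rw [if_neg (by omega)]
      exact List.getElem?_eq_none (by omega)

/-- The branch of a `T`. -/
theorem exists_branch (T : Tree → Tree → Tree → Bool) : ∃ β : ℕ → Bool, ∀ x e f i, ix x e f = i + 1 → β i = T x e f := by
  classical
  refine ⟨fun i => decide (∃ x e f, ix x e f = i + 1 ∧ T x e f = true), fun x e f i h => ?_⟩
  rw [Bool.eq_iff_iff, decide_eq_true_iff]
  constructor
  · rintro ⟨x', e', f', h1, h2⟩
    obtain ⟨rfl, rfl, rfl⟩ := ix_inj (h1.trans h.symm)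
    exact h2
  · intro h1
    exact ⟨x, e, f, h, h1⟩

end Pool.Agent.Helper62.ZH
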