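import Pool.Agent.Helper62.ZH.Text

/-!
# The run of the text of the machine
-/

set_option autoImplicit false

namespace Pool.Agent.Helper62.ZH

open Pool.Agent.Helper19.ZH

section run

variable {b : List Bool} {t0 t1 t2 t3 t4 : Tree} {q1 q2 q3 q4 q5 : ℕ}

private theorem rds1 {i j : ℕ} {s : Tree} (h : Rd (dg b) i s j) : Rds (dg b) i [s] j := Rds.cons h Rds.nil

private theorem rds2 {i j k : ℕ} {s s' : Tree} (h : Rd (dg b) i s j) (h' : Rd (dg b) j s' k) : Rds (dg b) i [s, s'] k :=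
  Rds.cons h (rds1 h')

private theorem rds3 {i j k l : ℕ} {s s' s'' : Tree} (h : Rd (dg b) i s j) (h' : Rd (dg b) j s' k) (h'' : Rd (dg b) k s'' l) :
    Rds (dg b) i [s, s', s''] l := Rds.cons h (rds2 h' h'')

private theorem num_pos_of_mem {w : List Bool} (h : true ∈ w) : 0 < num w := by
  induction w with
  | nil => cases h
  | cons a w ih =>
    rw [num]
    cases a with
    | true => simp only [Bool.toNat_true]; omega
    | false =>
      have := ih (by simpa using h)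
      omega

theorem run_Eb (h0 : Rd (dg b) 0 t0 q1) (h1 : Rd (dg b) q1 t1 q2) (h2 : Rd (dg b) q2 t2 q3) (m : Bool) :
    Runs text b 48 (m, q2, bitss [t0, t1]) (m || vEb b t0 t1 t2) := by
  have i1 := h0.lt
  have i2 := h1.lt
  have i3 := h2.lt
  refine Runs.step 48 _ _ _ _ rfl (Step.oc [t2] m q2 q3 _ (by simp) (rds1 h2)) ?_
  cases m with
  | true => exact Runs.viol 49 _ _ rfl (by omega)
  | false =>
    refine Runs.step 49 _ _ _ _ rfl (Step.opL q3 _ (by omega)) ?_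
    refine Runs.step 50 _ _ _ _ rfl (Step.oc [t0] _ 0 q1 _ (by simp) (rds1 h0)) ?_
    refine Runs.step 51 _ _ _ _ rfl (Step.oc [t1, t2] _ q1 q3 _ (by simp) (rds2 h1 h2)) ?_
    refine Runs.step 52 _ _ _ _ rfl (Step.rw _ q3 _ (by omega)) ?_
    refine Runs.step 53 _ _ _ _ rfl (Step.oc [t0, t1, t2] _ 0 q3 _ (by simp) (rds3 h0 h1 h2)) ?_
    refine Runs.step 54 _ _ _ _ rfl (Step.opJ _ q3 _ (by omega)) ?_
    have e1 : look b (bitss [t0, t1] ++ true :: bitss [t2]) = val b t0 t1 (codes.ec t2) :=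
      look_eq 1 (by simp [bitss, bits, codes])
    have e2 : look b (([] ++ true :: bitss [t0] ++ true :: bitss [t1, t2]) ++ true :: bitss [t0, t1, t2]) =
        val b (codes.W t0 t1 t2) (.p t0 t1) t2 := look_eq 0 (by simp [bitss, bits, codes])
    rw [e1, e2]
    exact Runs.fi 55 _ rfl

theorem run_TV (h0 : Rd (dg b) 0 t0 q1) (h1 : Rd (dg b) q1 t1 q2) (h2 : Rd (dg b) q2 t2 q3) (m : Bool) :
    Runs text b 42 (m, q1, bits t0) (m || (vTV b t0 t1 || vEb b t0 t1 t2)) := by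
  have i1 := h0.lt
  have i2 := h1.lt
  cases m with
  | true => exact Runs.viol 42 _ _ rfl (by omega)
  | false =>
    refine Runs.step 42 _ _ _ _ rfl (Step.opL q1 _ (by omega)) ?_
    refine Runs.step 43 _ _ _ _ rfl (Step.oc [t0] _ 0 q1 _ (by simp) (rds1 h0)) ?_
    refine Runs.step 44 _ _ _ _ rfl (Step.lit true _ _ _) ?_
    refine Runs.step 45 _ _ _ _ rfl (Step.lit false _ _ _) ?_
    refine Runs.step 46 _ _ _ _ rfl (Step.cp [t1] _ q1 q2 _ (by simp) (rds1 h1)) ?_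
    refine Runs.step 47 _ _ _ _ rfl (Step.jc [t0, t1] _ q2 q2 _ (by simp) (by omega) (rds2 h0 h1)) ?_
    have e1 : look b (bits t0) = val b t0 .o .o := look_eq 2 (by simp [bits, List.replicate])
    have e2 : look b (([] ++ true :: bitss [t0] ++ [true] ++ [false]) ++ bitss [t1]) = val b (codes.W t0 .o t1) .o .o :=
      look_eq 2 (by simp [bitss, bits, codes, List.replicate])
    rw [e1, e2]
    exact run_Eb h0 h1 h2 _

theorem run_S (h0 : Rd (dg b) 0 t0 q1) (h1 : Rd (dg b) q1 t1 q2) (h2 : Rd (dg b) q2 t2 q3) (m : Bool) :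
    Runs text b 35 (m, q2, bitss [t0, t1]) (m || (vS b t0 t1 t2 || (vTV b t0 t1 || vEb b t0 t1 t2))) := by
  have i1 := h0.lt
  have i2 := h1.lt
  have i3 := h2.lt
  cases m with
  | true => exact Runs.viol 35 _ _ rfl (by omega)
  | false =>
    refine Runs.step 35 _ _ _ _ rfl (Step.opL q2 _ (by omega)) ?_
    refine Runs.step 36 _ _ _ _ rfl (Step.cp [t0, t1, t2] _ 0 q3 _ (by simp) (rds3 h0 h1 h2)) ?_
    refine Runs.step 37 _ _ _ _ rfl (Step.jc [t0] _ q3 q1 _ (by simp) (by omega) (rds1 h0)) ?_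
    refine Runs.step 38 _ _ _ _ rfl (Step.lit true _ _ _) ?_
    refine Runs.step 39 _ _ _ _ rfl (Step.lit true _ _ _) ?_
    refine Runs.step 40 _ _ _ _ rfl (Step.oc [t1, t2] _ q1 q3 _ (by simp) (rds2 h1 h2)) ?_
    refine Runs.step 41 _ _ _ _ rfl (Step.xc t0 _ q3 q1 _ (by omega) (num_pos_of_mem (by simp)) h0) ?_
    have e1 : look b (bitss [t0, t1]) = val b t0 t1 .o := look_eq 1 (by simp [bitss, bits])
    have e2 : look b ([] ++ bitss [t0, t1, t2]) = val b t0 t1 t2 := look_eq 0 (by simp [bitss])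
    have e3 : look b ((bitss [t0] ++ [true] ++ [true]) ++ true :: bitss [t1, t2]) = val b t0 (.p (codes.S t1 t2) .o) .o :=
      look_eq 3 (by simp [bitss, bits, codes, List.replicate])
    rw [e1, e2, e3]
    exact run_TV h0 h1 h2 _

theorem run_K (h0 : Rd (dg b) 0 t0 q1) (h1 : Rd (dg b) q1 t1 q2) (h2 : Rd (dg b) q2 t2 q3) (m : Bool) :
    Runs text b 30 (m, q1, bits t0) (m || (vK b t0 t1 t2 || (vS b t0 t1 t2 || (vTV b t0 t1 || vEb b t0 t1 t2)))) := by
  have i1 := h0.lt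
  have i2 := h1.lt
  have i3 := h2.lt
  cases m with
  | true => exact Runs.viol 30 _ _ rfl (by omega)
  | false =>
    refine Runs.step 30 _ _ _ _ rfl (Step.opL q1 _ (by omega)) ?_
    refine Runs.step 31 _ _ _ _ rfl (Step.lit true _ _ _) ?_
    refine Runs.step 32 _ _ _ _ rfl (Step.lit true _ _ _) ?_
    refine Runs.step 33 _ _ _ _ rfl (Step.oc [t0, t1, t2] _ 0 q3 _ (by simp) (rds3 h0 h1 h2)) ?_
    refine Runs.step 34 _ _ _ _ rfl (Step.jc [t0, t1] _ q3 q2 _ (by simp) (by omega) (rds2 h0 h1)) ?_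
    have e1 : look b (bits t0) = val b t0 .o .o := look_eq 2 (by simp [bits, List.replicate])
    have e2 : look b (([] ++ [true] ++ [true]) ++ true :: bitss [t0, t1, t2]) = val b (codes.S (.p t0 t1) t2) .o .o :=
      look_eq 3 (by simp [bitss, bits, codes, List.replicate])
    rw [e1, e2]
    exact run_S h0 h1 h2 _

theorem run_N (h0 : Rd (dg b) 0 t0 q1) (h1 : Rd (dg b) q1 t1 q2) (h2 : Rd (dg b) q2 t2 q3) (h3 : Rd (dg b) q3 t3 q4) (m : Bool) :
    Runs text b 21 (m, q2, bitss [t0, t1])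
      (m || (vN b t0 t1 t2 t3 || (vK b t0 t1 t2 || (vS b t0 t1 t2 || (vTV b t0 t1 || vEb b t0 t1 t2))))) := by
  have i1 := h0.lt
  have i2 := h1.lt
  have i3 := h2.lt
  have i4 := h3.lt
  refine Runs.step 21 _ _ _ _ rfl (Step.sk t2 m q2 q3 _ h2) ?_
  refine Runs.step 22 _ _ _ _ rfl (Step.cp [t3] m q3 q4 _ (by simp) (rds1 h3)) ?_
  cases m with
  | true => exact Runs.viol 23 _ _ rfl (by omega)
  | false =>
    refine Runs.step 23 _ _ _ _ rfl (Step.opL q4 _ (by omega)) ?_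
    refine Runs.step 24 _ _ _ _ rfl (Step.cp [t0, t1, t2] _ 0 q3 _ (by simp) (rds3 h0 h1 h2)) ?_
    refine Runs.step 25 _ _ _ _ rfl (Step.jc [t0, t1] _ q3 q2 _ (by simp) (by omega) (rds2 h0 h1)) ?_
    refine Runs.step 26 _ _ _ _ rfl (Step.oc [t2] _ q2 q3 _ (by simp) (rds1 h2)) ?_
    refine Runs.step 27 _ _ _ _ rfl (Step.lit true _ _ _) ?_
    refine Runs.step 28 _ _ _ _ rfl (Step.oc [t3] _ q3 q4 _ (by simp) (rds1 h3)) ?_
    refine Runs.step 29 _ _ _ _ rfl (Step.xc t0 _ q4 q1 _ (by omega) (num_pos_of_mem (by simp)) h0) ?_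
    have e1 : look b (bitss [t0, t1] ++ bitss [t3]) = val b t0 t1 t3 := look_eq 0 (by simp [bitss])
    have e2 : look b ([] ++ bitss [t0, t1, t2]) = val b t0 t1 t2 := look_eq 0 (by simp [bitss])
    have e3 : look b ((bitss [t0, t1] ++ true :: bitss [t2] ++ [true]) ++ true :: bitss [t3]) = val b t0 t1 (codes.nd t2 t3) :=
      look_eq 2 (by simp [bitss, bits, codes, List.replicate])
    rw [e1, e2, e3]
    exact run_K h0 h1 h2 _

theorem run_Ea (h0 : Rd (dg b) 0 t0 q1) (h1 : Rd (dg b) q1 t1 q2) (h2 : Rd (dg b) q2 t2 q3) (h3 : Rd (dg b) q3 t3 q4) (m : Bool) :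
    Runs text b 15 (m, q1, bits t0)
      (m || (vEa b t0 t1 t2 t3 || (vN b t0 t1 t2 t3 || (vK b t0 t1 t2 || (vS b t0 t1 t2 || (vTV b t0 t1 || vEb b t0 t1 t2)))))) := by
  have i1 := h0.lt
  have i2 := h1.lt
  have i3 := h2.lt
  have i4 := h3.lt
  refine Runs.step 15 _ _ _ _ rfl (Step.oc [t1, t2, t3] m q1 q4 _ (by simp) (rds3 h1 h2 h3)) ?_
  cases m with
  | true => exact Runs.viol 16 _ _ rfl (by omega)
  | false =>
    refine Runs.step 16 _ _ _ _ rfl (Step.opL q4 _ (by omega)) ?_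
    refine Runs.step 17 _ _ _ _ rfl (Step.sk t0 _ 0 q1 _ h0) ?_
    refine Runs.step 18 _ _ _ _ rfl (Step.cp [t1, t2] _ q1 q3 _ (by simp) (rds2 h1 h2)) ?_
    refine Runs.step 19 _ _ _ _ rfl (Step.oc [t3] _ q3 q4 _ (by simp) (rds1 h3)) ?_
    refine Runs.step 20 _ _ _ _ rfl (Step.jc [t0, t1] _ q4 q2 _ (by simp) (by omega) (rds2 h0 h1)) ?_
    have e1 : look b (bits t0 ++ true :: bitss [t1, t2, t3]) = val b t0 (.p t1 t2) t3 := look_eq 0 (by simp [bitss, bits])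
    have e2 : look b ([] ++ bitss [t1, t2] ++ true :: bitss [t3]) = val b t1 t2 (codes.ec t3) :=
      look_eq 1 (by simp [bitss, bits, codes])
    rw [e1, e2]
    exact run_N h0 h1 h2 h3 _

theorem run_I (h0 : Rd (dg b) 0 t0 q1) (h1 : Rd (dg b) q1 t1 q2) (h2 : Rd (dg b) q2 t2 q3) (h3 : Rd (dg b) q3 t3 q4) (m : Bool) :
    Runs text b 10 (m, q1, bits t0)
      (m || (vI b t0 t1 t2 || (vEa b t0 t1 t2 t3 || (vN b t0 t1 t2 t3 || (vK b t0 t1 t2 || (vS b t0 t1 t2 || (vTV b t0 t1 || vEb b t0 t1 t2))))))) := by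
  have i1 := h0.lt
  have i2 := h1.lt
  have i3 := h2.lt
  refine Runs.step 10 _ _ _ _ rfl (Step.oc [t1] m q1 q2 _ (by simp) (rds1 h1)) ?_
  cases m with
  | true => exact Runs.viol 11 _ _ rfl (by omega)
  | false =>
    refine Runs.step 11 _ _ _ _ rfl (Step.opL q2 _ (by omega)) ?_
    refine Runs.step 12 _ _ _ _ rfl (Step.cp [t0] _ 0 q1 _ (by simp) (rds1 h0)) ?_
    refine Runs.step 13 _ _ _ _ rfl (Step.oc [t1, t2] _ q1 q3 _ (by simp) (rds2 h1 h2)) ?_
    refine Runs.step 14 _ _ _ _ rfl (Step.xc t0 _ q3 q1 _ (by omega) (num_pos_of_mem (by simp)) h0) ?_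
    have e1 : look b (bits t0 ++ true :: bitss [t1]) = val b t0 (.p t1 .o) .o :=
      look_eq 2 (by simp [bitss, bits, List.replicate])
    have e2 : look b ([] ++ bitss [t0] ++ true :: bitss [t1, t2]) = val b t0 (.p t1 t2) .o :=
      look_eq 1 (by simp [bitss, bits])
    rw [e1, e2]
    exact run_Ea h0 h1 h2 h3 _

theorem run_D (h0 : Rd (dg b) 0 t0 q1) (h1 : Rd (dg b) q1 t1 q2) (h2 : Rd (dg b) q2 t2 q3) (h3 : Rd (dg b) q3 t3 q4)
    (h4 : Rd (dg b) q4 t4 q5) :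
    Runs text b 0 (false, 0, [])
      (vD b t0 t1 t2 t3 t4 || (vI b t0 t1 t2 || (vEa b t0 t1 t2 t3 || (vN b t0 t1 t2 t3 ||
        (vK b t0 t1 t2 || (vS b t0 t1 t2 || (vTV b t0 t1 || vEb b t0 t1 t2))))))) := by
  have i1 := h0.lt
  have i2 := h1.lt
  have i3 := h2.lt
  have i4 := h3.lt
  have i5 := h4.lt
  refine Runs.step 0 _ _ _ _ rfl (Step.cp [t0] _ 0 q1 _ (by simp) (rds1 h0)) ?_
  refine Runs.step 1 _ _ _ _ rfl (Step.sk t1 _ q1 q2 _ h1) ?_
  refine Runs.step 2 _ _ _ _ rfl (Step.oc [t2, t3, t4] _ q2 q5 _ (by simp) (rds3 h2 h3 h4)) ?_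
  refine Runs.step 3 _ _ _ _ rfl (Step.opL q5 _ (by omega)) ?_
  refine Runs.step 4 _ _ _ _ rfl (Step.cp [t0] _ 0 q1 _ (by simp) (rds1 h0)) ?_
  refine Runs.step 5 _ _ _ _ rfl (Step.oc [t1] _ q1 q2 _ (by simp) (rds1 h1)) ?_
  refine Runs.step 6 _ _ _ _ rfl (Step.oc [t2, t3] _ q2 q4 _ (by simp) (rds2 h2 h3)) ?_
  refine Runs.step 7 _ _ _ _ rfl (Step.oc [t4] _ q4 q5 _ (by simp) (rds1 h4)) ?_
  refine Runs.step 8 _ _ _ _ rfl (Step.lit true _ _ _) ?_
  refine Runs.step 9 _ _ _ _ rfl (Step.xc t0 _ q5 q1 _ (by omega) (num_pos_of_mem (by simp)) h0) ?_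
  have e1 : look b ([] ++ bitss [t0] ++ true :: bitss [t2, t3, t4]) = val b t0 (.p t2 t3) t4 :=
    look_eq 0 (by simp [bitss, bits])
  have e2 : look b (([] ++ bitss [t0] ++ true :: bitss [t1] ++ true :: bitss [t2, t3] ++ true :: bitss [t4]) ++ [true]) =
      val b t0 (.p t1 (.p t2 t3)) (codes.dr .o t4) := look_eq 2 (by simp [bitss, bits, codes, List.replicate])
  rw [e1, e2]
  exact run_I h0 h1 h2 h3 _

end run

/-- The test of `b` ends with `vAll b t`. -/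
theorem runs_text {b : List Bool} {t : ℕ → Tree} {q : ℕ → ℕ} (h : Trees b t q) : Runs text b 0 (false, 0, []) (vAll b t) := by
  have h0 := h.2 0
  rw [h.1] at h0
  exact run_D h0 (h.2 1) (h.2 2) (h.2 3) (h.2 4)

end Pool.Agent.Helper62.ZH
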