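import Pool.Agent.Helper62.ZH.Text3
import Pool.Agent.Helper19.ZH3.Sem

/-!
# The run of the text with the rules `Good3`
-/

set_option autoImplicit false

namespace Pool.Agent.Helper62.ZH

open Pool.Agent.Helper19
open Pool.Agent.Helper19.ZH hiding Tok Step Runs

/-- The text. Rules in the order N, I, Ea, S, KT, Eb. -/
def text3 : List ZH3.Tok :=
  [.cp 1, .oc 3, .jc 1, .sc, .lit true, .sc, .cp 1, .jc 1, .oc 2, .oc 1, .oc 2,
    .xc, .oc 1, .opL, .cp 1, .oc 2,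
    .xc, .oc 3, .opL, .sc, .cp 1, .oc 1,
    .jc 2, .opL, .cp 3, .jc 1, .tt, .oc 2,
    .xc, .opL, .tt, .lit true, .oc 1, .lit true, .lit false, .cp 3,
    .jc 2, .oc 1, .opL, .oc 1, .oc 2, .rw, .oc 3, .je]

section run

variable {b : List Bool} {t0 t1 t2 t3 t4 t5 : Tree} {q1 q2 q3 q4 q5 q6 : ℕ}

private theorem rds1 {i j : ℕ} {s : Tree} (h : Rd (dg b) i s j) : Rds (dg b) i [s] j := Rds.cons h Rds.nil

private theorem rds2 {i j k : ℕ} {s s' : Tree} (h : Rd (dg b) i s j) (h' : Rd (dg b) j s' k) : Rds (dg b) i [s, s'] k :=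
  Rds.cons h (rds1 h')

private theorem rds3 {i j k l : ℕ} {s s' s'' : Tree} (h : Rd (dg b) i s j) (h' : Rd (dg b) j s' k) (h'' : Rd (dg b) k s'' l) :
    Rds (dg b) i [s, s', s''] l := Rds.cons h (rds2 h' h'')

private theorem num_pos_of_mem {w : List Bool} (h : true ∈ w) : 0 < num w := by
  induction w with
  | nil => cases h
  | cons a w ih =>
    rw [num]
    cases a with
    | true => simp only [Bool.toNat_true]; omega
    | false =>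
      have := ih (by simpa using h)
      omega

private theorem run3_Eb (h0 : Rd (dg b) 0 t0 q1) (h1 : Rd (dg b) q1 t1 q2) (h2 : Rd (dg b) q2 t2 q3) (m : Bool) :
    ZH3.Runs text3 b 37 (m, q2, bitss [t0, t1]) (m || v3Eb b t0 t1 t2) := by
  have i1 := h0.lt
  have i2 := h1.lt
  have i3 := h2.lt
  refine ZH3.Runs.step 37 _ _ _ _ rfl (ZH3.Step.oc [t2] m q2 q3 _ (by simp) (rds1 h2)) ?_
  cases m with
  | true => exact ZH3.Runs.viol 38 _ _ rfl (by omega)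
  | false =>
    refine ZH3.Runs.step 38 _ _ _ _ rfl (ZH3.Step.opL q3 _ (by omega)) ?_
    refine ZH3.Runs.step 39 _ _ _ _ rfl (ZH3.Step.oc [t0] _ 0 q1 _ (by simp) (rds1 h0)) ?_
    refine ZH3.Runs.step 40 _ _ _ _ rfl (ZH3.Step.oc [t1, t2] _ q1 q3 _ (by simp) (rds2 h1 h2)) ?_
    refine ZH3.Runs.step 41 _ _ _ _ rfl (ZH3.Step.rw _ q3 _ (by omega)) ?_
    refine ZH3.Runs.step 42 _ _ _ _ rfl (ZH3.Step.oc [t0, t1, t2] _ 0 q3 _ (by simp) (rds3 h0 h1 h2)) ?_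
    have e1 : look b (bitss [t0, t1] ++ true :: bitss [t2]) = val b t0 t1 (.p t2 .o) :=
      look_eq 1 (by simp [bitss, bits])
    have e2 : look b (([] ++ true :: bitss [t0] ++ true :: bitss [t1, t2]) ++ true :: bitss [t0, t1, t2]) =
        val b (wW t0 t1 t2) (.p t0 t1) t2 := look_eq 0 (by simp [bitss, bits, wW])
    have h := ZH3.Runs.je (prog := text3) (b := b) 43 (opL (look b (bitss [t0, t1] ++ true :: bitss [t2]))) q3
      (([] ++ true :: bitss [t0] ++ true :: bitss [t1, t2]) ++ true :: bitss [t0, t1, t2]) rfl (by omega)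
    rw [e2, e1] at h
    rw [e1]
    exact h

private theorem run3_KT (h0 : Rd (dg b) 0 t0 q1) (h1 : Rd (dg b) q1 t1 q2) (h2 : Rd (dg b) q2 t2 q3) (h3 : Rd (dg b) q3 t3 q4) (m : Bool) :
    ZH3.Runs text3 b 29 (m, q1, bits t0) (m || (v3KT b t0 t1 t2 t3 || v3Eb b t0 t1 t2)) := by
  have i1 := h0.lt
  have i2 := h1.lt
  have i3 := h2.lt
  have i4 := h3.lt
  cases m with
  | true => exact ZH3.Runs.viol 29 _ _ rfl (by omega)
  | false =>
    refine ZH3.Runs.step 29 _ _ _ _ rfl (ZH3.Step.opL q1 _ (by omega)) ?_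
    refine ZH3.Runs.step 30 _ _ _ _ rfl (ZH3.Step.tt _ _ _) ?_
    refine ZH3.Runs.step 31 _ _ _ _ rfl (ZH3.Step.lit true _ _ _) ?_
    refine ZH3.Runs.step 32 _ _ _ _ rfl (ZH3.Step.oc [t0] _ 0 q1 _ (by simp) (rds1 h0)) ?_
    refine ZH3.Runs.step 33 _ _ _ _ rfl (ZH3.Step.lit true _ _ _) ?_
    refine ZH3.Runs.step 34 _ _ _ _ rfl (ZH3.Step.lit false _ _ _) ?_
    refine ZH3.Runs.step 35 _ _ _ _ rfl (ZH3.Step.cp [t1, t2, t3] _ q1 q4 _ (by simp) (rds3 h1 h2 h3)) ?_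
    refine ZH3.Runs.step 36 _ _ _ _ rfl (ZH3.Step.jc [t0, t1] _ q4 q2 _ (by simp) (by omega) (rds2 h0 h1)) ?_
    have e1 : look b (bits t0) = val b t0 .o .o := look_eq 2 (by simp [bits, List.replicate])
    have e2 : look b (((([] ++ [true, true] ++ [true]) ++ true :: bitss [t0]) ++ [true] ++ [false]) ++ bitss [t1, t2, t3]) =
        val b (wS (.p (wW t0 .o t1) t2) t3) .o .o :=
      look_eq 3 (by simp [bitss, bits, wS, wW, List.replicate])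
    rw [e1, e2]
    exact run3_Eb h0 h1 h2 _

private theorem run3_S (h0 : Rd (dg b) 0 t0 q1) (h1 : Rd (dg b) q1 t1 q2) (h2 : Rd (dg b) q2 t2 q3) (h3 : Rd (dg b) q3 t3 q4) (m : Bool) :
    ZH3.Runs text3 b 23 (m, q2, bitss [t0, t1]) (m || (v3S b t0 t1 t2 || (v3KT b t0 t1 t2 t3 || v3Eb b t0 t1 t2))) := by
  have i1 := h0.lt
  have i2 := h1.lt
  have i3 := h2.lt
  cases m with
  | true => exact ZH3.Runs.viol 23 _ _ rfl (by omega)
  | false =>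
    refine ZH3.Runs.step 23 _ _ _ _ rfl (ZH3.Step.opL q2 _ (by omega)) ?_
    refine ZH3.Runs.step 24 _ _ _ _ rfl (ZH3.Step.cp [t0, t1, t2] _ 0 q3 _ (by simp) (rds3 h0 h1 h2)) ?_
    refine ZH3.Runs.step 25 _ _ _ _ rfl (ZH3.Step.jc [t0] _ q3 q1 _ (by simp) (by omega) (rds1 h0)) ?_
    refine ZH3.Runs.step 26 _ _ _ _ rfl (ZH3.Step.tt _ _ _) ?_
    refine ZH3.Runs.step 27 _ _ _ _ rfl (ZH3.Step.oc [t1, t2] _ q1 q3 _ (by simp) (rds2 h1 h2)) ?_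
    refine ZH3.Runs.step 28 _ _ _ _ rfl (ZH3.Step.xc t0 _ q3 q1 _ (by omega) (num_pos_of_mem (by simp)) h0) ?_
    have e1 : look b (bitss [t0, t1]) = val b t0 t1 .o := look_eq 1 (by simp [bitss, bits])
    have e2 : look b ([] ++ bitss [t0, t1, t2]) = val b t0 t1 t2 := look_eq 0 (by simp [bitss])
    have e3 : look b ((bitss [t0] ++ [true, true]) ++ true :: bitss [t1, t2]) = val b t0 (.p (wS t1 t2) .o) .o :=
      look_eq 3 (by simp [bitss, bits, wS, List.replicate])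
    rw [e1, e2, e3]
    exact run3_KT h0 h1 h2 h3 _

private theorem run3_Ea (h0 : Rd (dg b) 0 t0 q1) (h1 : Rd (dg b) q1 t1 q2) (h2 : Rd (dg b) q2 t2 q3) (h3 : Rd (dg b) q3 t3 q4) (m : Bool) :
    ZH3.Runs text3 b 17 (m, q1, bits t0)
      (m || (v3Ea b t0 t1 t2 t3 || (v3S b t0 t1 t2 || (v3KT b t0 t1 t2 t3 || v3Eb b t0 t1 t2)))) := by
  have i1 := h0.lt
  have i2 := h1.lt
  have i3 := h2.lt
  have i4 := h3.lt
  refine ZH3.Runs.step 17 _ _ _ _ rfl (ZH3.Step.oc [t1, t2, t3] m q1 q4 _ (by simp) (rds3 h1 h2 h3)) ?_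
  cases m with
  | true => exact ZH3.Runs.viol 18 _ _ rfl (by omega)
  | false =>
    refine ZH3.Runs.step 18 _ _ _ _ rfl (ZH3.Step.opL q4 _ (by omega)) ?_
    refine ZH3.Runs.step 19 _ _ _ _ rfl (ZH3.Step.sc t0 t1 _ 0 q1 q2 _ h0 h1) ?_
    refine ZH3.Runs.step 20 _ _ _ _ rfl (ZH3.Step.cp [t2] _ q2 q3 _ (by simp) (rds1 h2)) ?_
    refine ZH3.Runs.step 21 _ _ _ _ rfl (ZH3.Step.oc [t3] _ q3 q4 _ (by simp) (rds1 h3)) ?_
    refine ZH3.Runs.step 22 _ _ _ _ rfl (ZH3.Step.jc [t0, t1] _ q4 q2 _ (by simp) (by omega) (rds2 h0 h1)) ?_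
    have e1 : look b (bits t0 ++ true :: bitss [t1, t2, t3]) = val b t0 (.p t1 t2) t3 := look_eq 0 (by simp [bitss, bits])
    have e2 : look b (([] ++ bits t1) ++ bitss [t2] ++ true :: bitss [t3]) = val b t1 t2 (.p t3 .o) :=
      look_eq 1 (by simp [bitss, bits])
    rw [e1, e2]
    exact run3_S h0 h1 h2 h3 _

private theorem run3_I (h0 : Rd (dg b) 0 t0 q1) (h1 : Rd (dg b) q1 t1 q2) (h2 : Rd (dg b) q2 t2 q3) (h3 : Rd (dg b) q3 t3 q4) (m : Bool) :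
    ZH3.Runs text3 b 12 (m, q1, bits t0)
      (m || (v3I b t0 t1 t2 || (v3Ea b t0 t1 t2 t3 || (v3S b t0 t1 t2 || (v3KT b t0 t1 t2 t3 || v3Eb b t0 t1 t2))))) := by
  have i1 := h0.lt
  have i2 := h1.lt
  have i3 := h2.lt
  refine ZH3.Runs.step 12 _ _ _ _ rfl (ZH3.Step.oc [t1] m q1 q2 _ (by simp) (rds1 h1)) ?_
  cases m with
  | true => exact ZH3.Runs.viol 13 _ _ rfl (by omega)
  | false =>
    refine ZH3.Runs.step 13 _ _ _ _ rfl (ZH3.Step.opL q2 _ (by omega)) ?_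
    refine ZH3.Runs.step 14 _ _ _ _ rfl (ZH3.Step.cp [t0] _ 0 q1 _ (by simp) (rds1 h0)) ?_
    refine ZH3.Runs.step 15 _ _ _ _ rfl (ZH3.Step.oc [t1, t2] _ q1 q3 _ (by simp) (rds2 h1 h2)) ?_
    refine ZH3.Runs.step 16 _ _ _ _ rfl (ZH3.Step.xc t0 _ q3 q1 _ (by omega) (num_pos_of_mem (by simp)) h0) ?_
    have e1 : look b (bits t0 ++ true :: bitss [t1]) = val b t0 (.p t1 .o) .o :=
      look_eq 2 (by simp [bitss, bits, List.replicate])
    have e2 : look b ([] ++ bitss [t0] ++ true :: bitss [t1, t2]) = val b t0 (.p t1 t2) .o :=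
      look_eq 1 (by simp [bitss, bits])
    rw [e1, e2]
    exact run3_Ea h0 h1 h2 h3 _

private theorem run3_N (h0 : Rd (dg b) 0 t0 q1) (h1 : Rd (dg b) q1 t1 q2) (h2 : Rd (dg b) q2 t2 q3) (h3 : Rd (dg b) q3 t3 q4)
    (h4 : Rd (dg b) q4 t4 q5) (h5 : Rd (dg b) q5 t5 q6) :
    ZH3.Runs text3 b 0 (true, 0, [])
      (v3N b t0 t1 t2 t3 t4 t5 || (v3I b t0 t1 t2 || (v3Ea b t0 t1 t2 t3 || (v3S b t0 t1 t2 ||
        (v3KT b t0 t1 t2 t3 || v3Eb b t0 t1 t2))))) := by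
  have i1 := h0.lt
  have i2 := h1.lt
  have i3 := h2.lt
  have i4 := h3.lt
  have i5 := h4.lt
  have i6 := h5.lt
  refine ZH3.Runs.step 0 _ _ _ _ rfl (ZH3.Step.cp [t0] _ 0 q1 _ (by simp) (rds1 h0)) ?_
  refine ZH3.Runs.step 1 _ _ _ _ rfl (ZH3.Step.oc [t1, t2, t3] _ q1 q4 _ (by simp) (rds3 h1 h2 h3)) ?_
  refine ZH3.Runs.step 2 _ _ _ _ rfl (ZH3.Step.jc [t0] _ q4 q1 _ (by simp) (by omega) (rds1 h0)) ?_
  refine ZH3.Runs.step 3 _ _ _ _ rfl (ZH3.Step.sc t1 t2 _ q1 q2 q3 _ h1 h2) ?_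
  refine ZH3.Runs.step 4 _ _ _ _ rfl (ZH3.Step.lit true _ _ _) ?_
  refine ZH3.Runs.step 5 _ _ _ _ rfl (ZH3.Step.sc t3 t4 _ q3 q4 q5 _ h3 h4) ?_
  refine ZH3.Runs.step 6 _ _ _ _ rfl (ZH3.Step.cp [t5] _ q5 q6 _ (by simp) (rds1 h5)) ?_
  refine ZH3.Runs.step 7 _ _ _ _ rfl (ZH3.Step.jc [t0] _ q6 q1 _ (by simp) (by omega) (rds1 h0)) ?_
  refine ZH3.Runs.step 8 _ _ _ _ rfl (ZH3.Step.oc [t1, t2] _ q1 q3 _ (by simp) (rds2 h1 h2)) ?_
  refine ZH3.Runs.step 9 _ _ _ _ rfl (ZH3.Step.oc [t3] _ q3 q4 _ (by simp) (rds1 h3)) ?_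
  refine ZH3.Runs.step 10 _ _ _ _ rfl (ZH3.Step.oc [t4, t5] _ q4 q6 _ (by simp) (rds2 h4 h5)) ?_
  refine ZH3.Runs.step 11 _ _ _ _ rfl (ZH3.Step.xc t0 _ q6 q1 _ (by omega) (num_pos_of_mem (by simp)) h0) ?_
  have e1 : look b (([] ++ bitss [t0]) ++ true :: bitss [t1, t2, t3]) = val b t0 (.p t1 t2) t3 :=
    look_eq 0 (by simp [bitss, bits])
  have e2 : look b ((bitss [t0] ++ bits t2 ++ [true] ++ bits t4) ++ bitss [t5]) = val b t0 t2 (.p t4 t5) :=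
    look_eq 0 (by simp [bitss, bits])
  have e3 : look b ((bitss [t0] ++ true :: bitss [t1, t2]) ++ true :: bitss [t3] ++ true :: bitss [t4, t5]) =
      val b t0 (.p t1 t2) (.p t3 (.p t4 t5)) := look_eq 0 (by simp [bitss, bits])
  rw [e1, e2, e3]
  exact run3_I h0 h1 h2 h3 _

end run

/-- The test of `b` ends with `viol3 b`. -/
theorem runs3_viol3 (b : List Bool) : ZH3.Runs text3 b 0 (true, 0, []) (viol3 b) := by
  obtain ⟨q, hq⟩ := (exists_trees b).choose_spec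
  have h0 := hq.2 0
  rw [hq.1] at h0
  exact run3_N h0 (hq.2 1) (hq.2 2) (hq.2 3) (hq.2 4) (hq.2 5)

end Pool.Agent.Helper62.ZH
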