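import Pool.Agent.Helper62.ZH.Basic

/-!
# ZH-11 ZBas: basic facts in models of ZF

Proofs. `adjoin`: `h.pair b b`, `h.pair a _`, `h.union`. `exists_empty`: `h.inf`. `irrefl`: `h.found` for the set `{x}` (`h.pair x x`); `asymm`: `h.found`
for `{x, y}`. `succ_inj`: if `x ≠ y` then `x ∈ z` (it is in its successor) so `x ∈ y` or `x = y`, and in the same way `y ∈ x`: contradicts `asymm`.
`pair_uniq`, `op_uniq`: `h.ext`: all `c ∈ q` are `IsPair c x x` or `IsPair c x y`, and each of the two sets is unique and in `q`, `q'`.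
`omega`: let `I` be the set of `h.inf`. `N := {n ∈ I : ∀ J, inductive J → n ∈ J}` (`sepD`), `J` inductive: `∃ o ∈ J` empty, and every `y ∈ J` has a successor in
`J` (the empty set and successors are unique by `h.ext`). Induction: for `P` as in the statement `J := {n ∈ N : P (cons n v)}` is inductive, so every
`n ∈ N` is in `J`.
-/

set_option autoImplicit false

namespace Pool.Agent.Helper62.ZH

variable {M : Type} {E : M → M → Prop}

theorem ZFModel.exists_empty (h : ZFModel E) : ∃ o, ∀ z, ¬ E z o := by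
  obtain ⟨x, ⟨y, _, hy⟩, _⟩ := h.inf
  exact ⟨y, hy⟩

theorem ZFModel.adjoin (h : ZFModel E) (a b : M) : ∃ s, ∀ u, E u s ↔ E u a ∨ u = b := by
  obtain ⟨c, hc⟩ := h.pair b b
  obtain ⟨w, hw⟩ := h.pair a c
  obtain ⟨s, hs⟩ := h.union w
  refine ⟨s, fun u => ?_⟩
  rw [hs]
  constructor
  · rintro ⟨z, hz1, hz2⟩
    rcases (hw z).1 hz2 with h1 | h1
    · subst h1; exact Or.inl hz1
    · subst h1
      rcases (hc u).1 hz1 with h2 | h2
      · exact Or.inr h2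
      · exact Or.inr h2
  · rintro (h1 | h1)
    · exact ⟨a, h1, (hw a).2 (Or.inl rfl)⟩
    · exact ⟨c, (hc u).2 (Or.inl h1), (hw c).2 (Or.inr rfl)⟩

theorem ZFModel.irrefl (h : ZFModel E) (x : M) : ¬ E x x := by
  intro hx
  obtain ⟨z, hz⟩ := h.pair x x
  obtain ⟨y, hy1, hy2⟩ := h.found z ⟨x, (hz x).2 (Or.inl rfl)⟩
  have hyx : y = x := by
    rcases (hz y).1 hy1 with h1 | h1 <;> exact h1
  subst hyx
  exact hy2 y hx hy1

theorem ZFModel.asymm (h : ZFModel E) {x y : M} (hxy : E x y) : ¬ E y x := by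
  intro hyx
  obtain ⟨z, hz⟩ := h.pair x y
  obtain ⟨m, hm1, hm2⟩ := h.found z ⟨x, (hz x).2 (Or.inl rfl)⟩
  rcases (hz m).1 hm1 with h1 | h1
  · subst h1
    exact hm2 y hyx ((hz y).2 (Or.inr rfl))
  · subst h1
    exact hm2 x hxy ((hz x).2 (Or.inl rfl))

theorem ZFModel.succ_inj (h : ZFModel E) {x y z : M} (hx : IsSucc E z x) (hy : IsSucc E z y) : x = y := by
  by_contra hne
  have h1 : E x y := by
    rcases (hy x).1 ((hx x).2 (Or.inr rfl)) with h1 | h1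
    · exact h1
    · exact absurd h1 hne
  have h2 : E y x := by
    rcases (hx y).1 ((hy y).2 (Or.inr rfl)) with h2 | h2
    · exact h2
    · exact absurd h2.symm hne
  exact h.asymm h1 h2

theorem ZFModel.exists_op (h : ZFModel E) (x y : M) : ∃ q, OP E q x y := by
  obtain ⟨s, hs⟩ := h.pair x x
  obtain ⟨t, ht⟩ := h.pair x y
  obtain ⟨q, hq⟩ := h.pair s t
  refine ⟨q, ?_, ⟨s, (hq s).2 (Or.inl rfl), hs⟩, ⟨t, (hq t).2 (Or.inr rfl), ht⟩⟩
  intro c hc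
  rcases (hq c).1 hc with h1 | h1
  · subst h1; exact Or.inl hs
  · subst h1; exact Or.inr ht

theorem ZFModel.op_uniq (h : ZFModel E) {q q' x y : M} (hq : OP E q x y) (hq' : OP E q' x y) : q = q' := by
  have key : ∀ {a b : M}, OP E a x y → OP E b x y → ∀ z, E z a → E z b := by
    intro a b ha hb z hz
    obtain ⟨_, ⟨c, hc1, hc2⟩, ⟨d, hd1, hd2⟩⟩ := hb
    rcases ha.1 z hz with h1 | h1
    · have : z = c := h.ext z c (fun u => (h1 u).trans (hc2 u).symm)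
      rw [this]; exact hc1
    · have : z = d := h.ext z d (fun u => (h1 u).trans (hd2 u).symm)
      rw [this]; exact hd1
  exact h.ext q q' (fun z => ⟨key hq hq' z, key hq' hq z⟩)

theorem ZFModel.omega (h : ZFModel E) : ∃ N, (∃ o, E o N ∧ ∀ z, ¬ E z o) ∧ (∀ n, E n N → ∃ m, E m N ∧ IsSucc E m n) ∧
    ∀ (l : ℕ) (P : (ℕ → M) → Prop), Df E l P → ∀ v : ℕ → M, (∀ o, (∀ z, ¬ E z o) → P (cons o v)) →
      (∀ n m, E n N → IsSucc E m n → P (cons n v) → P (cons m v)) → ∀ n, E n N → P (cons n v) := by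
  obtain ⟨I, ⟨o, hoI, ho⟩, hI⟩ := h.inf
  have hdf : Df E 1 (fun w : ℕ → M => ∀ J, ((∃ o, E o J ∧ ∀ z, ¬ E z o) ∧
      ∀ y, E y J → ∃ z, E z J ∧ IsSucc E z y) → E (w 0) J) := by
    refine Df.all (Df.imp (Df.and (Df.ex (Df.and (Df.mem 0 1 (by omega) (by omega)) (Df.all (Df.not (Df.mem 0 1 (by omega) (by omega)))))) ?_) (Df.mem 1 0 (by omega) (by omega)))
    exact Df.all (Df.imp (Df.mem 0 1 (by omega) (by omega)) (Df.ex (Df.and (Df.mem 0 2 (by omega) (by omega)) (IsSucc.df 0 1 (by omega) (by omega)))))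
  obtain ⟨N, hN⟩ := h.sepD hdf (fun _ => o) I
  have hN' : ∀ x, E x N ↔ E x I ∧ ∀ J, ((∃ o, E o J ∧ ∀ z, ¬ E z o) ∧
      ∀ y, E y J → ∃ z, E z J ∧ IsSucc E z y) → E x J := hN
  have h0 : E o N := by
    refine (hN' o).2 ⟨hoI, ?_⟩
    rintro J ⟨⟨o', ho'J, ho'⟩, _⟩
    have : o = o' := h.ext o o' (fun z => ⟨fun hz => absurd hz (ho z), fun hz => absurd hz (ho' z)⟩)
    rw [this]; exact ho'J
  have hs : ∀ n, E n N → ∃ m, E m N ∧ IsSucc E m n := by
    intro n hn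
    obtain ⟨hnI, hnJ⟩ := (hN' n).1 hn
    obtain ⟨m, hmI, hm⟩ := hI n hnI
    refine ⟨m, (hN' m).2 ⟨hmI, ?_⟩, hm⟩
    intro J hJ
    obtain ⟨m', hm'J, hm'⟩ := hJ.2 n (hnJ J hJ)
    have : m = m' := h.ext m m' (fun z => (hm z).trans (hm' z).symm)
    rw [this]; exact hm'J
  refine ⟨N, ⟨o, h0, ho⟩, hs, ?_⟩
  intro l P hP v hb hst n hn
  obtain ⟨J, hJ⟩ := h.sepD hP v N
  have hind : (∃ o, E o J ∧ ∀ z, ¬ E z o) ∧ ∀ y, E y J → ∃ z, E z J ∧ IsSucc E z y := by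
    refine ⟨⟨o, (hJ o).2 ⟨h0, hb o ho⟩, ho⟩, ?_⟩
    intro y hy
    obtain ⟨hyN, hyP⟩ := (hJ y).1 hy
    obtain ⟨m, hmN, hm⟩ := hs y hyN
    exact ⟨m, (hJ m).2 ⟨hmN, hst y m hyN hm hyP⟩, hm⟩
  exact ((hJ n).1 (((hN' n).1 hn).2 J hind)).2

end Pool.Agent.Helper62.ZH
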