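import Pool.Agent.Helper62.ZH.ZBas
import Pool.Agent.Helper62.ZH.KPair

/-!
# ZH-12 ZClos: iteration of a definable function; every set is an element of a transitive set

Proof of `closure`. Let `N` be as in `ZFModel.omega`. `Der n x := ∃ g, Rel E g n x ∧ ∀ m z, Rel E g m z → ((∀ u, ¬ E u m) ∧ z = a) ∨ ∃ m' z', IsSucc E m m' ∧
Rel E g m' z' ∧ G (cons z' (cons z v))` (definable, parameter `a` and `v`: use `Df.ren` for `G`). By induction (`omega`): for every `n ∈ N` there is exactly one `x`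
with `Der n x`:
* `n` empty: `g := {(n, a)}` (`h.exists_op`, `h.pair q q`; `Rel` of it: by `OP.inj`, only `(n, a)`); if `Der n x` by `g` then the second alternative is
  impossible (`m'` would be an element of `n`), so `x = a`.
* `m` the successor of `n`: let `Der n x` by `g` and `G (cons x (cons y v))`; `g' := g ∪ {(m, y)}` (`adjoin`) shows `Der m y`. Uniqueness: if `Der m y'` by `g`
  then (`m` is not empty) `IsSucc m n'`, `Rel g n' z'`, so `n' = n` (`succ_inj`), `Der n z'` by the same `g`, `z' = x`, so `y' = y` by `hf`.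
By `replD` on `N` for `Der` there is `X` with `x ∈ X ↔ ∃ n ∈ N, Der n x`. `a ∈ X`, and `X` is closed: if `Der n x` and `G (cons x (cons y v))` then `Der m y` for the
successor `m ∈ N` of `n`.
Proof of `tc`: `closure` for `G w := ∀ u, E u (w 1) ↔ ∃ z, E u z ∧ E z (w 0)` (unique by `h.ext`, `h.union`), `a := {x}`: `X`; `t := ⋃ X` is transitive: if `y ∈ w ∈ X`
and `z ∈ y` then `z ∈ ⋃ w ∈ X`. And `x ∈ {x} ∈ X`.
-/

set_option autoImplicit false

namespace Pool.Agent.Helper62.ZH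

variable {M : Type} {E : M → M → Prop}

private def zClosP (E : M → M → Prop) (G : (ℕ → M) → Prop) (w : ℕ → M) : Prop :=
  ∃ g, Rel E g (w 0) (w 1) ∧ ∀ m z, Rel E g m z → ((∀ u, ¬ E u m) ∧ z = w 2) ∨
    ∃ m' z', IsSucc E m m' ∧ Rel E g m' z' ∧ G (cons z' (cons z (fun i => w (i + 3))))

private theorem zClosP_df {n : ℕ} {G : (ℕ → M) → Prop} (hG : Df E n G) :
    Df E (n + 3) (zClosP E G) := by
  refine Df.ex (R := fun g w => Rel E g (w 0) (w 1) ∧ ∀ m z, Rel E g m z →
    ((∀ u, ¬ E u m) ∧ z = w 2) ∨ ∃ m' z', IsSucc E m m' ∧ Rel E g m' z' ∧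
      G (cons z' (cons z (fun i => w (i + 3))))) ?_
  refine Df.and (Rel.df 0 1 2 (by omega) (by omega) (by omega)) (Df.all (Df.all (Df.imp (Rel.df 2 1 0 (by omega) (by omega) (by omega)) (Df.or ?_ ?_))))
  · exact Df.and (Df.all (Df.not (Df.mem 0 2 (by omega) (by omega)))) (Df.eq 0 5 (by omega) (by omega))
  · refine Df.ex (Df.ex (Df.and (IsSucc.df 3 1 (by omega) (by omega)) (Df.and (Rel.df 4 1 0 (by omega) (by omega) (by omega)) ?_)))
    have h1 := Df.ren (m := n + 3 + 1 + 1 + 1 + 1 + 1) hG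
      (fun i => match i with | 0 => 0 | 1 => 2 | i + 2 => i + 8) (by
        intro i hi
        rcases i with _ | _ | i
        · show 0 < _
          omega
        · show 2 < _
          omega
        · show i + 8 < _
          omega)
    refine h1.congr fun w => ?_
    have h2 : (fun i => w ((fun i => match i with | 0 => 0 | 1 => 2 | i + 2 => i + 8 : ℕ → ℕ) i)) =
        cons (w 0) (cons (w 2) (fun i => w (i + 8))) := by
      funext i
      rcases i with _ | _ | i <;> rfl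
    rw [h2]

private def zClosQ (E : M → M → Prop) (G : (ℕ → M) → Prop) (w : ℕ → M) : Prop :=
  ∃ x, zClosP E G (cons (w 0) (cons x (fun i => w (i + 1)))) ∧
    ∀ y, zClosP E G (cons (w 0) (cons y (fun i => w (i + 1)))) → y = x

private theorem zClosQ_df {n : ℕ} {G : (ℕ → M) → Prop} (hG : Df E n G) :
    Df E (n + 3) (zClosQ E G) := by
  have hP := zClosP_df hG
  refine Df.ex (R := fun x w => zClosP E G (cons (w 0) (cons x (fun i => w (i + 1)))) ∧
    ∀ y, zClosP E G (cons (w 0) (cons y (fun i => w (i + 1)))) → y = x) ?_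
  refine Df.and ?_ (Df.all (Df.imp ?_ (Df.eq 0 1 (by omega) (by omega))))
  · have h1 := Df.ren (m := n + 3 + 1) hP
      (fun i => match i with | 0 => 1 | 1 => 0 | i + 2 => i + 2) (by
        intro i hi
        rcases i with _ | _ | i
        · show 1 < _
          omega
        · show 0 < _
          omega
        · show i + 2 < _
          omega)
    refine h1.congr fun w => ?_
    have h2 : (fun i => w ((fun i => match i with | 0 => 1 | 1 => 0 | i + 2 => i + 2 : ℕ → ℕ) i)) =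
        cons (w 1) (cons (w 0) (fun i => w (i + 2))) := by
      funext i
      rcases i with _ | _ | i <;> rfl
    rw [h2]
  · have h1 := Df.ren (m := n + 3 + 1 + 1) hP
      (fun i => match i with | 0 => 2 | 1 => 0 | i + 2 => i + 3) (by
        intro i hi
        rcases i with _ | _ | i
        · show 2 < _
          omega
        · show 0 < _
          omega
        · show i + 3 < _
          omega)
    refine h1.congr fun w => ?_
    have h2 : (fun i => w ((fun i => match i with | 0 => 2 | 1 => 0 | i + 2 => i + 3 : ℕ → ℕ) i)) =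
        cons (w 2) (cons (w 0) (fun i => w (i + 3))) := by
      funext i
      rcases i with _ | _ | i <;> rfl
    rw [h2]

private theorem zClos_zero (h : ZFModel E) (G : (ℕ → M) → Prop) (v : ℕ → M) (a o : M)
    (ho : ∀ z, ¬ E z o) : zClosP E G (cons o (cons a (cons a v))) := by
  obtain ⟨q, hq⟩ := h.exists_op o a
  obtain ⟨g, hg⟩ := h.pair q q
  refine ⟨g, ⟨q, (hg q).2 (Or.inl rfl), hq⟩, ?_⟩
  rintro m z ⟨q', hq', hop⟩
  have hqq : q' = q := by
    rcases (hg q').1 hq' with h1 | h1 <;> exact h1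
  subst hqq
  obtain ⟨h1, h2⟩ := OP.inj hq hop
  left
  subst h1
  exact ⟨ho, h2.symm⟩

private theorem zClos_zero_uniq {G : (ℕ → M) → Prop} {v : ℕ → M} {a o x : M}
    (ho : ∀ z, ¬ E z o) (hx : zClosP E G (cons o (cons x (cons a v)))) : x = a := by
  obtain ⟨g, hg, hall⟩ := hx
  rcases hall _ _ hg with h1 | ⟨m', z', hs, _, _⟩
  · exact h1.2
  · exact absurd ((hs m').2 (Or.inr rfl)) (ho m')

private theorem zClos_step (h : ZFModel E) {G : (ℕ → M) → Prop} {v : ℕ → M} {a k m x y : M}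
    (hx : zClosP E G (cons k (cons x (cons a v)))) (hs : IsSucc E m k)
    (hy : G (cons x (cons y v))) : zClosP E G (cons m (cons y (cons a v))) := by
  obtain ⟨g, hg, hall⟩ := hx
  obtain ⟨q, hq⟩ := h.exists_op m y
  obtain ⟨g', hg'⟩ := h.adjoin g q
  have hsub : ∀ s t, Rel E g s t → Rel E g' s t := by
    rintro s t ⟨q', h1, h2⟩
    exact ⟨q', (hg' q').2 (Or.inl h1), h2⟩
  refine ⟨g', ⟨q, (hg' q).2 (Or.inr rfl), hq⟩, ?_⟩
  rintro m1 z1 ⟨q1, hq1, hop⟩
  rcases (hg' q1).1 hq1 with h1 | h1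
  · rcases hall m1 z1 ⟨q1, h1, hop⟩ with h2 | ⟨m', z', h2, h3, h4⟩
    · exact Or.inl h2
    · exact Or.inr ⟨m', z', h2, hsub _ _ h3, h4⟩
  · subst h1
    obtain ⟨h2, h3⟩ := OP.inj hq hop
    subst h2
    subst h3
    exact Or.inr ⟨k, x, hs, hsub _ _ hg, hy⟩

private theorem zClos_succ_uniq (h : ZFModel E) {G : (ℕ → M) → Prop} {v : ℕ → M} {a k m x y y' : M}
    (hx : ∀ z, zClosP E G (cons k (cons z (cons a v))) → z = x) (hs : IsSucc E m k)
    (hy : ∀ z, G (cons x (cons z v)) → z = y)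
    (hy' : zClosP E G (cons m (cons y' (cons a v)))) : y' = y := by
  obtain ⟨g, hg, hall⟩ := hy'
  rcases hall _ _ hg with h1 | ⟨m', z', h2, h3, h4⟩
  · exact absurd ((hs k).2 (Or.inr rfl)) (h1.1 k)
  · have h5 : m' = k := h.succ_inj h2 hs
    subst h5
    have h6 : z' = x := hx z' ⟨g, h3, hall⟩
    subst h6
    exact hy _ h4

theorem ZFModel.closure (h : ZFModel E) {n : ℕ} {G : (ℕ → M) → Prop} (hG : Df E n G) (v : ℕ → M)
    (hf : ∀ x, ∃! y, G (cons x (cons y v))) (a : M) : ∃ X, E a X ∧ ∀ x y, E x X → G (cons x (cons y v)) → E y X := by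
  obtain ⟨N, ⟨o, hoN, ho⟩, hsucc, hind⟩ := h.omega
  have hQ : ∀ k, E k N → zClosQ E G (cons k (cons a v)) := by
    refine hind (n + 3) (zClosQ E G) (zClosQ_df hG) (cons a v) ?_ ?_
    · intro o' ho'
      exact ⟨a, zClos_zero h G v a o' ho', fun y hy => zClos_zero_uniq ho' hy⟩
    · rintro k m _ hs ⟨x, hx, hxu⟩
      obtain ⟨y, hy, hyu⟩ := hf x
      exact ⟨y, zClos_step h hx hs hy, fun y' hy' => zClos_succ_uniq h hxu hs hyu hy'⟩
  obtain ⟨X, hX⟩ := h.replD (zClosP_df hG) (cons a v) N (by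
    intro k hk
    obtain ⟨x, hx, hxu⟩ := hQ k hk
    exact ⟨x, hx, hxu⟩)
  refine ⟨X, (hX a).2 ⟨o, hoN, zClos_zero h G v a o ho⟩, ?_⟩
  intro x y hx hy
  obtain ⟨k, hk, hkx⟩ := (hX x).1 hx
  obtain ⟨m, hm, hs⟩ := hsucc k hk
  exact (hX y).2 ⟨m, hm, zClos_step h hkx hs hy⟩

theorem ZFModel.tc (h : ZFModel E) (x : M) : ∃ t, E x t ∧ Tran E t := by
  have hG : Df E 2 (fun w => ∀ u, E u (w 1) ↔ ∃ z, E u z ∧ E z (w 0)) := by
    refine Df.all (Df.iff (Df.mem 0 2 (by omega) (by omega)) (Df.ex ?_))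
    exact Df.and (Df.mem 1 0 (by omega) (by omega)) (Df.mem 0 2 (by omega) (by omega))
  obtain ⟨a, ha⟩ := h.pair x x
  obtain ⟨X, haX, hX⟩ := h.closure hG (fun _ => x) (by
    intro y
    obtain ⟨s, hs⟩ := h.union y
    refine ⟨s, hs, ?_⟩
    intro s' hs'
    apply h.ext
    intro z
    exact (hs' z).trans (hs z).symm) a
  obtain ⟨t, ht⟩ := h.union X
  refine ⟨t, (ht x).2 ⟨a, (ha x).2 (Or.inl rfl), haX⟩, ?_⟩
  intro y hy z hz
  obtain ⟨w, hyw, hwX⟩ := (ht y).1 hy
  obtain ⟨s, hs⟩ := h.union w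
  exact (ht z).2 ⟨s, (hs z).2 ⟨y, hz, hyw⟩, hX w s hwX hs⟩

end Pool.Agent.Helper62.ZH
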