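import Pool.Agent.Helper62.ZH.ZLin
import Pool.Agent.Helper62.ZH.ZClos

/-!
# ZH-15 ZColl: every set is in a level; collection into a level

Proofs. (1) Call `x` good if it is an element of a level. If every `y ∈ x` is good then `x` is good: for `y ∈ x` the least level `s` with `y ∈ s` is unique (`least`,
`h.asymm`); `replD` gives the set `b` of these levels; `sup` gives a level `s` with `b ⊆ s`, so every `y ∈ x` is in some `r ∈ b`, `r ∈ s`, so `y ∈ s` (`Lev.tran`); `x ⊆ s`;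
`sup` for `{s}` gives a level `s'` with `s ∈ s'`, so `x ∈ s'` (`Lev.potent`).
(2) `in_level`: suppose `x` is not good. `t` transitive with `x ∈ t` (`h.tc`). The set `{y ∈ t : y not good}` has a minimal element `m`; its elements are in `t`, so they
are good, so `m` is good: contradiction.
(3) `coll_lev`: for each `x ∈ a` with `∃ y, P (x, y)` there is a least level `s` with `∃ y ∈ s, P (x, y)` (`in_level`, `least`). To have a value for all `x ∈ a` take:
the least level `s` such that `(∃ y, P (x, y)) → ∃ y ∈ s, P (x, y)`. `replD` gives a set `b` of levels; let `s1` be a level with `a ∈ s1`; `sup` for `b ∪ {s1}` (`adjoin`) gives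
`s`; every `r ∈ b` is in `s` so `r ⊆ s` (`Lev.tran`).
-/

set_option autoImplicit false

namespace Pool.Agent.Helper62.ZH

variable {M : Type} {E : M → M → Prop}

private theorem zc_ren1 {n : ℕ} {R : (ℕ → M) → Prop} (hR : Df E n R) :
    Df E (n + 2) (fun w => R (cons (w 1) (cons (w 0) (fun i => w (i + 2))))) := by
  have h1 := Df.ren (m := n + 2) hR (fun i => match i with | 0 => 1 | 1 => 0 | i + 2 => i + 2) (by
    intro i hi
    rcases i with _ | _ | i
    · show 1 < _
      omega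
    · show 0 < _
      omega
    · show i + 2 < _
      omega)
  refine h1.congr fun w => ?_
  have h2 : (fun i => w ((fun i => match i with | 0 => 1 | 1 => 0 | i + 2 => i + 2 : ℕ → ℕ) i)) =
      cons (w 1) (cons (w 0) (fun i => w (i + 2))) := by
    funext i
    rcases i with _ | _ | i <;> rfl
  rw [h2]

private theorem zc_ren2 {n : ℕ} {R : (ℕ → M) → Prop} (hR : Df E n R) :
    Df E (n + 3) (fun w => R (cons (w 0) (cons (w 1) (fun i => w (i + 3))))) := by
  have h1 := Df.ren (m := n + 3) hR (fun i => match i with | 0 => 0 | 1 => 1 | i + 2 => i + 3) (by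
    intro i hi
    rcases i with _ | _ | i
    · show 0 < _
      omega
    · show 1 < _
      omega
    · show i + 3 < _
      omega)
  refine h1.congr fun w => ?_
  have h2 : (fun i => w ((fun i => match i with | 0 => 0 | 1 => 1 | i + 2 => i + 3 : ℕ → ℕ) i)) =
      cons (w 0) (cons (w 1) (fun i => w (i + 3))) := by
    funext i
    rcases i with _ | _ | i <;> rfl
  rw [h2]

private theorem zc_ren3 {n : ℕ} {R : (ℕ → M) → Prop} (hR : Df E n R) :
    Df E (n + 3) (fun w => R (cons (w 2) (cons (w 0) (fun i => w (i + 3))))) := by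
  have h1 := Df.ren (m := n + 3) hR (fun i => match i with | 0 => 2 | 1 => 0 | i + 2 => i + 3) (by
    intro i hi
    rcases i with _ | _ | i
    · show 2 < _
      omega
    · show 0 < _
      omega
    · show i + 3 < _
      omega)
  refine h1.congr fun w => ?_
  have h2 : (fun i => w ((fun i => match i with | 0 => 2 | 1 => 0 | i + 2 => i + 3 : ℕ → ℕ) i)) =
      cons (w 2) (cons (w 0) (fun i => w (i + 3))) := by
    funext i
    rcases i with _ | _ | i <;> rfl
  rw [h2]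

private theorem zc_bound (h : ZFModel E) {n : ℕ} {R : (ℕ → M) → Prop} (hR : Df E n R) (v : ℕ → M) (a : M)
    (hl : ∀ s x, R (cons s (cons x v)) → Lev E s) (he : ∀ x, E x a → ∃ s, R (cons s (cons x v))) :
    ∃ S, Lev E S ∧ ∀ x, E x a → ∃ s, R (cons s (cons x v)) ∧ E s S := by
  have hP : Df E (n + 2) (fun w => R (cons (w 1) (cons (w 0) (fun i => w (i + 2)))) ∧
      ∀ t, R (cons t (cons (w 0) (fun i => w (i + 2)))) → w 1 = t ∨ E (w 1) t) := by
    refine Df.and (zc_ren1 hR) (Df.all ?_)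
    exact Df.imp (zc_ren2 hR) (Df.or (Df.eq 2 0 (by omega) (by omega)) (Df.mem 2 0 (by omega) (by omega)))
  have hw : ∀ x, E x a → ∃ s, R (cons s (cons x v)) ∧ ∀ t, R (cons t (cons x v)) → s = t ∨ E s t := by
    intro x hx
    exact h.least hR (cons x v) (fun s hs => hl s x hs) (he x hx)
  obtain ⟨b, hb⟩ := h.replD hP v a (by
    intro x hx
    obtain ⟨s, hs, hs2⟩ := hw x hx
    refine ⟨s, ⟨hs, hs2⟩, ?_⟩
    rintro s' ⟨hs', hs2'⟩
    have h1 : s = s' ∨ E s s' := hs2 s' hs'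
    have h2 : s' = s ∨ E s' s := hs2' s hs
    rcases h1 with h1 | h1
    · exact h1.symm
    · rcases h2 with h2 | h2
      · exact h2
      · exact absurd h2 (h.asymm h1))
  obtain ⟨S, hS, hbS⟩ := h.sup (b := b) (by
    intro r hr
    obtain ⟨x, _, hx, _⟩ := (hb r).1 hr
    exact hl r x hx)
  refine ⟨S, hS, fun x hx => ?_⟩
  obtain ⟨s, hs, hs2⟩ := hw x hx
  exact ⟨s, hs, hbS s ((hb s).2 ⟨x, hx, hs, hs2⟩)⟩

private theorem zc_good (h : ZFModel E) (x : M) (hx : ∀ y, E y x → ∃ s, Lev E s ∧ E y s) :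
    ∃ s, Lev E s ∧ E x s := by
  have hR : Df E 2 (fun w => Lev E (w 0) ∧ E (w 1) (w 0)) := Df.and (Lev.df 0 (by omega)) (Df.mem 1 0 (by omega) (by omega))
  obtain ⟨S, hS, hxS⟩ := zc_bound h hR (fun _ => x) x (fun s y hs => hs.1) hx
  have hsub : Sub E x S := by
    intro y hy
    obtain ⟨s, hs, hsS⟩ := hxS y hy
    exact Lev.tran h hS s hsS y hs.2
  obtain ⟨p, hp⟩ := h.pair S S
  obtain ⟨s', hs', hps'⟩ := h.sup (b := p) (by
    intro r hr
    rcases (hp r).1 hr with h1 | h1 <;> rw [h1] <;> exact hS)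
  exact ⟨s', hs', Lev.potent hs' (hps' S ((hp S).2 (Or.inl rfl))) hsub⟩

theorem ZFModel.in_level (h : ZFModel E) (x : M) : ∃ s, Lev E s ∧ E x s := by
  by_contra hx
  obtain ⟨t, hxt, ht⟩ := h.tc x
  have hP : Df E 1 (fun w => ¬ ∃ s, Lev E s ∧ E (w 0) s) :=
    Df.not (Df.ex (Df.and (Lev.df 0 (by omega)) (Df.mem 1 0 (by omega) (by omega))))
  obtain ⟨c, hc⟩ := h.sepD hP (fun _ => x) t
  have hc' : ∀ y, E y c ↔ E y t ∧ ¬ ∃ s, Lev E s ∧ E y s := hc
  obtain ⟨m, hm, hmin⟩ := h.found c ⟨x, (hc' x).2 ⟨hxt, hx⟩⟩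
  obtain ⟨hmt, hmg⟩ := (hc' m).1 hm
  apply hmg
  refine zc_good h m fun y hy => ?_
  by_contra hyg
  exact hmin y hy ((hc' y).2 ⟨ht m hmt y hy, hyg⟩)

theorem ZFModel.coll_lev (h : ZFModel E) {n : ℕ} {P : (ℕ → M) → Prop} (hP : Df E n P) (v : ℕ → M) (a : M) :
    ∃ s, Lev E s ∧ E a s ∧ ∀ x, E x a → (∃ y, P (cons x (cons y v))) → ∃ y, E y s ∧ P (cons x (cons y v)) := by
  obtain ⟨s1, hs1, has1⟩ := h.in_level a
  have hR : Df E (n + 2) (fun w => Lev E (w 0) ∧
      ((∃ y, P (cons (w 1) (cons y (fun i => w (i + 2))))) →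
        ∃ y, E y (w 0) ∧ P (cons (w 1) (cons y (fun i => w (i + 2)))))) := by
    refine Df.and (Lev.df 0 (by omega)) (Df.imp (Df.ex ?_) (Df.ex (Df.and (Df.mem 0 1 (by omega) (by omega)) ?_)))
    · exact zc_ren3 hP
    · exact zc_ren3 hP
  obtain ⟨S, hS, haS⟩ := zc_bound h hR v a (fun s x hs => hs.1) (by
    intro x _
    by_cases hy : ∃ y, P (cons x (cons y v))
    · obtain ⟨y, hy⟩ := hy
      obtain ⟨s, hs, hys⟩ := h.in_level y
      exact ⟨s, hs, fun _ => ⟨y, hys, hy⟩⟩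
    · exact ⟨s1, hs1, fun h1 => absurd h1 hy⟩)
  obtain ⟨p, hp⟩ := h.pair S s1
  obtain ⟨s', hs', hps'⟩ := h.sup (b := p) (by
    intro r hr
    rcases (hp r).1 hr with h1 | h1
    · rw [h1]
      exact hS
    · rw [h1]
      exact hs1)
  have hSs' : E S s' := hps' S ((hp S).2 (Or.inl rfl))
  have hs1s' : E s1 s' := hps' s1 ((hp s1).2 (Or.inr rfl))
  refine ⟨s', hs', Lev.tran h hs' s1 hs1s' a has1, fun x hx hy => ?_⟩
  obtain ⟨s, ⟨_, hs2⟩, hsS⟩ := haS x hx
  obtain ⟨y, hys, hPy⟩ := hs2 hy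
  exact ⟨y, Lev.tran h hs' S hSs' y (Lev.tran h hS s hsS y hys), hPy⟩

end Pool.Agent.Helper62.ZH
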