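import Pool.Agent.Helper62.ZH.ZBas

/-!
# ZH-13 ZLev: levels of the cumulative hierarchy without ordinals (Button's level theory)

`Hist h`: every `a ∈ h` is `{x : ∃ c ∈ a ∩ h, x ⊆ c}`. `Lev s`: `s = {x : ∃ c ∈ h, x ⊆ c}` for a history `h`.
Proofs. (1) `Hist.tran`: suppose not; by `sepD` (`Tran.df`) and `h.found` for `{a ∈ h : ¬ Tran a}` there is `a ∈ h` not transitive such that every `c ∈ a`
with `c ∈ h` is transitive. Let `x ∈ a` and `y ∈ x`. There is `c ∈ a`, `c ∈ h`, `x ⊆ c`. So `y ∈ c`, `c` is transitive, `y ⊆ c`, so `y ∈ a` by `Hist`. So `a` is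
transitive: contradiction.
(2) `Hist.lev`: `a ∩ h` (`sepD`) is a history: let `b ∈ a ∩ h`; `x ∈ b ↔ ∃ c ∈ b, c ∈ h, x ⊆ c`, and `c ∈ b ∈ a` gives `c ∈ a` by (1). And `x ∈ a ↔ ∃ c ∈ a ∩ h, x ⊆ c`.
(3) `Lev.potent`: clear. `Lev.tran`: `y ∈ x ∈ s`: `x ⊆ c ∈ h`, `y ∈ c`, `c` is transitive (1) so `y ⊆ c`, so `y ∈ s`.
(4) `Lev.mem_iff`: if `x ∈ s` then `x ⊆ c ∈ h`; `c` is a level by (2), `c ∈ s` as `c ⊆ c`. Conversely `Lev.potent`.
(5) `lev_empty`: the empty set is a level (with the empty history).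
-/

set_option autoImplicit false

namespace Pool.Agent.Helper62.ZH

variable {M : Type} {E : M → M → Prop}

theorem Hist.tran (h : ZFModel E) {g a : M} (hg : Hist E g) (ha : E a g) : Tran E a := by
  by_contra hcon
  obtain ⟨s, hs⟩ := h.sepD (P := fun w => ¬ Tran E (w 0)) (n := 1) (Df.not (Tran.df 0 (by omega))) (fun _ => g) g
  have hs' : ∀ x, E x s ↔ E x g ∧ ¬ Tran E x := hs
  obtain ⟨b, hb, hmin⟩ := h.found s ⟨a, (hs' a).2 ⟨ha, hcon⟩⟩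
  obtain ⟨hbg, hbt⟩ := (hs' b).1 hb
  apply hbt
  intro x hx y hy
  obtain ⟨c, hcb, hcg, hxc⟩ := (hg b hbg x).1 hx
  have hct : Tran E c := by
    by_contra hc
    exact hmin c hcb ((hs' c).2 ⟨hcg, hc⟩)
  exact (hg b hbg y).2 ⟨c, hcb, hcg, hct y (hxc y hy)⟩

theorem Hist.lev (h : ZFModel E) {g a : M} (hg : Hist E g) (ha : E a g) : Lev E a := by
  have hat : Tran E a := Hist.tran h hg ha
  obtain ⟨s, hs⟩ := h.sepD (P := fun w => E (w 0) (w 1)) (n := 2) (Df.mem 0 1 (by omega) (by omega)) (fun _ => g) a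
  have hs' : ∀ x, E x s ↔ E x a ∧ E x g := hs
  refine ⟨s, ?_, ?_⟩
  · intro b hb x
    obtain ⟨hba, hbg⟩ := (hs' b).1 hb
    rw [hg b hbg x]
    constructor
    · rintro ⟨c, hcb, hcg, hxc⟩
      exact ⟨c, hcb, (hs' c).2 ⟨hat b hba c hcb, hcg⟩, hxc⟩
    · rintro ⟨c, hcb, hcs, hxc⟩
      exact ⟨c, hcb, ((hs' c).1 hcs).2, hxc⟩
  · intro x
    rw [hg a ha x]
    constructor
    · rintro ⟨c, hca, hcg, hxc⟩
      exact ⟨c, (hs' c).2 ⟨hca, hcg⟩, hxc⟩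
    · rintro ⟨c, hcs, hxc⟩
      exact ⟨c, ((hs' c).1 hcs).1, ((hs' c).1 hcs).2, hxc⟩

theorem Lev.potent {s x y : M} (hs : Lev E s) (hx : E x s) (hy : Sub E y x) : E y s := by
  obtain ⟨g, _, hgs⟩ := hs
  obtain ⟨c, hcg, hxc⟩ := (hgs x).1 hx
  exact (hgs y).2 ⟨c, hcg, fun z hz => hxc z (hy z hz)⟩

theorem Lev.tran (h : ZFModel E) {s : M} (hs : Lev E s) : Tran E s := by
  obtain ⟨g, hg, hgs⟩ := hs
  intro y hy z hz
  obtain ⟨c, hcg, hyc⟩ := (hgs y).1 hy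
  exact (hgs z).2 ⟨c, hcg, Hist.tran h hg hcg z (hyc z hz)⟩

theorem Lev.mem_iff (h : ZFModel E) {s : M} (hs : Lev E s) (x : M) : E x s ↔ ∃ r, E r s ∧ Lev E r ∧ Sub E x r := by
  constructor
  · intro hx
    obtain ⟨g, hg, hgs⟩ := hs
    obtain ⟨c, hcg, hxc⟩ := (hgs x).1 hx
    exact ⟨c, (hgs c).2 ⟨c, hcg, fun z hz => hz⟩, Hist.lev h hg hcg, hxc⟩
  · rintro ⟨r, hr, _, hxr⟩
    exact Lev.potent hs hr hxr

theorem ZFModel.lev_empty (h : ZFModel E) {o : M} (ho : ∀ z, ¬ E z o) : Lev E o := by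
  refine ⟨o, fun a ha => absurd ha (ho a), fun x => ⟨fun hx => absurd hx (ho x), ?_⟩⟩
  rintro ⟨c, hc, _⟩
  exact absurd hc (ho c)

end Pool.Agent.Helper62.ZH
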