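import Pool.Agent.Helper62.ZH.ZLev

/-!
# ZH-14 ZLin: levels are linearly ordered; least levels; levels above a set of levels

Proofs. (1) `lev_min`: let `P s`. The set `{x ∈ s : P x}` (`sepD`) is empty (then `s` is minimal) or has a minimal element `m` (`h.found`); as `s` is transitive
(`Lev.tran`), `m` is as required: if `z ∈ m` then `z ∈ s`, so not `P z`.
(2) `lev_cmp`: suppose some levels are incomparable. By (1) (for the predicate `Lev (w 0) ∧ ∃ t, Lev t ∧ ¬ (E (w 0) t ∨ w 0 = t ∨ E t (w 0))`) take `s` minimal with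
an incomparable level; by (1) (parameter `s`) take `t` minimal incomparable with `s`. A level `r ∈ s` is comparable with `t`; `r = t` and `t ∈ r` give
`t ∈ s` (`Lev.tran`): contradiction; so `r ∈ t`. A level `r ∈ t` is comparable with `s`; `r = s`, `s ∈ r` give `s ∈ t`: contradiction; so `r ∈ s`. By
`Lev.mem_iff` `s` and `t` have the same elements; `h.ext`.
(3) `least`: by (1) a minimal `s`, and `lev_cmp`.
(4) `sup`: let `s := {x : ∃ c ∈ b, x ⊆ c}`: it exists as a set by `h.power`, `replD`, `h.union` (for each `c ∈ b` the power set of `c`, unique by `h.ext`; the set of all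
these; its union). The history is `g := {r ∈ s : Lev r}`. `g` is a history: for `a ∈ g` and `x`: `x ∈ a ↔ ∃ r ∈ a, Lev r ∧ x ⊆ r` (`Lev.mem_iff`), and such `r` are
in `s`: `a ⊆ c ∈ b`, `r ∈ c`, `c` is transitive so `r ⊆ c`. And `x ∈ s ↔ ∃ r ∈ g, x ⊆ r`: if `x ⊆ c ∈ b` then `c ∈ g` (`c ⊆ c`); if `x ⊆ r ∈ g`, `r ⊆ c ∈ b` then `x ⊆ c`.
-/

set_option autoImplicit false

namespace Pool.Agent.Helper62.ZH

variable {M : Type} {E : M → M → Prop}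

theorem ZFModel.lev_min (h : ZFModel E) {n : ℕ} {P : (ℕ → M) → Prop} (hP : Df E n P) (v : ℕ → M) (hl : ∀ s, P (cons s v) → Lev E s)
    (he : ∃ s, P (cons s v)) : ∃ s, P (cons s v) ∧ ∀ z, E z s → ¬ P (cons z v) := by
  obtain ⟨s, hs⟩ := he
  obtain ⟨t, ht⟩ := h.sepD hP v s
  by_cases hne : ∃ y, E y t
  · obtain ⟨m, hm, hmin⟩ := h.found t hne
    obtain ⟨hms, hPm⟩ := (ht m).1 hm
    refine ⟨m, hPm, fun z hz hPz => hmin z hz ((ht z).2 ⟨?_, hPz⟩)⟩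
    exact Lev.tran h (hl s hs) m hms z hz
  · exact ⟨s, hs, fun z hz hPz => hne ⟨z, (ht z).2 ⟨hz, hPz⟩⟩⟩

theorem ZFModel.lev_cmp (h : ZFModel E) {s t : M} (hs : Lev E s) (ht : Lev E t) : E s t ∨ s = t ∨ E t s := by
  by_contra hcon
  have hP : Df E 1 (fun w : ℕ → M => Lev E (w 0) ∧
      ∃ t, Lev E t ∧ ¬ (E (w 0) t ∨ w 0 = t ∨ E t (w 0))) :=
    Df.and (Lev.df 0 (by omega)) (Df.ex (Df.and (Lev.df 0 (by omega))
      (Df.not (Df.or (Df.mem 1 0 (by omega) (by omega)) (Df.or (Df.eq 1 0 (by omega) (by omega)) (Df.mem 0 1 (by omega) (by omega)))))))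
  obtain ⟨s1, ⟨hs1, hs1'⟩, hmin1⟩ := h.lev_min hP (fun _ => s) (fun _ h1 => h1.1)
    ⟨s, hs, t, ht, hcon⟩
  have hQ : Df E 2 (fun w : ℕ → M => Lev E (w 0) ∧
      ¬ (E (w 1) (w 0) ∨ w 1 = w 0 ∨ E (w 0) (w 1))) :=
    Df.and (Lev.df 0 (by omega)) (Df.not (Df.or (Df.mem 1 0 (by omega) (by omega)) (Df.or (Df.eq 1 0 (by omega) (by omega)) (Df.mem 0 1 (by omega) (by omega)))))
  obtain ⟨t1, ⟨ht1, hinc⟩, hmin2⟩ := h.lev_min hQ (fun _ => s1) (fun _ h1 => h1.1) hs1'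
  have hinc' : ¬ (E s1 t1 ∨ s1 = t1 ∨ E t1 s1) := hinc
  have k1 : ∀ r, E r s1 → Lev E r → E r t1 := by
    intro r hr hlr
    have h2 : E r t1 ∨ r = t1 ∨ E t1 r := by
      by_contra h3
      exact hmin1 r hr ⟨hlr, t1, ht1, h3⟩
    rcases h2 with h2 | h2 | h2
    · exact h2
    · exact absurd (Or.inr (Or.inr (h2 ▸ hr))) hinc'
    · exact absurd (Or.inr (Or.inr (Lev.tran h hs1 r hr t1 h2))) hinc'
  have k2 : ∀ r, E r t1 → Lev E r → E r s1 := by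
    intro r hr hlr
    have h2 : E s1 r ∨ s1 = r ∨ E r s1 := by
      by_contra h3
      exact hmin2 r hr ⟨hlr, h3⟩
    rcases h2 with h2 | h2 | h2
    · exact absurd (Or.inl (Lev.tran h ht1 r hr s1 h2)) hinc'
    · exact absurd (Or.inl (h2.symm ▸ hr)) hinc'
    · exact h2
  apply hinc'
  refine Or.inr (Or.inl (h.ext s1 t1 fun x => ?_))
  have m1 : E x s1 ↔ ∃ r, E r s1 ∧ Lev E r ∧ Sub E x r := Lev.mem_iff h hs1 x
  have m2 : E x t1 ↔ ∃ r, E r t1 ∧ Lev E r ∧ Sub E x r := Lev.mem_iff h ht1 x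
  rw [m1, m2]
  constructor
  · rintro ⟨r, hr, hlr, hx⟩
    exact ⟨r, k1 r hr hlr, hlr, hx⟩
  · rintro ⟨r, hr, hlr, hx⟩
    exact ⟨r, k2 r hr hlr, hlr, hx⟩

theorem ZFModel.least (h : ZFModel E) {n : ℕ} {P : (ℕ → M) → Prop} (hP : Df E n P) (v : ℕ → M) (hl : ∀ s, P (cons s v) → Lev E s)
    (he : ∃ s, P (cons s v)) : ∃ s, P (cons s v) ∧ ∀ t, P (cons t v) → s = t ∨ E s t := by
  obtain ⟨s, hs, hmin⟩ := h.lev_min hP v hl he
  refine ⟨s, hs, fun t ht => ?_⟩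
  rcases h.lev_cmp (hl s hs) (hl t ht) with h1 | h1 | h1
  · exact Or.inr h1
  · exact Or.inl h1
  · exact absurd ht (hmin t h1)

theorem ZFModel.sup (h : ZFModel E) {b : M} (hb : ∀ r, E r b → Lev E r) : ∃ s, Lev E s ∧ ∀ r, E r b → E r s := by
  have hP : Df E 2 (fun w : ℕ → M => ∀ u, E u (w 1) ↔ Sub E u (w 0)) :=
    Df.all (Df.iff (Df.mem 0 2 (by omega) (by omega)) (Sub.df 0 1 (by omega) (by omega)))
  obtain ⟨d, hd⟩ := h.replD hP (fun _ => b) b (by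
    intro x _
    obtain ⟨y, hy⟩ := h.power x
    refine ⟨y, hy, fun z hz => ?_⟩
    exact h.ext z y fun u => (hz u).trans (hy u).symm)
  obtain ⟨s, hs⟩ := h.union d
  have hs' : ∀ u, E u s ↔ ∃ c, E c b ∧ Sub E u c := by
    intro u
    rw [hs]
    constructor
    · rintro ⟨z, hu, hz⟩
      obtain ⟨c, hc, hcz⟩ := (hd z).1 hz
      exact ⟨c, hc, (hcz u).1 hu⟩
    · rintro ⟨c, hc, hu⟩
      obtain ⟨y, hy⟩ := h.power c
      exact ⟨y, (hy u).2 hu, (hd y).2 ⟨c, hc, hy⟩⟩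
  obtain ⟨g, hg⟩ := h.sepD (P := fun w => Lev E (w 0)) (n := 1) (Lev.df 0 (by omega)) (fun _ => s) s
  have hg' : ∀ x, E x g ↔ E x s ∧ Lev E x := hg
  have hself : ∀ r, E r b → E r s := fun r hr => (hs' r).2 ⟨r, hr, fun z hz => hz⟩
  refine ⟨s, ⟨g, ?_, ?_⟩, hself⟩
  · intro a ha x
    obtain ⟨has, hla⟩ := (hg' a).1 ha
    obtain ⟨c, hc, hac⟩ := (hs' a).1 has
    rw [Lev.mem_iff h hla]
    constructor
    · rintro ⟨r, hr, hlr, hx⟩
      refine ⟨r, hr, (hg' r).2 ⟨(hs' r).2 ⟨c, hc, ?_⟩, hlr⟩, hx⟩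
      exact fun z hz => Lev.tran h (hb c hc) r (hac r hr) z hz
    · rintro ⟨r, hr, hrg, hx⟩
      exact ⟨r, hr, ((hg' r).1 hrg).2, hx⟩
  · intro x
    constructor
    · intro hx
      obtain ⟨c, hc, hxc⟩ := (hs' x).1 hx
      exact ⟨c, (hg' c).2 ⟨hself c hc, hb c hc⟩, hxc⟩
    · rintro ⟨r, hr, hx⟩
      obtain ⟨c, hc, hrc⟩ := (hs' r).1 ((hg' r).1 hr).1
      exact (hs' x).2 ⟨c, hc, fun z hz => hrc z (hx z hz)⟩

end Pool.Agent.Helper62.ZH
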